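import Pool.Agent.P.MP_3bc45c_nt.SI.Cof

namespace Pool.Agent.P.MP_3bc45c_nt.SI

open Polynomial Finset Pool.Agent.P.MP_a1177c_nt.HL
open scoped Classical

variable {K : Type*} [Field K] [Fintype K] [CharP K 2]

omit [CharP K 2] in
private theorem badp_dvd_of_pf {p p' : K[X]} (hp : p ≠ 0) (hp' : p' ≠ 0) (hsq : Squarefree p)
    (h : pf p ⊆ pf p') : p ∣ p' := by
  rw [UniqueFactorizationMonoid.dvd_iff_normalizedFactors_le_normalizedFactors hp hp',
    Multiset.le_iff_subset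
      ((UniqueFactorizationMonoid.squarefree_iff_nodup_normalizedFactors hp).1 hsq)]
  intro π hπ
  rw [Polynomial.mem_normalizedFactors_iff hp] at hπ
  rw [Polynomial.mem_normalizedFactors_iff hp']
  have h1 := (mem_pf hp').1 (h ((mem_pf hp).2 ⟨hπ.2.1, hπ.1, hπ.2.2⟩))
  exact ⟨h1.2.1, h1.1, h1.2.2⟩

theorem card_sqfree_dvd_le {Z : K[X]} (hZ : Z ≠ 0) (P : ℕ) :
    ((Mn K P).filter fun p => Squarefree p ∧ p ∣ Z).card ≤ 2 ^ (pf Z).card := by
  rw [← card_powerset]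
  refine card_le_card_of_injOn (fun p => pf p) (fun p hp => ?_) fun p hp p' hp' h => ?_
  · obtain ⟨h1, -, h3⟩ := mem_filter.1 (mem_coe.1 hp)
    refine mem_coe.2 (mem_powerset.2 fun π hπ => ?_)
    obtain ⟨a, b, c⟩ := (mem_pf (mem_Mn.1 h1).1.ne_zero).1 hπ
    exact (mem_pf hZ).2 ⟨a, b, c.trans h3⟩
  · obtain ⟨h1, h2, -⟩ := mem_filter.1 (mem_coe.1 hp)
    obtain ⟨h1', h2', -⟩ := mem_filter.1 (mem_coe.1 hp')
    have m := (mem_Mn.1 h1).1
    have m' := (mem_Mn.1 h1').1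
    have h' : pf p = pf p' := h
    exact eq_of_monic_of_associated m m' (associated_of_dvd_dvd
      (badp_dvd_of_pf m.ne_zero m'.ne_zero h2 h'.subset)
      (badp_dvd_of_pf m'.ne_zero m.ne_zero h2' h'.symm.subset))

theorem badp_le (U : Finset K[X]) (p : K[X]) (η s : ℕ) : badp U p η s ≤ U.card ^ 2 := by
  rw [badp, sq, ← card_product]
  exact card_filter_le _ _

omit [Fintype K] [CharP K 2] in
private theorem badp_ne_zero {u u₂ θ σ : K[X]} (hu : Irreducible u) (hd : ¬u ∣ u₂) (hθ : θ ≠ 0)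
    (hσ : σ ≠ 0) : σ ^ 3 * u + θ ^ 3 * u₂ ≠ 0 := by
  intro h
  have hp : Prime u := hu.prime
  obtain ⟨a, σ', h1, rfl⟩ := WfDvdMonoid.max_power_factor hσ hu
  obtain ⟨b, θ', h2, rfl⟩ := WfDvdMonoid.max_power_factor hθ hu
  rcases le_or_gt b a with hab | hab
  · obtain ⟨c, rfl⟩ := Nat.exists_eq_add_of_le hab
    have h3 : (u ^ b) ^ 3 * (θ' ^ 3 * u₂) = (u ^ b) ^ 3 * (u * -((u ^ c) ^ 3 * σ' ^ 3)) := by
      linear_combination h
    have h4 := mul_left_cancel₀ (pow_ne_zero _ (pow_ne_zero _ hu.ne_zero)) h3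
    rcases hp.dvd_or_dvd (Dvd.intro _ h4.symm) with h5 | h5
    · exact h2 (hp.dvd_of_dvd_pow h5)
    · exact hd h5
  · obtain ⟨c, rfl⟩ := Nat.exists_eq_add_of_lt hab
    have h3 : (u ^ a) ^ 3 * u * σ' ^ 3 =
        (u ^ a) ^ 3 * u * (u * -(u * (u ^ c) ^ 3 * θ' ^ 3 * u₂)) := by
      linear_combination h
    have h4 := mul_left_cancel₀
      (mul_ne_zero (pow_ne_zero _ (pow_ne_zero _ hu.ne_zero)) hu.ne_zero) h3
    exact h1 (hp.dvd_of_dvd_pow (Dvd.intro _ h4.symm))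

omit [CharP K 2] in
private theorem badp_natDegree_le {n : ℕ} {g : K[X]} (h : g ∈ Pl K n) : g.natDegree ≤ n :=
  natDegree_le_iff_degree_le.2 (mem_Pl.1 h).le

theorem sum_badp {U : Finset K[X]} {υ η s P ω₁ : ℕ} (hU : U ⊆ Irr K υ) (hη : η ≤ P) (hs : s ≤ P)
    (hω : ∀ Z : K[X], Z ≠ 0 → Z.natDegree ≤ 4 * P + υ → (pf Z).card ≤ ω₁) :
    ∑ p ∈ (Mn K P).filter (fun p => Squarefree p), badp U p η s ≤
      U.card ^ 2 * Fintype.card K ^ (η + s) * 2 ^ ω₁ := by
  set W := ((U ×ˢ U) ×ˢ (Pl K η ×ˢ Pl K s)).filter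
    fun z => z.1.1 ≠ z.1.2 ∧ z.2.1 ≠ 0 ∧ z.2.2 ≠ 0 with hW
  set Z : (K[X] × K[X]) × K[X] × K[X] → K[X] :=
    fun z => z.2.2 * (z.2.2 ^ 3 * z.1.1 + z.2.1 ^ 3 * z.1.2) with hZ
  have h1 : ∀ p : K[X], badp U p η s ≤ ∑ z ∈ W, if p ∣ Z z then 1 else 0 := fun p => by
    rw [← card_filter]
    refine le_trans (card_le_card fun t ht => ?_) (card_image_le (f := Prod.fst))
    obtain ⟨ht, hne, θ, hθ, hθ0, σ, hσ, hσ0, hd⟩ := mem_filter.1 ht
    exact mem_image.2 ⟨(t, θ, σ), mem_filter.2 ⟨mem_filter.2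
      ⟨mem_product.2 ⟨ht, mem_product.2 ⟨hθ, hσ⟩⟩, hne, hθ0, hσ0⟩, hd⟩, rfl⟩
  have h2 : ∀ z ∈ W, (∑ p ∈ (Mn K P).filter (fun p => Squarefree p),
      if p ∣ Z z then 1 else 0) ≤ 2 ^ ω₁ := fun z hz => by
    obtain ⟨hz, hne, hθ0, hσ0⟩ := mem_filter.1 hz
    obtain ⟨hu, hz⟩ := mem_product.1 hz
    obtain ⟨hu, hu₂⟩ := mem_product.1 hu
    obtain ⟨hθ, hσ⟩ := mem_product.1 hz
    obtain ⟨m1, d1, i1⟩ := mem_Irr.1 (hU hu)
    obtain ⟨m2, d2, i2⟩ := mem_Irr.1 (hU hu₂)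
    have hZ0 : Z z ≠ 0 := mul_ne_zero hσ0 (badp_ne_zero i1
      (fun h => hne (eq_of_monic_of_associated m1 m2 (i1.associated_of_dvd i2 h))) hθ0 hσ0)
    have e1 := (badp_natDegree_le hθ).trans hη
    have e2 := (badp_natDegree_le hσ).trans hs
    have hdeg : (Z z).natDegree ≤ 4 * P + υ := by
      have a1 : (z.2.2 ^ 3 * z.1.1).natDegree ≤ 3 * P + υ :=
        natDegree_mul_le.trans (add_le_add (natDegree_pow_le.trans (by omega)) d1.le)
      have a2 : (z.2.1 ^ 3 * z.1.2).natDegree ≤ 3 * P + υ :=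
        natDegree_mul_le.trans (add_le_add (natDegree_pow_le.trans (by omega)) d2.le)
      have a3 := natDegree_add_le_of_degree_le a1 a2
      exact natDegree_mul_le.trans (by omega)
    rw [← card_filter, filter_filter]
    exact (card_sqfree_dvd_le hZ0 P).trans (Nat.pow_le_pow_right two_pos (hω _ hZ0 hdeg))
  refine (sum_le_sum fun p _ => h1 p).trans ?_
  rw [sum_comm]
  refine (sum_le_card_nsmul _ _ _ h2).trans ?_
  rw [smul_eq_mul]
  refine Nat.mul_le_mul_right _ ((card_filter_le _ _).trans (le_of_eq ?_))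
  rw [card_product, card_product, card_product, card_Pl, card_Pl, pow_add, sq]

/-- Cauchy-Schwarz against the number of pairs with the same modulus -/
theorem sum_od_sq_le {D : Finset K[X]} {w : K[X]} {R : Finset K[X]}
    (hR : ∀ d ∈ D, od (w * d) ∈ R) (F : K[X] → ℝ) :
    (∑ d ∈ D, F (od (w * d))) ^ 2 ≤ (coll D w : ℝ) * ∑ Y ∈ R, F Y ^ 2 := by
  have h1 : ∑ d ∈ D, F (od (w * d)) =
      ∑ Y ∈ R, ((D.filter fun d => od (w * d) = Y).card : ℝ) * F Y := by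
    rw [← sum_fiberwise_of_maps_to hR]
    refine sum_congr rfl fun Y _ => ?_
    rw [sum_congr rfl fun d hd => congrArg F (mem_filter.1 hd).2, sum_const, nsmul_eq_mul]
  have h2 : coll D w = ∑ Y ∈ R, (D.filter fun d => od (w * d) = Y).card ^ 2 := by
    rw [coll, card_eq_sum_card_fiberwise (f := fun z : K[X] × K[X] => od (w * z.1)) (t := R)
      fun z hz => hR _ (mem_product.1 (mem_filter.1 hz).1).1]
    refine sum_congr rfl fun Y _ => ?_
    rw [sq, ← card_product]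
    congr 1
    ext z
    simp only [mem_filter, mem_product]
    constructor
    · rintro ⟨⟨⟨a, b⟩, c⟩, d⟩
      exact ⟨⟨a, d⟩, b, c ▸ d⟩
    · rintro ⟨⟨a, d⟩, b, c⟩
      exact ⟨⟨⟨a, b⟩, d.trans c.symm⟩, d⟩
  rw [h1, h2]
  push_cast
  exact sum_mul_sq_le_sq_mul_sq _ _ _

/-- the average of `badp` over the final moduli attached to all `Y` of degree `κ` -/
theorem sum_badp_cof {U : Finset K[X]} {w : K[X]} {υ η l κ j k t ω₁ : ℕ} (hU : U ⊆ Irr K υ)
    (hw : w.Monic) (hj : 3 * t + w.natDegree < j)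
    (hη : η + l + 3 * t + w.natDegree + k * j ≤ κ)
    (hω : ∀ Z : K[X], Z ≠ 0 → Z.natDegree ≤ 4 * κ + υ → (pf Z).card ≤ ω₁) :
    (∑ Y ∈ (Mn K κ).filter (fun Y => goodY t Y),
        ∑ T ∈ ((Irr K j).powersetCard k).filter (fun T => (∏ π ∈ T, π) ∣ Y),
          badp U (cof w Y T) η ((cof w Y T).natDegree - l)) * Fintype.card K ^ l ≤
      2 ^ (κ / j) * (κ + 1) * (U.card ^ 2 * Fintype.card K ^ (η + κ) * 2 ^ ω₁) := by
  set A := (Pl K (κ + 1)).filter
    fun p => p.Monic ∧ Squarefree p ∧ η + l ≤ p.natDegree ∧ p.natDegree ≤ κ with hA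
  set b : K[X] → ℕ := fun p => badp U p η (p.natDegree - l) with hb
  have h1 : ∀ Y ∈ (Mn K κ).filter (fun Y => goodY t Y),
      ∑ T ∈ ((Irr K j).powersetCard k).filter (fun T => (∏ π ∈ T, π) ∣ Y), b (cof w Y T) ≤
        2 ^ (κ / j) * ∑ p ∈ A, if p ∣ Y - 0 then b p else 0 := fun Y hY => by
    obtain ⟨hY, hg⟩ := mem_filter.1 hY
    obtain ⟨mY, dY⟩ := mem_Mn.1 hY
    refine (sum_le_card_nsmul _ _ (∑ p ∈ A, if p ∣ Y - 0 then b p else 0) fun T hT => ?_).trans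
      (Nat.mul_le_mul_right _ (rr_le (by omega) mY.ne_zero dY.le))
    obtain ⟨hT, hd⟩ := mem_filter.1 hT
    obtain ⟨hT, hk⟩ := mem_powersetCard.1 hT
    obtain ⟨-, c1, c2, -, -, c3, c4, c5, -⟩ := cof_spec hw mY hg hT hd hj
    rw [hk, dY] at c4
    have c6 : cof w Y T ∈ A := mem_filter.2 ⟨mem_Pl.2 (degree_le_natDegree.trans_lt
      (by exact_mod_cast (by omega : (cof w Y T).natDegree < κ + 1))), c1, c5, by omega, by omega⟩
    have c7 : cof w Y T ∣ Y - 0 := by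
      rw [sub_zero]
      conv_rhs => rw [c2]
      exact Dvd.dvd.mul_left (dvd_mul_left _ _) _
    have c8 := single_le_sum (f := fun p => if p ∣ Y - 0 then b p else 0)
      (fun _ _ => Nat.zero_le _) c6
    rwa [if_pos c7] at c8
  have h2 : (∑ Y ∈ Mn K κ, ∑ p ∈ A, if p ∣ Y - 0 then b p else 0) =
      ∑ p ∈ A, Fintype.card K ^ (κ - p.natDegree) * b p := by
    rw [sum_comm]
    refine sum_congr rfl fun p hp => ?_
    obtain ⟨-, m, -, -, d⟩ := mem_filter.1 hp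
    rw [← sum_filter, sum_const, card_Mn_dvd_eq m d, smul_eq_mul]
  have h3 : (∑ p ∈ A, Fintype.card K ^ (κ - p.natDegree) * b p) * Fintype.card K ^ l ≤
      (κ + 1) * (U.card ^ 2 * Fintype.card K ^ (η + κ) * 2 ^ ω₁) := by
    rw [← sum_fiberwise_of_maps_to (g := natDegree) (t := range (κ + 1))
      fun p hp => mem_range.2 (Nat.lt_succ_of_le (mem_filter.1 hp).2.2.2.2), sum_mul]
    refine (sum_le_card_nsmul _ _ (U.card ^ 2 * Fintype.card K ^ (η + κ) * 2 ^ ω₁)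
      fun P hP => ?_).trans (by rw [card_range, smul_eq_mul])
    have hP' := Nat.lt_succ_iff.1 (mem_range.1 hP)
    by_cases hl : η + l ≤ P
    · have e1 : ∑ p ∈ A.filter (fun p => p.natDegree = P),
          Fintype.card K ^ (κ - p.natDegree) * b p ≤ Fintype.card K ^ (κ - P) *
            ∑ p ∈ (Mn K P).filter (fun p => Squarefree p), badp U p η (P - l) := by
        rw [mul_sum]
        refine le_trans (le_of_eq (sum_congr rfl fun p hp => ?_))
          (sum_le_sum_of_subset fun p hp => ?_)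
        · rw [hb]
          simp only [(mem_filter.1 hp).2]
        · obtain ⟨hp, d⟩ := mem_filter.1 hp
          obtain ⟨-, m, s, -⟩ := mem_filter.1 hp
          exact mem_filter.2 ⟨mem_Mn.2 ⟨m, d⟩, s⟩
      have e2 := sum_badp (η := η) (s := P - l) (P := P) hU (by omega) (by omega)
        fun Z hZ hd => hω Z hZ (by omega)
      refine (Nat.mul_le_mul_right _ (e1.trans (Nat.mul_le_mul_left _ e2))).trans (le_of_eq ?_)
      have e3 : η + κ = κ - P + (η + (P - l)) + l := by omega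
      rw [e3]
      ring
    · rw [sum_eq_zero fun p hp => ?_, zero_mul]
      · exact Nat.zero_le _
      · obtain ⟨hp, d⟩ := mem_filter.1 hp
        exact absurd (d ▸ (mem_filter.1 hp).2.2.2.1) hl
  refine (Nat.mul_le_mul_right _ ((sum_le_sum h1).trans
    (sum_le_sum_of_subset (filter_subset _ _)))).trans ?_
  rw [← mul_sum, h2, mul_assoc, mul_assoc]
  exact Nat.mul_le_mul_left _ h3

end Pool.Agent.P.MP_3bc45c_nt.SI
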