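import Pool.Agent.P.MP_3bc45c_nt.SI.EvOd

namespace Pool.Agent.P.MP_3bc45c_nt.SI

open Polynomial Finset Pool.Agent.P.MP_a1177c_nt.HL
open scoped Classical

variable {K : Type*} [Field K] [Fintype K] [CharP K 2]

theorem en_mono {A A' A₂ A₂' U : Finset K[X]} (h : A ⊆ A') (h₂ : A₂ ⊆ A₂') (p c₀ : K[X]) :
    en A A₂ U p c₀ ≤ en A' A₂' U p c₀ :=
  card_le_card (filter_subset_filter _ (product_subset_product
    (product_subset_product_left h) (product_subset_product_left h₂)))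

theorem en_le_of_cover {A A₂ U B : Finset K[X]} {l : ℕ} (h : ∀ x ∈ A, ∃ x₀ ∈ B, x ∈ Box x₀ l)
    (p c₀ : K[X]) : en A A₂ U p c₀ ≤ ∑ x₀ ∈ B, en (Box x₀ l) A₂ U p c₀ := by
  refine le_trans (card_le_card fun t ht => ?_) card_biUnion_le
  simp only [mem_filter, mem_product, mem_biUnion] at ht ⊢
  obtain ⟨x₀, h1, h2⟩ := h _ ht.1.1.1
  exact ⟨x₀, h1, ⟨⟨h2, ht.1.1.2⟩, ht.1.2⟩, ht.2⟩

private theorem box_add {x₀ x y : K[X]} {l : ℕ} (hx : x ∈ Box x₀ l) (hy : y ∈ Box x₀ l) :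
    ev (x + y) ∈ Pl K l ∧ od (x + y) ∈ Pl K l := by
  have h := add_mem_Pl (mem_Box.1 hx) (mem_Box.1 hy)
  rw [show x + x₀ + (y + x₀) = x + y by linear_combination x₀ * two_eq_zero_poly (K := K),
    mem_Pl_iff_ev_od, show (2 * l + 1) / 2 = l by omega, show 2 * l / 2 = l by omega] at h
  exact h

private theorem self_mem_Box (x₀ : K[X]) (l : ℕ) : x₀ ∈ Box x₀ l := by
  rw [mem_Box, CharTwo.add_self_eq_zero, mem_Pl, degree_zero]
  exact WithBot.bot_lt_coe _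

private theorem add_eq_sq {x y : K[X]} (h : od x = od y) : x + y = ev (x + y) ^ 2 := by
  have := ev_add_od (x + y)
  rw [od_add, h, CharTwo.add_self_eq_zero] at this
  linear_combination -this

private theorem en_pair {p : K[X]} (hsq : Squarefree p) {l υ : ℕ} (hl : l + υ ≤ p.natDegree)
    {u u₂ x₀ x x₂ y y₂ : K[X]} (hu : u.natDegree ≤ υ) (hu₂ : u₂.natDegree ≤ υ)
    (hx : x ∈ Box x₀ l) (hx₂ : x₂ ∈ Box x₀ l) (hy : y ∈ Box x₀ l) (hy₂ : y₂ ∈ Box x₀ l)
    (e : od x = od y) (e₂ : od x₂ = od y₂) (h1 : p ∣ x ^ 2 * u₂ ^ 4 - x₂ ^ 2 * u ^ 4)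
    (h2 : p ∣ y ^ 2 * u₂ ^ 4 - y₂ ^ 2 * u ^ 4) : ev (x + y) * u₂ = ev (x₂ + y₂) * u := by
  have h0 : (0 : K[X]) ∈ Pl K l := by
    rw [mem_Pl, degree_zero]
    exact WithBot.bot_lt_coe _
  have h3 := energy_pair hsq hl hu hu₂ (D := 0) (D₂ := 0) (box_add hx hy).1 (box_add hx₂ hy₂).1
    h0 h0 (by
      rw [zero_pow two_ne_zero, mul_zero, add_zero, add_zero, ← add_eq_sq e, ← add_eq_sq e₂,
        show (x + y) ^ 2 * u₂ ^ 4 - (x₂ + y₂) ^ 2 * u ^ 4 =
          (x ^ 2 * u₂ ^ 4 - x₂ ^ 2 * u ^ 4) + (y ^ 2 * u₂ ^ 4 - y₂ ^ 2 * u ^ 4) by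
        linear_combination (x * y * u₂ ^ 4 - x₂ * y₂ * u ^ 4) * two_eq_zero_poly (K := K)]
      exact dvd_add h1 h2) (by simp)
  rwa [sub_zero, sub_zero] at h3

private theorem en_fixed {p : K[X]} (hp : p.Monic) (hsq : Squarefree p) {l υ : ℕ}
    (hl : l + υ ≤ p.natDegree) {u u₂ : K[X]} (hu : u ∈ Irr K υ) (hu₂ : u₂ ∈ Irr K υ)
    (x₀ c₀ : K[X]) {S : Finset (K[X] × K[X])}
    (hS : ∀ t ∈ S, t.1 ∈ Box x₀ l ∧ t.2 ∈ Box x₀ l ∧ IsCoprime u p ∧
      p ∣ (derivative t.1 ^ 2 + c₀) ^ 3 * u₂ ^ 4 - (derivative t.2 ^ 2 + c₀) ^ 3 * u ^ 4 ∧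
      p ∣ t.1 ^ 2 * u₂ ^ 4 - t.2 ^ 2 * u ^ 4) :
    S.card ≤ (if u = u₂ then Fintype.card K ^ l else Fintype.card K ^ (l - υ)) *
      12 ^ (pf p).card * Fintype.card K ^ l := by
  obtain ⟨hm, hd, hi⟩ := mem_Irr.1 hu
  obtain ⟨hm₂, hd₂, hi₂⟩ := mem_Irr.1 hu₂
  rcases S.eq_empty_or_nonempty with rfl | ⟨t₀, ht₀⟩
  · simp
  have hc : IsCoprime u p := (hS t₀ ht₀).2.2.1
  refine (card_le_mul_card_image_of_maps_to (f := fun t => od (t.1 + x₀))
    (fun t ht => (box_add (hS t ht).1 (self_mem_Box x₀ l)).2) _ fun D _ => ?_).trans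
    (Nat.mul_le_mul_left _ (card_Pl l).le)
  have hR := energy_roots hp hsq le_rfl isCoprime_one_left hc c₀ 0
    ((((D + od x₀) ^ 2) ^ 2 + c₀) ^ 3 * u₂ ^ 4)
  have hod : ∀ t : K[X] × K[X], od (t.1 + x₀) = D → od t.1 = D + od x₀ := fun t h => by
    rw [← h, od_add, add_assoc, CharTwo.add_self_eq_zero, add_zero]
  refine (card_le_mul_card_image_of_maps_to (f := fun t => od t.2 %ₘ p) (fun t ht => ?_)
    (if u = u₂ then Fintype.card K ^ l else Fintype.card K ^ (l - υ)) fun Y _ => ?_).trans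
    (Nat.mul_le_mul_left _ (by exact_mod_cast hR))
  · obtain ⟨ht, e⟩ := mem_filter.1 ht
    refine mem_filter.2 ⟨?_, ?_⟩
    · rw [mem_Pl, ← degree_eq_natDegree hp.ne_zero]
      exact degree_modByMonic_lt _ hp
    · have h1 := (hS t ht).2.2.2.1
      rw [← od_sq_eq, ← od_sq_eq, hod t e] at h1
      have h2 : p ∣ (((od t.2 %ₘ p) ^ 2) ^ 2 + c₀) ^ 3 - ((od t.2 ^ 2) ^ 2 + c₀) ^ 3 := by
        refine dvd_trans ?_ (sub_dvd_pow_sub_pow _ _ 3)
        rw [add_sub_add_right_eq_sub]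
        exact ((dvd_modByMonic_sub _ p).trans (sub_dvd_pow_sub_pow _ _ 2)).trans
          (sub_dvd_pow_sub_pow _ _ 2)
      have h3 := dvd_sub h1 (h2.mul_right (u ^ 4))
      rwa [show ∀ a b c : K[X], a - b * u ^ 4 - (c - b) * u ^ 4 = a - (1 * c + 0) * u ^ 4 from
        fun a b c => by ring] at h3
  · set T := (S.filter fun t => od (t.1 + x₀) = D).filter fun t => od t.2 %ₘ p = Y with hT
    have hpair : ∀ t ∈ T, ∀ t' ∈ T, od t.1 = od t'.1 ∧ od t.2 = od t'.2 ∧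
        ev (t.1 + t'.1) * u₂ = ev (t.2 + t'.2) * u := by
      intro t ht t' ht'
      simp only [hT, mem_filter] at ht ht'
      obtain ⟨a1, a2, -, -, a3⟩ := hS t ht.1.1
      obtain ⟨b1, b2, -, -, b3⟩ := hS t' ht'.1.1
      have e1 : od t.1 = od t'.1 := (hod t ht.1.2).trans (hod t' ht'.1.2).symm
      have e2 : od t.2 = od t'.2 := by
        have h1 : p ∣ od t.2 - od t'.2 := by
          rw [← modByMonic_eq_zero_iff_dvd hp, sub_modByMonic, ht.2, ht'.2, sub_self]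
        have h2 := Pl_mono (show l ≤ p.natDegree by omega) (box_add a2 b2).2
        rw [od_add, ← CharTwo.sub_eq_add, mem_Pl, ← degree_eq_natDegree hp.ne_zero] at h2
        exact sub_eq_zero.1 (eq_zero_of_dvd_of_degree_lt h1 h2)
      exact ⟨e1, e2, en_pair hsq hl hd.le hd₂.le a1 a2 b1 b2 e1 e2 a3 b3⟩
    have hev : ∀ x y : K[X], ev (x + x₀) - ev (y + x₀) = ev (x + y) := fun x y => by
      simp only [ev_add]
      linear_combination -ev y * two_eq_zero_poly (K := K)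
    have hinj : Set.InjOn (fun t : K[X] × K[X] => ev (t.1 + x₀)) (T : Set (K[X] × K[X])) := by
      intro t ht t' ht' he
      obtain ⟨e1, e2, e3⟩ := hpair t ht t' ht'
      have h1 : ev (t.1 + t'.1) = 0 := by rw [← hev, sub_eq_zero]; exact he
      rw [h1, zero_mul] at e3
      have h2 : ev (t.2 + t'.2) = 0 := (mul_eq_zero.1 e3.symm).resolve_right hi.ne_zero
      rw [ev_add, ← CharTwo.sub_eq_add, sub_eq_zero] at h1 h2
      exact Prod.ext (eq_of_ev_od h1 e1) (eq_of_ev_od h2 e2)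
    have hsub : T.image (fun t => ev (t.1 + x₀)) ⊆ Pl K l := by
      intro b hb
      obtain ⟨t, ht, rfl⟩ := mem_image.1 hb
      exact (box_add (hS t (mem_filter.1 (mem_filter.1 ht).1).1).1 (self_mem_Box x₀ l)).1
    rw [← card_image_of_injOn hinj]
    split_ifs with huu
    · exact (card_le_card hsub).trans (card_Pl l).le
    · have hnd : ¬ u ∣ u₂ := fun hd =>
        huu (eq_of_monic_of_associated hm hm₂ (hi.associated_of_dvd hi₂ hd))
      rw [← hd]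
      refine card_le_of_Pl hi.ne_zero hsub fun b hb b' hb' => ?_
      obtain ⟨t, ht, rfl⟩ := mem_image.1 hb
      obtain ⟨t', ht', rfl⟩ := mem_image.1 hb'
      refine (hi.prime.dvd_or_dvd ?_).resolve_right hnd
      rw [hev, (hpair t ht t' ht').2.2]
      exact dvd_mul_left _ _

theorem en1 {p : K[X]} (hp : p.Monic) (hsq : Squarefree p) {l υ : ℕ} (hυ : υ ≤ l)
    (hl : l + υ ≤ p.natDegree) {U : Finset K[X]} (hU : U ⊆ Irr K υ) (x₀ c₀ : K[X]) :
    en (Box x₀ l) (Box x₀ l) U p c₀ ≤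
      2 * 12 ^ (pf p).card * Fintype.card K ^ (2 * l) * U.card := by
  have hUq : U.card ≤ Fintype.card K ^ υ :=
    (card_le_card (hU.trans (filter_subset _ _))).trans (card_Mn υ).le
  rw [en, card_eq_sum_card_fiberwise (f := fun t => (t.1.2, t.2.2)) (t := U ×ˢ U) (by
    intro t ht
    simp only [coe_filter, mem_product, Set.mem_ofPred_eq] at ht
    exact mem_coe.2 (mem_product.2 ⟨ht.1.1.2, ht.1.2.2⟩)), sum_product, mul_comm _ U.card,
    ← smul_eq_mul]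
  refine sum_le_card_nsmul _ _ _ fun u hu => ?_
  set q := Fintype.card K
  calc _ ≤ ∑ u₂ ∈ U, (if u = u₂ then q ^ l else q ^ (l - υ)) * 12 ^ (pf p).card * q ^ l := by
        refine sum_le_sum fun u₂ hu₂ => ?_
        rw [← card_image_of_injOn (f := fun t => (t.1.1, t.2.1))]
        · refine en_fixed hp hsq hl (hU hu) (hU hu₂) x₀ c₀ fun t ht => ?_
          obtain ⟨s, hs, rfl⟩ := mem_image.1 ht
          simp only [mem_filter, mem_product, Prod.mk.injEq] at hs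
          obtain ⟨⟨⟨⟨h1, -⟩, h2, -⟩, h3, -, h4, h5⟩, rfl, rfl⟩ := hs
          exact ⟨h1, h2, h3, h4, h5⟩
        · rintro ⟨⟨a, b⟩, c, d⟩ hs ⟨⟨a', b'⟩, c', d'⟩ hs' e
          have h1 := (mem_filter.1 hs).2
          have h2 := (mem_filter.1 hs').2
          simp only [Prod.mk.injEq] at h1 h2 e ⊢
          exact ⟨⟨e.1, h1.1.trans h2.1.symm⟩, e.2, h1.2.trans h2.2.symm⟩
    _ ≤ (2 * q ^ l) * 12 ^ (pf p).card * q ^ l := by
        rw [← sum_mul, ← sum_mul]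
        gcongr
        calc _ ≤ ∑ u₂ ∈ U, ((if u = u₂ then q ^ l else 0) + q ^ (l - υ)) := by
              refine sum_le_sum fun u₂ _ => ?_
              split_ifs
              · exact Nat.le_add_right _ _
              · rw [zero_add]
          _ = q ^ l + U.card * q ^ (l - υ) := by
              rw [sum_add_distrib, sum_ite_eq, if_pos hu, sum_const, smul_eq_mul]
          _ ≤ q ^ l + q ^ υ * q ^ (l - υ) := by gcongr
          _ = 2 * q ^ l := by
              rw [← pow_add, Nat.add_sub_cancel' hυ, two_mul]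
    _ = _ := by ring

omit [CharP K 2] in
private theorem divX_add_of_mem_Pl' {x a : K[X]} {n : ℕ} (ha : a ∈ Pl K n) :
    (x + a) /ₘ X ^ n = x /ₘ X ^ n := by
  have hm : (X ^ n : K[X]).Monic := monic_X_pow n
  refine (div_modByMonic_unique (x /ₘ X ^ n) (x %ₘ X ^ n + a) hm ⟨?_, ?_⟩).1
  · linear_combination modByMonic_add_div x (X ^ n)
  · refine (degree_add_le _ _).trans_lt (max_lt (degree_modByMonic_lt _ hm) ?_)
    rw [degree_X_pow]
    exact mem_Pl.1 ha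

theorem card_labels {F : Finset K[X]} {w : K[X]} {l : ℕ} (hw : w.Monic)
    (hl : w.natDegree ≤ 2 * l)
    (hF : ∀ x ∈ F, ∀ z ∈ Pl K (2 * l - w.natDegree), x + w * z ∈ F) :
    (F.image fun x => x /ₘ X ^ (2 * l)).card * Fintype.card K ^ (2 * l - w.natDegree) ≤
      F.card := by
  rw [mul_comm]
  refine mul_card_image_le_card F _ fun b hb => ?_
  obtain ⟨x, hx, rfl⟩ := mem_image.1 hb
  rw [← card_Pl]
  refine card_le_card_of_injOn (fun z => x + w * z) (fun z hz => ?_) fun z _ z' _ e =>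
    mul_left_cancel₀ hw.ne_zero (add_left_cancel e)
  refine mem_coe.2 (mem_filter.2 ⟨hF x hx z hz, divX_add_of_mem_Pl' ?_⟩)
  have := mul_mem_Pl (g := w) le_rfl (mem_coe.1 hz)
  rwa [Nat.add_sub_cancel' hl] at this

theorem mem_Box_label (x : K[X]) (l : ℕ) : x ∈ Box (X ^ (2 * l) * (x /ₘ X ^ (2 * l))) l := by
  rw [mem_Box, ← CharTwo.sub_eq_add, ← modByMonic_eq_sub_mul_div, mem_Pl, ← degree_X_pow (R := K)]
  exact degree_modByMonic_lt _ (monic_X_pow _)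

theorem divX_add_of_mem_Pl {x a : K[X]} {n : ℕ} (ha : a ∈ Pl K n) :
    (x + a) /ₘ X ^ n = x /ₘ X ^ n :=
  divX_add_of_mem_Pl' ha

end Pool.Agent.P.MP_3bc45c_nt.SI
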