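import Pool.Agent.P.MP_3bc45c_nt.SI.Cof
import Pool.Agent.P.MP_3bc45c_nt.SI.En1

namespace Pool.Agent.P.MP_3bc45c_nt.SI

open Polynomial Finset Pool.Agent.P.MP_a1177c_nt.HL
open scoped Classical

variable {K : Type*} [Field K] [Fintype K] [CharP K 2]

theorem mem_Omg {D : Finset K[X]} {w : K[X]} {j k t Λ : ℕ}
    {z : (K[X] × Finset K[X] × K[X]) × K[X]} :
    z ∈ Omg D w j k t Λ ↔ ∃ d ∈ D, od (w * d) = z.1.1 ∧ ev (w * d) = z.2 ∧ goodY t z.1.1 ∧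
      z.1.2.1 ⊆ Irr K j ∧ z.1.2.1.card = k ∧ (∏ π ∈ z.1.2.1, π) ∣ z.1.1 ∧
      z.1.2.2 = z.2 /ₘ X ^ (2 * Λ) := by
  obtain ⟨⟨Y, T, a⟩, x⟩ := z
  simp only [Omg, mem_image, mem_filter, mem_product, mem_powersetCard, Prod.mk.injEq, Prod.exists]
  constructor
  · rintro ⟨d, T', ⟨⟨hd, hT, hk⟩, hg, hdv⟩, ⟨rfl, rfl, rfl⟩, rfl⟩
    exact ⟨d, hd, rfl, rfl, hg, hT, hk, hdv, rfl⟩
  · rintro ⟨d, hd, rfl, rfl, hg, hT, hk, hdv, rfl⟩
    exact ⟨d, T, ⟨⟨hd, hT, hk⟩, hg, hdv⟩, ⟨rfl, rfl, rfl⟩, rfl⟩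

theorem sum_Omg {D : Finset K[X]} {w : K[X]} (hw : w.Monic) (j k t Λ : ℕ) (F : K[X] → ℝ) :
    ∑ z ∈ Omg D w j k t Λ, F ((z.2 ^ 2 + X * z.1.1 ^ 2) /ₘ w) =
      ∑ d ∈ D.filter (fun d => goodY t (od (w * d))), F d * rr j k (od (w * d)) := by
  rw [Omg, sum_image, sum_filter, sum_product, sum_filter]
  · refine sum_congr rfl fun d _ => ?_
    simp only [ev_add_od, mul_divByMonic_cancel_left d hw]
    by_cases hg : goodY t (od (w * d))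
    · simp only [hg, true_and, if_true]
      rw [← sum_filter, sum_const, nsmul_eq_mul, mul_comm, rr]
    · simp only [hg, false_and, if_false, sum_const_zero]
  · rintro ⟨d, T⟩ - ⟨d', T'⟩ - h
    simp only [Prod.mk.injEq] at h
    obtain ⟨⟨h1, h2, -⟩, h3⟩ := h
    exact Prod.ext (mul_left_cancel₀ hw.ne_zero (eq_of_ev_od h3 h1)) h2

private theorem cls_mem {D : Finset K[X]} {w : K[X]} {N ω κ : ℕ} (hD : D ⊆ Mn K N)
    (hw : w ∈ Irr K ω) (hκ : N + ω = 2 * κ + 1) {d : K[X]} (hd : d ∈ D) :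
    od (w * d) ∈ Mn K κ ∧ ev (w * d) ∈ Pl K (κ + 1) := by
  obtain ⟨hw1, hw2, -⟩ := mem_Irr.1 hw
  obtain ⟨hd1, hd2⟩ := mem_Mn.1 (hD hd)
  refine od_mem_Mn (mem_Mn.2 ⟨hw1.mul hd1, ?_⟩)
  rw [hw1.natDegree_mul hd1]
  omega

private theorem cls_rr_le {D : Finset K[X]} {w : K[X]} {N ω κ j k : ℕ} (hD : D ⊆ Mn K N)
    (hw : w ∈ Irr K ω) (hκ : N + ω = 2 * κ + 1) (hj : 1 ≤ j) {Y : K[X]}
    (hY : Y ∈ D.image fun d => od (w * d)) : rr j k Y ≤ 2 ^ (κ / j) := by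
  obtain ⟨d, hd, rfl⟩ := mem_image.1 hY
  obtain ⟨h1, h2⟩ := mem_Mn.1 (cls_mem hD hw hκ hd).1
  exact rr_le hj h1.ne_zero h2.le

private theorem cls_card_le (D : Finset K[X]) (w : K[X]) (j k t Λ : ℕ) :
    ((Omg D w j k t Λ).image Prod.fst).card ≤ ∑ Y ∈ D.image (fun d => od (w * d)), rr j k Y *
      (((D.filter fun d => od (w * d) = Y).image fun d => ev (w * d)).image
        fun x => x /ₘ X ^ (2 * Λ)).card := by
  have hsub : (Omg D w j k t Λ).image Prod.fst ⊆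
      (D.image fun d => od (w * d)).biUnion fun Y => {Y} ×ˢ
        ((((Irr K j).powersetCard k).filter fun T => (∏ π ∈ T, π) ∣ Y) ×ˢ
          (((D.filter fun d => od (w * d) = Y).image fun d => ev (w * d)).image
            fun x => x /ₘ X ^ (2 * Λ))) := by
    intro ι hι
    obtain ⟨z, hz, rfl⟩ := mem_image.1 hι
    obtain ⟨d, hd, h1, h2, -, hT, hk, hdv, h3⟩ := mem_Omg.1 hz
    refine mem_biUnion.2 ⟨z.1.1, mem_image.2 ⟨d, hd, h1⟩, mem_product.2 ⟨mem_singleton_self _,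
      mem_product.2 ⟨mem_filter.2 ⟨mem_powersetCard.2 ⟨hT, hk⟩, hdv⟩,
        mem_image.2 ⟨z.2, mem_image.2 ⟨d, mem_filter.2 ⟨hd, h1⟩, h2⟩, h3.symm⟩⟩⟩⟩
  refine (card_le_card hsub).trans (card_biUnion_le.trans (sum_le_sum fun Y _ => ?_))
  rw [card_product, card_product, card_singleton, one_mul, rr]

theorem card_Omg_le {D : Finset K[X]} {w : K[X]} {N ω κ j : ℕ} (hD : D ⊆ Mn K N)
    (hw : w ∈ Irr K ω) (hκ : N + ω = 2 * κ + 1) (hj : 1 ≤ j) (k t Λ : ℕ) :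
    (Omg D w j k t Λ).card ≤ 2 ^ (κ / j) * D.card := by
  have h := sum_Omg (D := D) (mem_Irr.1 hw).1 j k t Λ fun _ => 1
  simp only [sum_const, nsmul_eq_mul, mul_one, one_mul] at h
  have h' : (Omg D w j k t Λ).card =
      ∑ d ∈ D.filter (fun d => goodY t (od (w * d))), rr j k (od (w * d)) := by
    exact_mod_cast h
  rw [h', mul_comm]
  refine (sum_le_card_nsmul _ _ (2 ^ (κ / j)) fun d hd => ?_).trans ?_
  · exact cls_rr_le hD hw hκ hj (mem_image_of_mem _ (mem_filter.1 hd).1)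
  · exact Nat.mul_le_mul_right _ (card_filter_le _ _)

theorem card_cls_small {D : Finset K[X]} {w : K[X]} {N L ω κ j l : ℕ} (hD : D ⊆ Mn K N)
    (hI : Inv D L) (hw : w ∈ Irr K ω) (hκ : N + ω = 2 * κ + 1) (hj : 1 ≤ j) (hl : 4 * l ≤ L)
    (hω : ω ≤ 2 * l) (k t : ℕ) :
    ((Omg D w j k t l).image Prod.fst).card * Fintype.card K ^ (2 * l - ω) ≤
      2 ^ (κ / j) * D.card := by
  obtain ⟨hw1, hw2, -⟩ := mem_Irr.1 hw
  refine (Nat.mul_le_mul_right _ (cls_card_le D w j k t l)).trans ?_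
  rw [sum_mul, card_eq_sum_card_image (fun d => od (w * d)) D, mul_sum]
  refine sum_le_sum fun Y hY => ?_
  rw [mul_assoc]
  refine Nat.mul_le_mul (cls_rr_le hD hw hκ hj hY) ?_
  refine le_trans ?_ (card_image_le (f := fun d => ev (w * d)))
  rw [← hw2]
  refine card_labels hw1 (hw2 ▸ hω) fun x hx z hz => ?_
  obtain ⟨d, hd, rfl⟩ := mem_image.1 hx
  obtain ⟨hd1, hd2⟩ := mem_filter.1 hd
  have e : w * (d + w * z ^ 2) = w * d + (w * z) ^ 2 := by ring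
  have h1 : z ^ 2 ∈ Pl K (2 * (2 * l - w.natDegree)) := by
    rw [sq_mem_Pl_iff, show (2 * (2 * l - w.natDegree) + 1) / 2 = 2 * l - w.natDegree by omega]
    exact hz
  have h2 : w * z ^ 2 ∈ Pl K L := Pl_mono (by omega) (mul_mem_Pl le_rfl h1)
  refine mem_image.2 ⟨d + w * z ^ 2, mem_filter.2 ⟨hI d hd1 _ h2, ?_⟩, ?_⟩
  · rw [e, od_add, od_sq, add_zero, hd2]
  · rw [e, ev_add, ev_sq]

theorem card_cls_full {D : Finset K[X]} {w : K[X]} {N ω κ j Λ : ℕ} (hD : D ⊆ Mn K N)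
    (hw : w ∈ Irr K ω) (hκ : N + ω = 2 * κ + 1) (hj : 1 ≤ j) (hΛ : κ + 1 ≤ 2 * Λ) (k t : ℕ) :
    ((Omg D w j k t Λ).image Prod.fst).card ≤ 2 ^ (κ / j) * Fintype.card K ^ κ := by
  refine (cls_card_le D w j k t Λ).trans ?_
  refine (sum_le_card_nsmul _ _ (2 ^ (κ / j)) fun Y hY => ?_).trans ?_
  · rw [← mul_one (2 ^ (κ / j))]
    refine Nat.mul_le_mul (cls_rr_le hD hw hκ hj hY) (card_le_one_iff_subset_singleton.2 ⟨0, ?_⟩)
    intro a ha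
    obtain ⟨x, hx, rfl⟩ := mem_image.1 ha
    obtain ⟨d, hd, rfl⟩ := mem_image.1 hx
    have h := mem_Pl.1 (Pl_mono hΛ (cls_mem hD hw hκ (mem_filter.1 hd).1).2)
    rw [mem_singleton, divByMonic_eq_zero_iff (monic_X_pow _), degree_X_pow]
    exact h
  · rw [smul_eq_mul, mul_comm, ← card_Mn]
    refine Nat.mul_le_mul_left _ (card_le_card fun Y hY => ?_)
    obtain ⟨d, hd, rfl⟩ := mem_image.1 hY
    exact (cls_mem hD hw hκ hd).1

theorem image_inst {α β : Type*} (d₁ d₂ : DecidableEq β) (f : α → β) (s : Finset α) :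
    @Finset.image α β d₁ f s = @Finset.image α β d₂ f s := by
  rw [Subsingleton.elim d₁ d₂]

theorem enW_box {D : Finset K[X]} {w : K[X]} {N ω κ j k t Λ υ ω₀ : ℕ} (hD : D ⊆ Mn K N)
    (hw : w ∈ Irr K ω) (hκ : N + ω = 2 * κ + 1) (hj : 3 * t + ω < j) (hυ : υ ≤ Λ)
    (hΛ : Λ + υ + 3 * t + ω + k * j ≤ κ)
    (hω : ∀ p : K[X], p ≠ 0 → p.natDegree ≤ κ → (pf p).card ≤ ω₀) :
    EnW D w j k t Λ υ ≤ ((Omg D w j k t Λ).image Prod.fst).card *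
      (2 * 12 ^ ω₀ * Fintype.card K ^ (2 * Λ) * (Irr K υ).card) := by
  obtain ⟨hw1, hw2, -⟩ := mem_Irr.1 hw
  rw [EnW, En]
  refine (sum_le_card_nsmul _ _ (2 * 12 ^ ω₀ * Fintype.card K ^ (2 * Λ) * (Irr K υ).card)
    fun ι hι => ?_).trans (le_of_eq (by rw [smul_eq_mul, image_inst _ inferInstance]))
  simp only [mem_image] at hι
  obtain ⟨z, hz, rfl⟩ := hι
  obtain ⟨d, hd, h1, -, hg, hT, hk, hdv, -⟩ := mem_Omg.1 hz
  obtain ⟨hY1, hY2⟩ := mem_Mn.1 (h1 ▸ (cls_mem hD hw hκ hd).1)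
  obtain ⟨-, c1, -, -, -, c2, c3, c4, -⟩ := cof_spec hw1 hY1 hg hT hdv (hw2 ▸ hj)
  have hsub : fib (Omg D w j k t Λ) z.1 ⊆ Box (X ^ (2 * Λ) * z.1.2.2) Λ := by
    intro x hx
    simp only [fib, mem_image, mem_filter] at hx
    obtain ⟨z', ⟨hz1, hz2⟩, rfl⟩ := hx
    obtain ⟨_, -, -, -, -, -, -, -, h⟩ := mem_Omg.1 hz1
    rw [← hz2, h]
    exact mem_Box_label _ _
  rw [hk, hY2] at c3
  refine (en_mono hsub hsub _ _).trans ((en1 c1 c4 hυ (by omega) subset_rfl _ _).trans ?_)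
  have := hω _ c1.ne_zero (by omega)
  gcongr
  norm_num

end Pool.Agent.P.MP_3bc45c_nt.SI
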