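import Pool.Agent.P.MP_3bc45c_nt.SI.EvOd

namespace Pool.Agent.P.MP_3bc45c_nt.SI

open Polynomial Finset Pool.Agent.P.MP_a1177c_nt.HL
open scoped Classical

variable {K : Type*} [Field K] [Fintype K] [CharP K 2]

theorem rr_le {j k κ : ℕ} {Y : K[X]} (hj : 1 ≤ j) (hY : Y ≠ 0) (hκ : Y.natDegree ≤ κ) :
    rr j k Y ≤ 2 ^ (κ / j) := by
  set S := (pf Y).filter fun π => π.natDegree = j with hS
  have h1 : ((Irr K j).powersetCard k).filter (fun T => (∏ π ∈ T, π) ∣ Y) ⊆ S.powerset := by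
    intro T hT
    obtain ⟨hT, hd⟩ := mem_filter.1 hT
    rw [mem_powerset]
    intro π hπ
    obtain ⟨a1, a2, a3⟩ := mem_Irr.1 ((mem_powersetCard.1 hT).1 hπ)
    exact mem_filter.2 ⟨(mem_pf hY).2 ⟨a1, a3, (dvd_prod_of_mem _ hπ).trans hd⟩, a2⟩
  have h2 : ∑ π ∈ S, π.natDegree ≤ Y.natDegree := primes_sum_deg_le hY (filter_subset _ _)
  have h3 : ∑ π ∈ S, π.natDegree = S.card * j := by
    rw [sum_congr rfl fun π hπ => (mem_filter.1 hπ).2, sum_const, smul_eq_mul]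
  have h4 : S.card ≤ κ / j := (Nat.le_div_iff_mul_le hj).2 (by omega)
  calc rr j k Y ≤ S.powerset.card := card_le_card h1
    _ = 2 ^ S.card := card_powerset S
    _ ≤ 2 ^ (κ / j) := Nat.pow_le_pow_right (by norm_num) h4

theorem rr_zero (j : ℕ) (Y : K[X]) : rr j 0 Y = 1 := by
  rw [rr, powersetCard_zero, filter_singleton, if_pos (by simp), card_singleton]

theorem card_Irr_le (j : ℕ) : (Irr K j).card ≤ Fintype.card K ^ j :=
  (card_filter_le _ _).trans (card_Mn j).le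

theorem card_Irr_ge : ∃ j₀ : ℕ, ∀ j ≥ j₀,
    (Fintype.card K : ℝ) ^ j ≤ 2 * j * (Irr K j).card := by
  have hq : (2 : ℝ) ≤ Fintype.card K := ro_two_le
  obtain ⟨g₀, hg⟩ := absorb (A := 2) hq (show (0 : ℝ) < 1 / 2 by norm_num) 2
  refine ⟨g₀ + 1, fun j hj => ?_⟩
  have h1 := card_irreducible_ge (K := K) (h := j) (by omega)
  have h2 := hg j (by omega)
  have h3 : (Fintype.card K : ℝ) ^ (1 / 2 * (j : ℝ)) ≤ (Fintype.card K : ℝ) ^ (j - j / 2) := by
    rw [← Real.rpow_natCast]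
    refine Real.rpow_le_rpow_of_exponent_le (by linarith) ?_
    have : j ≤ 2 * (j - j / 2) := by omega
    have h : (j : ℝ) ≤ 2 * ((j - j / 2 : ℕ) : ℝ) := by exact_mod_cast this
    linarith
  have h4 : (Fintype.card K : ℝ) ^ j =
      (Fintype.card K : ℝ) ^ (j - j / 2) * (Fintype.card K : ℝ) ^ (j / 2) := by
    rw [← pow_add]; congr 1; omega
  have h5 : (0 : ℝ) ≤ (Fintype.card K : ℝ) ^ (j / 2) := by positivity
  have h6 := mul_le_mul_of_nonneg_right (h2.trans h3) h5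
  rw [← h4] at h6
  have h7 : (Irr K j).card = ((Mn K j).filter fun π => Irreducible π).card := rfl
  rw [h7]
  linarith

theorem sig_nonneg (j k : ℕ) : 0 ≤ sig K j k := by
  unfold sig
  positivity

theorem sig_le_one (j k : ℕ) : sig K j k ≤ 1 := by
  have hq : (2 : ℝ) ≤ Fintype.card K := ro_two_le
  unfold sig
  rw [div_le_one (by positivity)]
  have h : (Irr K j).card.choose k ≤ Fintype.card K ^ (k * j) := by
    refine (Nat.choose_le_pow _ _).trans ?_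
    rw [mul_comm, pow_mul]
    exact Nat.pow_le_pow_left (card_Irr_le j) k
  exact_mod_cast h

private theorem pow_le_choose_aux (k : ℕ) : ∀ x : ℕ, k ≤ x → x ^ k ≤ k ^ k * x.choose k := by
  induction k with
  | zero => intro x _; simp
  | succ k ih =>
    intro x hx
    obtain ⟨x, rfl⟩ : ∃ y, x = y + 1 := ⟨x - 1, by omega⟩
    have h1 := ih x (by omega)
    have h2 : (x + 1) ^ k ≤ (k + 1) ^ k * x.choose k := by
      rcases Nat.eq_zero_or_pos k with rfl | hk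
      · simp
      · have h3 : ((x + 1) * k) ^ k ≤ (x * (k + 1)) ^ k :=
          Nat.pow_le_pow_left (by nlinarith) k
        rw [mul_pow, mul_pow] at h3
        refine Nat.le_of_mul_le_mul_right (c := k ^ k) ?_ (by positivity)
        calc (x + 1) ^ k * k ^ k ≤ x ^ k * (k + 1) ^ k := h3
          _ ≤ (k ^ k * x.choose k) * (k + 1) ^ k := Nat.mul_le_mul_right _ h1
          _ = (k + 1) ^ k * x.choose k * k ^ k := by ring
    have h4 := Nat.add_one_mul_choose_eq x k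
    calc (x + 1) ^ (k + 1) = (x + 1) ^ k * (x + 1) := pow_succ _ _
      _ ≤ (k + 1) ^ k * x.choose k * (x + 1) := Nat.mul_le_mul_right _ h2
      _ = (k + 1) ^ k * ((x + 1) * x.choose k) := by ring
      _ = (k + 1) ^ (k + 1) * (x + 1).choose (k + 1) := by rw [h4]; ring

theorem sig_ge (k : ℕ) : ∃ j₀ : ℕ, ∀ j ≥ j₀, 1 ≤ sig K j k * (2 * j * k + 1 : ℝ) ^ k := by
  have hq : (2 : ℝ) ≤ Fintype.card K := ro_two_le
  obtain ⟨j₀, h0⟩ := card_Irr_ge (K := K)
  obtain ⟨g₀, hg⟩ := absorb (A := 2 * k) hq (show (0 : ℝ) < 1 by norm_num) 1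
  refine ⟨j₀ + g₀ + 1, fun j hj => ?_⟩
  have h1 := h0 j (by omega)
  have h2 := hg j (by omega)
  rw [one_mul, Real.rpow_natCast, pow_one] at h2
  have hj0 : (0 : ℝ) < j := by exact_mod_cast (show 0 < j by omega)
  set x := (Irr K j).card
  have h3 : k ≤ x := by
    have : (2 * j : ℝ) * k ≤ 2 * j * x := by linarith
    exact_mod_cast le_of_mul_le_mul_left this (by positivity)
  have h4 : (x : ℝ) ^ k ≤ (k : ℝ) ^ k * x.choose k := by exact_mod_cast pow_le_choose_aux k x h3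
  unfold sig
  rw [div_mul_eq_mul_div, le_div_iff₀ (by positivity), one_mul, mul_comm k j, pow_mul]
  calc ((Fintype.card K : ℝ) ^ j) ^ k ≤ (2 * j * x) ^ k := by gcongr
    _ = (2 * j) ^ k * (x : ℝ) ^ k := mul_pow _ _ _
    _ ≤ (2 * j) ^ k * ((k : ℝ) ^ k * x.choose k) := by gcongr
    _ = x.choose k * (2 * j * k : ℝ) ^ k := by rw [mul_pow (2 * j : ℝ)]; ring
    _ ≤ x.choose k * (2 * j * k + 1 : ℝ) ^ k := by gcongr; linarith

private theorem chi_mul {p₁ p₂ : K[X]} (h1 : p₁ ≠ 0) (h2 : p₂ ≠ 0) (g : K[X]) :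
    chi (p₁ * p₂) g = chi p₁ g * chi p₂ g := by
  unfold chi
  have e : g * derivative (p₁ * p₂) = g * derivative p₁ * p₂ + g * derivative p₂ * p₁ := by
    rw [derivative_mul]; ring
  rw [e, rs_add, psi_add, rs_mul_cancel _ _ h2, mul_comm p₁ p₂, rs_mul_cancel _ _ h1]

theorem kl_mul {p₁ p₂ : K[X]} (h1 : p₁ ≠ 0) (h2 : p₂ ≠ 0) (h : IsCoprime p₁ p₂) (α z : K[X]) :
    kl (p₁ * p₂) α z = kl p₁ α z * kl p₂ α z := by
  by_cases hz : IsCoprime z (p₁ * p₂)
  · obtain ⟨a, b, hab⟩ := hz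
    have hw : p₁ * p₂ ∣ z * a - 1 := ⟨-b, by linear_combination hab⟩
    rw [kl_eq hw, kl_eq ((dvd_mul_right _ _).trans hw), kl_eq ((dvd_mul_left _ _).trans hw),
      chi_mul h1 h2]
  · rw [kl_eq_zero hz]
    rw [IsCoprime.mul_right_iff, not_and_or] at hz
    rcases hz with hz | hz
    · rw [kl_eq_zero hz, zero_mul]
    · rw [kl_eq_zero hz, mul_zero]

theorem kl_congr {p α α' z z' : K[X]} (hα : p ∣ α - α') (hz : p ∣ z - z') :
    kl p α z = kl p α' z' :=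
  kl_scale (u := 1) isCoprime_one_left (by rwa [one_mul]) (by rwa [one_mul])

private theorem irr_coprime {j : ℕ} {a b : K[X]} (ha : a ∈ Irr K j) (hb : b ∈ Irr K j)
    (hab : a ≠ b) : IsCoprime a b := by
  obtain ⟨a1, -, a2⟩ := mem_Irr.1 ha
  obtain ⟨b1, -, b2⟩ := mem_Irr.1 hb
  refine (a2.coprime_iff_not_dvd).2 fun h => hab ?_
  exact eq_of_monic_of_associated a1 b1 (a2.associated_of_dvd b2 h)

theorem cof_spec {w Y : K[X]} {T : Finset K[X]} {t j : ℕ} (hw : w.Monic) (hY : Y.Monic)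
    (hg : goodY t Y) (hT : T ⊆ Irr K j) (hd : (∏ π ∈ T, π) ∣ Y)
    (hj : 3 * t + w.natDegree < j) :
    (y1 w Y).Monic ∧ (cof w Y T).Monic ∧ Y = y1 w Y * ((∏ π ∈ T, π) * cof w Y T) ∧
      Squarefree ((∏ π ∈ T, π) * cof w Y T) ∧
      IsCoprime (w * y1 w Y) ((∏ π ∈ T, π) * cof w Y T) ∧
      (y1 w Y).natDegree ≤ 3 * t + w.natDegree ∧
      (y1 w Y).natDegree + T.card * j + (cof w Y T).natDegree = Y.natDegree ∧
      Squarefree (cof w Y T) ∧ IsCoprime (w * y1 w Y) (cof w Y T) ∧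
      ∀ π ∈ T, IsCoprime π (cof w Y T) := by
  have e1 : y1 w Y = (split_y hY hw).choose_spec.choose := by
    unfold y1
    rw [dif_pos ⟨hY, hw⟩]
  obtain ⟨p, hg1, hy1, hp, hg2, hYp, hsq, hco, hdeg⟩ := (split_y hY hw).choose_spec.choose_spec
  rw [← e1] at hy1 hYp hco hdeg
  have hgt : (split_y hY hw).choose.natDegree < t := by
    by_contra hlt
    exact hg ⟨_, hg1, not_lt.1 hlt, hg2⟩
  have hdy : (y1 w Y).natDegree ≤ 3 * t + w.natDegree := by omega
  have hm : (∏ π ∈ T, π).Monic := monic_prod_of_monic _ _ fun π hπ => (mem_Irr.1 (hT hπ)).1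
  have hdp : (∏ π ∈ T, π) ∣ p := by
    refine Finset.prod_dvd_of_coprime (fun a ha b hb hab => irr_coprime (hT ha) (hT hb) hab)
      fun π hπ => ?_
    obtain ⟨-, a2, a3⟩ := mem_Irr.1 (hT hπ)
    have h1 : π ∣ y1 w Y * p := hYp ▸ (dvd_prod_of_mem _ hπ).trans hd
    refine (a3.prime.dvd_or_dvd h1).resolve_left fun h2 => ?_
    have := natDegree_le_of_dvd h2 hy1.ne_zero
    omega
  obtain ⟨c, hc⟩ := hdp
  have hcm : c.Monic := hm.of_mul_monic_left (hc ▸ hp)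
  have e2 : cof w Y T = c := by
    unfold cof
    have : Y = y1 w Y * (∏ π ∈ T, π) * c := by rw [mul_assoc, ← hc]; exact hYp
    conv_lhs => arg 1; rw [this]
    exact mul_divByMonic_cancel_left _ (hy1.mul hm)
  have hdT : (∏ π ∈ T, π).natDegree = T.card * j := by
    rw [natDegree_prod_of_monic _ _ fun π hπ => (mem_Irr.1 (hT hπ)).1,
      sum_congr rfl fun π hπ => (mem_Irr.1 (hT hπ)).2.1, sum_const, smul_eq_mul]
  rw [e2, ← hc]
  refine ⟨hy1, hcm, hYp, hsq, hco, hdy, ?_, hsq.squarefree_of_dvd ⟨_, hc.trans (mul_comm _ _)⟩,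
    hco.of_isCoprime_of_dvd_right ⟨_, hc.trans (mul_comm _ _)⟩, fun π hπ => ?_⟩
  · have h1 : Y.natDegree = (y1 w Y).natDegree + p.natDegree := by
      conv_lhs => rw [hYp]
      exact hy1.natDegree_mul hp
    rw [h1, hc, hm.natDegree_mul hcm, hdT, add_assoc]
  · obtain ⟨-, -, a3⟩ := mem_Irr.1 (hT hπ)
    refine (a3.coprime_iff_not_dvd).2 fun h => a3.not_isUnit (hsq π ?_)
    rw [hc]
    exact mul_dvd_mul (dvd_prod_of_mem _ hπ) h

private theorem kl_prod {j : ℕ} {c : K[X]} (hc : c ≠ 0) (α z : K[X]) (T : Finset K[X])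
    (hT : T ⊆ Irr K j) (h : ∀ π ∈ T, IsCoprime π c) :
    kl ((∏ π ∈ T, π) * c) α z = (∏ π ∈ T, kl π α z) * kl c α z := by
  induction T using Finset.induction_on with
  | empty => simp
  | insert a T ha ih =>
    have hT' : T ⊆ Irr K j := (subset_insert _ _).trans hT
    have ha' : a ∈ Irr K j := hT (mem_insert_self _ _)
    have h0 : (∏ π ∈ T, π) ≠ 0 := prod_ne_zero_iff.2 fun π hπ => (mem_Irr.1 (hT' hπ)).1.ne_zero
    rw [prod_insert ha, prod_insert ha, mul_assoc, mul_assoc,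
      kl_mul (mem_Irr.1 ha').1.ne_zero (mul_ne_zero h0 hc)
        ((IsCoprime.prod_right fun π hπ => irr_coprime ha' (hT' hπ) fun e => ha (e ▸ hπ)).mul_right
          (h a (mem_insert_self _ _))),
      ih hT' fun π hπ => h π (mem_insert_of_mem hπ)]

theorem mu_cof {w Y : K[X]} {T : Finset K[X]} {t j : ℕ} (hw : w.Monic) (hY : Y.Monic)
    (hg : goodY t Y) (hT : T ⊆ Irr K j) (hd : (∏ π ∈ T, π) ∣ Y)
    (hj : 3 * t + w.natDegree < j) :
    ∃ (κ₀ : K[X] → ℝ) (κ : K[X] → K[X] → ℝ) (s : K[X]), (∀ x, |κ₀ x| ≤ 1) ∧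
      (∀ x v, κ₀ (x + (y1 w Y * v) ^ 2) = κ₀ x) ∧ (∀ π x, |κ π x| ≤ 1) ∧
      (∀ π x v, κ π (x + (π * v) ^ 2) = κ π x) ∧ IsCoprime s (cof w Y T) ∧
      ∀ x : K[X], x.natDegree ≤ Y.natDegree →
        mu (x ^ 2 + X * Y ^ 2) = κ₀ x * (∏ π ∈ T, κ π x) *
          kl (cof w Y T) (s * (derivative x ^ 2 + X * derivative Y ^ 2) ^ 3) (x ^ 2) := by
  obtain ⟨h1, h2, h3, h4, h5, -, -, -, -, h6⟩ := cof_spec hw hY hg hT hd hj
  have hm : (∏ π ∈ T, π).Monic := monic_prod_of_monic _ _ fun π hπ => (mem_Irr.1 (hT hπ)).1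
  obtain ⟨κ₀, s, a1, a2, a3, a4⟩ := mu_factor h1 (hm.mul h2) h4 h5.of_mul_left_right
  rw [← h3] at a4
  refine ⟨κ₀, fun π x => kl π (s * (derivative x ^ 2 + X * derivative Y ^ 2) ^ 3) (x ^ 2), s, a1,
    a2, fun π x => abs_kl_le _ _ _, fun π x v => ?_, a3.of_mul_right_right, fun x hx => ?_⟩
  · have e : derivative (x + (π * v) ^ 2) = derivative x := by
      rw [derivative_add, sq, derivative_mul]
      linear_combination (derivative (π * v) * (π * v)) * two_eq_zero_poly (K := K)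
    beta_reduce
    rw [e]
    refine kl_congr (by rw [sub_self]; exact dvd_zero _) ⟨π * v ^ 2 * (2 * x + (π * v) ^ 2), ?_⟩
    ring
  · rw [a4 x hx, kl_prod h2.ne_zero _ _ T hT h6, mul_assoc]

end Pool.Agent.P.MP_3bc45c_nt.SI
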