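import Pool.Agent.P.MP_3bc45c_nt.SI.FibB

namespace Pool.Agent.P.MP_3bc45c_nt.SI

open Polynomial Finset Pool.Agent.P.MP_a1177c_nt.HL
open scoped Classical

variable {K : Type*} [Field K] [Fintype K] [CharP K 2]

private theorem coll_card_diff {ι : Type*} (S : Finset ι) (φ : ι → K[X]) {l : ℕ}
    (inj : Set.InjOn φ S) (h : ∀ x ∈ S, ∀ y ∈ S, φ x + φ y ∈ Pl K l) :
    S.card ≤ Fintype.card K ^ l := by
  rcases S.eq_empty_or_nonempty with rfl | ⟨r, hr⟩
  · simp
  rw [← card_Pl]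
  exact card_le_card_of_injOn (fun x => φ x + φ r) (fun x hx => h x hx r hr)
    fun x hx y hy e => inj hx hy (add_right_cancel e)

omit [CharP K 2] in
private theorem coll_degree {d : K[X]} {N : ℕ} (hd : d ∈ Mn K N) : d.degree = N := by
  rw [degree_eq_natDegree (mem_Mn.1 hd).1.ne_zero, (mem_Mn.1 hd).2]

private theorem coll_add_Mn {e e' : K[X]} {M : ℕ} (he : e ∈ Mn K M) (he' : e' ∈ Mn K M) :
    e + e' ∈ Pl K M := by
  rw [mem_Pl, ← coll_degree he, ← CharTwo.sub_eq_add]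
  exact degree_sub_lt_left (by rw [coll_degree he, coll_degree he']) (mem_Mn.1 he).1.ne_zero
    (by rw [(mem_Mn.1 he).1.leadingCoeff, (mem_Mn.1 he').1.leadingCoeff])

omit [CharP K 2] in
private theorem coll_spec {f d : K[X]} {n h M N : ℕ} (hf : f ∈ Mn K n) (hn : M + N = n)
    (hd : d ∈ SD f h N) : d ∈ Mn K N ∧ f %ₘ d ∈ Pl K h ∧ f /ₘ d ∈ Mn K M := by
  obtain ⟨h1, h2⟩ := mem_filter.1 hd
  refine ⟨h1, h2, mem_Mn.2 ⟨?_, ?_⟩⟩
  · rw [Monic, leadingCoeff_divByMonic_of_monic (mem_Mn.1 h1).1, (mem_Mn.1 hf).1.leadingCoeff]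
    rw [coll_degree h1, coll_degree hf]
    exact_mod_cast (by omega : N ≤ n)
  · rw [natDegree_divByMonic f (mem_Mn.1 h1).1, (mem_Mn.1 hf).2, (mem_Mn.1 h1).2]
    omega

private theorem coll_diff {f d d' : K[X]} {n h M N L : ℕ} (hf : f ∈ Mn K n) (hn : M + N = n)
    (hL : M + L = h) (hd : d ∈ SD f h N) (hd' : d' ∈ SD f h N) (e : f /ₘ d = f /ₘ d') :
    d + d' ∈ Pl K L := by
  obtain ⟨-, a2, a3⟩ := coll_spec hf hn hd
  obtain ⟨-, b2, -⟩ := coll_spec hf hn hd'
  have e1 := modByMonic_add_div f d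
  have e2 := modByMonic_add_div f d'
  rw [← e] at e2
  have e3 : f /ₘ d * (d + d') = f %ₘ d + f %ₘ d' := by
    linear_combination e1 + e2 + (f - f %ₘ d - f %ₘ d') * two_eq_zero_poly (K := K)
  have h4 := add_mem_Pl a2 b2
  rw [← e3, mem_Pl, degree_mul, coll_degree a3, ← hL, Nat.cast_add] at h4
  exact mem_Pl.2 ((WithBot.add_lt_add_iff_left (WithBot.natCast_ne_bot _)).1 h4)

private theorem coll_sq {g g' : K[X]} (h : od g = od g') : g + g' = (ev g + ev g') ^ 2 := by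
  have e1 := ev_add_od g
  have e2 := ev_add_od g'
  rw [← h] at e2
  linear_combination -e1 - e2 + (X * od g ^ 2 - ev g * ev g') * two_eq_zero_poly (K := K)

theorem SD_subset (f : K[X]) (h N : ℕ) : SD f h N ⊆ Mn K N := filter_subset _ _

theorem SD_inv {f : K[X]} {n h M N L : ℕ} (hf : f ∈ Mn K n) (hn : M + N = n) (hL : M + L = h)
    (hN : h ≤ N) : Inv (SD f h N) L := by
  intro d hd a ha
  obtain ⟨a1, a2, a3⟩ := coll_spec hf hn hd
  have b1 : a.degree < d.degree := by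
    rw [coll_degree a1]
    exact mem_Pl.1 (Pl_mono (by omega) ha)
  have b2 : (d + a).Monic := (mem_Mn.1 a1).1.add_of_left b1
  have b3 : d + a ∈ Mn K N :=
    mem_Mn.2 ⟨b2, by rw [natDegree_add_eq_left_of_degree_lt b1, (mem_Mn.1 a1).2]⟩
  have b4 : f %ₘ d + f /ₘ d * a ∈ Pl K h :=
    add_mem_Pl a2 (hL ▸ mul_mem_Pl (mem_Mn.1 a3).2.le ha)
  refine mem_filter.2 ⟨b3, ?_⟩
  rw [(div_modByMonic_unique (f /ₘ d) (f %ₘ d + f /ₘ d * a) b2 ⟨?_, ?_⟩).2]
  · exact b4
  · linear_combination modByMonic_add_div f d + (f /ₘ d * a) * two_eq_zero_poly (K := K)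
  · rw [coll_degree b3]
    exact mem_Pl.1 (Pl_mono hN b4)

private theorem coll_fiber {f : K[X]} {n h M N L : ℕ} (hf : f ∈ Mn K n) (hn : M + N = n)
    (hL : M + L = h) (e : K[X]) :
    ((SD f h N).filter fun d => f /ₘ d = e).card ≤ Fintype.card K ^ L :=
  coll_card_diff _ id (Set.injOn_id _) fun _ hx _ hy =>
    coll_diff hf hn hL (mem_filter.1 hx).1 (mem_filter.1 hy).1
      ((mem_filter.1 hx).2.trans (mem_filter.1 hy).2.symm)

theorem SD_card {f : K[X]} {n h M N L : ℕ} (hf : f ∈ Mn K n) (hn : M + N = n) (hL : M + L = h)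
    (hN : h ≤ N) : (SD f h N).card ≤ Fintype.card K ^ h := by
  refine (card_le_mul_card_image_of_maps_to (f := fun d => f /ₘ d) (t := Mn K M)
    (fun d hd => (coll_spec hf hn hd).2.2) _ fun e _ => coll_fiber hf hn hL e).trans ?_
  rw [card_Mn, ← pow_add, add_comm, hL]

theorem SD_coll {f w : K[X]} {n h M N L ω D β : ℕ} (hf : f ∈ Mn K n) (hn : M + N = n)
    (hL : M + L = h) (hN : h ≤ N) (hw : w ∈ Mn K ω) (hD : D ≤ M) (hQ : 2 * D + h ≤ n)
    (h1 : L + (L + ω + 1) / 2 + (2 * M - D) + 2 ≤ β)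
    (h2 : L + (L + ω + 1) / 2 + M + M / 4 + 8 ≤ β) :
    coll (SD f h N) w ≤ Fintype.card K ^ β := by
  have hF : w * f ∈ Mn K (ω + n) := mem_Mn.2 ⟨(mem_Mn.1 hw).1.mul (mem_Mn.1 hf).1, by
    rw [(mem_Mn.1 hw).1.natDegree_mul (mem_Mn.1 hf).1, (mem_Mn.1 hw).2, (mem_Mn.1 hf).2]⟩
  have main := fib_main hF hD
  have step : coll (SD f h N) w ≤ Fintype.card K ^ ((L + ω + 1) / 2) * Fintype.card K ^ L *
      ((Mn K M ×ˢ Pl K M).filter fun z =>
        derivative (w * f * z.1 * z.2 * (z.1 + z.2)) ∈ Pl K (ω + n + 3 * M - 2 * D)).card := by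
    refine card_le_mul_card_image_of_maps_to
      (f := fun z : K[X] × K[X] => (f /ₘ z.1, f /ₘ z.1 + f /ₘ z.2)) (fun z hz => ?_) _
      fun t _ => ?_
    · obtain ⟨z1, z2⟩ := mem_filter.1 hz
      obtain ⟨-, a2, a3⟩ := coll_spec hf hn (mem_product.1 z1).1
      obtain ⟨-, b2, b3⟩ := coll_spec hf hn (mem_product.1 z1).2
      refine mem_filter.2 ⟨mem_product.2 ⟨a3, coll_add_Mn a3 b3⟩, ?_⟩
      have e1 := modByMonic_add_div f z.1
      have e2 := modByMonic_add_div f z.2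
      have e3 := coll_sq z2
      have c1 := add_mem_Pl (mul_mem_Pl (mem_Mn.1 b3).2.le a2) (mul_mem_Pl (mem_Mn.1 a3).2.le b2)
      have c2 := mul_mem_Pl (mem_Mn.1 hw).2.le
        (mul_mem_Pl (mem_Mn.1 a3).2.le (mul_mem_Pl (mem_Mn.1 b3).2.le c1))
      simp only
      generalize f /ₘ z.1 = e at *
      generalize f /ₘ z.2 = e' at *
      generalize ev (w * z.1) + ev (w * z.2) = Z at e3
      have e4 : w * f * e * (e + e') * (e + (e + e')) = (e * e' * Z) ^ 2 + X * 0 ^ 2 +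
          w * (e * (e' * (e' * (f %ₘ z.1) + e * (f %ₘ z.2)))) := by
        linear_combination (-(w * e * e' * e')) * e1 - (w * e * e' * e) * e2 +
          (e * e') ^ 2 * e3 + (w * f * e * (e + e') * e) * two_eq_zero_poly (K := K)
      rw [e4, derivative_add, derivative_sq_add, sq (0 : K[X]), mul_zero, zero_add]
      exact Pl_mono (by omega) (mem_Pl.2 (degree_derivative_le.trans_lt (mem_Pl.1 c2)))
    · refine (card_le_mul_card_image_of_maps_to (f := Prod.fst)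
        (t := (SD f h N).filter fun d => f /ₘ d = t.1) (fun z hz => ?_)
        (Fintype.card K ^ ((L + ω + 1) / 2)) fun d _ => ?_).trans
        (Nat.mul_le_mul_left _ (coll_fiber hf hn hL t.1))
      · obtain ⟨z1, z2⟩ := mem_filter.1 hz
        exact mem_filter.2 ⟨(mem_product.1 (mem_filter.1 z1).1).1, congrArg Prod.fst z2⟩
      · have key : ∀ z ∈ ((((SD f h N ×ˢ SD f h N).filter fun z =>
            od (w * z.1) = od (w * z.2)).filter fun z =>
              (f /ₘ z.1, f /ₘ z.1 + f /ₘ z.2) = t).filter fun z => z.1 = d),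
            z.1 = d ∧ z.2 ∈ SD f h N ∧ od (w * d) = od (w * z.2) ∧ f /ₘ d + f /ₘ z.2 = t.2 := by
          intro z hz
          obtain ⟨z1, rfl⟩ := mem_filter.1 hz
          obtain ⟨z2, z3⟩ := mem_filter.1 z1
          obtain ⟨z4, z5⟩ := mem_filter.1 z2
          exact ⟨rfl, (mem_product.1 z4).2, z5, congrArg Prod.snd z3⟩
        refine coll_card_diff _ (fun z => ev (w * z.2)) (fun x hx y hy e => ?_)
          fun x hx y hy => ?_
        · obtain ⟨x1, -, x3, -⟩ := key x hx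
          obtain ⟨y1, -, y3, -⟩ := key y hy
          exact Prod.ext (x1.trans y1.symm) (mul_left_cancel₀ (mem_Mn.1 hw).1.ne_zero
            (eq_of_ev_od e (x3.symm.trans y3)))
        · obtain ⟨-, x2, x3, x4⟩ := key x hx
          obtain ⟨-, y2, y3, y4⟩ := key y hy
          have c1 := mul_mem_Pl (mem_Mn.1 hw).2.le
            (coll_diff hf hn hL x2 y2 (add_left_cancel (x4.trans y4.symm)))
          rw [mul_add, coll_sq (x3.symm.trans y3), add_comm ω L] at c1
          exact sq_mem_Pl_iff.1 c1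
  generalize ((Mn K M ×ˢ Pl K M).filter fun z =>
    derivative (w * f * z.1 * z.2 * (z.1 + z.2)) ∈ Pl K (ω + n + 3 * M - 2 * D)).card = G at *
  have hq : 2 ≤ Fintype.card K := Fintype.one_lt_card
  generalize Fintype.card K = q at *
  generalize (L + ω + 1) / 2 = s at *
  obtain ⟨b, rfl⟩ : ∃ b, β = b + 1 := ⟨β - 1, by omega⟩
  have q0 : 0 < q := by omega
  refine Nat.le_of_mul_le_mul_left (c := q ^ D) ?_ (by positivity)
  have t1 : q ^ (s + L + (2 * M + 1)) ≤ q ^ (D + b) := Nat.pow_le_pow_right q0 (by omega)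
  have t2 : q ^ (s + L + (D + M + M / 4 + 6) + 1) ≤ q ^ (D + b) :=
    Nat.pow_le_pow_right q0 (by omega)
  calc q ^ D * coll (SD f h N) w ≤ q ^ D * (q ^ s * q ^ L * G) := Nat.mul_le_mul_left _ step
    _ = q ^ s * q ^ L * (q ^ D * G) := by ring
    _ ≤ q ^ s * q ^ L * (q ^ (2 * M + 1) + 2 * q ^ (D + M + M / 4 + 6)) :=
      Nat.mul_le_mul_left _ main
    _ = q ^ (s + L + (2 * M + 1)) + q ^ (s + L + (D + M + M / 4 + 6)) * 2 := by ring
    _ ≤ q ^ (D + b) + q ^ (s + L + (D + M + M / 4 + 6)) * q := by gcongr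
    _ ≤ q ^ (D + b) + q ^ (D + b) := by rw [← pow_succ]; gcongr
    _ = q ^ (D + b) * 2 := by ring
    _ ≤ q ^ (D + b) * q := by gcongr
    _ = q ^ D * q ^ (b + 1) := by ring

theorem card_dvd_interval {f d : K[X]} {h N : ℕ} (hd : d ∈ Mn K N) (hN : h ≤ N) :
    ((Pl K h).filter fun a => d ∣ f + a).card = if f %ₘ d ∈ Pl K h then 1 else 0 := by
  have e : ((Pl K h).filter fun a => d ∣ f + a) = (Pl K h).filter fun a => a = f %ₘ d := by
    refine filter_congr fun a ha => ?_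
    have e1 : f + a = (a - f %ₘ d) + d * (f /ₘ d) := by
      linear_combination -modByMonic_add_div f d + (f %ₘ d) * two_eq_zero_poly (K := K)
    rw [e1, dvd_add_left (dvd_mul_right _ _), ← sub_eq_zero (a := a)]
    refine ⟨fun h1 => eq_zero_of_dvd_of_degree_lt h1 ?_, fun h1 => h1 ▸ dvd_zero d⟩
    refine (degree_sub_le _ _).trans_lt (max_lt ?_ (degree_modByMonic_lt f (mem_Mn.1 hd).1))
    rw [coll_degree hd]
    exact mem_Pl.1 (Pl_mono hN ha)
  rw [e, filter_eq']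
  split_ifs <;> simp

end Pool.Agent.P.MP_3bc45c_nt.SI
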