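import Pool.Agent.P.MP_3bc45c_nt.SI.EvOd

namespace Pool.Agent.P.MP_3bc45c_nt.SI

open Polynomial Finset Pool.Agent.P.MP_a1177c_nt.HL
open scoped Classical

variable {K : Type*} [Field K] [Fintype K] [CharP K 2]

open UniqueFactorizationMonoid in
omit [CharP K 2] in
private theorem div_card_le (s n : ℕ) {A : K[X]} (hA : A ≠ 0) (hn : A.natDegree ≤ n) :
    ∃ m : ℕ, m * s ≤ n ∧ ((Pl K (n + 1)).filter fun g => g.Monic ∧ g ∣ A).card ≤
      (n + 1) ^ (Fintype.card K ^ s) * 2 ^ m := by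
  set M := normalizedFactors A with hM
  have hdeg : ∑ π ∈ M.toFinset, M.count π * π.natDegree ≤ n := by
    have h1 : (M.map natDegree).sum = A.natDegree := by
      rw [← natDegree_multiset_prod _ (zero_notMem_normalizedFactors _)]
      exact natDegree_eq_of_degree_eq
        (degree_eq_degree_of_associated (prod_normalizedFactors hA))
    rw [Finset.sum_multiset_map_count] at h1
    simpa [h1.symm] using hn
  have h1 : ((Pl K (n + 1)).filter fun g => g.Monic ∧ g ∣ A).card ≤ (Finset.Iic M).card := by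
    refine card_le_card_of_injOn normalizedFactors (fun g hg => ?_) fun g hg g' hg' e => ?_
    · have h2 := (mem_filter.1 hg).2
      exact mem_coe.2 (Finset.mem_Iic.2
        ((dvd_iff_normalizedFactors_le_normalizedFactors h2.1.ne_zero hA).1 h2.2))
    · have h2 := (mem_filter.1 hg).2.1
      have h3 := (mem_filter.1 hg').2.1
      rw [← h2.normalize_eq_self, ← h3.normalize_eq_self, ← prod_normalizedFactors_eq h2.ne_zero,
        ← prod_normalizedFactors_eq h3.ne_zero, e]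
  refine ⟨∑ π ∈ M.toFinset.filter fun π => ¬ π.natDegree < s, M.count π, ?_, h1.trans ?_⟩
  · rw [sum_mul]
    refine le_trans (sum_le_sum fun π hπ => Nat.mul_le_mul_left _ ?_)
      ((sum_le_sum_of_subset (filter_subset _ _)).trans hdeg)
    exact not_lt.1 (mem_filter.1 hπ).2
  rw [Multiset.card_Iic, ← prod_filter_mul_prod_filter_not _ fun π => π.natDegree < s]
  refine Nat.mul_le_mul ?_ ?_
  · refine (prod_le_pow_card _ _ (n + 1) fun π hπ => ?_).trans
      (Nat.pow_le_pow_right n.succ_pos ?_)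
    · have h2 := (mem_filter.1 hπ).1
      have h3 := (irreducible_of_normalized_factor π (Multiset.mem_toFinset.1 h2)).natDegree_pos
      have h4 := (single_le_sum (f := fun π => M.count π * π.natDegree)
        (fun _ _ => Nat.zero_le _) h2).trans hdeg
      exact Nat.succ_le_succ ((Nat.le_mul_of_pos_right _ h3).trans h4)
    · rw [← card_Pl]
      refine card_le_card fun π hπ => mem_Pl.2 (degree_le_natDegree.trans_lt ?_)
      exact_mod_cast (mem_filter.1 hπ).2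
  · rw [← prod_pow_eq_pow_sum]
    exact prod_le_prod' fun π _ => Nat.lt_two_pow_self

theorem card_monic_dvd_le {ε : ℝ} (hε : 0 < ε) : ∃ n₀ : ℕ, ∀ n ≥ n₀, ∀ A : K[X], A ≠ 0 →
    A.natDegree ≤ n →
    (((Pl K (n + 1)).filter fun g => g.Monic ∧ g ∣ A).card : ℝ) ≤
      (Fintype.card K : ℝ) ^ (ε * n) := by
  obtain ⟨s, hs⟩ := exists_nat_ge (2 / ε)
  have hq := ro_two_le (K := K)
  obtain ⟨g₀, hg⟩ := absorb (A := 2 ^ (Fintype.card K ^ s)) hq (half_pos hε) (Fintype.card K ^ s)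
  refine ⟨max g₀ 1, fun n hn A hA hd => ?_⟩
  obtain ⟨m, h1, h2⟩ := div_card_le s n hA hd
  have h3 := hg n (le_of_max_le_left hn)
  have h4 : (1 : ℝ) ≤ n := by exact_mod_cast le_of_max_le_right hn
  have h5 : (m : ℝ) ≤ ε / 2 * n := by
    have h6 : (m : ℝ) * s ≤ n := by exact_mod_cast h1
    rw [div_le_iff₀ hε] at hs
    have h7 : (0 : ℝ) ≤ m := Nat.cast_nonneg m
    nlinarith
  calc _ ≤ ((n : ℝ) + 1) ^ (Fintype.card K ^ s) * 2 ^ m := by exact_mod_cast h2
    _ ≤ (Fintype.card K : ℝ) ^ (ε / 2 * n) * (Fintype.card K : ℝ) ^ (ε / 2 * n) := by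
      refine mul_le_mul (le_trans ?_ h3) ?_ (by positivity) (by positivity)
      · rw [← mul_pow]
        exact pow_le_pow_left₀ (by positivity) (by linarith) _
      · refine (pow_le_pow_left₀ zero_le_two hq m).trans ?_
        rw [← Real.rpow_natCast]
        exact Real.rpow_le_rpow_of_exponent_le (by linarith) h5
    _ = _ := by rw [← Real.rpow_add (by linarith)]; ring_nf

omit [CharP K 2] in
private theorem div_pairs {κ κ' l t : ℕ} {τ : ℝ} {A₀ : K[X]} (B₀ : K[X]) (hA : A₀ ∈ Mn K κ')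
    (hl : l ≤ κ') (hκ : κ' ≤ κ) (ht : t ≤ l)
    (hτ : ∀ A : K[X], A ≠ 0 → A.natDegree ≤ κ →
      (((Pl K (κ + 1)).filter fun g => g.Monic ∧ g ∣ A).card : ℝ) ≤ τ) :
    (((Pl K l ×ˢ Pl K l).filter fun z => ∃ g : K[X], g.Monic ∧ t ≤ g.natDegree ∧
      g ∣ A₀ + z.1 ∧ g ∣ B₀ + z.2).card : ℝ) * (Fintype.card K : ℝ) ^ t ≤
        τ * (Fintype.card K : ℝ) ^ (2 * l) := by
  have key : ∀ s ∈ Pl K l, (((Pl K l).filter fun r => ∃ g : K[X], g.Monic ∧ t ≤ g.natDegree ∧
      g ∣ A₀ + s ∧ g ∣ B₀ + r).card : ℝ) ≤ τ * (Fintype.card K : ℝ) ^ (l - t) := fun s hs => by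
    obtain ⟨h1, h2⟩ := mem_Mn.1 hA
    have h3 : s.degree < A₀.degree := by
      rw [degree_eq_natDegree h1.ne_zero, h2]
      exact (mem_Pl.1 hs).trans_le (by exact_mod_cast hl)
    have h4 : A₀ + s ≠ 0 := (h1.add_of_left h3).ne_zero
    have h5 : (A₀ + s).natDegree ≤ κ := by
      rw [natDegree_add_eq_left_of_degree_lt h3, h2]; exact hκ
    have h6 : ((Pl K l).filter fun r => ∃ g : K[X], g.Monic ∧ t ≤ g.natDegree ∧
        g ∣ A₀ + s ∧ g ∣ B₀ + r) ⊆ ((Pl K (κ + 1)).filter fun g => g.Monic ∧ g ∣ A₀ + s).biUnion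
          fun g => (Pl K l).filter fun r => t ≤ g.natDegree ∧ g ∣ B₀ + r := by
      intro r hr
      obtain ⟨hr, g, a1, a2, a3, a4⟩ := mem_filter.1 hr
      refine mem_biUnion.2 ⟨g, mem_filter.2 ⟨mem_Pl.2 (degree_le_natDegree.trans_lt ?_), a1, a3⟩,
        mem_filter.2 ⟨hr, a2, a4⟩⟩
      exact_mod_cast Nat.lt_succ_of_le ((natDegree_le_of_dvd a3 h4).trans h5)
    have h7 := (card_le_card h6).trans (card_biUnion_le_card_mul _ _ (Fintype.card K ^ (l - t))
      fun g hg => by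
        by_cases h8 : t ≤ g.natDegree
        · refine (card_le_of_Pl (mem_filter.1 hg).2.1.ne_zero (filter_subset _ _)
            fun r hr r' hr' => ?_).trans
            (Nat.pow_le_pow_right Fintype.card_pos (Nat.sub_le_sub_left h8 _))
          simpa using dvd_sub (mem_filter.1 hr).2.2 (mem_filter.1 hr').2.2
        · simp [h8])
    refine le_trans (by exact_mod_cast h7) (mul_le_mul_of_nonneg_right (hτ _ h4 h5) ?_)
    positivity
  have h1 : (((Pl K l ×ˢ Pl K l).filter fun z => ∃ g : K[X], g.Monic ∧ t ≤ g.natDegree ∧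
      g ∣ A₀ + z.1 ∧ g ∣ B₀ + z.2).card : ℝ) ≤
      (Fintype.card K : ℝ) ^ l * (τ * (Fintype.card K : ℝ) ^ (l - t)) := by
    rw [card_filter, sum_product, Nat.cast_sum]
    refine (sum_le_card_nsmul _ _ _ fun s hs => ?_).trans
      (by rw [card_Pl, nsmul_eq_mul, Nat.cast_pow])
    rw [← card_filter]
    exact key s hs
  refine (mul_le_mul_of_nonneg_right h1 (by positivity)).trans_eq ?_
  rw [show 2 * l = l + (l - t) + t by omega]
  ring

private theorem div_bad {t : ℕ} {Y : K[X]} (h : ¬ goodY t Y) :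
    ∃ g : K[X], g.Monic ∧ t ≤ g.natDegree ∧ g ∣ ev Y ∧ g ∣ od Y := by
  obtain ⟨g, h1, h2, h3⟩ := not_not.1 h
  rw [← ev_add_od Y] at h3
  have h4 := dvd_of_sq_dvd_sq_add h3
  refine ⟨g, h1, h2, ?_, h4⟩
  have h5 := (dvd_add_left ((pow_dvd_pow_of_dvd h4 2).mul_left X)).1 h3
  exact (UniqueFactorizationMonoid.pow_dvd_pow_iff_dvd two_ne_zero).1 h5

theorem bady {κ l t : ℕ} {τ : ℝ} {Y₀ : K[X]} (hY : Y₀ ∈ Mn K κ) (hl : 2 * l ≤ κ) (ht : t ≤ l)
    (hτ : ∀ A : K[X], A ≠ 0 → A.natDegree ≤ κ →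
      (((Pl K (κ + 1)).filter fun g => g.Monic ∧ g ∣ A).card : ℝ) ≤ τ) :
    (((Pl K (2 * l)).filter fun z => ¬ goodY t (Y₀ + z)).card : ℝ) *
        (Fintype.card K : ℝ) ^ t ≤ τ * (Fintype.card K : ℝ) ^ (2 * l) := by
  have hz : ∀ z ∈ Pl K (2 * l), ev z ∈ Pl K l ∧ od z ∈ Pl K l := fun z hz => by
    have := mem_Pl_iff_ev_od.1 hz
    rwa [show (2 * l + 1) / 2 = l by omega, show 2 * l / 2 = l by omega] at this
  obtain ⟨k, rfl | rfl⟩ := Nat.even_or_odd' κ
  · refine le_trans (mul_le_mul_of_nonneg_right (Nat.cast_le.2 ?_) (by positivity))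
      (div_pairs (od Y₀) (ev_mem_Mn hY).1 (by omega) (by omega) ht hτ)
    refine card_le_card_of_injOn (fun z => (ev z, od z)) (fun z h => ?_) fun z _ z' _ e =>
      eq_of_ev_od (congrArg Prod.fst e) (congrArg Prod.snd e)
    obtain ⟨h1, h2⟩ := mem_filter.1 h
    obtain ⟨g, a1, a2, a3, a4⟩ := div_bad h2
    exact mem_coe.2 (mem_filter.2 ⟨mem_product.2 (hz z h1), g, a1, a2, by rwa [← ev_add],
      by rwa [← od_add]⟩)
  · refine le_trans (mul_le_mul_of_nonneg_right (Nat.cast_le.2 ?_) (by positivity))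
      (div_pairs (ev Y₀) (od_mem_Mn hY).1 (by omega) (by omega) ht hτ)
    refine card_le_card_of_injOn (fun z => (od z, ev z)) (fun z h => ?_) fun z _ z' _ e =>
      eq_of_ev_od (congrArg Prod.snd e) (congrArg Prod.fst e)
    obtain ⟨h1, h2⟩ := mem_filter.1 h
    obtain ⟨g, a1, a2, a3, a4⟩ := div_bad h2
    exact mem_coe.2 (mem_filter.2 ⟨mem_product.2 (hz z h1).symm, g, a1, a2, by rwa [← od_add],
      by rwa [← ev_add]⟩)

theorem bad_sum {D : Finset K[X]} {N L ω κ l t : ℕ} {τ : ℝ} {w : K[X]} (hD : D ⊆ Mn K N)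
    (hI : Inv D L) (hw : w ∈ Irr K ω) (hκ : N + ω = 2 * κ + 1) (h1 : 4 * l ≤ L + ω)
    (h2 : ω ≤ L + 1) (hl : 2 * l ≤ κ) (ht : t ≤ l)
    (hτ : ∀ A : K[X], A ≠ 0 → A.natDegree ≤ κ →
      (((Pl K (κ + 1)).filter fun g => g.Monic ∧ g ∣ A).card : ℝ) ≤ τ) :
    ((D.filter fun d => ¬ goodY t (od (w * d))).card : ℝ) * (Fintype.card K : ℝ) ^ t ≤
      τ * D.card := by
  have hq : (0 : ℝ) < (Fintype.card K : ℝ) ^ (2 * l) := by
    have := ro_two_le (K := K)
    positivity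
  have h3 : ∀ z ∈ Pl K (2 * l), ((D.filter fun d => ¬ goodY t (od (w * d))).card : ℝ) =
      ∑ d ∈ D, if ¬ goodY t (od (w * d) + z) then 1 else 0 := fun z hz => by
    obtain ⟨a, ha, e⟩ := exists_od_eq hw hz (by omega) h2
    rw [← sum_boole, ← hI.sum_shift ha]
    simp only [mul_add, od_add, e]
  have h4 : (Fintype.card K : ℝ) ^ (2 * l) *
      ((D.filter fun d => ¬ goodY t (od (w * d))).card : ℝ) =
      ∑ d ∈ D, (((Pl K (2 * l)).filter fun z => ¬ goodY t (od (w * d) + z)).card : ℝ) := by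
    simp only [← sum_boole (fun z => ¬ goodY t (od (w * _) + z))]
    rw [sum_comm, ← sum_congr rfl h3, sum_const, card_Pl, nsmul_eq_mul, Nat.cast_pow]
  refine le_of_mul_le_mul_left ?_ hq
  rw [← mul_assoc, h4, sum_mul]
  refine (sum_le_card_nsmul _ _ (τ * (Fintype.card K : ℝ) ^ (2 * l)) fun d hd => ?_).trans_eq
    (by rw [nsmul_eq_mul]; ring)
  obtain ⟨a1, a2⟩ := mem_Mn.1 (hD hd)
  obtain ⟨b1, b2, -⟩ := mem_Irr.1 hw
  refine bady (od_mem_Mn (mem_Mn.2 ⟨b1.mul a1, ?_⟩)).1 hl ht hτ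
  rw [b1.natDegree_mul a1, a2, b2, ← hκ, add_comm]

theorem card_dvd_inv {D : Finset K[X]} {L : ℕ} (hI : Inv D L) {G : K[X]} (hG : G.Monic)
    (hL : G.natDegree ≤ L) :
    (D.filter fun d => G ∣ d).card * Fintype.card K ^ G.natDegree ≤ D.card := by
  rw [← card_Pl, ← card_product]
  refine card_le_card_of_injOn (fun z => z.1 + z.2) (fun z hz => ?_) fun z hz z' hz' e => ?_
  · obtain ⟨h1, h2⟩ := mem_product.1 hz
    exact hI _ (mem_filter.1 h1).1 _ (Pl_mono hL h2)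
  · obtain ⟨h1, h2⟩ := mem_product.1 hz
    obtain ⟨h3, h4⟩ := mem_product.1 hz'
    simp only at e
    have h5 : z'.2 - z.2 = z.1 - z'.1 := by linear_combination -e
    have h6 : z'.2 - z.2 = 0 := by
      refine eq_zero_of_dvd_of_degree_lt (h5 ▸ dvd_sub (mem_filter.1 h1).2 (mem_filter.1 h3).2) ?_
      rw [degree_eq_natDegree hG.ne_zero]
      exact (degree_sub_le _ _).trans_lt (max_lt (mem_Pl.1 h4) (mem_Pl.1 h2))
    exact Prod.ext (by linear_combination h6 - h5) (by linear_combination -h6)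

end Pool.Agent.P.MP_3bc45c_nt.SI
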