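import Pool.Agent.P.MP_3bc45c_nt.SI.Var
import Pool.Agent.P.MP_3bc45c_nt.SI.Div
import Pool.Agent.P.MP_3bc45c_nt.SI.BadP

namespace Pool.Agent.P.MP_3bc45c_nt.SI

open Polynomial Finset Pool.Agent.P.MP_a1177c_nt.HL
open scoped Classical

variable {K : Type*} [Field K] [Fintype K] [CharP K 2]

private theorem conc_od_mem {D : Finset K[X]} {w d : K[X]} {N ω κ : ℕ} (hD : D ⊆ Mn K N)
    (hw : w ∈ Irr K ω) (hκ : N + ω = 2 * κ + 1) (hd : d ∈ D) : od (w * d) ∈ Mn K κ := by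
  obtain ⟨hm, hdeg, -⟩ := mem_Irr.1 hw
  obtain ⟨hm', hdeg'⟩ := mem_Mn.1 (hD hd)
  refine (od_mem_Mn ?_).1
  rw [mem_Mn]
  refine ⟨hm.mul hm', ?_⟩
  rw [hm.natDegree_mul hm']
  omega

private theorem conc_rr_le {j k κ : ℕ} {Y : K[X]} (hj : 1 ≤ j) (hY : Y ∈ Mn K κ) :
    (rr j k Y : ℝ) ≤ 2 ^ (κ / j) := by
  obtain ⟨hm, hdeg⟩ := mem_Mn.1 hY
  exact_mod_cast rr_le (k := k) hj hm.ne_zero hdeg.le

private theorem conc_abs_le {j k κ : ℕ} {Y : K[X]} (hj : 1 ≤ j) (hY : Y ∈ Mn K κ) :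
    |(rr j k Y : ℝ) - sig K j k| ≤ 2 ^ (κ / j) := by
  have h1 := conc_rr_le (k := k) hj hY
  have h2 := sig_nonneg (K := K) j k
  have h3 := sig_le_one (K := K) j k
  have h4 : (1 : ℝ) ≤ 2 ^ (κ / j) := one_le_pow₀ (by norm_num)
  have h5 : (0 : ℝ) ≤ rr j k Y := Nat.cast_nonneg _
  rw [abs_le]
  constructor <;> linarith

private theorem conc_shift {D : Finset K[X]} {w w' : K[X]} {L ω l : ℕ} (hI : Inv D L)
    (hw' : w' ∈ Irr K ω) (hl : 2 * l + ω ≤ L + 1) (F G : K[X] → ℝ) :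
    (∑ d ∈ D, F (od (w * d)) * G (od (w' * d))) =
      ∑ d ∈ D, (∑ z ∈ Pl K l, F (od (w * d) + od (w * w') * z)) / (Fintype.card K : ℝ) ^ l *
        G (od (w' * d)) := by
  obtain ⟨hm, hdeg, -⟩ := mem_Irr.1 hw'
  have hq : (0 : ℝ) < (Fintype.card K : ℝ) ^ l := by
    have := ro_two_le (K := K)
    positivity
  have key : ∀ z ∈ Pl K l, (∑ d ∈ D, F (od (w * d)) * G (od (w' * d))) =
      ∑ d ∈ D, F (od (w * d) + od (w * w') * z) * G (od (w' * d)) := by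
    intro z hz
    have ha : w' * z ^ 2 ∈ Pl K L := by
      rw [mem_Pl_iff'] at hz ⊢
      rcases hz with rfl | hz
      · simp
      · right
        have h1 := natDegree_mul_le (p := w') (q := z ^ 2)
        have h2 : (z ^ 2).natDegree = 2 * z.natDegree := natDegree_pow z 2
        omega
    rw [← hI.sum_shift ha fun d => F (od (w * d)) * G (od (w' * d))]
    refine sum_congr rfl fun d _ => ?_
    have e1 : w * (d + w' * z ^ 2) = w * d + w * w' * z ^ 2 := by ring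
    have e2 : w' * (d + w' * z ^ 2) = w' * d + (w' * z) ^ 2 := by ring
    rw [e1, e2, od_add, od_add, od_mul_sq, od_sq, add_zero]
  have h1 : ∑ z ∈ Pl K l, (∑ d ∈ D, F (od (w * d)) * G (od (w' * d))) =
      ∑ z ∈ Pl K l, ∑ d ∈ D, F (od (w * d) + od (w * w') * z) * G (od (w' * d)) :=
    sum_congr rfl key
  rw [sum_const, card_Pl, nsmul_eq_mul, sum_comm] at h1
  push_cast at h1
  refine mul_left_cancel₀ hq.ne' ?_
  rw [h1, mul_sum]
  refine sum_congr rfl fun d _ => ?_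
  rw [← sum_mul]
  field_simp

theorem cross_le {D : Finset K[X]} {w w' : K[X]} {N L ω κ j k l : ℕ} (hD : D ⊆ Mn K N)
    (hI : Inv D L) (hw : w ∈ Irr K ω) (hw' : w' ∈ Irr K ω) (hne : w ≠ w')
    (hκ : N + ω = 2 * κ + 1) (hj : ω ≤ j) (hk : k * j ≤ κ) (hl : 2 * l + ω ≤ L + 1)
    (hl' : ω + l ≤ κ) :
    (∑ d ∈ D, ((rr j k (od (w * d)) : ℝ) - sig K j k) * (rr j k (od (w' * d)) - sig K j k)) ^ 2 *
        (Fintype.card K : ℝ) ^ l ≤
      if k * j ≤ l then 0 else (2 ^ (κ / j)) ^ 2 * (coll D w : ℝ) *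
        (2 ^ k * (Fintype.card K : ℝ) ^ (κ + (2 * (k * j) - κ))) := by
  obtain ⟨hΔ0, hΔ⟩ := od_mul_Irr hw hw' hne
  have hΔd : (od (w * w')).natDegree < ω := (mem_Pl_iff'.1 hΔ).resolve_left hΔ0
  have hq : (0 : ℝ) < (Fintype.card K : ℝ) ^ l := by
    have := ro_two_le (K := K)
    positivity
  set G : K[X] → ℝ := fun Y =>
    (∑ z ∈ Pl K l, (rr j k (Y + od (w * w') * z) : ℝ)) / (Fintype.card K : ℝ) ^ l - sig K j k
    with hG
  have h1 : (∑ d ∈ D, ((rr j k (od (w * d)) : ℝ) - sig K j k) *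
      (rr j k (od (w' * d)) - sig K j k)) =
      ∑ d ∈ D, G (od (w * d)) * (rr j k (od (w' * d)) - sig K j k) := by
    rw [conc_shift (w := w) hI hw' hl (fun Y => (rr j k Y : ℝ) - sig K j k)
      (fun Y => (rr j k Y : ℝ) - sig K j k)]
    refine sum_congr rfl fun d _ => ?_
    congr 1
    simp only [hG]
    rw [sum_sub_distrib, sum_const, card_Pl, nsmul_eq_mul]
    push_cast
    field_simp
  rw [h1]
  split_ifs with hkl
  · have h2 : ∀ Y, G Y = 0 := fun Y => by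
      simp only [hG]
      rw [sum_rr_prog hΔ0 (by omega) hkl]
      field_simp
      ring
    simp [h2]
  · have h2 : |∑ d ∈ D, G (od (w * d)) * (rr j k (od (w' * d)) - sig K j k)| ≤
        2 ^ (κ / j) * ∑ d ∈ D, |G (od (w * d))| := by
      rw [mul_sum]
      refine (abs_sum_le_sum_abs _ _).trans (sum_le_sum fun d hd => ?_)
      rw [abs_mul, mul_comm]
      exact mul_le_mul_of_nonneg_right
        (conc_abs_le (by omega) (conc_od_mem hD hw' hκ hd)) (abs_nonneg _)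
    have h3 := sum_od_sq_le (D := D) (w := w) (R := Mn K κ)
      (fun d hd => conc_od_mem hD hw hκ hd) fun Y => |G Y|
    simp only [sq_abs] at h3
    have h4 : (∑ Y ∈ Mn K κ, G Y ^ 2) * (Fintype.card K : ℝ) ^ l ≤
        2 ^ k * (Fintype.card K : ℝ) ^ (κ + (2 * (k * j) - κ)) :=
      var hΔ0 (by omega) hk (by omega)
    have h5 := pow_le_pow_left₀ (abs_nonneg _) h2 2
    rw [sq_abs, mul_pow] at h5
    have h6 : (0 : ℝ) ≤ (2 ^ (κ / j)) ^ 2 := by positivity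
    have h7 : (0 : ℝ) ≤ coll D w := Nat.cast_nonneg _
    calc _ ≤ (2 ^ (κ / j)) ^ 2 * ((coll D w : ℝ) * ∑ Y ∈ Mn K κ, G Y ^ 2) *
          (Fintype.card K : ℝ) ^ l :=
          mul_le_mul_of_nonneg_right (h5.trans (mul_le_mul_of_nonneg_left h3 h6)) hq.le
      _ = (2 ^ (κ / j)) ^ 2 * (coll D w : ℝ) *
          ((∑ Y ∈ Mn K κ, G Y ^ 2) * (Fintype.card K : ℝ) ^ l) := by ring
      _ ≤ _ := mul_le_mul_of_nonneg_left h4 (mul_nonneg h6 h7)

omit [Fintype K] [CharP K 2] in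
/-- the second moment of the fluctuation -/
private theorem conc_second {ι : Type*} (S : Finset ι) (D : Finset K[X]) (a : ι → K[X] → ℝ)
    {A C : ℝ} (hC : 0 ≤ C) (h1 : ∀ w ∈ S, ∑ d ∈ D, a w d * a w d ≤ A)
    (h2 : ∀ w ∈ S, ∀ w' ∈ S, w ≠ w' → ∑ d ∈ D, a w d * a w' d ≤ C) :
    (∑ d ∈ D, mu d * ∑ w ∈ S, a w d) ^ 2 ≤ D.card * (S.card * A + S.card ^ 2 * C) := by
  have h3 := sum_mul_sq_le_sq_mul_sq D (fun d => mu d) fun d => ∑ w ∈ S, a w d
  have h4 : ∑ d ∈ D, mu d ^ 2 ≤ D.card := by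
    have : ∀ d ∈ D, mu d ^ 2 ≤ 1 := fun d _ => by
      rw [← sq_abs]
      exact pow_le_one₀ (abs_nonneg _) (abs_mu_le d)
    simpa using sum_le_card_nsmul D _ _ this
  have h5 : ∑ d ∈ D, (∑ w ∈ S, a w d) ^ 2 ≤ S.card * A + S.card ^ 2 * C := by
    have e : ∑ d ∈ D, (∑ w ∈ S, a w d) ^ 2 = ∑ w ∈ S, ∑ w' ∈ S, ∑ d ∈ D, a w d * a w' d := by
      simp only [sq, sum_mul_sum]
      rw [sum_comm]
      exact sum_congr rfl fun w _ => sum_comm
    rw [e]
    have h6 : ∀ w ∈ S, ∑ w' ∈ S, ∑ d ∈ D, a w d * a w' d ≤ A + S.card * C := by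
      intro w hw
      rw [← add_sum_erase S _ hw]
      refine add_le_add (h1 w hw) ?_
      have h7 := sum_le_card_nsmul (S.erase w) (fun w' => ∑ d ∈ D, a w d * a w' d) C
        fun w' hw' => h2 w hw w' (mem_of_mem_erase hw') (ne_of_mem_erase hw').symm
      rw [nsmul_eq_mul] at h7
      refine h7.trans (mul_le_mul_of_nonneg_right ?_ hC)
      exact_mod_cast card_erase_le
    have h8 := sum_le_card_nsmul S _ _ h6
    rw [nsmul_eq_mul] at h8
    refine h8.trans (le_of_eq ?_)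
    ring
  refine h3.trans (mul_le_mul h4 h5 (sum_nonneg fun d _ => sq_nonneg _) (Nat.cast_nonneg _))

omit [Fintype K] [CharP K 2] in
/-- removing the multiples of `w` -/
private theorem conc_first {D : Finset K[X]} {w : K[X]} (hw : Irreducible w) (r : K[X] → ℝ)
    {B T : ℝ} (hr : ∀ d ∈ D, |r d| ≤ B) (hT : |∑ d ∈ D, mu (w * d) * r d| ≤ T) :
    |∑ d ∈ D, mu d * r d| ≤ T + (D.filter fun d => w ∣ d).card * B := by
  have e : ∑ d ∈ D, mu d * r d =
      -(∑ d ∈ D, mu (w * d) * r d) + ∑ d ∈ D.filter (fun d => w ∣ d), mu d * r d := by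
    rw [sum_filter, ← sum_neg_distrib, ← sum_add_distrib]
    refine sum_congr rfl fun d _ => ?_
    rw [mu_irreducible_mul hw]
    split_ifs <;> ring
  rw [e]
  refine (abs_add_le _ _).trans (add_le_add (by rwa [abs_neg]) ?_)
  refine (abs_sum_le_sum_abs _ _).trans ?_
  have h1 := sum_le_card_nsmul (D.filter fun d => w ∣ d) (fun d => |mu d * r d|) B
    fun d hd => by
      rw [abs_mul]
      have h2 := abs_mu_le d
      have h3 := hr d (mem_filter.1 hd).1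
      have h4 := abs_nonneg (r d)
      have h5 := abs_nonneg (mu d)
      nlinarith
  rwa [nsmul_eq_mul] at h1

theorem main_b (k R : ℕ) {c₁ : ℝ} (hc : 0 < c₁) (hc' : c₁ ≤ 1 / 4) : ∃ g₀ : ℕ, ∀ g ≥ g₀,
    ∀ (D : Finset K[X]) (N L h β ω κ j l : ℕ), D ⊆ Mn K N → Inv D L →
    D.card ≤ Fintype.card K ^ h → N ≤ R * g → g ≤ ω → ω ≤ g + 1 → N + ω = 2 * κ + 1 →
    5 * g ≤ j → j ≤ 10 * g → k * j ≤ κ → ω ≤ L → 2 * l + ω ≤ L + 1 → ω + l ≤ κ →
    (k * j ≤ l ∨ ((∀ w ∈ Irr K ω, coll D w ≤ Fintype.card K ^ β) ∧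
      β + κ + (2 * (k * j) - κ) + 2 * g ≤ 2 * h + l)) →
    (∀ w ∈ Irr K ω, |∑ d ∈ D, mu (w * d) * rr j k (od (w * d))| ≤
      (Fintype.card K : ℝ) ^ h * (Fintype.card K : ℝ) ^ (-(c₁ * g))) →
    |∑ d ∈ D, mu d| ≤ (Fintype.card K : ℝ) ^ h * (Fintype.card K : ℝ) ^ (-(c₁ / 2 * g)) := by
  have hq2 := ro_two_le (K := K)
  obtain ⟨g₁, hg₁⟩ := card_Irr_ge (K := K)
  obtain ⟨g₂, hg₂⟩ := sig_ge (K := K) k
  obtain ⟨g₃, hg₃⟩ := absorb (A := (20 * k + 1 : ℝ) ^ k *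
    (1 + 2 ^ (R + 1) + (4 * (2 ^ (R + 1)) ^ 2 + 2 ^ (R + 1) * 2 ^ k))) hq2 (half_pos hc) (k + 1)
  refine ⟨g₁ + g₂ + g₃ + 1, ?_⟩
  intro g hg D N L h β ω κ j l hD hI hcard hN hω1 hω2 hκ hj1 hj2 hk hL hl hl' hcase hsum
  set q : ℝ := (Fintype.card K : ℝ) with hqdef
  have hq0 : 0 < q := by linarith
  have hq1 : 1 ≤ q := by linarith
  set B : ℝ := 2 ^ (κ / j) with hB
  set B₀ : ℝ := 2 ^ (R + 1) with hB₀
  have hB1 : 1 ≤ B := one_le_pow₀ (by norm_num)
  have hBB : B ≤ B₀ := by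
    refine pow_le_pow_right₀ (by norm_num) (Nat.div_le_of_le_mul ?_)
    have h1 : R * g ≤ R * j := Nat.mul_le_mul_left _ (by omega)
    have h2 : j * (R + 1) = R * j + j := by ring
    omega
  set x : ℝ := q ^ (-(c₁ * g)) with hx
  have hg1 : (1 : ℝ) ≤ g := by exact_mod_cast (by omega : 1 ≤ g)
  have hx0 : 0 < x := Real.rpow_pos_of_pos hq0 _
  have hx1 : x ≤ 1 := Real.rpow_le_one_of_one_le_of_nonpos hq1 (neg_nonpos.2 (by positivity))
  have hx2 : 1 ≤ x ^ 2 * q ^ g := by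
    rw [hx, ← Real.rpow_natCast, ← Real.rpow_mul hq0.le, ← Real.rpow_natCast q g,
      ← Real.rpow_add hq0]
    refine Real.one_le_rpow hq1 ?_
    push_cast
    have h1 := mul_le_mul_of_nonneg_right hc' (zero_le_one.trans hg1)
    linarith
  have hqg : (0 : ℝ) < q ^ g := by positivity
  have hqh : (0 : ℝ) < q ^ h := by positivity
  have hx3 : 1 ≤ x * q ^ g := by
    refine hx2.trans (mul_le_mul_of_nonneg_right ?_ hqg.le)
    rw [sq]
    exact mul_le_of_le_one_right hx0.le hx1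
  have hDc : (D.card : ℝ) ≤ q ^ h := by
    rw [hqdef]
    exact_mod_cast hcard
  set W : ℝ := ((Irr K ω).card : ℝ) with hW
  have hW1 : q ^ g ≤ 4 * g * W := by
    have h1 := hg₁ ω (by omega)
    have h2 : q ^ g ≤ q ^ ω := pow_le_pow_right₀ hq1 hω1
    have h3 : (ω : ℝ) ≤ 2 * g := by exact_mod_cast (by omega : ω ≤ 2 * g)
    have h4 : 0 ≤ W := Nat.cast_nonneg _
    have h5 := mul_le_mul_of_nonneg_right h3 h4
    linarith
  have hW0 : 0 < W := by
    by_contra h0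
    have h1 : 4 * g * W ≤ 0 := mul_nonpos_of_nonneg_of_nonpos (by positivity) (not_lt.1 h0)
    linarith
  set s : ℝ := sig K j k with hs
  have habs : ∀ w ∈ Irr K ω, ∀ d ∈ D, |(rr j k (od (w * d)) : ℝ) - s| ≤ B := fun w hw d hd =>
    conc_abs_le (by omega) (conc_od_mem hD hw hκ hd)
  -- first term
  have hT1 : ∀ w ∈ Irr K ω, |∑ d ∈ D, mu d * rr j k (od (w * d))| ≤ q ^ h * x * (1 + B) := by
    intro w hw
    obtain ⟨hm, hdeg, hi⟩ := mem_Irr.1 hw
    have h1 := conc_first hi (fun d => (rr j k (od (w * d)) : ℝ)) (B := B)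
      (fun d hd => by
        rw [abs_of_nonneg (Nat.cast_nonneg _)]
        exact conc_rr_le (by omega) (conc_od_mem hD hw hκ hd)) (hsum w hw)
    have h2 : ((D.filter fun d => w ∣ d).card : ℝ) * q ^ ω ≤ D.card := by
      have := card_dvd_inv hI hm (by omega)
      rw [hdeg] at this
      rw [hqdef]
      exact_mod_cast this
    have h3 : q ^ g ≤ q ^ ω := pow_le_pow_right₀ hq1 hω1
    have h4 : (0 : ℝ) ≤ (D.filter fun d => w ∣ d).card := Nat.cast_nonneg _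
    have h5 : ((D.filter fun d => w ∣ d).card : ℝ) ≤ q ^ h * x := by
      calc ((D.filter fun d => w ∣ d).card : ℝ)
          ≤ (D.filter fun d => w ∣ d).card * (x * q ^ g) := le_mul_of_one_le_right h4 hx3
        _ ≤ (D.filter fun d => w ∣ d).card * (x * q ^ ω) := by gcongr
        _ = (D.filter fun d => w ∣ d).card * q ^ ω * x := by ring
        _ ≤ q ^ h * x := mul_le_mul_of_nonneg_right (h2.trans hDc) hx0.le
    refine h1.trans ?_
    have h6 := mul_le_mul_of_nonneg_right h5 (by linarith : 0 ≤ B)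
    linarith
  -- second term
  set E : ℝ := 4 * g * B ^ 2 + B * 2 ^ k with hE
  have h2k : (1 : ℝ) ≤ 2 ^ k := one_le_pow₀ (by norm_num)
  have hE1 : 1 ≤ E := by
    have h1 : 0 ≤ 4 * g * B ^ 2 := by positivity
    have h2 := one_le_mul_of_one_le_of_one_le hB1 h2k
    linarith
  have hT2 : |∑ d ∈ D, mu d * ∑ w ∈ Irr K ω, ((rr j k (od (w * d)) : ℝ) - s)| ≤
      W * q ^ h * E * x := by
    have h1 := conc_second (Irr K ω) D (fun w d => (rr j k (od (w * d)) : ℝ) - s)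
      (A := q ^ h * B ^ 2) (C := B * 2 ^ k * q ^ h / q ^ g) (by positivity)
      (fun w hw => by
        have h2 := sum_le_card_nsmul D
          (fun d => ((rr j k (od (w * d)) : ℝ) - s) * ((rr j k (od (w * d)) : ℝ) - s)) (B ^ 2)
          fun d hd => by
            rw [← sq, ← sq_abs]
            exact pow_le_pow_left₀ (abs_nonneg _) (habs w hw d hd) 2
        rw [nsmul_eq_mul] at h2
        exact h2.trans (mul_le_mul_of_nonneg_right hDc (by positivity)))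
      (fun w hw w' hw' hne => by
        have h2 := cross_le hD hI hw hw' hne hκ (j := j) (k := k) (by omega) hk hl hl'
        rw [← hqdef, ← hs, ← hB] at h2
        set C := ∑ d ∈ D, ((rr j k (od (w * d)) : ℝ) - s) * ((rr j k (od (w' * d)) : ℝ) - s)
        have hql : (0 : ℝ) < q ^ l := by positivity
        have h3 : C ^ 2 * q ^ l * q ^ (2 * g) ≤ B ^ 2 * 2 ^ k * q ^ (2 * h + l) := by
          split_ifs at h2 with hkl
          · have h4 : C ^ 2 * q ^ l * q ^ (2 * g) ≤ 0 :=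
              mul_nonpos_of_nonpos_of_nonneg h2 (by positivity)
            exact h4.trans (by positivity)
          · obtain ⟨h4, h5⟩ := hcase.resolve_left hkl
            have h6 : (coll D w : ℝ) ≤ q ^ β := by
              rw [hqdef]
              exact_mod_cast h4 w hw
            calc C ^ 2 * q ^ l * q ^ (2 * g)
                ≤ B ^ 2 * q ^ β * (2 ^ k * q ^ (κ + (2 * (k * j) - κ))) * q ^ (2 * g) := by
                  refine mul_le_mul_of_nonneg_right (h2.trans ?_) (by positivity)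
                  gcongr
              _ = B ^ 2 * 2 ^ k * q ^ (β + (κ + (2 * (k * j) - κ)) + 2 * g) := by
                  rw [pow_add q (β + _), pow_add q β]
                  ring
              _ ≤ _ := mul_le_mul_of_nonneg_left (pow_le_pow_right₀ hq1 (by omega))
                  (by positivity)
        rw [le_div_iff₀ hqg]
        refine le_of_sq_le_sq ?_ (by positivity)
        have h4 : (C * q ^ g) ^ 2 * q ^ l ≤ (B * 2 ^ k * q ^ h) ^ 2 * q ^ l := by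
          calc (C * q ^ g) ^ 2 * q ^ l = C ^ 2 * q ^ l * q ^ (2 * g) := by ring
            _ ≤ B ^ 2 * 2 ^ k * q ^ (2 * h + l) := h3
            _ = B ^ 2 * 2 ^ k * q ^ (2 * h + l) * 1 := by ring
            _ ≤ B ^ 2 * 2 ^ k * q ^ (2 * h + l) * 2 ^ k := by gcongr
            _ = _ := by ring
        exact le_of_mul_le_mul_right h4 hql)
    rw [← hW] at h1
    refine abs_le_of_sq_le_sq ?_ (by positivity)
    refine h1.trans ?_
    have h2 : W * (q ^ h * B ^ 2) + W ^ 2 * (B * 2 ^ k * q ^ h / q ^ g) ≤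
        W ^ 2 * q ^ h * E / q ^ g := by
      rw [le_div_iff₀ hqg, add_mul, mul_assoc (W ^ 2), div_mul_cancel₀ _ hqg.ne', hE]
      have h3 : W * (q ^ h * B ^ 2) * q ^ g ≤ W * (q ^ h * B ^ 2) * (4 * g * W) := by gcongr
      linarith
    have h3 : W ^ 2 * q ^ h * E / q ^ g ≤ W ^ 2 * q ^ h * E ^ 2 * x ^ 2 := by
      rw [div_le_iff₀ hqg]
      calc W ^ 2 * q ^ h * E = W ^ 2 * q ^ h * E * 1 * 1 := by ring
        _ ≤ W ^ 2 * q ^ h * E * E * (x ^ 2 * q ^ g) := by gcongr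
        _ = _ := by ring
    calc (D.card : ℝ) * (W * (q ^ h * B ^ 2) + W ^ 2 * (B * 2 ^ k * q ^ h / q ^ g))
        ≤ q ^ h * (W ^ 2 * q ^ h * E ^ 2 * x ^ 2) :=
          mul_le_mul hDc (h2.trans h3) (by positivity) hqh.le
      _ = _ := by ring
  -- combination
  have e : W * (s * ∑ d ∈ D, mu d) = (∑ w ∈ Irr K ω, ∑ d ∈ D, mu d * rr j k (od (w * d))) -
      ∑ d ∈ D, mu d * ∑ w ∈ Irr K ω, ((rr j k (od (w * d)) : ℝ) - s) := by
    rw [sum_comm, ← sum_sub_distrib, mul_sum, mul_sum]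
    refine sum_congr rfl fun d _ => ?_
    rw [sum_sub_distrib, sum_const, nsmul_eq_mul, ← mul_sum, ← hW]
    ring
  have hs0 : 0 ≤ s := sig_nonneg j k
  have h1 : W * (s * |∑ d ∈ D, mu d|) ≤ W * (q ^ h * x * (1 + B + E)) := by
    have h2 : W * (s * |∑ d ∈ D, mu d|) = |W * (s * ∑ d ∈ D, mu d)| := by
      rw [abs_mul, abs_mul, abs_of_pos hW0, abs_of_nonneg hs0]
    have h3 := sum_le_card_nsmul (Irr K ω) _ _ hT1
    rw [nsmul_eq_mul, ← hW] at h3
    have h4 := (abs_sum_le_sum_abs (fun w => ∑ d ∈ D, mu d * rr j k (od (w * d)))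
      (Irr K ω)).trans h3
    rw [h2, e]
    refine (abs_sub _ _).trans ((add_le_add h4 hT2).trans (le_of_eq ?_))
    ring
  have h2 := le_of_mul_le_mul_left h1 hW0
  have h3 : 1 ≤ s * ((20 * k + 1) ^ k * (g : ℝ) ^ k) := by
    refine (hg₂ j (by omega)).trans (mul_le_mul_of_nonneg_left ?_ hs0)
    rw [← mul_pow]
    refine pow_le_pow_left₀ (by positivity) ?_ k
    have h4 : (j : ℝ) ≤ 10 * g := by exact_mod_cast hj2
    have h5 := mul_le_mul_of_nonneg_right h4 (Nat.cast_nonneg k : (0 : ℝ) ≤ k)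
    linarith
  have h4 : 1 + B + E ≤ (1 + B₀ + (4 * B₀ ^ 2 + B₀ * 2 ^ k)) * g := by
    have h5 : B ^ 2 ≤ B₀ ^ 2 := by gcongr
    have h6 : B * 2 ^ k ≤ B₀ * 2 ^ k := by gcongr
    have h7 : (1 + B₀ + B₀ * 2 ^ k) * 1 ≤ (1 + B₀ + B₀ * 2 ^ k) * g := by gcongr
    have h8 : g * B ^ 2 ≤ g * B₀ ^ 2 := by gcongr
    rw [hE]
    linarith
  have h5 := hg₃ g (by omega)
  have h6 : q ^ (-(c₁ / 2 * g)) = x * q ^ (c₁ / 2 * g) := by
    rw [hx, ← Real.rpow_add hq0]
    congr 1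
    ring
  have h7 := abs_nonneg (∑ d ∈ D, mu d)
  calc |∑ d ∈ D, mu d| ≤ |∑ d ∈ D, mu d| * (s * ((20 * k + 1) ^ k * (g : ℝ) ^ k)) :=
        le_mul_of_one_le_right h7 h3
    _ = s * |∑ d ∈ D, mu d| * ((20 * k + 1) ^ k * (g : ℝ) ^ k) := by ring
    _ ≤ q ^ h * x * ((1 + B₀ + (4 * B₀ ^ 2 + B₀ * 2 ^ k)) * g) *
        ((20 * k + 1) ^ k * (g : ℝ) ^ k) := by
        refine mul_le_mul_of_nonneg_right (h2.trans ?_) (by positivity)
        gcongr
    _ = q ^ h * x * ((20 * k + 1) ^ k * (1 + B₀ + (4 * B₀ ^ 2 + B₀ * 2 ^ k)) *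
        (g : ℝ) ^ (k + 1)) := by ring
    _ ≤ q ^ h * x * q ^ (c₁ / 2 * g) := by gcongr
    _ = _ := by rw [h6]; ring

end Pool.Agent.P.MP_3bc45c_nt.SI
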