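import Pool.Agent.P.MP_a1177c_nt.HL.RangeOne
import Pool.Agent.P.MP_a1177c_nt.HL.Mob

/-! Definitions for the count of irreducible polynomials in short intervals of `K[X]`, `K` a
finite field of characteristic two. -/

namespace Pool.Agent.P.MP_3bc45c_nt.SI

open Polynomial Finset Pool.Agent.P.MP_a1177c_nt.HL
open scoped Classical

variable {K : Type*} [Field K] [Fintype K] [CharP K 2]

/-- the polynomial `B` in `g = B ^ 2 + X * C ^ 2` -/
noncomputable def ev (g : K[X]) : K[X] := (exists_sq_add g).choose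

/-- the polynomial `C` in `g = B ^ 2 + X * C ^ 2` -/
noncomputable def od (g : K[X]) : K[X] := (exists_sq_add g).choose_spec.choose

/-- monic irreducible polynomials of degree `j` -/
noncomputable def Irr (K : Type*) [Field K] [Fintype K] (j : ℕ) : Finset K[X] :=
  (Mn K j).filter fun π => Irreducible π

/-- number of sets of `k` primes of degree `j` whose product divides `Y` -/
noncomputable def rr (j k : ℕ) (Y : K[X]) : ℕ :=
  (((Irr K j).powersetCard k).filter fun T => (∏ π ∈ T, π) ∣ Y).card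

/-- mean value of `rr j k` -/
noncomputable def sig (K : Type*) [Field K] [Fintype K] (j k : ℕ) : ℝ :=
  ((Irr K j).card.choose k : ℝ) / (Fintype.card K : ℝ) ^ (k * j)

/-- `D` is a union of intervals of length `q ^ L` -/
def Inv (D : Finset K[X]) (L : ℕ) : Prop := ∀ d ∈ D, ∀ a ∈ Pl K L, d + a ∈ D

/-- second differences of the coefficient `c` are trivial -/
def QI (D : Finset K[X]) (L : ℕ) (c : K[X] → ℝ) : Prop :=
  ∀ d ∈ D, ∀ a₁ ∈ Pl K L, ∀ a₂ ∈ Pl K L, ∀ a₃ ∈ Pl K L,
    c (d + a₁ + a₃) * c (d + a₂ + a₃) = c (d + a₁) * c (d + a₂)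

/-- number of pairs with the same modulus -/
noncomputable def coll (D : Finset K[X]) (w : K[X]) : ℕ :=
  ((D ×ˢ D).filter fun z => od (w * z.1) = od (w * z.2)).card

/-- `Y` has no square divisor `g ^ 2` with `g` of degree at least `t` -/
def goodY (t : ℕ) (Y : K[X]) : Prop := ¬ ∃ g : K[X], g.Monic ∧ t ≤ g.natDegree ∧ g ^ 2 ∣ Y

/-- the part of `Y` made of repeated primes and of primes dividing `w` -/
noncomputable def y1 (w Y : K[X]) : K[X] :=
  if h : Y.Monic ∧ w.Monic then (split_y h.1 h.2).choose_spec.choose else 1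

/-- the final modulus -/
noncomputable def cof (w Y : K[X]) (T : Finset K[X]) : K[X] := Y /ₘ (y1 w Y * ∏ π ∈ T, π)

/-- the interval of length `q ^ (2 l)` around `x₀` -/
noncomputable def Box (x₀ : K[X]) (l : ℕ) : Finset K[X] := (Pl K (2 * l)).image fun a => x₀ + a

/-- energy of two sets modulo `p` -/
noncomputable def en (A A₂ U : Finset K[X]) (p c₀ : K[X]) : ℕ :=
  (((A ×ˢ U) ×ˢ (A₂ ×ˢ U)).filter fun t => IsCoprime t.1.2 p ∧ IsCoprime t.2.2 p ∧
    p ∣ (derivative t.1.1 ^ 2 + c₀) ^ 3 * t.2.2 ^ 4 -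
      (derivative t.2.1 ^ 2 + c₀) ^ 3 * t.1.2 ^ 4 ∧
    p ∣ t.1.1 ^ 2 * t.2.2 ^ 4 - t.2.1 ^ 2 * t.1.2 ^ 4).card

/-- fibre of a set of pairs -/
noncomputable def fib {I : Type*} (Ω : Finset (I × K[X])) (ι : I) : Finset K[X] :=
  (Ω.filter fun z => z.1 = ι).image Prod.snd

/-- total energy -/
noncomputable def En {I : Type*} (Ω : Finset (I × K[X])) (U : Finset K[X]) (p c₀ : I → K[X]) :
    ℕ :=
  ∑ ι ∈ Ω.image Prod.fst, en (fib Ω ι) (fib Ω ι) U (p ι) (c₀ ι)

/-- number of pairs `(u, u₂)` for which a cube root of `u₂ / u` modulo `p` may have a small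
rational approximation -/
noncomputable def badp (U : Finset K[X]) (p : K[X]) (η s : ℕ) : ℕ :=
  ((U ×ˢ U).filter fun t => t.1 ≠ t.2 ∧ ∃ θ ∈ Pl K η, θ ≠ 0 ∧ ∃ σ ∈ Pl K s, σ ≠ 0 ∧
    p ∣ σ * (σ ^ 3 * t.1 + θ ^ 3 * t.2)).card

/-- the points `((Y, T, label), x)` with `w d = x ^ 2 + X Y ^ 2` -/
noncomputable def Omg (D : Finset K[X]) (w : K[X]) (j k t Λ : ℕ) :
    Finset ((K[X] × Finset K[X] × K[X]) × K[X]) :=
  ((D ×ˢ (Irr K j).powersetCard k).filter fun z =>
      goodY t (od (w * z.1)) ∧ (∏ π ∈ z.2, π) ∣ od (w * z.1)).image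
    fun z => ((od (w * z.1), z.2, ev (w * z.1) /ₘ X ^ (2 * Λ)), ev (w * z.1))

/-- total energy of `Omg` -/
noncomputable def EnW (D : Finset K[X]) (w : K[X]) (j k t Λ υ : ℕ) : ℕ :=
  En (Omg D w j k t Λ) (Irr K υ) (fun ι => cof w ι.1 ι.2.1) fun ι => X * derivative ι.1 ^ 2

/-- the shift attached to a vertex of the cube -/
noncomputable def cube {k : ℕ} (G : Fin k → K[X]) (t : Fin k → K[X] × K[X])
    (ε : Fin k → Bool) : K[X] :=
  ∑ i, G i * if ε i then (t i).2 else (t i).1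

/-- monic polynomials of degree `N` dividing an element of the interval of length `q ^ h`
around `f` -/
noncomputable def SD (f : K[X]) (h N : ℕ) : Finset K[X] :=
  (Mn K N).filter fun d => f %ₘ d ∈ Pl K h

/-- the exponent saved in one weighted sum -/
noncomputable def cSW (k R : ℕ) : ℝ := 1 / (4 ^ (k + 2) * ((R : ℝ) + 1))

end Pool.Agent.P.MP_3bc45c_nt.SI
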