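import Pool.Agent.P.MP_3bc45c_nt.SI.EvOd

namespace Pool.Agent.P.MP_3bc45c_nt.SI

open Polynomial Finset Pool.Agent.P.MP_a1177c_nt.HL
open scoped Classical

variable {K : Type*} [Field K] [Fintype K] [CharP K 2]

theorem sum_psi_rs {m : K[X]} (hm : m.Monic) (A : K[X]) (i : ℕ) :
    ∑ p ∈ Pl K i, psi (rs (A * p) m) =
      if A %ₘ m ∈ Pl K (m.natDegree - i) then (Fintype.card K : ℝ) ^ i else 0 := by
  have h0 : ∀ p, rs (A * p) m = rs (A %ₘ m * p) m := fun p => rs_congr (by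
    rw [← sub_mul]
    refine Dvd.dvd.mul_right ⟨A /ₘ m, ?_⟩ p
    rw [sub_eq_iff_eq_add', modByMonic_add_div])
  have h1 : (A %ₘ m).degree < m.natDegree := by
    rw [← degree_eq_natDegree hm.ne_zero]
    exact degree_modByMonic_lt A hm
  simp only [h0]
  generalize A %ₘ m = r at h1
  have h2 : ∀ g : K[X], g.natDegree < m.natDegree → rs g m = g.coeff (m.natDegree - 1) := by
    intro g hg
    rw [rs_eq_coeff g hm, (modByMonic_eq_self_iff hm).2 (degree_lt_degree hg)]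
  split_ifs with h
  · rw [sum_congr rfl (g := fun _ => (1 : ℝ)), sum_const, card_Pl]
    · simp
    intro p hp
    by_cases hr : r * p = 0
    · rw [hr, rs_eq_coeff _ hm]
      simp [psi_zero]
    obtain ⟨a1, a2⟩ := mul_ne_zero_iff.1 hr
    rw [mem_Pl, ← natDegree_lt_iff_degree_lt a1] at h
    rw [mem_Pl, ← natDegree_lt_iff_degree_lt a2] at hp
    have a3 := natDegree_mul a1 a2
    rw [h2 _ (by omega), coeff_eq_zero_of_natDegree_lt (by omega), psi_zero]
  · have a1 : r ≠ 0 := by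
      rintro rfl
      exact h (by simp [mem_Pl])
    rw [mem_Pl, ← natDegree_lt_iff_degree_lt a1] at h
    rw [← natDegree_lt_iff_degree_lt a1] at h1
    obtain ⟨c, hc⟩ := exists_psi_eq_neg (K := K)
    have a2 : (C (c / r.leadingCoeff) * X ^ (m.natDegree - 1 - r.natDegree)).natDegree ≤
        m.natDegree - 1 - r.natDegree := natDegree_C_mul_X_pow_le _ _
    refine sum_Pl_eq_zero (fun p => psi (rs (r * p) m))
      (fun v _ w _ => by simp only [mul_add, rs_add, psi_add])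
      (w := C (c / r.leadingCoeff) * X ^ (m.natDegree - 1 - r.natDegree)) ?_ ?_
    · rw [mem_Pl]
      refine degree_le_natDegree.trans_lt ?_
      exact_mod_cast (by omega : _ < i)
    · have a3 := natDegree_mul_le (p := r)
        (q := C (c / r.leadingCoeff) * X ^ (m.natDegree - 1 - r.natDegree))
      rw [h2 _ (by omega), mul_left_comm, coeff_C_mul, show m.natDegree - 1 =
        r.natDegree + (m.natDegree - 1 - r.natDegree) by omega, Nat.add_sub_cancel_left,
        coeff_mul_X_pow, coeff_natDegree, div_mul_cancel₀ _ (leadingCoeff_ne_zero.2 a1), hc]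

theorem dual2 {m : K[X]} (hm : m.Monic) (A B : K[X]) (i l : ℕ) :
    Fintype.card K ^ m.natDegree *
        ((Pl K i ×ˢ Pl K l).filter fun z => m ∣ A * z.1 + B * z.2).card =
      Fintype.card K ^ (i + l) *
        ((Pl K m.natDegree).filter fun c => (c * A) %ₘ m ∈ Pl K (m.natDegree - i) ∧
          (c * B) %ₘ m ∈ Pl K (m.natDegree - l)).card := by
  have h1 : ∑ z ∈ Pl K i ×ˢ Pl K l, ∑ c ∈ Pl K m.natDegree,
      psi (rs ((A * z.1 + B * z.2) * c) m) = (Fintype.card K : ℝ) ^ m.natDegree *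
        ((Pl K i ×ˢ Pl K l).filter fun z => m ∣ A * z.1 + B * z.2).card := by
    simp only [sum_psi_rs hm, Nat.sub_self, mem_Pl, Nat.cast_zero, Nat.WithBot.lt_zero_iff,
      degree_eq_bot, modByMonic_eq_zero_iff_dvd hm]
    rw [← sum_filter, sum_const, nsmul_eq_mul, mul_comm]
  have h2 : ∑ c ∈ Pl K m.natDegree, ∑ z ∈ Pl K i ×ˢ Pl K l,
      psi (rs ((A * z.1 + B * z.2) * c) m) = (Fintype.card K : ℝ) ^ (i + l) *
        ((Pl K m.natDegree).filter fun c => (c * A) %ₘ m ∈ Pl K (m.natDegree - i) ∧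
          (c * B) %ₘ m ∈ Pl K (m.natDegree - l)).card := by
    rw [mul_comm, ← nsmul_eq_mul, ← sum_const, sum_filter]
    refine sum_congr rfl fun c _ => ?_
    have : ∀ z : K[X] × K[X], psi (rs ((A * z.1 + B * z.2) * c) m) =
        psi (rs (c * A * z.1) m) * psi (rs (c * B * z.2) m) := fun z => by
      rw [← psi_add, ← rs_add]
      congr 2
      ring
    simp only [this]
    rw [sum_product, ← sum_mul_sum (Pl K i) (Pl K l) (fun p => psi (rs (c * A * p) m))
      fun p => psi (rs (c * B * p) m), sum_psi_rs hm, sum_psi_rs hm, pow_add]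
    by_cases a1 : (c * A) %ₘ m ∈ Pl K (m.natDegree - i) <;>
      by_cases a2 : (c * B) %ₘ m ∈ Pl K (m.natDegree - l) <;> simp [a1, a2]
  rw [sum_comm, h2] at h1
  exact_mod_cast h1.symm

theorem card_le_hom {m A B : K[X]} {i l : ℕ} (S : Finset (K[X] × K[X]))
    (hS : ∀ z ∈ S, ∀ z' ∈ S, z.1 + z'.1 ∈ Pl K i ∧ z.2 + z'.2 ∈ Pl K l ∧
      m ∣ A * (z.1 + z'.1) + B * (z.2 + z'.2)) :
    S.card ≤ ((Pl K i ×ˢ Pl K l).filter fun z => m ∣ A * z.1 + B * z.2).card := by
  rcases S.eq_empty_or_nonempty with rfl | ⟨z₀, h₀⟩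
  · simp
  refine card_le_card_of_injOn (fun z => z + z₀) (fun z hz => ?_) fun _ _ _ _ e =>
    add_right_cancel e
  obtain ⟨a1, a2, a3⟩ := hS z hz z₀ h₀
  exact mem_coe.2 (mem_filter.2 ⟨mem_product.2 ⟨a1, a2⟩, a3⟩)

/-- the form used for lattices without short dual vector -/
theorem card_le_of_no_dual {m A B : K[X]} (hm : m.Monic) {i l : ℕ} (S : Finset (K[X] × K[X]))
    (hS : ∀ z ∈ S, ∀ z' ∈ S, z.1 + z'.1 ∈ Pl K i ∧ z.2 + z'.2 ∈ Pl K l ∧
      m ∣ A * (z.1 + z'.1) + B * (z.2 + z'.2))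
    (hno : ∀ c ∈ Pl K m.natDegree, (c * A) %ₘ m ∈ Pl K (m.natDegree - i) →
      (c * B) %ₘ m ∈ Pl K (m.natDegree - l) → c = 0) :
    Fintype.card K ^ m.natDegree * S.card ≤ Fintype.card K ^ (i + l) := by
  refine (Nat.mul_le_mul_left _ (card_le_hom S hS)).trans ?_
  rw [dual2 hm]
  refine (Nat.mul_le_mul_left _ (card_le_one.2 fun a ha b hb => ?_)).trans (mul_one _).le
  rw [mem_filter] at ha hb
  rw [hno a ha.1 ha.2.1 ha.2.2, hno b hb.1 hb.2.1 hb.2.2]

end Pool.Agent.P.MP_3bc45c_nt.SI
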