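import Pool.Agent.P.MP_3bc45c_nt.SI.Dual
import Pool.Agent.P.MP_3bc45c_nt.SI.En1

namespace Pool.Agent.P.MP_3bc45c_nt.SI

open Polynomial Finset Pool.Agent.P.MP_a1177c_nt.HL
open scoped Classical

variable {K : Type*} [Field K] [Fintype K] [CharP K 2]

private theorem add_pow_four (a b : K[X]) : (a + b) ^ 4 = a ^ 4 + b ^ 4 := by
  linear_combination (2 * a ^ 3 * b + 3 * a ^ 2 * b ^ 2 + 2 * a * b ^ 3) *
    (two_eq_zero_poly (K := K))

private theorem add_sq' (a b : K[X]) : (a + b) ^ 2 = a ^ 2 + b ^ 2 := by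
  linear_combination (a * b) * (two_eq_zero_poly (K := K))

omit [CharP K 2] in
private theorem eq_zero_of_dvd_Pl {p g : K[X]} (hp : p.Monic) {n : ℕ} (hn : n ≤ p.natDegree)
    (hg : g ∈ Pl K n) (h : p ∣ g) : g = 0 := by
  refine eq_zero_of_dvd_of_degree_lt h ?_
  rw [degree_eq_natDegree hp.ne_zero]
  exact mem_Pl.1 (Pl_mono hn hg)

omit [CharP K 2] in
private theorem le_of_no_dual {P l η n : ℕ} (h1 : η ≤ l) (h2 : η ≤ P)
    (h : Fintype.card K ^ P * n ≤ Fintype.card K ^ (l + (P - η))) :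
    n ≤ Fintype.card K ^ (l - η) := by
  rw [show l + (P - η) = P + (l - η) by omega, pow_add] at h
  exact Nat.le_of_mul_le_mul_left h (pow_pos Fintype.card_pos _)

omit [Fintype K] [CharP K 2] in
private theorem dvd_mod_sub (p g : K[X]) : p ∣ g %ₘ p - g := by
  refine ⟨-(g /ₘ p), ?_⟩
  linear_combination modByMonic_add_div g p

private theorem pair_dvd {p : K[X]} (hsq : Squarefree p) {u u₂ a a' a₂ a₂' a₀ b b₂ : K[X]}
    (h : p ∣ ((a₀ + a) ^ 2 + X * b ^ 2) ^ 2 * u₂ ^ 4 - (a₂ ^ 2 + X * b₂ ^ 2) ^ 2 * u ^ 4)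
    (h' : p ∣ ((a₀ + a') ^ 2 + X * b ^ 2) ^ 2 * u₂ ^ 4 - (a₂' ^ 2 + X * b₂ ^ 2) ^ 2 * u ^ 4) :
    p ∣ u₂ * (a + a') + u * (a₂ + a₂') := by
  refine hsq.isRadical 4 _ ?_
  convert dvd_sub h h' using 1
  rw [add_pow_four, mul_pow, mul_pow, add_pow_four, add_pow_four]
  simp only [add_sq']
  linear_combination (u₂ ^ 4 * a' ^ 4 + u ^ 4 * a₂ ^ 4) * (two_eq_zero_poly (K := K))

theorem en2_a {p : K[X]} (hp : p.Monic) (hsq : Squarefree p) {l lam υ η : ℕ}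
    (h1 : lam + η ≤ p.natDegree) (h2 : η ≤ υ) (h3 : υ ≤ l) (h4 : l + η ≤ p.natDegree)
    (h5 : η + υ ≤ p.natDegree) {u u₂ : K[X]} (hu : u ∈ Irr K υ) (hu₂ : u₂ ∈ Irr K υ)
    (hne : u ≠ u₂) (hc : IsCoprime u p) (a₀ b b₂ : K[X]) :
    ((Pl K l ×ˢ Pl K lam).filter fun z =>
        p ∣ ((a₀ + z.1) ^ 2 + X * b ^ 2) ^ 2 * u₂ ^ 4 -
          (z.2 ^ 2 + X * b₂ ^ 2) ^ 2 * u ^ 4).card ≤ Fintype.card K ^ (l - η) := by
  rw [mem_Irr] at hu hu₂
  refine le_of_no_dual (P := p.natDegree) (by omega) (by omega)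
    (card_le_of_no_dual (A := u₂) (B := u) hp _ (fun z hz z' hz' => ?_) fun c hcP hσ hθ => ?_)
  · rw [mem_filter, mem_product] at hz hz'
    exact ⟨add_mem_Pl hz.1.1 hz'.1.1, Pl_mono (by omega) (add_mem_Pl hz.1.2 hz'.1.2),
      pair_dvd hsq hz.2 hz'.2⟩
  · rw [show p.natDegree - (p.natDegree - η) = η by omega] at hθ
    have e1 : p ∣ u₂ * ((c * u) %ₘ p) + u * ((c * u₂) %ₘ p) := by
      convert dvd_add ((dvd_mod_sub p (c * u)).mul_left u₂)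
        ((dvd_mod_sub p (c * u₂)).mul_left u) using 1
      linear_combination (c * u * u₂) * (two_eq_zero_poly (K := K))
    have e2 := eq_zero_of_dvd_Pl hp le_rfl (add_mem_Pl
      (Pl_mono (by omega) (mul_mem_Pl hu₂.2.1.le hθ))
      (Pl_mono (by omega) (mul_mem_Pl hu.2.1.le hσ))) e1
    have e3 : u ∣ u₂ * ((c * u) %ₘ p) := ⟨-((c * u₂) %ₘ p), by linear_combination e2⟩
    have e4 : ¬ u ∣ u₂ := fun hd =>
      hne (eq_of_monic_of_associated hu.1 hu₂.1 (hu.2.2.associated_of_dvd hu₂.2.2 hd))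
    have e5 := eq_zero_of_dvd_Pl hu.1 (h2.trans hu.2.1.ge) hθ
      ((hu.2.2.prime.dvd_or_dvd e3).resolve_left e4)
    exact eq_zero_of_dvd_Pl hp le_rfl hcP
      (hc.symm.dvd_of_dvd_mul_right ((modByMonic_eq_zero_iff_dvd hp).1 e5))

omit [Fintype K] [CharP K 2] in
private theorem exists_split {p : K[X]} (hsq : Squarefree p) (B : K[X]) :
    ∃ p₁ p₂ : K[X], p = p₁ * p₂ ∧ p₁ ∣ B ∧ IsCoprime p₂ B := by
  obtain ⟨p₂, h⟩ := gcd_dvd_left p B
  refine ⟨gcd p B, p₂, h, gcd_dvd_right p B, isRelPrime_iff_isCoprime.1 fun d hd hB => hsq d ?_⟩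
  have h1 : d ∣ p := hd.trans ⟨gcd p B, by rw [mul_comm]; exact h⟩
  rw [h]
  exact mul_dvd_mul (dvd_gcd h1 hB) hd

omit [Fintype K] [CharP K 2] in
private theorem dvd_of_primes {a b : K[X]} (hsq : Squarefree a)
    (h : ∀ π : K[X], π.Monic → Irreducible π → π ∣ a → π ∣ b) : a ∣ b := by
  obtain ⟨p₁, p₂, e, h1, h2⟩ := exists_split hsq b
  by_cases hu : IsUnit p₂
  · rw [e]
    exact (hu.mul_right_dvd).2 h1
  · obtain ⟨π, hm, hi, hd⟩ := exists_monic_irreducible_factor p₂ hu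
    exact absurd (h2.isUnit_of_dvd' hd (h π hm hi (e ▸ hd.mul_left p₁))) hi.not_isUnit

omit [CharP K 2] in
private theorem roots12 {p : K[X]} (hp : p.Monic) (hsq : Squarefree p) {n : ℕ}
    (hn : n ≤ p.natDegree) {u : K[X]} (hu : IsCoprime u p) (c₀ r : K[X]) :
    ((Pl K n).filter fun Y => p ∣ r - (Y ^ 4 + c₀) ^ 3 * u ^ 4).card ≤ 12 ^ (pf p).card := by
  have h := energy_roots hp hsq hn isCoprime_one_left hu c₀ 0 r
  simp only [one_mul, add_zero, ← pow_mul] at h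
  exact_mod_cast h

omit [CharP K 2] in
private theorem card_pairs_le {p : K[X]} (hp : p.Monic) (hsq : Squarefree p) {n : ℕ}
    (hn : n ≤ p.natDegree) {u : K[X]} (hu : IsCoprime u p) (c₀ : K[X]) (r : K[X] → K[X])
    {S : Finset (K[X] × K[X])} {T : Finset K[X]}
    (h : ∀ z ∈ S, z.1 ∈ T ∧ z.2 ∈ Pl K n ∧ p ∣ r z.1 - (z.2 ^ 4 + c₀) ^ 3 * u ^ 4) :
    S.card ≤ 12 ^ (pf p).card * T.card := by
  refine card_le_mul_card_image_of_maps_to (f := Prod.fst) (fun z hz => (h z hz).1) _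
    fun x _ => le_trans ?_ (roots12 hp hsq hn hu c₀ (r x))
  refine card_le_card_of_injOn Prod.snd (fun z hz => ?_) fun z hz z' hz' e => ?_
  · obtain ⟨h1, h2⟩ := mem_filter.1 (mem_coe.1 hz)
    exact mem_coe.2 (mem_filter.2 ⟨(h z h1).2.1, h2 ▸ (h z h1).2.2⟩)
  · exact Prod.ext ((mem_filter.1 (mem_coe.1 hz)).2.trans (mem_filter.1 (mem_coe.1 hz')).2.symm) e

omit [CharP K 2] in
private theorem roots4 {p : K[X]} (hp : p.Monic) (hsq : Squarefree p) {u : K[X]}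
    (hu : IsCoprime u p) (u₂ : K[X]) :
    ((Pl K p.natDegree).filter fun Y => p ∣ Y * (Y ^ 3 * u + u₂)).card ≤ 4 ^ (pf p).card := by
  set F : K[X][X] := C u * X ^ 4 + C u₂ * X with hF
  have hdeg : F.natDegree ≤ 4 := by
    rw [hF]
    compute_degree
  have hco : F.coeff 4 = u := by
    rw [hF]
    simp [coeff_X]
  have key := card_roots_le hp hsq F (D := 4) (by norm_num) hdeg 1 (by
    intro π hπ _
    refine ⟨4, ?_⟩
    rw [mem_pf hp.ne_zero] at hπ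
    rw [hco]
    exact fun hd => hπ.2.1.not_isUnit (hu.isUnit_of_dvd' hd hπ.2.2))
  have hempty : (pf p).filter (fun π => π ∣ (1 : K[X])) = ∅ := by
    refine filter_eq_empty_iff.2 fun π hπ hd => ?_
    rw [mem_pf hp.ne_zero] at hπ
    exact hπ.2.1.not_isUnit (isUnit_of_dvd_one hd)
  rw [hempty, prod_empty, mul_one] at key
  have e : ∀ Y : K[X], F.eval Y = Y * (Y ^ 3 * u + u₂) := fun Y => by
    rw [hF]
    simp only [eval_mul, eval_add, eval_pow, eval_C, eval_X]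
    ring
  simp only [e] at key
  exact_mod_cast key

omit [CharP K 2] in
private theorem card_degenerate {p : K[X]} (hp : p.Monic) (hsq : Squarefree p) (l : ℕ)
    (b : K[X]) : ((Pl K l).filter fun z =>
      ∃ p₁ : K[X], p₁ ∣ p ∧ l ≤ p₁.natDegree ∧ p₁ ∣ b + z).card ≤ 2 ^ (pf p).card := by
  rw [← card_powerset]
  refine card_le_card_of_injOn (fun z => (pf p).filter fun π => π ∣ b + z)
    (fun z _ => mem_coe.2 (mem_powerset.2 (filter_subset _ _))) fun z hz z' hz' e => ?_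
  obtain ⟨h1, p₁, h2, h3, h4⟩ := mem_filter.1 (mem_coe.1 hz)
  have h5 := (mem_filter.1 (mem_coe.1 hz')).1
  have h6 : p₁ ∣ b + z' := dvd_of_primes (hsq.squarefree_of_dvd h2) fun π hm hi hd => by
    have h7 : π ∈ (pf p).filter fun π => π ∣ b + z :=
      mem_filter.2 ⟨(mem_pf hp.ne_zero).2 ⟨hm, hi, hd.trans h2⟩, hd.trans h4⟩
    have e' : ((pf p).filter fun π => π ∣ b + z) = (pf p).filter fun π => π ∣ b + z' := e
    rw [e'] at h7
    exact (mem_filter.1 h7).2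
  have h7 : p₁ ∣ z - z' := by
    convert dvd_sub h4 h6 using 1
    ring
  refine sub_eq_zero.1 (eq_zero_of_dvd_of_degree_lt h7 ?_)
  rw [degree_eq_natDegree (ne_zero_of_dvd_ne_zero hp.ne_zero h2)]
  rw [mem_Pl] at h1 h5
  exact ((degree_sub_le _ _).trans_lt (max_lt h1 h5)).trans_le (by exact_mod_cast h3)

/-- the slope of a solution of the cubic congruence -/
private theorem exists_slope {p : K[X]} (hp : p.Monic) (hsq : Squarefree p) {u u₂ B B₂ : K[X]}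
    (hc : IsCoprime u p) (hc₂ : IsCoprime u₂ p) (h : p ∣ B ^ 3 * u₂ + B₂ ^ 3 * u) :
    ∃ p₁ p₂ : K[X], p = p₁ * p₂ ∧ p₁ ∣ B ∧ ∃ t ∈ Pl K p.natDegree, p ∣ t * (t ^ 3 * u + u₂) ∧
      IsCoprime t p₂ ∧ p ∣ t * B + B₂ := by
  obtain ⟨p₁, p₂, e, h1, h2⟩ := exists_split hsq B
  have d1 : p₁ ∣ p := ⟨p₂, e⟩
  have d2 : p₂ ∣ p := ⟨p₁, e.trans (mul_comm _ _)⟩
  have h12 : IsCoprime p₁ p₂ := (h2.of_isCoprime_of_dvd_right h1).symm
  have h3 : p₁ ∣ B₂ := by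
    have h4 : p₁ ∣ B₂ ^ 3 * u :=
      (dvd_add_right ((dvd_pow h1 three_ne_zero).mul_right u₂)).1 (d1.trans h)
    exact (hsq.squarefree_of_dvd d1).isRadical 3 _
      ((hc.of_isCoprime_of_dvd_right d1).symm.dvd_of_dvd_mul_right h4)
  obtain ⟨x, y, hxy⟩ := h2.mul_right h12.symm
  have hm := dvd_mod_sub p (B₂ * y * p₁)
  set t := (B₂ * y * p₁) %ₘ p with ht
  have t1 : p₁ ∣ t := by
    have h4 := dvd_add (d1.trans hm) (dvd_mul_left p₁ (B₂ * y))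
    rwa [sub_add_cancel] at h4
  have t2 : p₂ ∣ t * B + B₂ := by
    convert dvd_sub ((d2.trans hm).mul_right B) (dvd_mul_left p₂ (B₂ * x)) using 1
    linear_combination B₂ * hxy + B₂ * (two_eq_zero_poly (K := K))
  have t3 : p₂ ∣ t ^ 3 * u + u₂ := by
    refine (h2.pow_right (n := 3)).dvd_of_dvd_mul_left ?_
    convert dvd_add (d2.trans h)
      (t2.mul_right (u * ((t * B) ^ 2 + t * B * B₂ + B₂ ^ 2))) using 1
    linear_combination (-(u * (t * B) ^ 2 * B₂) - u * (t * B) * B₂ ^ 2 - u * B₂ ^ 3) *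
      (two_eq_zero_poly (K := K))
  refine ⟨p₁, p₂, e, h1, t, mem_Pl.2 ?_, ?_, ?_, ?_⟩
  · rw [← degree_eq_natDegree hp.ne_zero]
    exact degree_modByMonic_lt _ hp
  · rw [e]
    exact mul_dvd_mul t1 t3
  · refine isRelPrime_iff_isCoprime.1 fun d hd hd' => hc₂.isUnit_of_dvd' ?_ (hd'.trans d2)
    exact (dvd_add_right ((dvd_pow hd three_ne_zero).mul_right u)).1 (hd'.trans t3)
  · rw [e]
    exact h12.mul_dvd (dvd_add (t1.mul_right B) h3) t2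

private theorem card_slope {p : K[X]} (hp : p.Monic) {l lam η : ℕ}
    (h1 : lam + η ≤ p.natDegree) (h3 : η ≤ l) {u u₂ : K[X]}
    (hgood : ¬ ∃ θ ∈ Pl K η, θ ≠ 0 ∧ ∃ σ ∈ Pl K (p.natDegree - l), σ ≠ 0 ∧
      p ∣ σ * (σ ^ 3 * u + θ ^ 3 * u₂)) {t p₂ : K[X]} (ht : p ∣ t * (t ^ 3 * u + u₂))
    (hd : p₂ ∣ p) (hc : IsCoprime t p₂) (hη : η ≤ p₂.natDegree) (b c : K[X]) :
    ((Pl K l ×ˢ Pl K lam).filter fun z => p ∣ t * (b + z.1) + (z.2 + c)).card ≤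
      Fintype.card K ^ (l - η) := by
  refine le_of_no_dual (P := p.natDegree) h3 (by omega)
    (card_le_of_no_dual (A := t) (B := 1) hp _ (fun z hz z' hz' => ?_) fun θ hP hσ hθ => ?_)
  · rw [mem_filter, mem_product] at hz hz'
    refine ⟨add_mem_Pl hz.1.1 hz'.1.1, Pl_mono (by omega) (add_mem_Pl hz.1.2 hz'.1.2), ?_⟩
    convert dvd_add hz.2 hz'.2 using 1
    linear_combination (-(t * b) - c) * (two_eq_zero_poly (K := K))
  · rw [show p.natDegree - (p.natDegree - η) = η by omega, mul_one,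
      (modByMonic_eq_self_iff hp).2 (by
        rw [degree_eq_natDegree hp.ne_zero]; exact mem_Pl.1 hP)] at hθ
    by_contra h0
    refine hgood ⟨θ, hθ, h0, _, hσ, fun e => h0 ?_, ?_⟩
    · refine eq_zero_of_dvd_of_degree_lt (hc.symm.dvd_of_dvd_mul_right
        (hd.trans ((modByMonic_eq_zero_iff_dvd hp).1 e))) ?_
      rw [degree_eq_natDegree (ne_zero_of_dvd_ne_zero hp.ne_zero hd)]
      exact mem_Pl.1 (Pl_mono hη hθ)
    · have hm := dvd_mod_sub p (θ * t)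
      generalize (θ * t) %ₘ p = σ at hm
      convert dvd_add (ht.mul_left (θ ^ 4)) (hm.mul_right
        (u * (σ ^ 3 + σ ^ 2 * (θ * t) + σ * (θ * t) ^ 2 + (θ * t) ^ 3) + θ ^ 3 * u₂)) using 1
      ring

theorem en2_b {p : K[X]} (hp : p.Monic) (hsq : Squarefree p) {l lam η : ℕ}
    (h1 : lam + η ≤ p.natDegree) (h3 : η ≤ l) (h4 : l + η ≤ p.natDegree)
    {u u₂ : K[X]} (hc : IsCoprime u p) (hc₂ : IsCoprime u₂ p) (b₀ c₀ : K[X])
    (hgood : ¬ ∃ θ ∈ Pl K η, θ ≠ 0 ∧ ∃ σ ∈ Pl K (p.natDegree - l), σ ≠ 0 ∧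
      p ∣ σ * (σ ^ 3 * u + θ ^ 3 * u₂)) :
    ((Pl K l ×ˢ Pl K lam).filter fun z =>
        p ∣ ((b₀ + z.1) ^ 4 + c₀) ^ 3 * u₂ ^ 4 - (z.2 ^ 4 + c₀) ^ 3 * u ^ 4).card ≤
      4 ^ (pf p).card * Fintype.card K ^ (l - η) + 24 ^ (pf p).card := by
  obtain ⟨τ, hτ⟩ := exists_pow_four hp hsq c₀
  set S := (Pl K l ×ˢ Pl K lam).filter fun z : K[X] × K[X] =>
    p ∣ ((b₀ + z.1) ^ 4 + c₀) ^ 3 * u₂ ^ 4 - (z.2 ^ 4 + c₀) ^ 3 * u ^ 4 with hS
  set T := (Pl K l).filter fun z => ∃ p₁ : K[X], p₁ ∣ p ∧ l ≤ p₁.natDegree ∧ p₁ ∣ b₀ + τ + z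
    with hT
  set L := (Pl K p.natDegree).filter fun t => p ∣ t * (t ^ 3 * u + u₂) ∧
    ∃ p₂ : K[X], p₂ ∣ p ∧ IsCoprime t p₂ ∧ η ≤ p₂.natDegree with hL
  have e1 : (S.filter fun z => z.1 ∈ T).card ≤ 24 ^ (pf p).card := by
    refine (card_pairs_le hp hsq (n := lam) (by omega) hc c₀
      (fun x => ((b₀ + x) ^ 4 + c₀) ^ 3 * u₂ ^ 4) (T := T) fun z hz => ?_).trans ?_
    · rw [mem_filter, hS, mem_filter, mem_product] at hz
      exact ⟨hz.2, hz.1.1.2, hz.1.2⟩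
    · rw [show 24 = 12 * 2 by norm_num, mul_pow]
      exact Nat.mul_le_mul_left _ (card_degenerate hp hsq l _)
  have e2 : (S.filter fun z => ¬ z.1 ∈ T) ⊆ L.biUnion fun t =>
      (Pl K l ×ˢ Pl K lam).filter fun z => p ∣ t * (b₀ + τ + z.1) + (z.2 + τ) := by
    intro z hz
    rw [mem_filter, hS, mem_filter] at hz
    have h5 : p ∣ (b₀ + τ + z.1) ^ 3 * u₂ + (z.2 + τ) ^ 3 * u := by
      refine hsq.isRadical 4 _ ?_
      have h6 : ∀ y : K[X], p ∣ (y ^ 4 + τ ^ 4) ^ 3 - (y ^ 4 + c₀) ^ 3 := fun y =>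
        (by simpa using hτ : p ∣ y ^ 4 + τ ^ 4 - (y ^ 4 + c₀)).trans (sub_dvd_pow_sub_pow _ _ 3)
      convert dvd_sub (dvd_add hz.1.2 ((h6 (b₀ + z.1)).mul_right (u₂ ^ 4)))
        ((h6 z.2).mul_right (u ^ 4)) using 1
      rw [← add_pow_four, ← add_pow_four, add_pow_four]
      linear_combination ((z.2 + τ) ^ 12 * u ^ 4) * (two_eq_zero_poly (K := K))
    obtain ⟨p₁, p₂, e, d1, t, t0, t1, t2, t3⟩ := exists_slope hp hsq hc hc₂ h5
    refine mem_biUnion.2 ⟨t, mem_filter.2 ⟨t0, t1, p₂, ⟨p₁, e.trans (mul_comm _ _)⟩, t2, ?_⟩,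
      mem_filter.2 ⟨hz.1.1, t3⟩⟩
    by_contra hlt
    refine hz.2 (mem_filter.2 ⟨(mem_product.1 hz.1.1).1, p₁, ⟨p₂, e⟩, ?_, d1⟩)
    have h0 := hp.ne_zero
    rw [e] at h0
    have h7 := congrArg natDegree e
    rw [natDegree_mul (left_ne_zero_of_mul h0) (right_ne_zero_of_mul h0)] at h7
    omega
  have e3 : L.card ≤ 4 ^ (pf p).card :=
    (card_le_card (monotone_filter_right _ fun _ _ h => h.1)).trans (roots4 hp hsq hc u₂)
  have e4 : (S.filter fun z => ¬ z.1 ∈ T).card ≤ 4 ^ (pf p).card * Fintype.card K ^ (l - η) := by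
    refine (card_le_card e2).trans ((card_biUnion_le_card_mul _ _ _ fun t ht => ?_).trans
      (Nat.mul_le_mul_right _ e3))
    obtain ⟨-, t1, p₂, d2, t2, t3⟩ := mem_filter.1 ht
    exact card_slope hp h1 h3 hgood t1 d2 t2 t3 _ _
  rw [← card_filter_add_card_filter_not (s := S) fun z => z.1 ∈ T, add_comm]
  exact add_le_add e4 e1

private theorem card_fixed {p u u₂ x₀ c₀ : K[X]} {l lam M₁ M₂ : ℕ}
    (h₁ : ((Pl K l ×ˢ Pl K lam).filter fun z =>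
      p ∣ ((od x₀ + z.1) ^ 4 + c₀) ^ 3 * u₂ ^ 4 - (z.2 ^ 4 + c₀) ^ 3 * u ^ 4).card ≤ M₁)
    (h₂ : ∀ b b₂ : K[X], ((Pl K l ×ˢ Pl K lam).filter fun z =>
      p ∣ ((ev x₀ + z.1) ^ 2 + X * b ^ 2) ^ 2 * u₂ ^ 4 -
        (z.2 ^ 2 + X * b₂ ^ 2) ^ 2 * u ^ 4).card ≤ M₂) :
    ((Box x₀ l ×ˢ Pl K (2 * lam)).filter fun z =>
      p ∣ (derivative z.1 ^ 2 + c₀) ^ 3 * u₂ ^ 4 - (derivative z.2 ^ 2 + c₀) ^ 3 * u ^ 4 ∧
        p ∣ z.1 ^ 2 * u₂ ^ 4 - z.2 ^ 2 * u ^ 4).card ≤ M₂ * M₁ := by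
  have c1 : ∀ a b : K[X], a + (b + a) = b := fun a b => by
    linear_combination a * (two_eq_zero_poly (K := K))
  have c2 : ∀ {n : ℕ} {g : K[X]}, g ∈ Pl K (2 * n) → ev g ∈ Pl K n ∧ od g ∈ Pl K n :=
    fun {n g} hg => by
      have h := mem_Pl_iff_ev_od.1 hg
      rwa [show (2 * n + 1) / 2 = n by omega, show 2 * n / 2 = n by omega] at h
  refine le_trans (card_le_mul_card_image_of_maps_to (f := fun z => (od (z.1 + x₀), od z.2))
    (fun z hz => ?_) M₂ fun y _ => le_trans ?_ (h₂ (od x₀ + y.1) y.2)) (Nat.mul_le_mul_left _ h₁)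
  · rw [mem_filter, mem_product, mem_Box] at hz
    refine mem_filter.2 ⟨mem_product.2 ⟨(c2 hz.1.1).2, (c2 hz.1.2).2⟩, ?_⟩
    have h := hz.2.1
    rw [← od_sq_eq, ← od_sq_eq, ← pow_mul, ← pow_mul] at h
    rwa [od_add, c1]
  · refine card_le_card_of_injOn (fun z => (ev (z.1 + x₀), ev z.2)) (fun z hz => ?_)
      fun z hz z' hz' e => ?_
    · obtain ⟨hz', rfl⟩ := mem_filter.1 (mem_coe.1 hz)
      rw [mem_filter, mem_product, mem_Box] at hz'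
      refine mem_coe.2 (mem_filter.2 ⟨mem_product.2 ⟨(c2 hz'.1.1).1, (c2 hz'.1.2).1⟩, ?_⟩)
      dsimp only
      rw [ev_add, od_add, c1, c1, ev_add_od, ev_add_od]
      exact hz'.2.2
    · have e' := (mem_filter.1 (mem_coe.1 hz)).2.trans (mem_filter.1 (mem_coe.1 hz')).2.symm
      rw [Prod.mk.injEq] at e e'
      exact Prod.ext (add_right_cancel (eq_of_ev_od e.1 e'.1)) (eq_of_ev_od e.2 e'.2)

private theorem en2_diag {p : K[X]} (hp : p.Monic) (hsq : Squarefree p) {l lam : ℕ}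
    (h1 : lam ≤ p.natDegree) {u : K[X]} (hc : IsCoprime u p) (a₀ b b₂ : K[X]) :
    ((Pl K l ×ˢ Pl K lam).filter fun z =>
        p ∣ ((a₀ + z.1) ^ 2 + X * b ^ 2) ^ 2 * u ^ 4 -
          (z.2 ^ 2 + X * b₂ ^ 2) ^ 2 * u ^ 4).card ≤ Fintype.card K ^ l := by
  rw [← card_Pl]
  refine card_le_card_of_injOn Prod.fst (fun z hz => ?_) fun z hz z' hz' e => ?_
  · exact mem_coe.2 (mem_product.1 (mem_filter.1 (mem_coe.1 hz)).1).1
  · rw [mem_coe, mem_filter, mem_product] at hz hz'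
    have h2 := pair_dvd hsq hz.2 hz'.2
    have h3 : u * (z.1 + z'.1) = 0 := by
      rw [e]
      linear_combination (u * z'.1) * (two_eq_zero_poly (K := K))
    rw [h3, zero_add] at h2
    have h4 := eq_zero_of_dvd_Pl hp h1 (add_mem_Pl hz.1.2 hz'.1.2)
      (hc.symm.dvd_of_dvd_mul_left h2)
    exact Prod.ext e (by linear_combination h4 - z'.2 * (two_eq_zero_poly (K := K)))

theorem en2 {p : K[X]} (hp : p.Monic) (hsq : Squarefree p) {l lam υ η : ℕ}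
    (h1 : lam + η ≤ p.natDegree) (h2 : η ≤ υ) (h3 : υ ≤ l) (h4 : l + η ≤ p.natDegree)
    (h5 : η + υ ≤ p.natDegree) {U : Finset K[X]} (hU : U ⊆ Irr K υ) (x₀ c₀ : K[X]) :
    en (Box x₀ l) (Pl K (2 * lam)) U p c₀ ≤
      12 ^ (pf p).card * Fintype.card K ^ (2 * l) * U.card +
        Fintype.card K ^ (l - η) *
          (U.card ^ 2 * (4 ^ (pf p).card * Fintype.card K ^ (l - η) + 24 ^ (pf p).card) +
            badp U p η (p.natDegree - l) * (12 ^ (pf p).card * Fintype.card K ^ l)) := by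
  set q := Fintype.card K with hq
  set w := (pf p).card with hw
  set bad : K[X] × K[X] → Prop := fun t => t.1 ≠ t.2 ∧ ∃ θ ∈ Pl K η, θ ≠ 0 ∧
    ∃ σ ∈ Pl K (p.natDegree - l), σ ≠ 0 ∧ p ∣ σ * (σ ^ 3 * t.1 + θ ^ 3 * t.2) with hbad
  have triv : ∀ u u₂ : K[X], IsCoprime u p → ((Pl K l ×ˢ Pl K lam).filter fun z =>
      p ∣ ((od x₀ + z.1) ^ 4 + c₀) ^ 3 * u₂ ^ 4 - (z.2 ^ 4 + c₀) ^ 3 * u ^ 4).card ≤
        12 ^ w * q ^ l := fun u u₂ hc => by
    rw [hq, ← card_Pl]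
    refine card_pairs_le hp hsq (n := lam) (by omega) hc c₀
      (fun x => ((od x₀ + x) ^ 4 + c₀) ^ 3 * u₂ ^ 4) fun z hz => ?_
    rw [mem_filter, mem_product] at hz
    exact ⟨hz.1.1, hz.1.2, hz.2⟩
  have key : en (Box x₀ l) (Pl K (2 * lam)) U p c₀ ≤ ∑ t ∈ U ×ˢ U,
      ((if t.1 = t.2 then 12 ^ w * q ^ (2 * l) else 0) + q ^ (l - η) *
        ((4 ^ w * q ^ (l - η) + 24 ^ w) + if bad t then 12 ^ w * q ^ l else 0)) := by
    rw [en, card_eq_sum_card_fiberwise (f := fun t => (t.1.2, t.2.2)) (t := U ×ˢ U) fun t ht => by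
      have h := (mem_filter.1 (mem_coe.1 ht)).1
      simp only [mem_product] at h
      exact mem_coe.2 (mem_product.2 ⟨h.1.2, h.2.2⟩)]
    refine sum_le_sum fun t ht => ?_
    obtain ⟨u, u₂⟩ := t
    rw [mem_product] at ht
    by_cases hc : IsCoprime u p ∧ IsCoprime u₂ p
    swap
    · rw [card_eq_zero.2 (filter_eq_empty_iff.2 fun z hz e => hc ?_)]
      · exact Nat.zero_le _
      · rw [Prod.mk.injEq] at e
        have h := (mem_filter.1 hz).2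
        exact ⟨e.1 ▸ h.1, e.2 ▸ h.2.1⟩
    refine le_trans (card_le_card_of_injOn (fun z => (z.1.1, z.2.1))
      (t := (Box x₀ l ×ˢ Pl K (2 * lam)).filter fun z =>
      p ∣ (derivative z.1 ^ 2 + c₀) ^ 3 * u₂ ^ 4 - (derivative z.2 ^ 2 + c₀) ^ 3 * u ^ 4 ∧
        p ∣ z.1 ^ 2 * u₂ ^ 4 - z.2 ^ 2 * u ^ 4) (fun z hz => ?_) fun z hz z' hz' e => ?_) ?_
    · obtain ⟨hz, e⟩ := mem_filter.1 (mem_coe.1 hz)
      rw [Prod.mk.injEq] at e
      simp only [mem_filter, mem_product, e.1, e.2] at hz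
      exact mem_coe.2 (mem_filter.2 ⟨mem_product.2 ⟨hz.1.1.1, hz.1.2.1⟩, hz.2.2.2⟩)
    · have e' := (mem_filter.1 (mem_coe.1 hz)).2.trans (mem_filter.1 (mem_coe.1 hz')).2.symm
      rw [Prod.mk.injEq] at e e'
      exact Prod.ext (Prod.ext e.1 e'.1) (Prod.ext e.2 e'.2)
    by_cases hne : u = u₂
    · subst hne
      refine (card_fixed (triv u u hc.1) (en2_diag hp hsq (by omega) hc.1 _)).trans ?_
      rw [if_pos rfl, two_mul, pow_add]
      exact (le_of_eq (by ring)).trans (Nat.le_add_right _ _)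
    have ha := en2_a hp hsq h1 h2 h3 h4 h5 (hU ht.1) (hU ht.2) hne hc.1 (ev x₀)
    rw [if_neg hne, zero_add]
    by_cases hb : bad (u, u₂)
    · rw [if_pos hb]
      exact (card_fixed (triv u u₂ hc.1) ha).trans (Nat.mul_le_mul_left _ (Nat.le_add_left _ _))
    · rw [if_neg hb, add_zero]
      exact card_fixed (en2_b hp hsq h1 (h2.trans h3) h4 hc.1 hc.2 _ _ fun h => hb ⟨hne, h⟩) ha
  refine key.trans (le_of_eq ?_)
  rw [sum_add_distrib, ← mul_sum, sum_add_distrib, sum_const, ← sum_filter bad, sum_const,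
    card_product, sum_product, sum_congr rfl fun u hu => (sum_ite_eq U u _).trans (if_pos hu),
    sum_const, smul_eq_mul, smul_eq_mul, smul_eq_mul, badp, sq, mul_comm U.card (12 ^ w * _)]

end Pool.Agent.P.MP_3bc45c_nt.SI
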