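import Pool.Agent.P.MP_3bc45c_nt.SI.Cls
import Pool.Agent.P.MP_3bc45c_nt.SI.En2
import Pool.Agent.P.MP_3bc45c_nt.SI.BadP

namespace Pool.Agent.P.MP_3bc45c_nt.SI

open Polynomial Finset Pool.Agent.P.MP_a1177c_nt.HL
open scoped Classical

variable {K : Type*} [Field K] [Fintype K] [CharP K 2]

/-- the values `ev (w d)` over the `d` with `od (w d) = Y` -/
private noncomputable def efF (D : Finset K[X]) (w Y : K[X]) : Finset K[X] :=
  (D.filter fun d => od (w * d) = Y).image fun d => ev (w * d)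

/-- the number of `d` with `od (w d) = Y` -/
private noncomputable def efM (D : Finset K[X]) (w Y : K[X]) : ℕ :=
  (D.filter fun d => od (w * d) = Y).card

/-- the number of boxes of length `q ^ (2 l)` met by `efF` -/
private noncomputable def efN (D : Finset K[X]) (w : K[X]) (l : ℕ) (Y : K[X]) : ℕ :=
  ((efF D w Y).image fun x => x /ₘ X ^ (2 * l)).card

private theorem ef_mul_mem {D : Finset K[X]} {w d : K[X]} {N ω κ : ℕ} (hD : D ⊆ Mn K N)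
    (hw : w ∈ Irr K ω) (hκ : N + ω = 2 * κ + 1) (hd : d ∈ D) : w * d ∈ Mn K (2 * κ + 1) := by
  obtain ⟨hw1, hw2, -⟩ := mem_Irr.1 hw
  obtain ⟨hd1, hd2⟩ := mem_Mn.1 (hD hd)
  refine mem_Mn.2 ⟨hw1.mul hd1, ?_⟩
  rw [hw1.natDegree_mul hd1]
  omega

private theorem efF_subset {D : Finset K[X]} {w : K[X]} {N ω κ : ℕ} (hD : D ⊆ Mn K N)
    (hw : w ∈ Irr K ω) (hκ : N + ω = 2 * κ + 1) (Y : K[X]) :
    efF D w Y ⊆ Pl K (2 * (κ / 2 + 1)) := by
  intro x hx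
  obtain ⟨d, hd, rfl⟩ := mem_image.1 hx
  exact Pl_mono (by omega) (od_mem_Mn (ef_mul_mem hD hw hκ (mem_filter.1 hd).1)).2

private theorem efN_le {D : Finset K[X]} {w : K[X]} {L ω l : ℕ} (hI : Inv D L)
    (hw : w ∈ Irr K ω) (hl : 4 * l ≤ L) (hω : ω ≤ 2 * l) (Y : K[X]) :
    efN D w l Y * Fintype.card K ^ (2 * l) ≤ Fintype.card K ^ ω * efM D w Y := by
  obtain ⟨hw1, hw2, -⟩ := mem_Irr.1 hw
  have h1 : efN D w l Y * Fintype.card K ^ (2 * l - w.natDegree) ≤ (efF D w Y).card := by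
    refine card_labels hw1 (by omega) fun x hx z hz => ?_
    obtain ⟨d, hd, rfl⟩ := mem_image.1 hx
    obtain ⟨hd1, hd2⟩ := mem_filter.1 hd
    have hz2 : z ^ 2 ∈ Pl K (2 * (2 * l - w.natDegree)) := by
      refine sq_mem_Pl_iff.2 (Pl_mono (by omega) hz)
    have hz3 : w * z ^ 2 ∈ Pl K L := Pl_mono (by omega) (mul_mem_Pl (le_refl w.natDegree) hz2)
    have he : w * (d + w * z ^ 2) = w * d + (w * z) ^ 2 := by ring
    refine mem_image.2 ⟨d + w * z ^ 2, mem_filter.2 ⟨hI d hd1 _ hz3, ?_⟩, ?_⟩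
    · rw [he, od_add, od_sq, add_zero, hd2]
    · rw [he, ev_add, ev_sq]
  have h2 : (efF D w Y).card ≤ efM D w Y := card_image_le
  have h3 : Fintype.card K ^ (2 * l) =
      Fintype.card K ^ ω * Fintype.card K ^ (2 * l - w.natDegree) := by
    rw [← pow_add]
    congr 1
    omega
  rw [h3, mul_left_comm]
  exact Nat.mul_le_mul_left _ (h1.trans h2)

private theorem ef_sum_fiber {D : Finset K[X]} {w : K[X]} {N ω κ : ℕ} (hD : D ⊆ Mn K N)
    (hw : w ∈ Irr K ω) (hκ : N + ω = 2 * κ + 1) (f : K[X] → ℕ) :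
    ∑ Y ∈ Mn K κ, efM D w Y * f Y = ∑ d ∈ D, f (od (w * d)) := by
  rw [← sum_fiberwise_of_maps_to (s := D) (t := Mn K κ) (g := fun d => od (w * d))
    (fun d hd => (od_mem_Mn (ef_mul_mem hD hw hκ hd)).1)]
  refine sum_congr rfl fun Y _ => ?_
  rw [sum_congr rfl (g := fun _ => f Y) fun d hd => by rw [(mem_filter.1 hd).2], sum_const,
    smul_eq_mul, efM]

/-- the bound for one point -/
private theorem ef_point {D : Finset K[X]} {w : K[X]} {N ω κ j k t l η ω₀ : ℕ}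
    (hD : D ⊆ Mn K N) (hw : w ∈ Irr K ω) (hκ : N + ω = 2 * κ + 1) (hj : 3 * t + ω < j)
    (h1 : κ / 2 + 1 + η + 3 * t + ω + k * j ≤ κ) (h2 : 2 * η ≤ l)
    (h3 : l + η + 3 * t + ω + k * j ≤ κ)
    (hω₀ : ∀ Z : K[X], Z ≠ 0 → Z.natDegree ≤ 5 * κ → (pf Z).card ≤ ω₀)
    {Y : K[X]} {T : Finset K[X]} (hY : Y ∈ Mn K κ) (hg : goodY t Y) (hT : T ⊆ Irr K j)
    (hTk : T.card = k) (hd : (∏ π ∈ T, π) ∣ Y) {A : Finset K[X]} (hA : A ⊆ efF D w Y)
    (c₀ : K[X]) :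
    en A A (Irr K (2 * η)) (cof w Y T) c₀ ≤ efN D w l Y *
      (3 * (24 ^ ω₀ * Fintype.card K ^ (2 * l) * (Irr K (2 * η)).card) +
        Fintype.card K ^ (2 * l - η) * 12 ^ ω₀ *
          badp (Irr K (2 * η)) (cof w Y T) η ((cof w Y T).natDegree - l)) := by
  obtain ⟨hw1, hw2, -⟩ := mem_Irr.1 hw
  obtain ⟨hY1, hY2⟩ := mem_Mn.1 hY
  obtain ⟨-, hp, -, -, -, hy, hdeg, hsq, -, -⟩ := cof_spec hw1 hY1 hg hT hd (by omega)
  rw [hTk, hY2] at hdeg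
  rw [hw2] at hy
  set p := cof w Y T with hpdef
  set U := Irr K (2 * η) with hU
  set q := Fintype.card K with hq
  have hq1 : 1 ≤ q := Fintype.card_pos
  have hu : U.card ≤ q ^ (2 * η) := card_Irr_le _
  have ho : (pf p).card ≤ ω₀ := hω₀ p hp.ne_zero (by omega)
  have e4 : 4 ^ (pf p).card ≤ 24 ^ ω₀ :=
    (Nat.pow_le_pow_left (by norm_num) _).trans (Nat.pow_le_pow_right (by norm_num) ho)
  have e12 : 12 ^ (pf p).card ≤ 12 ^ ω₀ := Nat.pow_le_pow_right (by norm_num) ho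
  have e12' : 12 ^ (pf p).card ≤ 24 ^ ω₀ := e12.trans (Nat.pow_le_pow_left (by norm_num) _)
  have e24 : 24 ^ (pf p).card ≤ 24 ^ ω₀ := Nat.pow_le_pow_right (by norm_num) ho
  have hbox : ∀ x₀ : K[X], en (Box x₀ l) (Pl K (2 * (κ / 2 + 1))) U p c₀ ≤
      3 * (24 ^ ω₀ * q ^ (2 * l) * U.card) +
        q ^ (2 * l - η) * 12 ^ ω₀ * badp U p η (p.natDegree - l) := by
    intro x₀
    refine (en2 hp hsq (l := l) (lam := κ / 2 + 1) (υ := 2 * η) (η := η) (by omega) (by omega)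
      h2 (by omega) (by omega) (subset_refl _) x₀ c₀).trans ?_
    have a1 : 12 ^ (pf p).card * q ^ (2 * l) * U.card ≤ 24 ^ ω₀ * q ^ (2 * l) * U.card := by
      gcongr
    have a2 : q ^ (l - η) * (U.card ^ 2 * (4 ^ (pf p).card * q ^ (l - η))) ≤
        24 ^ ω₀ * q ^ (2 * l) * U.card := by
      have : q ^ (2 * l) = q ^ (l - η) * q ^ (l - η) * q ^ (2 * η) := by
        rw [← pow_add, ← pow_add]
        congr 1
        omega
      rw [this]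
      calc q ^ (l - η) * (U.card ^ 2 * (4 ^ (pf p).card * q ^ (l - η)))
          = 4 ^ (pf p).card * (q ^ (l - η) * q ^ (l - η) * U.card) * U.card := by ring
        _ ≤ 24 ^ ω₀ * (q ^ (l - η) * q ^ (l - η) * q ^ (2 * η)) * U.card := by gcongr
    have a3 : q ^ (l - η) * (U.card ^ 2 * 24 ^ (pf p).card) ≤
        24 ^ ω₀ * q ^ (2 * l) * U.card := by
      have : q ^ (l - η) * q ^ (2 * η) ≤ q ^ (2 * l) := by
        rw [← pow_add]
        exact Nat.pow_le_pow_right hq1 (by omega)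
      calc q ^ (l - η) * (U.card ^ 2 * 24 ^ (pf p).card)
          = 24 ^ (pf p).card * (q ^ (l - η) * U.card) * U.card := by ring
        _ ≤ 24 ^ ω₀ * (q ^ (l - η) * q ^ (2 * η)) * U.card := by gcongr
        _ ≤ 24 ^ ω₀ * q ^ (2 * l) * U.card := by gcongr
    have a4 : q ^ (l - η) * (badp U p η (p.natDegree - l) * (12 ^ (pf p).card * q ^ l)) ≤
        q ^ (2 * l - η) * 12 ^ ω₀ * badp U p η (p.natDegree - l) := by
      have : q ^ (2 * l - η) = q ^ (l - η) * q ^ l := by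
        rw [← pow_add]
        congr 1
        omega
      rw [this]
      calc q ^ (l - η) * (badp U p η (p.natDegree - l) * (12 ^ (pf p).card * q ^ l))
          = q ^ (l - η) * q ^ l * 12 ^ (pf p).card * badp U p η (p.natDegree - l) := by ring
        _ ≤ q ^ (l - η) * q ^ l * 12 ^ ω₀ * badp U p η (p.natDegree - l) := by gcongr
    rw [← hq, ← hU, mul_add, mul_add, mul_add]
    omega
  calc en A A U p c₀ ≤ en (efF D w Y) (Pl K (2 * (κ / 2 + 1))) U p c₀ :=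
        en_mono hA (hA.trans (efF_subset hD hw hκ Y)) p c₀
    _ ≤ ∑ x₀ ∈ ((efF D w Y).image fun x => x /ₘ X ^ (2 * l)).image fun a => X ^ (2 * l) * a,
          en (Box x₀ l) (Pl K (2 * (κ / 2 + 1))) U p c₀ :=
        en_le_of_cover (fun x hx => ⟨_, mem_image_of_mem _ (mem_image_of_mem _ hx),
          mem_Box_label x l⟩) p c₀
    _ ≤ (((efF D w Y).image fun x => x /ₘ X ^ (2 * l)).image fun a => X ^ (2 * l) * a).card *
          (3 * (24 ^ ω₀ * q ^ (2 * l) * U.card) +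
            q ^ (2 * l - η) * 12 ^ ω₀ * badp U p η (p.natDegree - l)) := by
        rw [← smul_eq_mul]
        exact sum_le_card_nsmul _ _ _ fun x₀ _ => hbox x₀
    _ ≤ _ := Nat.mul_le_mul_right _ card_image_le

/-- the weighted number of bad pairs -/
private theorem ef_bad {D : Finset K[X]} {w : K[X]} {N h β ω κ j k t l η ω₀ : ℕ}
    (hD : D ⊆ Mn K N) (hw : w ∈ Irr K ω) (hκ : N + ω = 2 * κ + 1) (hj : 3 * t + ω < j)
    (h2 : 2 * η ≤ l) (h3 : l + η + 3 * t + ω + k * j ≤ κ)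
    (hcoll : coll D w ≤ Fintype.card K ^ β) (hβ : β + κ + 3 * η ≤ 2 * h + l)
    (hω₀ : ∀ Z : K[X], Z ≠ 0 → Z.natDegree ≤ 5 * κ → (pf Z).card ≤ ω₀) :
    (∑ Y ∈ (Mn K κ).filter (fun Y => goodY t Y), efM D w Y *
        ∑ T ∈ ((Irr K j).powersetCard k).filter (fun T => (∏ π ∈ T, π) ∣ Y),
          badp (Irr K (2 * η)) (cof w Y T) η ((cof w Y T).natDegree - l)) *
        Fintype.card K ^ η ≤
      2 ^ (κ / j) * (κ + 1) * 2 ^ ω₀ * (Irr K (2 * η)).card ^ 2 * Fintype.card K ^ h := by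
  obtain ⟨hw1, hw2, -⟩ := mem_Irr.1 hw
  set U := Irr K (2 * η) with hU
  set q := Fintype.card K with hq
  have hq1 : 1 ≤ q := Fintype.card_pos
  set b : K[X] → ℕ := fun Y => if goodY t Y then
    ∑ T ∈ ((Irr K j).powersetCard k).filter (fun T => (∏ π ∈ T, π) ∣ Y),
      badp U (cof w Y T) η ((cof w Y T).natDegree - l) else 0 with hb
  have e1 : ∑ Y ∈ (Mn K κ).filter (fun Y => goodY t Y), efM D w Y *
        ∑ T ∈ ((Irr K j).powersetCard k).filter (fun T => (∏ π ∈ T, π) ∣ Y),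
          badp U (cof w Y T) η ((cof w Y T).natDegree - l) = ∑ d ∈ D, b (od (w * d)) := by
    rw [← ef_sum_fiber hD hw hκ b, sum_filter]
    refine sum_congr rfl fun Y _ => ?_
    simp only [hb]
    split_ifs <;> simp
  rw [e1]
  set S := ∑ d ∈ D, b (od (w * d)) with hS
  have e2 : S ^ 2 ≤ coll D w * ∑ Y ∈ Mn K κ, b Y ^ 2 := by
    have := sum_od_sq_le (D := D) (w := w) (R := Mn K κ)
      (fun d hd => (od_mem_Mn (ef_mul_mem hD hw hκ hd)).1) fun Y => (b Y : ℝ)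
    rw [hS]
    exact_mod_cast this
  have e3 : ∀ Y ∈ Mn K κ, b Y ≤ 2 ^ (κ / j) * U.card ^ 2 := by
    intro Y hY
    obtain ⟨hY1, hY2⟩ := mem_Mn.1 hY
    simp only [hb]
    split_ifs
    · refine (sum_le_card_nsmul _ _ _ fun T _ => badp_le U _ _ _).trans ?_
      rw [smul_eq_mul]
      exact Nat.mul_le_mul_right _ (rr_le (by omega) hY1.ne_zero hY2.le)
    · exact Nat.zero_le _
  have e4 : (∑ Y ∈ Mn K κ, b Y) * q ^ l ≤
      2 ^ (κ / j) * (κ + 1) * (U.card ^ 2 * q ^ (η + κ) * 2 ^ ω₀) := by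
    have := sum_badp_cof (U := U) (w := w) (υ := 2 * η) (η := η) (l := l) (κ := κ) (j := j)
      (k := k) (t := t) (ω₁ := ω₀) (subset_refl _) hw1 (by omega) (by omega)
      fun Z hZ hZd => hω₀ Z hZ (by omega)
    rwa [sum_filter] at this
  have e5 : ∑ Y ∈ Mn K κ, b Y ^ 2 ≤ 2 ^ (κ / j) * U.card ^ 2 * ∑ Y ∈ Mn K κ, b Y := by
    rw [mul_sum]
    refine sum_le_sum fun Y hY => ?_
    rw [sq]
    exact Nat.mul_le_mul_right _ (e3 Y hY)
  have e6 : q ^ β * q ^ (η + κ) * (q ^ η) ^ 2 ≤ (q ^ h) ^ 2 * q ^ l := by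
    rw [← pow_mul, ← pow_mul, ← pow_add, ← pow_add, ← pow_add]
    exact Nat.pow_le_pow_right hq1 (by omega)
  have e7 : (κ + 1) * 2 ^ ω₀ ≤ ((κ + 1) * 2 ^ ω₀) ^ 2 := Nat.le_self_pow (by norm_num) _
  have e8 : (S * q ^ η) ^ 2 * q ^ l ≤
      (2 ^ (κ / j) * (κ + 1) * 2 ^ ω₀ * U.card ^ 2 * q ^ h) ^ 2 * q ^ l := by
    calc (S * q ^ η) ^ 2 * q ^ l = S ^ 2 * (q ^ η) ^ 2 * q ^ l := by ring
      _ ≤ (q ^ β * (2 ^ (κ / j) * U.card ^ 2 * ∑ Y ∈ Mn K κ, b Y)) * (q ^ η) ^ 2 * q ^ l := by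
          gcongr
          exact e2.trans (Nat.mul_le_mul hcoll e5)
      _ = q ^ β * (2 ^ (κ / j) * U.card ^ 2) * (q ^ η) ^ 2 *
            ((∑ Y ∈ Mn K κ, b Y) * q ^ l) := by ring
      _ ≤ q ^ β * (2 ^ (κ / j) * U.card ^ 2) * (q ^ η) ^ 2 *
            (2 ^ (κ / j) * (κ + 1) * (U.card ^ 2 * q ^ (η + κ) * 2 ^ ω₀)) := by gcongr
      _ = (2 ^ (κ / j) * U.card ^ 2) ^ 2 * ((κ + 1) * 2 ^ ω₀) *
            (q ^ β * q ^ (η + κ) * (q ^ η) ^ 2) := by ring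
      _ ≤ (2 ^ (κ / j) * U.card ^ 2) ^ 2 * ((κ + 1) * 2 ^ ω₀) ^ 2 *
            ((q ^ h) ^ 2 * q ^ l) := by gcongr
      _ = _ := by ring
  have e9 := Nat.le_of_mul_le_mul_right e8 (pow_pos hq1 l)
  exact (Nat.pow_le_pow_iff_left (by norm_num)).1 e9

omit [Fintype K] [CharP K 2] in
private theorem ef_En_le {I : Type*} {Ω : Finset (I × K[X])} {U : Finset K[X]}
    {p c₀ : I → K[X]} {S : Finset I} {G : I → ℕ} (hS : ∀ z ∈ Ω, z.1 ∈ S)
    (hG : ∀ z ∈ Ω, en (fib Ω z.1) (fib Ω z.1) U (p z.1) (c₀ z.1) ≤ G z.1) :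
    En Ω U p c₀ ≤ ∑ ι ∈ S, G ι := by
  unfold En
  refine (sum_le_sum (g := G) fun ι hι => ?_).trans (sum_le_sum_of_subset fun ι hι => ?_)
  · obtain ⟨z, hz, rfl⟩ := mem_image.1 hι
    exact hG z hz
  · obtain ⟨z, hz, rfl⟩ := mem_image.1 hι
    exact hS z hz

omit [Fintype K] [CharP K 2] in
private theorem ef_mem_fib {I : Type*} {Ω : Finset (I × K[X])} {ι : I} {x : K[X]}
    (hx : x ∈ fib Ω ι) : (ι, x) ∈ Ω := by
  unfold fib at hx
  obtain ⟨z, hz, rfl⟩ := mem_image.1 hx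
  obtain ⟨hz1, rfl⟩ := mem_filter.1 hz
  exact hz1

theorem enW_full {D : Finset K[X]} {w : K[X]} {N L h β ω κ j k t l η ω₀ : ℕ} (hD : D ⊆ Mn K N)
    (hI : Inv D L) (hcard : D.card ≤ Fintype.card K ^ h) (hw : w ∈ Irr K ω)
    (hκ : N + ω = 2 * κ + 1) (hj : 3 * t + ω < j) (hl : 4 * l ≤ L) (hω : ω ≤ 2 * l)
    (h1 : κ / 2 + 1 + η + 3 * t + ω + k * j ≤ κ) (h2 : 2 * η ≤ l)
    (h3 : l + η + 3 * t + ω + k * j ≤ κ) (hcoll : coll D w ≤ Fintype.card K ^ β)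
    (hβ : β + κ + 3 * η ≤ 2 * h + l)
    (hω₀ : ∀ Z : K[X], Z ≠ 0 → Z.natDegree ≤ 5 * κ → (pf Z).card ≤ ω₀) :
    EnW D w j k t (κ / 2 + 1) (2 * η) ≤
      4 * 2 ^ (κ / j) * (κ + 1) * 24 ^ ω₀ * Fintype.card K ^ (h + ω) * (Irr K (2 * η)).card := by
  have hbad := ef_bad (k := k) hD hw hκ hj h2 h3 hcoll hβ hω₀
  set U := Irr K (2 * η) with hU
  set q := Fintype.card K with hq
  have hq1 : 1 ≤ q := Fintype.card_pos
  have hu : U.card ≤ q ^ (2 * η) := card_Irr_le _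
  set R := (Mn K κ).filter (fun Y => goodY t Y) with hR
  set TT : K[X] → Finset (Finset K[X]) := fun Y =>
    ((Irr K j).powersetCard k).filter (fun T => (∏ π ∈ T, π) ∣ Y) with hTT
  set bp : K[X] → Finset K[X] → ℕ := fun Y T =>
    badp U (cof w Y T) η ((cof w Y T).natDegree - l) with hbp
  set A := 24 ^ ω₀ * q ^ (2 * l) * U.card with hA
  set c := q ^ (2 * l - η) * 12 ^ ω₀ with hc
  set G : K[X] × Finset K[X] × K[X] → ℕ := fun ι =>
    efN D w l ι.1 * (3 * A + c * bp ι.1 ι.2.1) with hG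
  have s1 : EnW D w j k t (κ / 2 + 1) (2 * η) ≤
      ∑ ι ∈ (R.sigma TT).image fun z => (z.1, z.2, (0 : K[X])), G ι := by
    refine ef_En_le (fun z hz => ?_) fun z hz => ?_
    · obtain ⟨d, hd, g1, g2, g3, g4, g5, g6, g7⟩ := mem_Omg.1 hz
      have hm := od_mem_Mn (ef_mul_mem hD hw hκ hd)
      have h0 : z.1.2.2 = 0 := by
        have hx : z.2 ∈ Pl K (2 * (κ / 2 + 1)) := g2 ▸ Pl_mono (by omega) hm.2
        have := divX_add_of_mem_Pl (x := 0) hx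
        rw [zero_add, zero_divByMonic] at this
        rw [g7, this]
      refine mem_image.2 ⟨⟨z.1.1, z.1.2.1⟩, mem_sigma.2 ⟨mem_filter.2 ⟨g1 ▸ hm.1, g3⟩,
        mem_filter.2 ⟨mem_powersetCard.2 ⟨g4, g5⟩, g6⟩⟩, ?_⟩
      rw [← h0]
    · obtain ⟨d, hd, g1, g2, g3, g4, g5, g6, g7⟩ := mem_Omg.1 hz
      have hY : z.1.1 ∈ Mn K κ := g1 ▸ (od_mem_Mn (ef_mul_mem hD hw hκ hd)).1
      refine ef_point hD hw hκ hj h1 h2 h3 hω₀ hY g3 g4 g5 g6 (fun x hx => ?_) _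
      obtain ⟨d', hd', f1, f2, -⟩ := mem_Omg.1 (ef_mem_fib hx)
      exact mem_image.2 ⟨d', mem_filter.2 ⟨hd', f1⟩, f2⟩
  have s3 : ∑ ι ∈ (R.sigma TT).image fun z => (z.1, z.2, (0 : K[X])), G ι =
      ∑ Y ∈ R, ∑ T ∈ TT Y, efN D w l Y * (3 * A + c * bp Y T) := by
    rw [sum_image, sum_sigma]
    rintro ⟨a, b⟩ - ⟨a', b'⟩ - hh
    simp only [Prod.mk.injEq, and_true] at hh
    obtain ⟨rfl, rfl⟩ := hh
    rfl
  have s4 : ∑ Y ∈ R, ∑ T ∈ TT Y, efN D w l Y * (3 * A + c * bp Y T) =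
      3 * (∑ Y ∈ R, (TT Y).card * (efN D w l Y * A)) +
        ∑ Y ∈ R, efN D w l Y * c * ∑ T ∈ TT Y, bp Y T := by
    rw [mul_sum, ← sum_add_distrib]
    refine sum_congr rfl fun Y _ => ?_
    simp only [mul_add, sum_add_distrib, sum_const, smul_eq_mul, mul_sum]
    congr 1
    · ring
    · exact sum_congr rfl fun T _ => by ring
  have hN := efN_le hI hw hl hω
  have s5 : ∑ Y ∈ R, (TT Y).card * (efN D w l Y * A) ≤
      2 ^ (κ / j) * (κ + 1) * 24 ^ ω₀ * q ^ (h + ω) * U.card := by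
    have hm : ∑ Y ∈ Mn K κ, efM D w Y ≤ q ^ h := by
      have := ef_sum_fiber hD hw hκ fun _ => 1
      simp only [mul_one, sum_const, smul_eq_mul] at this
      rw [this]
      exact hcard
    calc ∑ Y ∈ R, (TT Y).card * (efN D w l Y * A)
        ≤ ∑ Y ∈ R, 2 ^ (κ / j) * 24 ^ ω₀ * U.card * q ^ ω * efM D w Y := by
          refine sum_le_sum fun Y hY => ?_
          obtain ⟨hY1, hY2⟩ := mem_Mn.1 (mem_filter.1 hY).1
          have hr : (TT Y).card ≤ 2 ^ (κ / j) := rr_le (by omega) hY1.ne_zero hY2.le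
          calc (TT Y).card * (efN D w l Y * A)
              = (TT Y).card * 24 ^ ω₀ * U.card * (efN D w l Y * q ^ (2 * l)) := by
                rw [hA]; ring
            _ ≤ 2 ^ (κ / j) * 24 ^ ω₀ * U.card * (q ^ ω * efM D w Y) :=
                Nat.mul_le_mul (by gcongr) (hN Y)
            _ = _ := by ring
      _ ≤ ∑ Y ∈ Mn K κ, 2 ^ (κ / j) * 24 ^ ω₀ * U.card * q ^ ω * efM D w Y :=
          sum_le_sum_of_subset (filter_subset _ _)
      _ = 2 ^ (κ / j) * 24 ^ ω₀ * U.card * q ^ ω * ∑ Y ∈ Mn K κ, efM D w Y := by rw [mul_sum]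
      _ ≤ 2 ^ (κ / j) * 24 ^ ω₀ * U.card * q ^ ω * q ^ h := by gcongr
      _ = 2 ^ (κ / j) * 1 * 24 ^ ω₀ * q ^ (h + ω) * U.card := by ring
      _ ≤ _ := by gcongr; omega
  have s6 : ∑ Y ∈ R, efN D w l Y * c * ∑ T ∈ TT Y, bp Y T ≤
      2 ^ (κ / j) * (κ + 1) * 24 ^ ω₀ * q ^ (h + ω) * U.card := by
    refine Nat.le_of_mul_le_mul_right ?_ (pow_pos hq1 (2 * η))
    have hpow : q ^ (2 * l) = q ^ (2 * l - η) * q ^ η := by
      rw [← pow_add]
      congr 1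
      omega
    calc (∑ Y ∈ R, efN D w l Y * c * ∑ T ∈ TT Y, bp Y T) * q ^ (2 * η)
        = (∑ Y ∈ R, (efN D w l Y * c * ∑ T ∈ TT Y, bp Y T) * q ^ η) * q ^ η := by
          rw [← sum_mul]; ring
      _ ≤ (∑ Y ∈ R, 12 ^ ω₀ * q ^ ω * (efM D w Y * ∑ T ∈ TT Y, bp Y T)) * q ^ η := by
          refine Nat.mul_le_mul_right _ (sum_le_sum fun Y hY => ?_)
          calc (efN D w l Y * c * ∑ T ∈ TT Y, bp Y T) * q ^ η
              = 12 ^ ω₀ * (efN D w l Y * q ^ (2 * l)) * ∑ T ∈ TT Y, bp Y T := by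
                rw [hc, hpow]; ring
            _ ≤ 12 ^ ω₀ * (q ^ ω * efM D w Y) * ∑ T ∈ TT Y, bp Y T :=
                Nat.mul_le_mul_right _ (Nat.mul_le_mul_left _ (hN Y))
            _ = _ := by ring
      _ = 12 ^ ω₀ * q ^ ω * ((∑ Y ∈ R, efM D w Y * ∑ T ∈ TT Y, bp Y T) * q ^ η) := by
          rw [← mul_sum]; ring
      _ ≤ 12 ^ ω₀ * q ^ ω * (2 ^ (κ / j) * (κ + 1) * 2 ^ ω₀ * U.card ^ 2 * q ^ h) := by
          gcongr
      _ = 2 ^ (κ / j) * (κ + 1) * (12 * 2) ^ ω₀ * q ^ (h + ω) * U.card * U.card := by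
          rw [mul_pow]; ring
      _ ≤ _ := by
          gcongr
  calc EnW D w j k t (κ / 2 + 1) (2 * η) ≤ _ := s1
    _ = _ := s3
    _ = _ := s4
    _ ≤ 3 * (2 ^ (κ / j) * (κ + 1) * 24 ^ ω₀ * q ^ (h + ω) * U.card) +
          2 ^ (κ / j) * (κ + 1) * 24 ^ ω₀ * q ^ (h + ω) * U.card := by gcongr
    _ = _ := by ring

end Pool.Agent.P.MP_3bc45c_nt.SI
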