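import Pool.Agent.P.MP_3bc45c_nt.SI.Defs

namespace Pool.Agent.P.MP_3bc45c_nt.SI

open Polynomial Finset Pool.Agent.P.MP_a1177c_nt.HL
open scoped Classical

variable {K : Type*} [Field K] [Fintype K] [CharP K 2]

theorem ev_add_od (g : K[X]) : ev g ^ 2 + X * od g ^ 2 = g :=
  (exists_sq_add g).choose_spec.choose_spec.symm

theorem ev_mk (B C : K[X]) : ev (B ^ 2 + X * C ^ 2) = B :=
  (sq_add_inj (ev_add_od (B ^ 2 + X * C ^ 2))).1

theorem od_mk (B C : K[X]) : od (B ^ 2 + X * C ^ 2) = C :=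
  (sq_add_inj (ev_add_od (B ^ 2 + X * C ^ 2))).2

theorem eq_of_ev_od {g g' : K[X]} (h1 : ev g = ev g') (h2 : od g = od g') : g = g' := by
  rw [← ev_add_od g, ← ev_add_od g', h1, h2]

private theorem add_eq (g g' : K[X]) :
    g + g' = (ev g + ev g') ^ 2 + X * (od g + od g') ^ 2 := by
  have h := ev_add_od g
  have h' := ev_add_od g'
  linear_combination -h - h' - (ev g * ev g' + X * (od g * od g')) * two_eq_zero_poly (K := K)

private theorem mul_eq (g g' : K[X]) :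
    g * g' = (ev g * ev g' + X * (od g * od g')) ^ 2 +
      X * (ev g * od g' + od g * ev g') ^ 2 := by
  have h := ev_add_od g
  have h' := ev_add_od g'
  linear_combination -g' * h - (ev g ^ 2 + X * od g ^ 2) * h' -
    (2 * X * ev g * ev g' * od g * od g') * two_eq_zero_poly (K := K)

theorem ev_add (g g' : K[X]) : ev (g + g') = ev g + ev g' := by
  conv_lhs => rw [add_eq g g', ev_mk]

theorem od_add (g g' : K[X]) : od (g + g') = od g + od g' := by
  conv_lhs => rw [add_eq g g', od_mk]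

theorem ev_mul (g g' : K[X]) : ev (g * g') = ev g * ev g' + X * (od g * od g') := by
  conv_lhs => rw [mul_eq g g', ev_mk]

theorem od_mul (g g' : K[X]) : od (g * g') = ev g * od g' + od g * ev g' := by
  conv_lhs => rw [mul_eq g g', od_mk]

theorem ev_sq (h : K[X]) : ev (h ^ 2) = h := by
  have := ev_mk h 0
  simpa using this

theorem od_sq (h : K[X]) : od (h ^ 2) = 0 := by
  have := od_mk h 0
  simpa using this

theorem ev_mul_sq (g h : K[X]) : ev (g * h ^ 2) = ev g * h := by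
  rw [ev_mul, ev_sq, od_sq]; ring

theorem od_mul_sq (g h : K[X]) : od (g * h ^ 2) = od g * h := by
  rw [od_mul, ev_sq, od_sq]; ring

theorem od_sq_eq (g : K[X]) : od g ^ 2 = derivative g := by
  conv_rhs => rw [← ev_add_od g, derivative_sq_add]

omit [CharP K 2] in
theorem mem_Pl_iff' {g : K[X]} {n : ℕ} : g ∈ Pl K n ↔ g = 0 ∨ g.natDegree < n := by
  rw [mem_Pl]
  by_cases hg : g = 0
  · subst hg
    simp
  · rw [← natDegree_lt_iff_degree_lt hg]
    simp [hg]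

omit [CharP K 2] in
private theorem sq_add_mem_iff (B C : K[X]) (n : ℕ) :
    B ^ 2 + X * C ^ 2 ∈ Pl K n ↔
      (B = 0 ∨ 2 * B.natDegree < n) ∧ (C = 0 ∨ 2 * C.natDegree + 1 < n) := by
  have hX : ∀ {C : K[X]}, C ≠ 0 → (X * C ^ 2).natDegree = 2 * C.natDegree + 1 := fun hC => by
    rw [natDegree_X_mul (pow_ne_zero 2 hC), natDegree_pow]
  by_cases hB : B = 0
  · subst hB
    by_cases hC : C = 0
    · subst hC
      simp [mem_Pl]
    · have h0 : X * C ^ 2 ≠ 0 := mul_ne_zero X_ne_zero (pow_ne_zero 2 hC)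
      rw [zero_pow two_ne_zero, zero_add, mem_Pl_iff', hX hC]
      simp [hC]
  · have hB2 : B ^ 2 ≠ 0 := pow_ne_zero 2 hB
    by_cases hC : C = 0
    · subst hC
      rw [zero_pow two_ne_zero, mul_zero, add_zero, mem_Pl_iff', natDegree_pow]
      simp [hB]
    · have h0 : X * C ^ 2 ≠ 0 := mul_ne_zero X_ne_zero (pow_ne_zero 2 hC)
      have e1 : (B ^ 2).natDegree = 2 * B.natDegree := natDegree_pow B 2
      have e2 := hX hC
      rw [mem_Pl]
      rcases lt_or_gt_of_ne (show (B ^ 2).natDegree ≠ (X * C ^ 2).natDegree by omega) with h | h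
      · have hd : (B ^ 2).degree < (X * C ^ 2).degree := degree_lt_degree h
        rw [degree_add_eq_right_of_degree_lt hd, ← natDegree_lt_iff_degree_lt h0]
        simp only [hB, hC, false_or]
        omega
      · have hd : (X * C ^ 2).degree < (B ^ 2).degree := degree_lt_degree h
        rw [degree_add_eq_left_of_degree_lt hd, ← natDegree_lt_iff_degree_lt hB2]
        simp only [hB, hC, false_or]
        omega

theorem mem_Pl_iff_ev_od {n : ℕ} {g : K[X]} :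
    g ∈ Pl K n ↔ ev g ∈ Pl K ((n + 1) / 2) ∧ od g ∈ Pl K (n / 2) := by
  conv_lhs => rw [← ev_add_od g, sq_add_mem_iff]
  rw [mem_Pl_iff', mem_Pl_iff']
  constructor
  · rintro ⟨h1, h2⟩
    exact ⟨h1.imp id (by omega), h2.imp id (by omega)⟩
  · rintro ⟨h1, h2⟩
    exact ⟨h1.imp id (by omega), h2.imp id (by omega)⟩

theorem sq_mem_Pl_iff {n : ℕ} {g : K[X]} : g ^ 2 ∈ Pl K n ↔ g ∈ Pl K ((n + 1) / 2) := by
  rw [mem_Pl_iff_ev_od, ev_sq, od_sq]
  simp [mem_Pl]

theorem mul_mem_Pl {n m : ℕ} {g h : K[X]} (hg : g.natDegree ≤ m) (hh : h ∈ Pl K n) :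
    g * h ∈ Pl K (m + n) := by
  rw [mem_Pl_iff'] at hh ⊢
  rcases hh with rfl | hh
  · simp
  · right
    have := natDegree_mul_le (p := g) (q := h)
    omega

omit [CharP K 2] in
theorem mem_Mn_iff_sub {n : ℕ} {g : K[X]} : g ∈ Mn K n ↔ g - X ^ n ∈ Pl K n := by
  rw [mem_Mn, mem_Pl]
  constructor
  · rintro ⟨hm, hd⟩
    have h1 : g.degree = (X ^ n : K[X]).degree := by
      rw [degree_eq_natDegree hm.ne_zero, hd, degree_X_pow]
    have := degree_sub_lt h1 hm.ne_zero (by rw [hm.leadingCoeff, leadingCoeff_X_pow])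
    rwa [h1, degree_X_pow] at this
  · intro h
    have e : g = X ^ n + (g - X ^ n) := by ring
    have hlt : (g - X ^ n).degree < (X ^ n : K[X]).degree := by rwa [degree_X_pow]
    refine ⟨by rw [e]; exact (monic_X_pow n).add_of_left hlt, ?_⟩
    rw [e, natDegree_add_eq_left_of_degree_lt hlt, natDegree_X_pow]

theorem mem_Mn_iff_add {n : ℕ} {g : K[X]} : g ∈ Mn K n ↔ g + X ^ n ∈ Pl K n := by
  rw [mem_Mn_iff_sub, CharTwo.sub_eq_add]

theorem od_mem_Mn {κ : ℕ} {g : K[X]} (hg : g ∈ Mn K (2 * κ + 1)) :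
    od g ∈ Mn K κ ∧ ev g ∈ Pl K (κ + 1) := by
  rw [mem_Mn_iff_add, mem_Pl_iff_ev_od, ev_add, od_add] at hg
  have e : (X ^ (2 * κ + 1) : K[X]) = 0 ^ 2 + X * (X ^ κ) ^ 2 := by ring
  rw [e, ev_mk, od_mk, add_zero] at hg
  rw [mem_Mn_iff_add]
  have h1 : (2 * κ + 1) / 2 = κ := by omega
  have h2 : (2 * κ + 1 + 1) / 2 = κ + 1 := by omega
  rw [h1, h2] at hg
  exact ⟨hg.2, hg.1⟩

theorem ev_mem_Mn {κ : ℕ} {g : K[X]} (hg : g ∈ Mn K (2 * κ)) :
    ev g ∈ Mn K κ ∧ od g ∈ Pl K κ := by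
  rw [mem_Mn_iff_add, mem_Pl_iff_ev_od, ev_add, od_add] at hg
  have e : (X ^ (2 * κ) : K[X]) = (X ^ κ) ^ 2 := by ring
  rw [e, ev_sq, od_sq, add_zero] at hg
  rw [mem_Mn_iff_add]
  have h1 : (2 * κ) / 2 = κ := by omega
  have h2 : (2 * κ + 1) / 2 = κ := by omega
  rw [h1, h2] at hg
  exact hg

theorem mem_Irr {j : ℕ} {π : K[X]} :
    π ∈ Irr K j ↔ π.Monic ∧ π.natDegree = j ∧ Irreducible π := by
  rw [Irr, mem_filter, mem_Mn, and_assoc]

theorem mem_Box {x₀ x : K[X]} {l : ℕ} : x ∈ Box x₀ l ↔ x + x₀ ∈ Pl K (2 * l) := by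
  rw [Box, mem_image]
  constructor
  · rintro ⟨a, ha, rfl⟩
    have e : x₀ + a + x₀ = a := by linear_combination x₀ * two_eq_zero_poly (K := K)
    rwa [e]
  · intro h
    exact ⟨x + x₀, h, by linear_combination x₀ * two_eq_zero_poly (K := K)⟩

private theorem exists_sq_mod {p : K[X]} (hp : p.Monic) (hsq : Squarefree p) (c : K[X]) :
    ∃ x ∈ Pl K p.natDegree, p ∣ x ^ 2 - c := by
  have hmem : ∀ b : K[X], b %ₘ p ∈ Pl K p.natDegree := fun b => by
    rw [mem_Pl, ← degree_eq_natDegree hp.ne_zero]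
    exact degree_modByMonic_lt b hp
  have hinj : Set.InjOn (fun b : K[X] => (b ^ 2) %ₘ p) (Pl K p.natDegree : Set K[X]) := by
    intro b hb b' hb' h
    have h1 : p ∣ b ^ 2 - b' ^ 2 := by
      rw [← modByMonic_eq_zero_iff_dvd hp, sub_modByMonic]
      exact sub_eq_zero.2 h
    have e : b ^ 2 - b' ^ 2 = (b + b') ^ 2 := by
      linear_combination -(b * b' + b' ^ 2) * two_eq_zero_poly (K := K)
    rw [e] at h1
    have h2 : p ∣ b + b' := hsq.isRadical 2 _ h1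
    have h3 : b + b' ∈ Pl K p.natDegree := add_mem_Pl hb hb'
    rw [mem_Pl, ← degree_eq_natDegree hp.ne_zero] at h3
    have h4 := eq_zero_of_dvd_of_degree_lt h2 h3
    linear_combination h4 - b' * two_eq_zero_poly (K := K)
  have hsurj := Finset.surjOn_of_injOn_of_card_le (fun b : K[X] => (b ^ 2) %ₘ p)
    (s := Pl K p.natDegree) (t := Pl K p.natDegree) (fun b _ => hmem _) hinj le_rfl
  obtain ⟨x, hx, h⟩ := hsurj (hmem c)
  refine ⟨x, hx, ?_⟩
  rw [← modByMonic_eq_zero_iff_dvd hp, sub_modByMonic]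
  exact sub_eq_zero.2 h

theorem exists_od_eq {w z : K[X]} {ω l L : ℕ} (hw : w ∈ Irr K ω) (hz : z ∈ Pl K l)
    (h1 : 2 * l ≤ L + ω) (h2 : ω ≤ L + 1) : ∃ a ∈ Pl K L, od (w * a) = z := by
  obtain ⟨hm, hd, hi⟩ := mem_Irr.1 hw
  obtain ⟨x, hx, a, ha⟩ := exists_sq_mod hm hi.squarefree (X * z ^ 2)
  rw [CharTwo.sub_eq_add] at ha
  refine ⟨a, ?_, by rw [← ha, od_mk]⟩
  have h3 : w * a ∈ Pl K (L + ω) := by
    rw [← ha, mem_Pl_iff_ev_od, ev_mk, od_mk]
    rw [hd] at hx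
    exact ⟨Pl_mono (by omega) hx, Pl_mono (by omega) hz⟩
  rw [mem_Pl_iff'] at h3 ⊢
  by_cases h0 : a = 0
  · exact Or.inl h0
  · right
    rcases h3 with h3 | h3
    · exact absurd h3 (mul_ne_zero hm.ne_zero h0)
    · rw [natDegree_mul hm.ne_zero h0] at h3
      omega

theorem od_mul_Irr {w w' : K[X]} {ω : ℕ} (hw : w ∈ Irr K ω) (hw' : w' ∈ Irr K ω) (h : w ≠ w') :
    od (w * w') ≠ 0 ∧ od (w * w') ∈ Pl K ω := by
  obtain ⟨hm, hd, hi⟩ := mem_Irr.1 hw
  obtain ⟨hm', hd', hi'⟩ := mem_Irr.1 hw'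
  constructor
  · intro h0
    have e := ev_add_od (w * w')
    rw [h0] at e
    have h1 : w ∣ ev (w * w') ^ 2 := ⟨w', by linear_combination e⟩
    obtain ⟨r, hr⟩ := hi.prime.dvd_of_dvd_pow h1
    have h2 : w ∣ w' := by
      refine ⟨r ^ 2, mul_left_cancel₀ hm.ne_zero ?_⟩
      rw [hr] at e
      linear_combination -e
    exact h (eq_of_monic_of_associated hm hm' (hi.associated_of_dvd hi' h2))
  · have h1 : w * w' ∈ Mn K (2 * ω) := by
      rw [mem_Mn]
      refine ⟨hm.mul hm', ?_⟩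
      rw [hm.natDegree_mul hm']
      omega
    exact (ev_mem_Mn h1).2

/-- sums over a union of intervals are unchanged by a small shift -/
theorem Inv.sum_shift {D : Finset K[X]} {L : ℕ} (hD : Inv D L) {a : K[X]} (ha : a ∈ Pl K L)
    (F : K[X] → ℝ) : ∑ d ∈ D, F (d + a) = ∑ d ∈ D, F d := by
  have e : ∀ d : K[X], d + a + a = d := fun d => by
    linear_combination a * two_eq_zero_poly (K := K)
  exact sum_nbij' (fun d => d + a) (fun d => d + a) (fun d hd => hD d hd a ha)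
    (fun d hd => hD d hd a ha) (fun d _ => e d) (fun d _ => e d) (fun d _ => rfl)

theorem exists_pow_four {p : K[X]} (hp : p.Monic) (hsq : Squarefree p) (c : K[X]) :
    ∃ τ : K[X], p ∣ τ ^ 4 - c := by
  obtain ⟨x, -, hx⟩ := exists_sq_mod hp hsq c
  obtain ⟨τ, -, hτ⟩ := exists_sq_mod hp hsq x
  refine ⟨τ, ?_⟩
  have e : τ ^ 4 - c = (τ ^ 2 - x) * (τ ^ 2 + x) + (x ^ 2 - c) := by ring
  rw [e]
  exact dvd_add (hτ.mul_right _) hx

theorem absorb {Q A c : ℝ} (hQ : 2 ≤ Q) (hc : 0 < c) (b : ℕ) :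
    ∃ g₀ : ℕ, ∀ g ≥ g₀, A * (g : ℝ) ^ b ≤ Q ^ (c * g) := by
  have hr : 1 < Q ^ c := Real.one_lt_rpow (by linarith) hc
  have h := tendsto_pow_const_div_const_pow_of_one_lt b hr
  have hA : (0 : ℝ) < 1 / (|A| + 1) := by positivity
  obtain ⟨g₀, hg₀⟩ := Filter.eventually_atTop.1 (h.eventually (gt_mem_nhds hA))
  refine ⟨g₀, fun g hg => ?_⟩
  have h1 := hg₀ g hg
  have h2 : (0 : ℝ) < (Q ^ c) ^ g := by positivity
  rw [div_lt_div_iff₀ h2 (by positivity)] at h1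
  rw [Real.rpow_mul (by linarith), Real.rpow_natCast]
  have h3 : (0 : ℝ) ≤ (g : ℝ) ^ b := by positivity
  nlinarith [le_abs_self A]

end Pool.Agent.P.MP_3bc45c_nt.SI
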