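import Pool.Agent.P.MP_3bc45c_nt.SI.Dual

namespace Pool.Agent.P.MP_3bc45c_nt.SI

open Polynomial Finset Pool.Agent.P.MP_a1177c_nt.HL
open scoped Classical

variable {K : Type*} [Field K] [Fintype K] [CharP K 2]

theorem fiba_phase (F e γ θ : K[X]) (s : ℕ) :
    psi (rs ((od (F * γ) * e + od (F * e) * γ) * θ) (X ^ s)) =
      psi (rs ((θ ^ 2 * e ^ 2 * F + θ * od (F * e) * X ^ s) * γ) (X ^ (2 * s))) := by
  have e1 : (θ ^ 2 * e ^ 2 * F + θ * od (F * e) * X ^ s) * γ =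
      ((θ * e * ev (F * γ)) ^ 2 + X * (θ * e * od (F * γ)) ^ 2) +
        od (F * e) * γ * θ * X ^ s := by
    have := ev_add_od (F * γ)
    linear_combination (-θ ^ 2 * e ^ 2) * this
  have e2 : (od (F * γ) * e + od (F * e) * γ) * θ =
      θ * e * od (F * γ) + od (F * e) * γ * θ := by ring
  have e3 : rs (od (F * e) * γ * θ * X ^ s) ((X ^ s) ^ 2) = rs (od (F * e) * γ * θ) (X ^ s) := by
    rw [sq, rs_mul_cancel _ _ (pow_ne_zero _ X_ne_zero)]
  rw [e1, e2, mul_comm 2 s, pow_mul, rs_add, rs_add, rs_add, rs_sq, zero_add, rs_X_mul_sq, e3,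
    psi_add, psi_add, psi_sq]

theorem fib_dual {F e : K[X]} {n M D : ℕ} (hF : F ∈ Mn K n) (he : e ∈ Mn K M) (hD : D ≤ M) :
    Fintype.card K ^ D * ((Pl K M).filter fun γ =>
        derivative (F * e * γ * (e + γ)) ∈ Pl K (n + 3 * M - 2 * D)).card ≤
      Fintype.card K ^ M * ((Pl K D).filter fun θ =>
        (θ ^ 2 * e ^ 2 * F + θ * od (F * e) * X ^ ((n + 3 * M + 1) / 2)) %ₘ
            X ^ (2 * ((n + 3 * M + 1) / 2)) ∈
          Pl K (2 * ((n + 3 * M + 1) / 2) - M)).card := by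
  have _ := hF
  have _ := he
  have hs : (n + 3 * M - 2 * D + 1) / 2 = (n + 3 * M + 1) / 2 - D := by omega
  generalize (n + 3 * M + 1) / 2 = s at hs ⊢
  have hZ : ∀ γ : K[X], derivative (F * e * γ * (e + γ)) =
      (od (F * γ) * e + od (F * e) * γ) ^ 2 := fun γ => by
    rw [← od_sq_eq, show F * e * γ * (e + γ) = F * γ * e ^ 2 + F * e * γ ^ 2 by ring, od_add,
      od_mul_sq, od_mul_sq]
  have h1 : ∀ γ ∈ Pl K M, (if derivative (F * e * γ * (e + γ)) ∈ Pl K (n + 3 * M - 2 * D) then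
      (Fintype.card K : ℝ) ^ D else 0) ≤
      ∑ θ ∈ Pl K D, psi (rs ((od (F * γ) * e + od (F * e) * γ) * θ) (X ^ s)) := fun γ _ => by
    rw [sum_psi_rs (monic_X_pow s), natDegree_X_pow, hZ]
    by_cases h : (od (F * γ) * e + od (F * e) * γ) ^ 2 ∈ Pl K (n + 3 * M - 2 * D)
    · rw [if_pos h]
      rw [sq_mem_Pl_iff, hs] at h
      rw [(modByMonic_eq_self_iff (monic_X_pow s)).2 (by
        rw [degree_X_pow]; exact mem_Pl.1 (Pl_mono (Nat.sub_le _ _) h)), if_pos h]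
    · rw [if_neg h]
      split_ifs <;> positivity
  have h2 := sum_le_sum h1
  rw [sum_comm] at h2
  simp only [fiba_phase, sum_psi_rs (monic_X_pow (2 * s)), natDegree_X_pow] at h2
  rw [← sum_filter, ← sum_filter, sum_const, sum_const, nsmul_eq_mul, nsmul_eq_mul, mul_comm,
    mul_comm (Nat.cast _)] at h2
  exact_mod_cast h2

omit [CharP K 2] in
theorem fiba_of_mul {n : ℕ} {β G : K[X]} (hβ : β ≠ 0) (h : β * G ∈ Pl K n) : G ∈ Pl K n := by
  rw [mem_Pl] at h ⊢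
  exact (degree_le_mul_left G hβ).trans_lt (by rwa [mul_comm])

omit [CharP K 2] in
theorem fiba_not_mem {n : ℕ} {G : K[X]} (h : G ∈ Mn K n) : G ∉ Pl K n := by
  rw [mem_Mn] at h
  rw [mem_Pl, degree_eq_natDegree h.1.ne_zero, h.2]
  exact lt_irrefl _

theorem fiba_two {S : Finset K[X]} {π ρ Φ : K[X] → K[X]} {G c : K[X]} {N m : ℕ}
    (hG : G ∈ Mn K N) (hπ : ∀ a ∈ S, π a ∈ Pl K m) (hΦ : ∀ a ∈ S, Φ a ∈ Pl K N)
    (hi : ∀ a b, π a = π b → ρ a = ρ b → a = b)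
    (hd : ∀ a b, π a = π b → Φ a + Φ b = (ρ a + ρ b) * (G + c * (ρ a + ρ b))) :
    S.card ≤ 2 * Fintype.card K ^ m := by
  rw [← card_Pl]
  refine card_le_mul_card_image_of_maps_to hπ 2 fun y _ => ?_
  by_contra hc
  obtain ⟨a, b, d, ha, hb, hd', hab, had, hbd⟩ := two_lt_card_iff.1 (not_le.1 hc)
  rw [mem_filter] at ha hb hd'
  have key : ∀ a b, a ∈ S ∧ π a = y → b ∈ S ∧ π b = y → a ≠ b →
      G + c * (ρ a + ρ b) ∈ Pl K N := fun a b ha hb hab => by
    have e := ha.2.trans hb.2.symm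
    refine fiba_of_mul (β := ρ a + ρ b) (fun h => hab (hi a b e ?_)) ?_
    · linear_combination h - ρ b * two_eq_zero_poly (K := K)
    · rw [← hd a b e]
      exact add_mem_Pl (hΦ a ha.1) (hΦ b hb.1)
  have h := add_mem_Pl (add_mem_Pl (key a b ha hb hab) (key a d ha hd' had)) (key b d hb hd' hbd)
  rw [show G + c * (ρ a + ρ b) + (G + c * (ρ a + ρ d)) + (G + c * (ρ b + ρ d)) = G by
    linear_combination (G + c * (ρ a + ρ b + ρ d)) * two_eq_zero_poly (K := K)] at h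
  exact fiba_not_mem hG h

omit [CharP K 2] in
theorem fiba_mul_mem {n m : ℕ} {g h : K[X]} (hg : g ∈ Mn K n) (hh : h ∈ Mn K m) :
    g * h ∈ Mn K (n + m) := by
  rw [mem_Mn] at hg hh ⊢
  exact ⟨hg.1.mul hh.1, by rw [hg.1.natDegree_mul hh.1, hg.2, hh.2]⟩

theorem fib_a {F e₁ : K[X]} {n M : ℕ} (hF : F ∈ Mn K n) (he : e₁ ∈ Mn K M) :
    ((Mn K M).filter fun e₂ =>
        od (F * e₂) * e₁ + od (F * e₁) * e₂ ∈ Pl K (n / 2 + M)).card ≤
      2 * Fintype.card K ^ (M / 2 + 1) := by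
  have h2 := two_eq_zero_poly (K := K)
  have hm : ∀ a ∈ Mn K M, ev a ∈ Pl K (M / 2 + 1) ∧ od a ∈ Pl K (M / 2 + 1) := fun a ha => by
    have h := mem_Pl_iff_ev_od.1 (mem_filter.1 ha).1
    exact ⟨Pl_mono (by omega) h.1, Pl_mono (by omega) h.2⟩
  obtain ⟨κ, rfl | rfl⟩ := Nat.even_or_odd' n
  · rw [show 2 * κ / 2 = κ by omega]
    refine fiba_two (π := ev) (ρ := od) (c := od (F * e₁) * X)
      (Φ := fun e₂ => od (F * e₂) * e₁ + od (F * e₁) * e₂) (fiba_mul_mem (ev_mem_Mn hF).1 he)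
      (fun a ha => (hm a (mem_filter.1 ha).1).1) (fun a ha => (mem_filter.1 ha).2)
      (fun _ _ => eq_of_ev_od) fun a b hab => ?_
    have ha := ev_add_od a
    have hb := ev_add_od b
    rw [od_mul F a, od_mul F b]
    rw [hab] at ha ⊢
    linear_combination (-od (F * e₁)) * ha - od (F * e₁) * hb +
      (od F * ev b * e₁ + od (F * e₁) * ev b ^ 2 - od (F * e₁) * X * od a * od b) * h2
  · rw [show (2 * κ + 1) / 2 = κ by omega]
    refine fiba_two (π := od) (ρ := ev) (c := od (F * e₁))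
      (Φ := fun e₂ => od (F * e₂) * e₁ + od (F * e₁) * e₂) (fiba_mul_mem (od_mem_Mn hF).1 he)
      (fun a ha => (hm a (mem_filter.1 ha).1).2) (fun a ha => (mem_filter.1 ha).2)
      (fun _ _ h h' => eq_of_ev_od h' h) fun a b hab => ?_
    have ha := ev_add_od a
    have hb := ev_add_od b
    rw [od_mul F a, od_mul F b]
    rw [hab] at ha ⊢
    linear_combination (-od (F * e₁)) * ha - od (F * e₁) * hb +
      (ev F * od b * e₁ + od (F * e₁) * X * od b ^ 2 - od (F * e₁) * ev a * ev b) * h2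

theorem fiba_inj {S : Finset K[X]} {π ρ Φ : K[X] → K[X]} {G : K[X]} {N m : ℕ}
    (hG : G ∈ Mn K N) (hπ : ∀ a ∈ S, π a ∈ Pl K m) (hΦ : ∀ a ∈ S, Φ a ∈ Pl K N)
    (hi : ∀ a b, π a = π b → ρ a = ρ b → a = b)
    (hd : ∀ a b, π a = π b → Φ a + Φ b = (ρ a + ρ b) * G) :
    S.card ≤ Fintype.card K ^ m := by
  rw [← card_Pl]
  refine card_le_card_of_injOn π hπ fun a ha b hb e => hi a b e ?_
  by_contra hc
  refine fiba_not_mem hG (fiba_of_mul (β := ρ a + ρ b) (fun h => hc ?_) ?_)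
  · linear_combination h - ρ b * two_eq_zero_poly (K := K)
  · rw [← hd a b e]
    exact add_mem_Pl (hΦ a ha) (hΦ b hb)

theorem fib_p {F : K[X]} {n : ℕ} (hF : F ∈ Mn K n) (s : ℕ) :
    ((Pl K s).filter fun P => od (P * F) ∈ Pl K (n / 2)).card ≤
      Fintype.card K ^ ((s + 1) / 2) := by
  have h2 := two_eq_zero_poly (K := K)
  obtain ⟨κ, rfl | rfl⟩ := Nat.even_or_odd' n
  · rw [show 2 * κ / 2 = κ by omega]
    refine fiba_inj (π := ev) (ρ := od) (Φ := fun P => od (P * F)) (ev_mem_Mn hF).1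
      (fun a ha => (mem_Pl_iff_ev_od.1 (mem_filter.1 ha).1).1) (fun a ha => (mem_filter.1 ha).2)
      (fun _ _ => eq_of_ev_od) fun a b hab => ?_
    rw [od_mul a F, od_mul b F, hab]
    linear_combination (ev b * od F) * h2
  · rw [show (2 * κ + 1) / 2 = κ by omega]
    refine fiba_inj (π := od) (ρ := ev) (Φ := fun P => od (P * F)) (od_mem_Mn hF).1
      (fun a ha => Pl_mono (by omega) (mem_Pl_iff_ev_od.1 (mem_filter.1 ha).1).2)
      (fun a ha => (mem_filter.1 ha).2) (fun _ _ h h' => eq_of_ev_od h' h) fun a b hab => ?_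
    rw [od_mul a F, od_mul b F, hab]
    linear_combination (od b * ev F) * h2

end Pool.Agent.P.MP_3bc45c_nt.SI
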