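import Pool.Agent.P.MP_3bc45c_nt.SI.FibA

namespace Pool.Agent.P.MP_3bc45c_nt.SI

open Polynomial Finset Pool.Agent.P.MP_a1177c_nt.HL
open scoped Classical

variable {K : Type*} [Field K] [Fintype K] [CharP K 2]

omit [CharP K 2] in
private theorem fb_cancel {g h : K[X]} {m n : ℕ} (hg : g ≠ 0) (hm : m ≤ g.natDegree)
    (hgh : g * h ∈ Pl K (m + n)) : h ∈ Pl K n := by
  rw [mem_Pl] at hgh ⊢
  rcases eq_or_ne h 0 with rfl | hh
  · simp
  rw [degree_mul, degree_eq_natDegree hg, degree_eq_natDegree hh] at hgh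
  rw [degree_eq_natDegree hh]
  have : g.natDegree + h.natDegree < m + n := by exact_mod_cast hgh
  exact_mod_cast (by omega : h.natDegree < n)

omit [CharP K 2] in
private theorem fb_mem {g : K[X]} {n : ℕ} (h : g.natDegree < n) : g ∈ Pl K n := by
  rw [mem_Pl]
  exact degree_le_natDegree.trans_lt (by exact_mod_cast h)

omit [CharP K 2] in
private theorem fb_lt {g : K[X]} {n : ℕ} (hg : g ≠ 0) (h : g ∈ Pl K n) : g.natDegree < n := by
  rw [mem_Pl, degree_eq_natDegree hg] at h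
  exact_mod_cast h

omit [CharP K 2] in
private theorem fb_mul_Mn {F e : K[X]} {n M : ℕ} (hF : F ∈ Mn K n) (he : e ∈ Mn K M) :
    F * e ∈ Mn K (n + M) := by
  rw [mem_Mn] at hF he ⊢
  exact ⟨hF.1.mul he.1, by rw [hF.1.natDegree_mul he.1, hF.2, he.2]⟩

private theorem fb_od {F e : K[X]} {n M : ℕ} (hF : F ∈ Mn K n) (he : e ∈ Mn K M) :
    od (F * e) ∈ Pl K ((n + M + 1) / 2) :=
  (mem_Pl_iff_ev_od.1 (fb_mem (n := n + M + 1)
    (by rw [(mem_Mn.1 (fb_mul_Mn hF he)).2]; omega))).2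

private theorem fb_T2 {F e : K[X]} {n M : ℕ} (hF : F ∈ Mn K n) (he : e ∈ Mn K M) (θ : K[X]) :
    θ * od (F * e) * X ^ ((n + 3 * M + 1) / 2) ∈ Pl K (θ.natDegree + n + 2 * M + 1) := by
  have h1 : (θ * X ^ ((n + 3 * M + 1) / 2) : K[X]).natDegree ≤
      θ.natDegree + (n + 3 * M + 1) / 2 :=
    natDegree_mul_le.trans (by rw [natDegree_X_pow])
  have h2 := mul_mem_Pl h1 (fb_od hF he)
  rw [mul_right_comm]
  exact Pl_mono (by omega) h2

omit [CharP K 2] in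
private theorem fb_T1 {F e θ : K[X]} {n M : ℕ} (hF : F ∈ Mn K n) (he : e ∈ Mn K M)
    (hθ : θ ≠ 0) : (θ ^ 2 * e ^ 2 * F).degree = ((2 * θ.natDegree + 2 * M + n : ℕ) : WithBot ℕ) := by
  rw [mem_Mn] at hF he
  have hne : θ ^ 2 * e ^ 2 * F ≠ 0 :=
    mul_ne_zero (mul_ne_zero (pow_ne_zero _ hθ) (pow_ne_zero _ he.1.ne_zero)) hF.1.ne_zero
  rw [degree_eq_natDegree hne, natDegree_mul (mul_ne_zero (pow_ne_zero _ hθ)
    (pow_ne_zero _ he.1.ne_zero)) hF.1.ne_zero, natDegree_mul (pow_ne_zero _ hθ)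
    (pow_ne_zero _ he.1.ne_zero), natDegree_pow, natDegree_pow, hF.2, he.2]

private theorem fb_deg {F e θ : K[X]} {n M : ℕ} (hF : F ∈ Mn K n) (he : e ∈ Mn K M)
    (hd : 1 ≤ θ.natDegree) :
    (θ ^ 2 * e ^ 2 * F + θ * od (F * e) * X ^ ((n + 3 * M + 1) / 2)).degree =
      ((2 * θ.natDegree + 2 * M + n : ℕ) : WithBot ℕ) := by
  have hθ : θ ≠ 0 := by
    rintro rfl
    simp at hd
  have h1 := fb_T1 hF he hθ
  have h2 := mem_Pl.1 (fb_T2 hF he θ)
  rw [degree_add_eq_left_of_degree_lt, h1]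
  rw [h1]
  exact h2.trans_le (by exact_mod_cast (by omega))

private theorem fb_ker {F e θ : K[X]} {n M : ℕ} (hF : F ∈ Mn K n) (he : e ∈ Mn K M)
    (h : θ ^ 2 * e ^ 2 * F + θ * od (F * e) * X ^ ((n + 3 * M + 1) / 2) ∈
      Pl K (2 * ((n + 3 * M + 1) / 2) - M)) : θ ∈ Pl K 1 := by
  by_contra hc
  have hd : 1 ≤ θ.natDegree := by
    by_contra hd
    exact hc (fb_mem (by omega))
  rw [mem_Pl, fb_deg hF he hd] at h
  have : 2 * θ.natDegree + 2 * M + n < 2 * ((n + 3 * M + 1) / 2) - M := by exact_mod_cast h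
  omega

/-- for fixed `e` and `P` there are at most `q` solutions `θ` -/
private theorem fb_fibre {F P e : K[X]} {n M : ℕ} (hF : F ∈ Mn K n) (he : e ∈ Mn K M)
    (S : Finset (K[X] × K[X])) (h1 : ∀ z ∈ S, z.1 = e)
    (h2 : ∀ z ∈ S, z.2 ^ 2 * z.1 ^ 2 * F + z.2 * od (F * z.1) * X ^ ((n + 3 * M + 1) / 2) +
      P * X ^ (2 * ((n + 3 * M + 1) / 2)) ∈ Pl K (2 * ((n + 3 * M + 1) / 2) - M)) :
    S.card ≤ Fintype.card K := by
  rcases S.eq_empty_or_nonempty with rfl | ⟨z₀, hz₀⟩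
  · simp
  have two : (2 : K[X]) = 0 := two_eq_zero_poly
  have hc : (Pl K 1).card = Fintype.card K := by rw [card_Pl, pow_one]
  rw [← hc]
  refine card_le_card_of_injOn (fun z => z.2 + z₀.2) (fun z hz => ?_) (fun z hz z' hz' h => ?_)
  · have hz : z ∈ S := hz
    refine fb_ker hF he ?_
    have h3 := add_mem_Pl (h2 z hz) (h2 z₀ hz₀)
    rw [h1 z hz, h1 z₀ hz₀] at h3
    convert h3 using 1
    linear_combination (z.2 * z₀.2 * e ^ 2 * F - P * X ^ (2 * ((n + 3 * M + 1) / 2))) * two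
  · exact Prod.ext ((h1 z hz).trans (h1 z' hz').symm) (add_right_cancel h)

/-- the degree of a solution -/
private theorem fb_sol {F P e θ : K[X]} {n M D : ℕ} (hF : F ∈ Mn K n) (hD : D ≤ M) (hP : P ≠ 0)
    (he : e ∈ Mn K M) (hθ : θ ∈ Pl K D)
    (h : θ ^ 2 * e ^ 2 * F + θ * od (F * e) * X ^ ((n + 3 * M + 1) / 2) +
      P * X ^ (2 * ((n + 3 * M + 1) / 2)) ∈ Pl K (2 * ((n + 3 * M + 1) / 2) - M)) :
    1 ≤ θ.natDegree ∧ θ.natDegree < D ∧
      2 * θ.natDegree + 2 * M + n = P.natDegree + 2 * ((n + 3 * M + 1) / 2) := by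
  have two : (2 : K[X]) = 0 := two_eq_zero_poly
  set s := (n + 3 * M + 1) / 2 with hs
  set A := θ ^ 2 * e ^ 2 * F + θ * od (F * e) * X ^ s with hA
  have hPX : (P * X ^ (2 * s) : K[X]).degree = ((P.natDegree + 2 * s : ℕ) : WithBot ℕ) := by
    rw [degree_mul, degree_X_pow, degree_eq_natDegree hP]
    push_cast
    rfl
  have hdeg : A.degree = ((P.natDegree + 2 * s : ℕ) : WithBot ℕ) := by
    have : A = P * X ^ (2 * s) + (A + P * X ^ (2 * s)) := by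
      linear_combination (-(P * X ^ (2 * s))) * two
    rw [this, degree_add_eq_left_of_degree_lt, hPX]
    rw [hPX]
    exact (mem_Pl.1 h).trans_le (by exact_mod_cast (by omega))
  have hθ0 : θ ≠ 0 := by
    rintro rfl
    have h0 : A = 0 := by simp [hA]
    rw [h0, degree_zero] at hdeg
    exact WithBot.bot_ne_natCast _ hdeg
  have hlt := fb_lt hθ0 hθ
  have hd : 1 ≤ θ.natDegree := by
    by_contra hd
    have hd0 : θ.natDegree = 0 := by omega
    have h1 : θ ^ 2 * e ^ 2 * F ∈ Pl K (θ.natDegree + n + 2 * M + 1) := by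
      rw [mem_Pl, fb_T1 hF he hθ0]
      exact_mod_cast (by omega)
    have h2 : A ∈ Pl K (θ.natDegree + n + 2 * M + 1) := add_mem_Pl h1 (fb_T2 hF he θ)
    rw [mem_Pl, hdeg] at h2
    have : P.natDegree + 2 * s < θ.natDegree + n + 2 * M + 1 := by exact_mod_cast h2
    omega
  refine ⟨hd, hlt, ?_⟩
  have h3 := fb_deg hF he hd
  rw [← hs, ← hA, hdeg] at h3
  exact_mod_cast h3.symm

/-- two solutions with the same `P` -/
private theorem fb_pair {F P e₁ θ₁ e₂ θ₂ : K[X]} {n M d : ℕ} (hF : F ∈ Mn K n)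
    (he₁ : e₁ ∈ Mn K M) (he₂ : e₂ ∈ Mn K M) (hd₁ : θ₁.natDegree = d) (hd₂ : θ₂.natDegree = d)
    (hd : 1 ≤ d) (hx : 2 * ((n + 3 * M + 1) / 2) ≤ 2 * d + 2 * M + n)
    (h₁ : θ₁ ^ 2 * e₁ ^ 2 * F + θ₁ * od (F * e₁) * X ^ ((n + 3 * M + 1) / 2) +
      P * X ^ (2 * ((n + 3 * M + 1) / 2)) ∈ Pl K (2 * ((n + 3 * M + 1) / 2) - M))
    (h₂ : θ₂ ^ 2 * e₂ ^ 2 * F + θ₂ * od (F * e₂) * X ^ ((n + 3 * M + 1) / 2) +
      P * X ^ (2 * ((n + 3 * M + 1) / 2)) ∈ Pl K (2 * ((n + 3 * M + 1) / 2) - M)) :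
    θ₁ * e₁ + θ₂ * e₂ ∈ Pl K ((d + 2 * M) / 2 + 1) ∧
      (θ₁ * e₁ + θ₂ * e₂ ∈ Pl K ((2 * d + 3 * M - 1) / 4) →
        od (F * e₂) * e₁ + od (F * e₁) * e₂ ∈ Pl K (n / 2 + M)) := by
  have two : (2 : K[X]) = 0 := two_eq_zero_poly
  have hT₁ := fb_T2 hF he₁ θ₁
  have hT₂ := fb_T2 hF he₂ θ₂
  have hl₁ := fb_od hF he₁
  rw [hd₁] at hT₁
  rw [hd₂] at hT₂
  set s := (n + 3 * M + 1) / 2 with hs
  set l₁ := od (F * e₁) with hl1
  set l₂ := od (F * e₂) with hl2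
  set ζ := θ₁ * e₁ + θ₂ * e₂ with hζ
  have hρ := add_mem_Pl h₁ h₂
  set ρ := θ₁ ^ 2 * e₁ ^ 2 * F + θ₁ * l₁ * X ^ s + P * X ^ (2 * s) +
    (θ₂ ^ 2 * e₂ ^ 2 * F + θ₂ * l₂ * X ^ s + P * X ^ (2 * s)) with hρdef
  have hF0 : F ≠ 0 := (mem_Mn.1 hF).1.ne_zero
  have hFn : F.natDegree = n := (mem_Mn.1 hF).2
  have he1 : e₁.natDegree = M := (mem_Mn.1 he₁).2
  have hid : F * ζ ^ 2 = θ₁ * l₁ * X ^ s + θ₂ * l₂ * X ^ s + ρ := by
    rw [hρdef, hζ]
    linear_combination (θ₁ * e₁ * θ₂ * e₂ * F - θ₁ * l₁ * X ^ s - θ₂ * l₂ * X ^ s -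
      P * X ^ (2 * s)) * two
  refine ⟨?_, fun hz => ?_⟩
  · have h3 : F * ζ ^ 2 ∈ Pl K (n + (d + 2 * M + 1)) := by
      rw [hid]
      exact add_mem_Pl (Pl_mono (by omega) (add_mem_Pl hT₁ hT₂)) (Pl_mono (by omega) hρ)
    have h4 := sq_mem_Pl_iff.1 (fb_cancel hF0 hFn.ge h3)
    exact Pl_mono (by omega) h4
  · have hθ0 : θ₂ ≠ 0 := by
      rintro rfl
      simp at hd₂
      omega
    have hid2 : (θ₂ * X ^ s) * (l₂ * e₁ + l₁ * e₂) =
        (e₁ * F) * ζ ^ 2 + (ζ * X ^ s) * l₁ + e₁ * ρ := by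
      rw [mul_assoc e₁ F, hid, hζ]
      linear_combination (-(e₁ * θ₁ * l₁ * X ^ s) - e₁ * ρ) * two
    have hA : (e₁ * F) * ζ ^ 2 ∈ Pl K (d + s + (n / 2 + M)) := by
      have h5 : ζ ^ 2 ∈ Pl K (2 * ((2 * d + 3 * M - 1) / 4) - 1) :=
        sq_mem_Pl_iff.2 (by
          rcases eq_or_ne ζ 0 with h0 | h0
          · rw [h0, mem_Pl]
            simp
          · have := fb_lt h0 hz
            exact fb_mem (by omega))
      have h6 : (e₁ * F).natDegree ≤ M + n := natDegree_mul_le.trans (by rw [he1, hFn])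
      exact Pl_mono (by omega) (mul_mem_Pl h6 h5)
    have hB : (ζ * X ^ s) * l₁ ∈ Pl K (d + s + (n / 2 + M)) := by
      rcases eq_or_ne ζ 0 with h0 | h0
      · rw [h0, mem_Pl]
        simp
      · have h5 := fb_lt h0 hz
        have h6 : (ζ * X ^ s : K[X]).natDegree ≤ ζ.natDegree + s :=
          natDegree_mul_le.trans (by rw [natDegree_X_pow])
        exact Pl_mono (by omega) (mul_mem_Pl h6 hl₁)
    have hC : e₁ * ρ ∈ Pl K (d + s + (n / 2 + M)) :=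
      Pl_mono (by omega) (mul_mem_Pl he1.le hρ)
    have hne : (θ₂ * X ^ s : K[X]) ≠ 0 := mul_ne_zero hθ0 (pow_ne_zero _ X_ne_zero)
    refine fb_cancel (m := d + s) hne ?_ ?_
    · rw [natDegree_mul hθ0 (pow_ne_zero _ X_ne_zero), natDegree_X_pow, hd₂]
    · rw [hid2]
      exact add_mem_Pl (add_mem_Pl hA hB) hC

omit [CharP K 2] in
private theorem fb_div_mem {g : K[X]} {a z : ℕ} (hg : g ∈ Pl K a) :
    g /ₘ X ^ z ∈ Pl K (a - z) := by
  rcases eq_or_ne (g /ₘ X ^ z) 0 with h0 | h0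
  · rw [h0, mem_Pl]
    simp
  have hg0 : g ≠ 0 := by
    rintro rfl
    simp at h0
  have h1 := fb_lt hg0 hg
  have h2 : z ≤ g.natDegree := by
    by_contra h2
    refine h0 ((divByMonic_eq_zero_iff (monic_X_pow z)).2 ?_)
    rw [degree_X_pow, degree_eq_natDegree hg0]
    exact_mod_cast (by omega)
  refine fb_mem ?_
  rw [natDegree_divByMonic _ (monic_X_pow z), natDegree_X_pow]
  omega

private theorem fb_div_eq {g g' : K[X]} {z : ℕ} (h : g /ₘ X ^ z = g' /ₘ X ^ z) :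
    g + g' ∈ Pl K z := by
  have two : (2 : K[X]) = 0 := two_eq_zero_poly
  have h1 := modByMonic_add_div g (X ^ z)
  have h2 := modByMonic_add_div g' (X ^ z)
  have h3 : g + g' = g %ₘ X ^ z + g' %ₘ X ^ z := by
    rw [h] at h1
    linear_combination -h1 - h2 + (X ^ z * (g' /ₘ X ^ z)) * two
  have h4 : ∀ u : K[X], u %ₘ X ^ z ∈ Pl K z := fun u => by
    rw [mem_Pl]
    simpa [degree_X_pow] using degree_modByMonic_lt u (monic_X_pow z)
  rw [h3]
  exact add_mem_Pl (h4 _) (h4 _)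

theorem fib_fixed {F P : K[X]} {n M D : ℕ} (hF : F ∈ Mn K n) (hD : D ≤ M) (hP : P ≠ 0) :
    ((Mn K M ×ˢ Pl K D).filter fun z =>
        z.2 ^ 2 * z.1 ^ 2 * F + z.2 * od (F * z.1) * X ^ ((n + 3 * M + 1) / 2) +
            P * X ^ (2 * ((n + 3 * M + 1) / 2)) ∈
          Pl K (2 * ((n + 3 * M + 1) / 2) - M)).card ≤
      2 * Fintype.card K ^ (M / 4 + M / 2 + 5) := by
  have two : (2 : K[X]) = 0 := two_eq_zero_poly
  set S := (Mn K M ×ˢ Pl K D).filter fun z : K[X] × K[X] =>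
    z.2 ^ 2 * z.1 ^ 2 * F + z.2 * od (F * z.1) * X ^ ((n + 3 * M + 1) / 2) +
      P * X ^ (2 * ((n + 3 * M + 1) / 2)) ∈ Pl K (2 * ((n + 3 * M + 1) / 2) - M) with hS
  rcases S.eq_empty_or_nonempty with h0 | ⟨z₀, hz₀⟩
  · rw [h0]
    simp
  have hm : ∀ z ∈ S, z.1 ∈ Mn K M ∧ z.2 ∈ Pl K D ∧
      z.2 ^ 2 * z.1 ^ 2 * F + z.2 * od (F * z.1) * X ^ ((n + 3 * M + 1) / 2) +
        P * X ^ (2 * ((n + 3 * M + 1) / 2)) ∈ Pl K (2 * ((n + 3 * M + 1) / 2) - M) := by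
    intro z hz
    rw [hS, mem_filter, mem_product] at hz
    exact ⟨hz.1.1, hz.1.2, hz.2⟩
  have hsol := fun z hz => fb_sol hF hD hP (hm z hz).1 (hm z hz).2.1 (hm z hz).2.2
  set d := z₀.2.natDegree with hd
  have hd1 : 1 ≤ d := (hsol z₀ hz₀).1
  have hx : 2 * ((n + 3 * M + 1) / 2) ≤ 2 * d + 2 * M + n := by
    have := (hsol z₀ hz₀).2.2
    omega
  have hdz : ∀ z ∈ S, z.2.natDegree = d := fun z hz => by
    have h1 := (hsol z₀ hz₀).2.2
    have h2 := (hsol z hz).2.2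
    omega
  have hpair := fun z hz z' hz' => fb_pair hF (hm z hz).1 (hm z' hz').1 (hdz z hz) (hdz z' hz')
    hd1 hx (hm z hz).2.2 (hm z' hz').2.2
  have hq : 1 ≤ Fintype.card K := Fintype.card_pos
  have key : S.card ≤ (Fintype.card K * (2 * Fintype.card K ^ (M / 2 + 1))) *
      (Pl K (M / 4 + 2)).card := by
    refine card_le_mul_card_image_of_maps_to
      (f := fun z : K[X] × K[X] => (z.2 * z.1 + z₀.2 * z₀.1) /ₘ X ^ ((2 * d + 3 * M - 1) / 4))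
      (fun z hz => Pl_mono (by omega) (fb_div_mem (hpair z hz z₀ hz₀).1)) _ (fun c _ => ?_)
    set T := S.filter fun z : K[X] × K[X] =>
      (z.2 * z.1 + z₀.2 * z₀.1) /ₘ X ^ ((2 * d + 3 * M - 1) / 4) = c with hT
    rcases T.eq_empty_or_nonempty with h0 | ⟨z₁, hz₁⟩
    · rw [h0]
      simp
    have hz₁S : z₁ ∈ S := (mem_filter.1 hz₁).1
    refine le_trans (card_le_mul_card_image_of_maps_to (f := Prod.fst)
      (t := (Mn K M).filter fun e₂ =>
        od (F * e₂) * z₁.1 + od (F * z₁.1) * e₂ ∈ Pl K (n / 2 + M))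
      (fun z hz => ?_) (Fintype.card K) (fun e he => ?_)) ?_
    · have hzS : z ∈ S := (mem_filter.1 hz).1
      refine mem_filter.2 ⟨(hm z hzS).1, (hpair z₁ hz₁S z hzS).2 ?_⟩
      have h1 := fb_div_eq ((mem_filter.1 hz₁).2.trans (mem_filter.1 hz).2.symm)
      convert h1 using 1
      linear_combination (-(z₀.2 * z₀.1)) * two
    · exact fb_fibre (P := P) hF (mem_filter.1 he).1 _ (fun z hz => (mem_filter.1 hz).2)
        (fun z hz => (hm z (mem_filter.1 (mem_filter.1 hz).1).1).2.2)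
    · exact Nat.mul_le_mul_left _ (fib_a hF (hm z₁ hz₁S).1)
  refine key.trans ?_
  rw [card_Pl]
  calc Fintype.card K * (2 * Fintype.card K ^ (M / 2 + 1)) * Fintype.card K ^ (M / 4 + 2)
      = 2 * Fintype.card K ^ (M / 4 + M / 2 + 4) := by ring
    _ ≤ 2 * Fintype.card K ^ (M / 4 + M / 2 + 5) :=
      Nat.mul_le_mul_left _ (Nat.pow_le_pow_right hq (by omega))

/-- the quotient `P` lies in a small set -/
private theorem fb_P {F P e θ : K[X]} {n M D : ℕ} (hF : F ∈ Mn K n) (hD : D ≤ M) (hP : P ≠ 0)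
    (he : e ∈ Mn K M) (hθ : θ ∈ Pl K D)
    (h : θ ^ 2 * e ^ 2 * F + θ * od (F * e) * X ^ ((n + 3 * M + 1) / 2) +
      P * X ^ (2 * ((n + 3 * M + 1) / 2)) ∈ Pl K (2 * ((n + 3 * M + 1) / 2) - M)) :
    M ≤ 2 * D ∧ P ∈ Pl K (2 * D - M) ∧ od (P * F) ∈ Pl K (n / 2) := by
  have two : (2 : K[X]) = 0 := two_eq_zero_poly
  obtain ⟨h1, h2, h3⟩ := fb_sol hF hD hP he hθ h
  refine ⟨by omega, fb_mem (by omega), ?_⟩
  have hT := fb_T2 hF he θ
  set s := (n + 3 * M + 1) / 2 with hs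
  set l := od (F * e) with hl
  set ρ := θ ^ 2 * e ^ 2 * F + θ * l * X ^ s + P * X ^ (2 * s) with hρ
  have hFn : F.natDegree = n := (mem_Mn.1 hF).2
  have hid : P * F * (X ^ s) ^ 2 + (θ * e * F) ^ 2 = F * (θ * l * X ^ s + ρ) := by
    rw [hρ]
    linear_combination (-(F * θ * l * X ^ s)) * two
  have h4 : P * F * (X ^ s) ^ 2 + (θ * e * F) ^ 2 ∈ Pl K (n + (D + n + 2 * M)) := by
    rw [hid]
    exact mul_mem_Pl hFn.le (add_mem_Pl (Pl_mono (by omega) hT) (Pl_mono (by omega) h))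
  have h5 := (mem_Pl_iff_ev_od.1 h4).2
  rw [od_add, od_mul_sq, od_sq, add_zero, mul_comm (od (P * F))] at h5
  exact fb_cancel (m := s) (pow_ne_zero _ X_ne_zero) (by rw [natDegree_X_pow])
    (Pl_mono (by omega) h5)

theorem fib_main {F : K[X]} {n M D : ℕ} (hF : F ∈ Mn K n) (hD : D ≤ M) :
    Fintype.card K ^ D * ((Mn K M ×ˢ Pl K M).filter fun z =>
        derivative (F * z.1 * z.2 * (z.1 + z.2)) ∈ Pl K (n + 3 * M - 2 * D)).card ≤
      Fintype.card K ^ (2 * M + 1) + 2 * Fintype.card K ^ (D + M + M / 4 + 6) := by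
  have two : (2 : K[X]) = 0 := two_eq_zero_poly
  have hq : 1 ≤ Fintype.card K := Fintype.card_pos
  set s := (n + 3 * M + 1) / 2 with hs
  set S := (Mn K M ×ˢ Pl K D).filter fun z : K[X] × K[X] =>
    (z.2 ^ 2 * z.1 ^ 2 * F + z.2 * od (F * z.1) * X ^ s) %ₘ X ^ (2 * s) ∈ Pl K (2 * s - M)
    with hS
  have hcount : ∀ (A B : Finset K[X]) (p : K[X] × K[X] → Prop) [DecidablePred p],
      ((A ×ˢ B).filter p).card = ∑ e ∈ A, (B.filter fun γ => p (e, γ)).card := by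
    intro A B p _
    simp only [card_filter, sum_product]
  have h1 : Fintype.card K ^ D * ((Mn K M ×ˢ Pl K M).filter fun z =>
        derivative (F * z.1 * z.2 * (z.1 + z.2)) ∈ Pl K (n + 3 * M - 2 * D)).card ≤
      Fintype.card K ^ M * S.card := by
    rw [hS, hcount, hcount, mul_sum, mul_sum]
    exact sum_le_sum fun e he => fib_dual hF he hD
  set Q : K[X] × K[X] → K[X] := fun z =>
    (z.2 ^ 2 * z.1 ^ 2 * F + z.2 * od (F * z.1) * X ^ s) /ₘ X ^ (2 * s) with hQ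
  have hm : ∀ z ∈ S, z.1 ∈ Mn K M ∧ z.2 ∈ Pl K D ∧
      z.2 ^ 2 * z.1 ^ 2 * F + z.2 * od (F * z.1) * X ^ s + Q z * X ^ (2 * s) ∈
        Pl K (2 * s - M) := by
    intro z hz
    rw [hS, mem_filter, mem_product] at hz
    refine ⟨hz.1.1, hz.1.2, ?_⟩
    convert hz.2 using 1
    have h2 := modByMonic_add_div (z.2 ^ 2 * z.1 ^ 2 * F + z.2 * od (F * z.1) * X ^ s)
      (X ^ (2 * s))
    simp only [hQ]
    linear_combination -h2 +
      (X ^ (2 * s) * ((z.2 ^ 2 * z.1 ^ 2 * F + z.2 * od (F * z.1) * X ^ s) /ₘ X ^ (2 * s))) * two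
  have h2 : (S.filter fun z => Q z = 0).card ≤ Fintype.card K ^ (M + 1) := by
    have : (S.filter fun z => Q z = 0) ⊆ Mn K M ×ˢ Pl K 1 := by
      intro z hz
      obtain ⟨hzS, hz0⟩ := mem_filter.1 hz
      obtain ⟨ha, -, hc⟩ := hm z hzS
      rw [hz0, zero_mul, add_zero] at hc
      exact mem_product.2 ⟨ha, fb_ker hF ha hc⟩
    refine (card_le_card this).trans ?_
    rw [card_product, card_Mn, card_Pl, ← pow_add]
  have h3 : (S.filter fun z => ¬ Q z = 0).card ≤ 2 * Fintype.card K ^ (D + M / 4 + 6) := by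
    have hP := fun z (hz : z ∈ S.filter fun z => ¬ Q z = 0) =>
      fb_P hF hD (mem_filter.1 hz).2 (hm z (mem_filter.1 hz).1).1 (hm z (mem_filter.1 hz).1).2.1
        (hm z (mem_filter.1 hz).1).2.2
    rcases (S.filter fun z => ¬ Q z = 0).eq_empty_or_nonempty with h0 | ⟨z₀, hz₀⟩
    · rw [h0]
      simp
    have hM : M ≤ 2 * D := (hP z₀ hz₀).1
    refine le_trans (card_le_mul_card_image_of_maps_to (f := Q)
      (t := (Pl K (2 * D - M)).filter fun P => od (P * F) ∈ Pl K (n / 2))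
      (fun z hz => mem_filter.2 (hP z hz).2) (2 * Fintype.card K ^ (M / 4 + M / 2 + 5))
      (fun P _ => ?_)) ?_
    · rcases eq_or_ne P 0 with rfl | hP0
      · rw [filter_filter, filter_false_of_mem (fun z _ hz => hz.1 hz.2)]
        simp
      refine le_trans (card_le_card fun z hz => ?_) (fib_fixed hF hD hP0)
      obtain ⟨hz1, hz2⟩ := mem_filter.1 hz
      obtain ⟨ha, hb, hc⟩ := hm z (mem_filter.1 hz1).1
      rw [hz2] at hc
      exact mem_filter.2 ⟨mem_product.2 ⟨ha, hb⟩, hc⟩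
    · refine (Nat.mul_le_mul_left _ (fib_p hF (2 * D - M))).trans ?_
      rw [mul_assoc, ← pow_add]
      exact Nat.mul_le_mul_left _ (Nat.pow_le_pow_right hq (by omega))
  refine h1.trans ?_
  rw [← card_filter_add_card_filter_not (s := S) (fun z => Q z = 0), mul_add]
  refine add_le_add ((Nat.mul_le_mul_left _ h2).trans (le_of_eq ?_))
    ((Nat.mul_le_mul_left _ h3).trans (le_of_eq ?_))
  · ring
  · ring

end Pool.Agent.P.MP_3bc45c_nt.SI
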