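import Pool.Agent.P.MP_3bc45c_nt.SI.Coll

namespace Pool.Agent.P.MP_3bc45c_nt.SI

open Polynomial Finset Pool.Agent.P.MP_a1177c_nt.HL
open scoped Classical

variable {K : Type*} [Field K] [Fintype K] [CharP K 2]

omit [CharP K 2] in
private theorem pre_add_mem_Mn {f a : K[X]} {n h : ℕ} (hf : f ∈ Mn K n) (hh : h ≤ n)
    (ha : a ∈ Pl K h) : f + a ∈ Mn K n := by
  rw [mem_Mn_iff_sub] at hf ⊢
  have e : f + a - X ^ n = (f - X ^ n) + a := by ring
  rw [e]
  exact add_mem_Pl hf (Pl_mono hh ha)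

omit [CharP K 2] in
private theorem pre_swap (f : K[X]) (h N : ℕ) :
    ∑ a ∈ Pl K h, ∑ g ∈ (Mn K N).filter (fun g => g ∣ f + a), mu g =
      ∑ g ∈ Mn K N, mu g * (((Pl K h).filter fun a => g ∣ f + a).card : ℝ) := by
  simp only [sum_filter]
  rw [sum_comm]
  refine sum_congr rfl fun g _ => ?_
  rw [← sum_filter, sum_const, nsmul_eq_mul, mul_comm]

theorem vm_interval {f : K[X]} {n h : ℕ} (hf : f ∈ Mn K n) (h1 : 1 ≤ h) (hh : h < n) :
    ∑ a ∈ Pl K h, vm (f + a) n = (Fintype.card K : ℝ) ^ h -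
      ∑ N ∈ Ioc h n, (N : ℝ) * ∑ d ∈ SD f h N, mu d := by
  have e1 : ∑ a ∈ Pl K h, vm (f + a) n = -∑ N ∈ range (n + 1), (N : ℝ) *
      ∑ g ∈ Mn K N, mu g * (((Pl K h).filter fun a => g ∣ f + a).card : ℝ) := by
    simp only [vm]
    rw [sum_neg_distrib, sum_comm]
    congr 1
    refine sum_congr rfl fun N _ => ?_
    rw [← mul_sum, pre_swap]
  have e2 : Ico (h + 1) (n + 1) = Ioc h n := by
    ext x
    simp only [mem_Ico, mem_Ioc]
    omega
  rw [e1, ← sum_range_add_sum_Ico _ (show h + 1 ≤ n + 1 by omega), e2]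
  have e3 : ∑ N ∈ range (h + 1), (N : ℝ) *
      ∑ g ∈ Mn K N, mu g * (((Pl K h).filter fun a => g ∣ f + a).card : ℝ) =
      -(Fintype.card K : ℝ) ^ h := by
    have e4 : ∀ N ∈ range (h + 1), (N : ℝ) *
        ∑ g ∈ Mn K N, mu g * (((Pl K h).filter fun a => g ∣ f + a).card : ℝ) =
        if N = 1 then -(Fintype.card K : ℝ) ^ h else 0 := by
      intro N hN
      have hN' : N ≤ h := Nat.lt_succ_iff.1 (mem_range.1 hN)
      have e5 : ∀ g ∈ Mn K N, mu g * (((Pl K h).filter fun a => g ∣ f + a).card : ℝ) =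
          mu g * (Fintype.card K : ℝ) ^ (h - N) := by
        intro g hg
        obtain ⟨hm, hd⟩ := mem_Mn.1 hg
        have h2 := card_Pl_dvd_eq hm (n := h) (by rw [hd]; exact hN') (-f)
        rw [hd] at h2
        congr 1
        rw [← Nat.cast_pow, ← h2]
        congr 2
        ext a
        rw [mem_filter, mem_filter, sub_neg_eq_add, add_comm]
      rw [sum_congr rfl e5, ← sum_mul, sum_mu_Mn]
      by_cases h0 : N = 0
      · subst h0
        simp
      · by_cases h1' : N = 1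
        · subst h1'
          obtain ⟨m, rfl⟩ : ∃ m, h = m + 1 := ⟨h - 1, by omega⟩
          simp [pow_succ, mul_comm]
        · simp [h0, h1']
    rw [sum_congr rfl e4, sum_ite_eq' (range (h + 1)) 1, if_pos (mem_range.2 (by omega))]
  have e6 : ∑ N ∈ Ioc h n, (N : ℝ) *
      ∑ g ∈ Mn K N, mu g * (((Pl K h).filter fun a => g ∣ f + a).card : ℝ) =
      ∑ N ∈ Ioc h n, (N : ℝ) * ∑ d ∈ SD f h N, mu d := by
    refine sum_congr rfl fun N hN => ?_
    congr 1
    rw [SD, sum_filter]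
    refine sum_congr rfl fun g hg => ?_
    rw [card_dvd_interval hg (mem_Ioc.1 hN).1.le]
    split_ifs <;> simp
  rw [e3, e6]
  ring

theorem powers_interval {f : K[X]} {n h : ℕ} (hf : f ∈ Mn K n) (hh : h ≤ n) :
    |∑ a ∈ Pl K h, vm (f + a) n -
        n * (((Pl K h).filter fun a => Irreducible (f + a)).card : ℝ)| ≤
      n * (Fintype.card K : ℝ) ^ ((h + 1) / 2) + (n : ℝ) ^ 2 * (Fintype.card K : ℝ) ^ (n / 3) := by
  set S₁ := (Pl K h).filter fun a => od (f + a) = 0 with hS₁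
  set S₂ := (Pl K h).filter fun a => ∃ π : K[X], π.Monic ∧ 1 ≤ π.natDegree ∧
    π.natDegree ≤ n / 3 ∧ f + a = π ^ (n / π.natDegree) with hS₂
  have hq : (1 : ℕ) ≤ Fintype.card K := Fintype.card_pos
  have c1 : S₁.card ≤ Fintype.card K ^ ((h + 1) / 2) := by
    rw [← card_Pl]
    refine card_le_card_of_injOn ev (fun a ha => ?_) fun a ha a' ha' e => ?_
    · exact mem_coe.2 (mem_Pl_iff_ev_od.1 (mem_filter.1 (mem_coe.1 ha)).1).1
    · have k1 := (mem_filter.1 (mem_coe.1 ha)).2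
      have k2 := (mem_filter.1 (mem_coe.1 ha')).2
      rw [od_add] at k1 k2
      exact eq_of_ev_od e (by linear_combination k1 - k2)
  have c2 : S₂.card ≤ n * Fintype.card K ^ (n / 3) := by
    have k1 : S₂ ⊆ ((Icc 1 (n / 3)).biUnion fun i => Mn K i).image
        fun π => π ^ (n / π.natDegree) - f := by
      intro a ha
      obtain ⟨-, π, hm, k2, k3, k4⟩ := mem_filter.1 ha
      exact mem_image.2 ⟨π, mem_biUnion.2 ⟨π.natDegree, mem_Icc.2 ⟨k2, k3⟩,
        mem_Mn.2 ⟨hm, rfl⟩⟩, by rw [← k4]; ring⟩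
    refine (card_le_card k1).trans (card_image_le.trans (card_biUnion_le.trans ?_))
    refine (sum_le_card_nsmul _ _ (Fintype.card K ^ (n / 3)) fun i hi => ?_).trans ?_
    · rw [card_Mn]
      exact Nat.pow_le_pow_right hq (mem_Icc.1 hi).2
    · rw [smul_eq_mul, Nat.card_Icc]
      exact Nat.mul_le_mul_right _ (by omega)
  have hn0 : (0 : ℝ) ≤ n := Nat.cast_nonneg n
  have pt : ∀ a ∈ Pl K h, |vm (f + a) n - n * (if Irreducible (f + a) then (1 : ℝ) else 0)| ≤
      n * ((if od (f + a) = 0 then (1 : ℝ) else 0) +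
        if ∃ π : K[X], π.Monic ∧ 1 ≤ π.natDegree ∧
          π.natDegree ≤ n / 3 ∧ f + a = π ^ (n / π.natDegree) then (1 : ℝ) else 0) := by
    intro a ha
    obtain ⟨hm, hd⟩ := mem_Mn.1 (pre_add_mem_Mn hf hh ha)
    have nn : (0 : ℝ) ≤ n * ((if od (f + a) = 0 then (1 : ℝ) else 0) +
        if ∃ π : K[X], π.Monic ∧ 1 ≤ π.natDegree ∧
          π.natDegree ≤ n / 3 ∧ f + a = π ^ (n / π.natDegree) then (1 : ℝ) else 0) := by
      refine mul_nonneg hn0 (add_nonneg ?_ ?_) <;> split_ifs <;> norm_num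
    by_cases hi : Irreducible (f + a)
    · have := vm_of_irreducible hm hi
      rw [hd] at this
      rw [this, if_pos hi, mul_one, sub_self, abs_zero]
      exact nn
    · rw [if_neg hi, mul_zero, sub_zero]
      have k := vm_of_not_irreducible hm hi
      rw [hd] at k
      rcases k with k | ⟨π, e, hπ, hπi, he, k1, k2⟩
      · rw [k, abs_zero]
        exact nn
      · have k3 : e * π.natDegree = n := by rw [← hd, k1, hπ.natDegree_pow]
        have k4 : 1 ≤ π.natDegree := hπi.natDegree_pos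
        have k5 : π.natDegree ≤ n := by nlinarith
        have k6 : |vm (f + a) n| ≤ n := by
          rw [k2, abs_of_nonneg (Nat.cast_nonneg _)]
          exact_mod_cast k5
        refine k6.trans ?_
        rcases Nat.even_or_odd e with ⟨e', rfl⟩ | ⟨e', rfl⟩
        · have k7 : od (f + a) = 0 := by
            rw [k1, pow_add, ← sq, od_sq]
          rw [if_pos k7]
          refine le_mul_of_one_le_right hn0 ?_
          split_ifs <;> norm_num
        · have k7 : ∃ π : K[X], π.Monic ∧ 1 ≤ π.natDegree ∧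
              π.natDegree ≤ n / 3 ∧ f + a = π ^ (n / π.natDegree) := by
            refine ⟨π, hπ, k4, ?_, ?_⟩
            · rw [Nat.le_div_iff_mul_le (by norm_num)]
              have : 1 ≤ e' := by omega
              nlinarith
            · rw [← k3, Nat.mul_div_cancel _ k4]
              exact k1
          rw [if_pos k7]
          refine le_mul_of_one_le_right hn0 ?_
          split_ifs <;> norm_num
  have e1 : ∑ a ∈ Pl K h, vm (f + a) n -
      n * (((Pl K h).filter fun a => Irreducible (f + a)).card : ℝ) =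
      ∑ a ∈ Pl K h, (vm (f + a) n - n * (if Irreducible (f + a) then (1 : ℝ) else 0)) := by
    rw [sum_sub_distrib, ← mul_sum, sum_boole]
  rw [e1]
  refine (abs_sum_le_sum_abs _ _).trans ((sum_le_sum pt).trans ?_)
  rw [← mul_sum, sum_add_distrib, sum_boole, sum_boole]
  have d1 : (S₁.card : ℝ) ≤ (Fintype.card K : ℝ) ^ ((h + 1) / 2) := by exact_mod_cast c1
  have d2 : (S₂.card : ℝ) ≤ n * (Fintype.card K : ℝ) ^ (n / 3) := by exact_mod_cast c2
  calc (n : ℝ) * ((S₁.card : ℝ) + S₂.card)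
      ≤ n * ((Fintype.card K : ℝ) ^ ((h + 1) / 2) + n * (Fintype.card K : ℝ) ^ (n / 3)) :=
        mul_le_mul_of_nonneg_left (add_le_add d1 d2) hn0
    _ = _ := by ring

theorem extend_interval {n h₀ h : ℕ} {b : ℝ} (hh : h₀ ≤ h) (hn : h ≤ n)
    (H : ∀ f ∈ Mn K n, |n * (((Pl K h₀).filter fun a => Irreducible (f + a)).card : ℝ) -
      (Fintype.card K : ℝ) ^ h₀| ≤ b * (Fintype.card K : ℝ) ^ h₀) {f : K[X]} (hf : f ∈ Mn K n) :
    |n * (((Pl K h).filter fun a => Irreducible (f + a)).card : ℝ) -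
      (Fintype.card K : ℝ) ^ h| ≤ b * (Fintype.card K : ℝ) ^ h := by
  have key : ∀ (g : K[X]) (m : ℕ),
      ∑ v ∈ Pl K m, ((n : ℝ) * (if Irreducible (g + v) then (1 : ℝ) else 0) - 1) =
        n * (((Pl K m).filter fun a => Irreducible (g + a)).card : ℝ) -
          (Fintype.card K : ℝ) ^ m := by
    intro g m
    rw [sum_sub_distrib, ← mul_sum, sum_boole, sum_const, card_Pl, nsmul_eq_mul, mul_one,
      Nat.cast_pow]
  rw [← key]
  refine abs_sum_Pl_le_of_cosets hh
    (fun v => (n : ℝ) * (if Irreducible (f + v) then (1 : ℝ) else 0) - 1) b fun v₀ hv₀ => ?_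
  simp only [← add_assoc]
  rw [key]
  exact H _ (pre_add_mem_Mn hf hn hv₀)

end Pool.Agent.P.MP_3bc45c_nt.SI
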