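import Pool.Agent.P.MP_3bc45c_nt.SI.Regimes
import Pool.Agent.P.MP_3bc45c_nt.SI.Coll

namespace Pool.Agent.P.MP_3bc45c_nt.SI

open Polynomial Finset Pool.Agent.P.MP_a1177c_nt.HL
open scoped Classical

variable {K : Type*} [Field K] [Fintype K] [CharP K 2]

omit [Fintype K] [CharP K 2] in
private theorem rc_rs_small {g M : K[X]} (hM : M.Monic)
    (h : g = 0 ∨ g.natDegree + 2 ≤ M.natDegree) : rs g M = 0 := by
  rw [rs_eq_coeff g hM]
  rcases h with rfl | h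
  · simp
  · rw [(modByMonic_eq_self_iff hM).2 (degree_lt_degree (by omega))]
    exact coeff_eq_zero_of_natDegree_lt (by omega)

omit [CharP K 2] in
private theorem rc_add_mem {N L : ℕ} (hL : L ≤ N) {d a : K[X]} (hd : d ∈ Mn K N)
    (ha : a ∈ Pl K L) : d + a ∈ Mn K N := by
  rw [mem_Mn] at hd ⊢
  have h1 : a.degree < d.degree := by
    rw [degree_eq_natDegree hd.1.ne_zero, hd.2]
    exact (mem_Pl.1 ha).trans_le (by exact_mod_cast hL)
  exact ⟨hd.1.add_of_left h1, by rw [natDegree_add_eq_left_of_degree_lt h1, hd.2]⟩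

omit [CharP K 2] in
private theorem rc_lt {L : ℕ} {a : K[X]} (ha : a ∈ Pl K L) (h0 : a ≠ 0) : a.natDegree < L :=
  (natDegree_lt_iff_degree_lt h0).2 (mem_Pl.1 ha)

theorem qi_phase {A : K[X]} {N L : ℕ} (hL : L ≤ N) (hA : A.natDegree + 3 * L ≤ 4 * N + 1) :
    QI (Mn K N) L fun d => psi (rs A d) := by
  intro d hd a₁ h₁ a₂ h₂ a₃ h₃
  obtain ⟨m1, e1⟩ := mem_Mn.1 (rc_add_mem hL hd h₁)
  obtain ⟨m2, e2⟩ := mem_Mn.1 (rc_add_mem hL hd h₂)
  obtain ⟨m3, e3⟩ := mem_Mn.1 (rc_add_mem hL (rc_add_mem hL hd h₁) h₃)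
  obtain ⟨m4, e4⟩ := mem_Mn.1 (rc_add_mem hL (rc_add_mem hL hd h₂) h₃)
  set A₁ := d + a₁ with hA₁
  set A₂ := d + a₂ with hA₂
  set B₁ := A₁ + a₃ with hB₁
  set B₂ := A₂ + a₃ with hB₂
  have hM : (A₁ * A₂ * B₁ * B₂).Monic := ((m1.mul m2).mul m3).mul m4
  have hdeg : (A₁ * A₂ * B₁ * B₂).natDegree = 4 * N := by
    rw [((m1.mul m2).mul m3).natDegree_mul m4, (m1.mul m2).natDegree_mul m3,
      m1.natDegree_mul m2, e1, e2, e3, e4]
    ring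
  have r1 : rs A A₁ = rs (A * (A₂ * B₁ * B₂)) (A₁ * A₂ * B₁ * B₂) := by
    rw [← rs_mul_cancel A A₁ ((m2.mul m3).mul m4).ne_zero]
    congr 1
    ring
  have r2 : rs A A₂ = rs (A * (A₁ * B₁ * B₂)) (A₁ * A₂ * B₁ * B₂) := by
    rw [← rs_mul_cancel A A₂ ((m1.mul m3).mul m4).ne_zero]
    congr 1
    ring
  have r3 : rs A B₁ = rs (A * (A₁ * A₂ * B₂)) (A₁ * A₂ * B₁ * B₂) := by
    rw [← rs_mul_cancel A B₁ ((m1.mul m2).mul m4).ne_zero]
    congr 1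
    ring
  have r4 : rs A B₂ = rs (A * (A₁ * A₂ * B₁)) (A₁ * A₂ * B₁ * B₂) := by
    rw [← rs_mul_cancel A B₂ ((m1.mul m2).mul m3).ne_zero]
    congr 1
    ring
  have hz : rs (A * (a₃ * (a₁ + a₂) * (a₁ + a₂ + a₃))) (A₁ * A₂ * B₁ * B₂) = 0 := by
    refine rc_rs_small hM ?_
    by_cases h0 : A * (a₃ * (a₁ + a₂) * (a₁ + a₂ + a₃)) = 0
    · exact Or.inl h0
    · right
      simp only [mul_eq_zero, not_or] at h0
      obtain ⟨n0, ⟨n1, n2⟩, n3⟩ := h0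
      have l1 := rc_lt h₃ n1
      have l2 := rc_lt (add_mem_Pl h₁ h₂) n2
      have l3 := rc_lt (add_mem_Pl (add_mem_Pl h₁ h₂) h₃) n3
      rw [hdeg, natDegree_mul n0 (mul_ne_zero (mul_ne_zero n1 n2) n3),
        natDegree_mul (mul_ne_zero n1 n2) n3, natDegree_mul n1 n2]
      omega
  have hid : A * (A₁ * A₂ * B₂) + A * (A₁ * A₂ * B₁) = A * (A₂ * B₁ * B₂) + A * (A₁ * B₁ * B₂) +
      A * (a₃ * (a₁ + a₂) * (a₁ + a₂ + a₃)) := by
    rw [hB₁, hB₂, hA₁, hA₂]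
    linear_combination (-A * a₃ * ((d + a₁ + a₂) * (d + a₁ + a₂ + a₃) - a₁ * a₂ - d * (a₁ + a₂))) *
      (two_eq_zero_poly (K := K))
  change psi (rs A B₁) * psi (rs A B₂) = psi (rs A A₁) * psi (rs A A₂)
  rw [← psi_add, ← psi_add, r1, r2, r3, r4, ← rs_add, hid, rs_add, hz, add_zero, rs_add]

private theorem rc_expand (f : K[X]) {h N : ℕ} (hN : h ≤ N) :
    (Fintype.card K : ℝ) ^ (N - h) * ∑ d ∈ SD f h N, mu d =
      ∑ r ∈ Pl K (N - h), ∑ d ∈ Mn K N, psi (rs (f * r) d) * mu d := by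
  rw [sum_comm, SD, sum_filter, mul_sum]
  refine sum_congr rfl fun d hd => ?_
  obtain ⟨hm, he⟩ := mem_Mn.1 hd
  rw [← sum_mul, sum_psi_rs hm, he, Nat.sub_sub_self hN]
  split_ifs <;> simp

omit [CharP K 2] in
private theorem rc_swap {w : K[X]} {ω N : ℕ} (hm : w.Monic) (he : w.natDegree = ω)
    (hi : Irreducible w) (hω : ω ≤ N) {c : K[X] → ℝ} (hc : ∀ d, |c d| ≤ 1) :
    |∑ d ∈ Mn K N, c d * mu d| ≤
      |∑ d ∈ Mn K N, c d * mu (w * d)| + (Fintype.card K : ℝ) ^ (N - ω) := by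
  have h1 : ∑ d ∈ Mn K N, c d * mu d = -(∑ d ∈ Mn K N, c d * mu (w * d)) +
      ∑ d ∈ (Mn K N).filter fun d => w ∣ d - 0, c d * mu d := by
    rw [sum_filter, ← sum_neg_distrib, ← sum_add_distrib]
    refine sum_congr rfl fun d _ => ?_
    rw [mu_irreducible_mul hi, sub_zero]
    split_ifs <;> ring
  have h2 : |∑ d ∈ (Mn K N).filter fun d => w ∣ d - 0, c d * mu d| ≤
      (Fintype.card K : ℝ) ^ (N - ω) := by
    refine (abs_sum_le_sum_abs _ _).trans ((sum_le_card_nsmul _ _ 1 fun d _ => ?_).trans ?_)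
    · rw [abs_mul]
      exact mul_le_one₀ (hc d) (abs_nonneg _) (abs_mu_le d)
    · rw [card_Mn_dvd_eq hm (he ▸ hω), he, nsmul_eq_mul, mul_one, Nat.cast_pow]
  rw [h1]
  refine (abs_add_le _ _).trans ?_
  rw [abs_neg]
  linarith

theorem range_c : ∃ n₀ : ℕ, ∀ n ≥ n₀, ∀ (f : K[X]) (h N : ℕ), f ∈ Mn K n → h ≤ N →
    49 * n ≤ 100 * h → 100 * N ≤ 51 * n →
    |∑ d ∈ SD f h N, mu d| ≤
      (Fintype.card K : ℝ) ^ N * (Fintype.card K : ℝ) ^ (-(n : ℝ) / 10 ^ 8) := by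
  obtain ⟨g₀, hg₀⟩ := s_three (K := K) 1000
  obtain ⟨j₀, hj₀⟩ := card_Irr_ge (K := K)
  refine ⟨1000 * (g₀ + j₀) + 10 ^ 8, fun n hn f h N hf hN h1 h2 => ?_⟩
  have hq2 : (2 : ℝ) ≤ Fintype.card K := by exact_mod_cast Fintype.one_lt_card
  set q := (Fintype.card K : ℝ) with hq
  have hq1 : 1 ≤ q := by linarith
  have hq0 : 0 < q := by linarith
  obtain ⟨g, hg⟩ : ∃ g, g = n / 1000 := ⟨_, rfl⟩
  obtain ⟨ω, hω1, hω2, hω3⟩ : ∃ ω, g ≤ ω ∧ ω ≤ g + 1 ∧ (N + ω) % 2 = 1 := by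
    by_cases hp : (N + g) % 2 = 1
    · exact ⟨g, le_rfl, by omega, hp⟩
    · exact ⟨g + 1, by omega, le_rfl, by omega⟩
  obtain ⟨w, hw⟩ : (Irr K ω).Nonempty := by
    rw [← card_pos, Nat.pos_iff_ne_zero]
    intro h0
    have := hj₀ ω (by omega)
    rw [h0, Nat.cast_zero, mul_zero] at this
    exact absurd this (not_le.2 (pow_pos hq0 ω))
  obtain ⟨wm, we, wi⟩ := mem_Irr.1 hw
  have hgn : (n : ℝ) ≤ 1000 * g + 1000 := by exact_mod_cast (show n ≤ 1000 * g + 1000 by omega)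
  have hn8 : (10 : ℝ) ^ 8 ≤ n := by exact_mod_cast (show 10 ^ 8 ≤ n by omega)
  have hgω : (g : ℝ) ≤ ω := by exact_mod_cast hω1
  have hc : cSW 0 1000 = 1 / 16016 := by
    rw [cSW]
    norm_num
  have hhalf : ∀ x : ℝ, x + 1 ≤ -(n : ℝ) / 10 ^ 8 → 2 * q ^ x ≤ q ^ (-(n : ℝ) / 10 ^ 8) := by
    intro x hx
    refine le_trans ?_ (Real.rpow_le_rpow_of_exponent_le hq1 hx)
    rw [Real.rpow_add hq0, Real.rpow_one, mul_comm]
    exact mul_le_mul_of_nonneg_left hq2 (Real.rpow_nonneg hq0.le x)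
  have e1 := hhalf (-(cSW 0 1000 * g)) (by rw [hc]; linarith)
  have e2 := hhalf (-(ω : ℝ)) (by linarith)
  have e3 : q ^ (N - ω) = q ^ N * q ^ (-(ω : ℝ)) := by
    rw [Real.rpow_neg hq0.le, Real.rpow_natCast, pow_sub₀ q hq0.ne' (by omega)]
  have key : ∀ r ∈ Pl K (N - h), |∑ d ∈ Mn K N, psi (rs (f * r) d) * mu d| ≤
      q ^ N * q ^ (-(n : ℝ) / 10 ^ 8) := by
    intro r hr
    have hr' : r.natDegree ≤ N - h := natDegree_le_iff_degree_le.2 (mem_Pl.1 hr).le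
    have hfr : (f * r).natDegree ≤ n + (N - h) :=
      natDegree_mul_le.trans (add_le_add (mem_Mn.1 hf).2.le hr')
    have s1 := hg₀ g (by omega) w (fun d => psi (rs (f * r) d)) N (N / 2) ω ((N + ω) / 2)
      (N / 2 / 4) (by omega) (by omega) hw hω2 (by omega) (by omega) (by omega) (by omega)
      (fun d => (abs_psi _).le) (qi_phase (by omega) (by omega))
    have s2 := rc_swap (N := N) wm we wi (by omega) (c := fun d => psi (rs (f * r) d))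
      fun d => (abs_psi _).le
    rw [← hq, e3] at s2
    have hN0 := pow_pos hq0 N
    nlinarith
  have hp := pow_pos hq0 (N - h)
  refine le_of_mul_le_mul_left ?_ hp
  rw [← abs_of_pos hp, ← abs_mul, rc_expand f hN, abs_of_pos hp]
  refine (abs_sum_le_sum_abs _ _).trans ((sum_le_card_nsmul _ _ _ key).trans ?_)
  rw [card_Pl, nsmul_eq_mul, Nat.cast_pow]

end Pool.Agent.P.MP_3bc45c_nt.SI
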