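import Pool.Agent.P.MP_3bc45c_nt.SI.RangeB
import Pool.Agent.P.MP_3bc45c_nt.SI.RangeC
import Pool.Agent.P.MP_3bc45c_nt.SI.Pre

namespace Pool.Agent.P.MP_3bc45c_nt.SI

open Polynomial Finset Pool.Agent.P.MP_a1177c_nt.HL
open scoped Classical

variable {K : Type*} [Field K] [Fintype K] [CharP K 2]

theorem all_ranges (s : ℕ) (hs : 10 ^ 8 ≤ s) {c : ℝ} (hc0 : 0 < c) (hc1 : c ≤ 1 / 10 ^ 9)
    (hc2 : c * (2000 * s) ≤ cSW (23 * s) (2000 * s) / 2) : ∃ n₀ : ℕ, ∀ n ≥ n₀,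
    ∀ (f : K[X]) (h N : ℕ), f ∈ Mn K n → 2 * h ≤ n → n ≤ 2 * h + 2 * (n / (1000 * s)) →
    h < N → N ≤ n →
    |∑ d ∈ SD f h N, mu d| ≤
      (Fintype.card K : ℝ) ^ h * (Fintype.card K : ℝ) ^ (-(c * n)) := by
  obtain ⟨n₁, H₁⟩ := range_b (K := K) s (by linarith)
  obtain ⟨n₂, H₂⟩ := range_c (K := K)
  refine ⟨n₁ + n₂ + 1000 * s, fun n hn f h N hf h1 h2 h3 h4 => ?_⟩
  have hQ : (2 : ℝ) ≤ Fintype.card K := ro_two_le
  have hQ1 : (1 : ℝ) ≤ Fintype.card K := by linarith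
  have hQ0 : (0 : ℝ) < Fintype.card K := by linarith
  have hs0 : 0 < 1000 * s := by linarith
  have hg : 1 ≤ n / (1000 * s) := by
    rw [Nat.le_div_iff_mul_le hs0]
    linarith
  have e := Nat.div_add_mod n (1000 * s)
  have e2 := Nat.mod_lt n hs0
  have H₁' := H₁ n (by linarith) f h (n - N) N hf (Nat.sub_add_cancel h4) h1 h2
  generalize n % (1000 * s) = r at e e2
  generalize n / (1000 * s) = g at *
  have e3 : 10 ^ 8 * g ≤ s * g := Nat.mul_le_mul_right g hs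
  have e4 : s * 1 ≤ s * g := Nat.mul_le_mul_left s hg
  have eu : 1000 * s * g = 1000 * (s * g) := by ring
  rcases le_total N (h + 402 * g) with hc | hc
  · refine (H₂ n (by linarith) f h N hf h3.le (by linarith) (by linarith)).trans ?_
    rw [← Real.rpow_natCast _ N, ← Real.rpow_natCast _ h, ← Real.rpow_add hQ0,
      ← Real.rpow_add hQ0]
    refine Real.rpow_le_rpow_of_exponent_le hQ1 ?_
    have a1 : (N : ℝ) ≤ h + 402 * g := by exact_mod_cast hc
    have a2 : (10 : ℝ) ^ 11 * g ≤ n := by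
      have : 10 ^ 11 * g ≤ n := by linarith
      exact_mod_cast this
    have a3 : c * n ≤ 1 / 10 ^ 9 * n := mul_le_mul_of_nonneg_right hc1 (Nat.cast_nonneg n)
    linarith
  · refine (H₁' (by omega)).trans ?_
    refine mul_le_mul_of_nonneg_left (Real.rpow_le_rpow_of_exponent_le hQ1 ?_) (by positivity)
    have a1 : (n : ℝ) ≤ 2000 * s * g := by
      have : n ≤ 2000 * s * g := by
        have : 2000 * s * g = 2000 * (s * g) := by ring
        linarith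
      exact_mod_cast this
    have a2 : c * n ≤ c * (2000 * s * g) := mul_le_mul_of_nonneg_left a1 hc0.le
    have a3 : c * (2000 * s) * g ≤ cSW (23 * s) (2000 * s) / 2 * g :=
      mul_le_mul_of_nonneg_right hc2 (Nat.cast_nonneg g)
    linarith

theorem one_length (s : ℕ) (hs : 10 ^ 8 ≤ s) {c : ℝ} (hc0 : 0 < c) (hc1 : c ≤ 1 / 10 ^ 9)
    (hc2 : c * (2000 * s) ≤ cSW (23 * s) (2000 * s) / 2) : ∃ n₀ : ℕ, ∀ n ≥ n₀,
    ∀ (h : ℕ), 2 * h ≤ n → n ≤ 2 * h + 2 * (n / (1000 * s)) → ∀ f ∈ Mn K n,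
    |n * (((Pl K h).filter fun a => Irreducible (f + a)).card : ℝ) -
      (Fintype.card K : ℝ) ^ h| ≤
      (Fintype.card K : ℝ) ^ (-(c / 2 * n)) * (Fintype.card K : ℝ) ^ h := by
  have hQ : (2 : ℝ) ≤ Fintype.card K := ro_two_le
  have hQ1 : (1 : ℝ) ≤ Fintype.card K := by linarith
  have hQ0 : (0 : ℝ) < Fintype.card K := by linarith
  obtain ⟨n₁, H₁⟩ := all_ranges (K := K) s hs hc0 hc1 hc2
  obtain ⟨n₂, H₂⟩ := absorb (A := 3) hQ (half_pos hc0) 2
  refine ⟨n₁ + n₂ + 100, fun n hn h h1 h2 f hf => ?_⟩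
  have hg : 1000 * (n / (1000 * s)) ≤ n := by
    have e := Nat.div_add_mod n (1000 * s)
    have e4 : 1 * (n / (1000 * s)) ≤ s * (n / (1000 * s)) :=
      Nat.mul_le_mul_right _ (by linarith)
    have eu : 1000 * s * (n / (1000 * s)) = 1000 * (s * (n / (1000 * s))) := by ring
    generalize n % (1000 * s) = r at e
    linarith
  have H₁' := fun N => H₁ n (by linarith) f h N hf h1 h2
  generalize n / (1000 * s) = g at *
  set B : ℝ := (Fintype.card K : ℝ) ^ h * (Fintype.card K : ℝ) ^ (-(c * n)) with hB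
  have hB0 : 0 ≤ B := by positivity
  have hn1 : (1 : ℝ) ≤ n := by
    have : 1 ≤ n := by linarith
    exact_mod_cast this
  have a1 : |∑ N ∈ Ioc h n, (N : ℝ) * ∑ d ∈ SD f h N, mu d| ≤ (n : ℝ) ^ 2 * B := by
    refine (abs_sum_le_sum_abs _ _).trans ?_
    refine (sum_le_card_nsmul _ _ (n * B) fun N hN => ?_).trans ?_
    · rw [mem_Ioc] at hN
      rw [abs_mul, Nat.abs_cast]
      exact mul_le_mul (by exact_mod_cast hN.2) (H₁' N hN.1 hN.2) (abs_nonneg _)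
        (Nat.cast_nonneg n)
    · rw [Nat.card_Ioc, nsmul_eq_mul, pow_two, mul_assoc]
      exact mul_le_mul_of_nonneg_right (by exact_mod_cast Nat.sub_le n h) (by positivity)
  have key : ∀ t : ℕ, 10 * t + n ≤ 10 * h → (Fintype.card K : ℝ) ^ t ≤ B := fun t ht => by
    rw [hB, ← Real.rpow_natCast _ t, ← Real.rpow_natCast _ h, ← Real.rpow_add hQ0]
    refine Real.rpow_le_rpow_of_exponent_le hQ1 ?_
    have b1 : (10 : ℝ) * t + n ≤ 10 * h := by exact_mod_cast ht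
    have b3 : c * n ≤ 1 / 10 ^ 9 * n := mul_le_mul_of_nonneg_right hc1 (Nat.cast_nonneg n)
    linarith
  have a2 := powers_interval hf (show h ≤ n by linarith)
  rw [vm_interval hf (by omega) (by omega)] at a2
  have a3 := key ((h + 1) / 2) (by omega)
  have a4 := key (n / 3) (by omega)
  have a5 : (n : ℝ) * (Fintype.card K : ℝ) ^ ((h + 1) / 2) ≤ (n : ℝ) ^ 2 * B :=
    mul_le_mul (by nlinarith) a3 (by positivity) (by positivity)
  have a6 : (n : ℝ) ^ 2 * (Fintype.card K : ℝ) ^ (n / 3) ≤ (n : ℝ) ^ 2 * B :=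
    mul_le_mul_of_nonneg_left a4 (by positivity)
  have a7 : 3 * (n : ℝ) ^ 2 * B ≤
      (Fintype.card K : ℝ) ^ (-(c / 2 * n)) * (Fintype.card K : ℝ) ^ h := by
    refine (mul_le_mul_of_nonneg_right (H₂ n (by linarith)) hB0).trans_eq ?_
    rw [hB, mul_left_comm, ← Real.rpow_add hQ0, mul_comm]
    congr 2
    ring
  rw [abs_le] at a1 a2 ⊢
  constructor <;> linarith [a1.1, a1.2, a2.1, a2.2]

theorem exists_const (s : ℕ) (hs : 10 ^ 8 ≤ s) : ∃ c : ℝ, 0 < c ∧ c ≤ 1 / 10 ^ 9 ∧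
    c * (2000 * s) ≤ cSW (23 * s) (2000 * s) / 2 := by
  have h1 := rb_cSW_pos (23 * s) (2000 * s)
  have h2 := rb_cSW_le (23 * s) (2000 * s)
  have h3 : (10 : ℝ) ^ 8 ≤ s := by exact_mod_cast hs
  have h4 : (0 : ℝ) < 2000 * s := by linarith
  refine ⟨cSW (23 * s) (2000 * s) / 2 / (2000 * s), by positivity, ?_, ?_⟩
  · rw [div_le_iff₀ h4]
    linarith
  · rw [div_mul_cancel₀ _ h4.ne']

theorem all_lengths (s : ℕ) (hs : 10 ^ 8 ≤ s) {c : ℝ} (hc0 : 0 < c) (hc1 : c ≤ 1 / 10 ^ 9)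
    (hc2 : c * (2000 * s) ≤ cSW (23 * s) (2000 * s) / 2) : ∃ n₀ : ℕ, ∀ n ≥ n₀,
    ∀ (h : ℕ), 1000 * s * n ≤ 2000 * s * h + n → h ≤ n → ∀ f ∈ Mn K n,
    |n * (((Pl K h).filter fun a => Irreducible (f + a)).card : ℝ) -
      (Fintype.card K : ℝ) ^ h| ≤ (Fintype.card K : ℝ) ^ ((h : ℝ) - c / 2 * n) := by
  have hQ : (2 : ℝ) ≤ Fintype.card K := ro_two_le
  have hQ0 : (0 : ℝ) < Fintype.card K := by linarith
  obtain ⟨n₁, H₁⟩ := one_length (K := K) s hs hc0 hc1 hc2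
  refine ⟨n₁ + 1000 * s, fun n hn h h1 h2 f hf => ?_⟩
  have hs0 : 0 < 1000 * s := by linarith
  have hg : 1 ≤ n / (1000 * s) := by
    rw [Nat.le_div_iff_mul_le hs0]
    linarith
  have e := Nat.div_add_mod n (1000 * s)
  have e2 := Nat.mod_lt n hs0
  have H₂ := H₁ n (by linarith) ((n + 1) / 2 - n / (1000 * s))
  generalize n % (1000 * s) = r at e e2
  generalize n / (1000 * s) = g at *
  have e4 : 1 * g ≤ s * g := Nat.mul_le_mul_right g (by linarith)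
  have eu : 1000 * s * g = 1000 * (s * g) := by ring
  have e5 : 1000 * g ≤ n := by linarith
  have e6 : n < 2 * h + g + 1 := by
    refine Nat.lt_of_mul_lt_mul_left (a := 1000 * s) ?_
    have : 1000 * s * (2 * h + g + 1) = 2000 * s * h + 1000 * s * g + 1000 * s := by ring
    linarith
  have := extend_interval (h₀ := (n + 1) / 2 - g) (by omega) h2 (H₂ (by omega) (by omega)) hf
  refine this.trans_eq ?_
  rw [← Real.rpow_natCast _ h, ← Real.rpow_add hQ0]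
  congr 1
  ring

end Pool.Agent.P.MP_3bc45c_nt.SI
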