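import Pool.Agent.P.MP_3bc45c_nt.SI.Heavy

namespace Pool.Agent.P.MP_3bc45c_nt.SI

open Polynomial Finset Pool.Agent.P.MP_a1177c_nt.HL
open scoped Classical

variable {K : Type*} [Field K] [Fintype K] [CharP K 2]

/-- the polynomial whose roots modulo `p` are counted -/
private noncomputable def mjF {ι : Type} [Fintype ι] [DecidableEq ι] (y : ι → K[X]) : K[X][X] :=
  ∑ a, ∏ b ∈ univ.erase a, (X + C (y b ^ 4))

omit [Fintype K] [CharP K 2] in
private theorem mjF_natDegree {ι : Type} [Fintype ι] [DecidableEq ι] (y : ι → K[X]) :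
    (mjF y).natDegree ≤ Fintype.card ι := by
  refine natDegree_sum_le_of_forall_le _ _ (fun a _ => ?_)
  refine (natDegree_prod_le _ _).trans ?_
  calc ∑ b ∈ univ.erase a, (X + C (y b ^ 4) : K[X][X]).natDegree
      = ∑ _b ∈ univ.erase a, 1 := Finset.sum_congr rfl (fun b _ => natDegree_X_add_C _)
    _ ≤ Fintype.card ι := by
      rw [Finset.sum_const, smul_eq_mul, mul_one]
      exact Finset.card_le_univ _

omit [Fintype K] [CharP K 2] in
private theorem mjF_eval {ι : Type} [Fintype ι] [DecidableEq ι] (y : ι → K[X]) (β : K[X]) :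
    (mjF y).eval β = ∑ a, ∏ b ∈ univ.erase a, (β + y b ^ 4) := by
  simp [mjF, eval_finsetSum, eval_prod]

private theorem mjF_eval_self {ι : Type} [Fintype ι] [DecidableEq ι] (y : ι → K[X]) (a : ι) :
    (mjF y).eval (y a ^ 4) = (∏ b ∈ univ.erase a, (y b + y a)) ^ 4 := by
  have h2 : (2 : K[X]) = 0 := two_eq_zero_poly
  rw [mjF_eval, Finset.sum_eq_single a]
  · rw [← Finset.prod_pow]
    refine Finset.prod_congr rfl (fun j _ => ?_)
    linear_combination (-(2 * y j ^ 3 * y a + 3 * y j ^ 2 * y a ^ 2 + 2 * y j * y a ^ 3)) * h2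
  · intro i' _ hi'
    refine Finset.prod_eq_zero (i := a) (Finset.mem_erase.2 ⟨hi'.symm, Finset.mem_univ _⟩) ?_
    linear_combination (y a ^ 4) * h2
  · intro h; exact absurd (Finset.mem_univ a) h

omit [CharP K 2] in
private theorem one_le_momWt (p h : K[X]) : 1 ≤ momWt p h :=
  Finset.one_le_prod fun _ _ => one_le_pow₀ mom_one_le_card

private theorem mj_count_B {L J : Type} [Fintype L] [DecidableEq L] [Fintype J] [DecidableEq J]
    (i₀ : J) {p : K[X]} (hp : p.Monic) (hsq : Squarefree p) (σ : J → K[X]) (v : L → K[X])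
    (l₀ : L) :
    (((Pl K p.natDegree).filter fun β =>
        p ∣ (mjF fun b : L × J => v b.1 + σ b.2).eval β).card : ℝ) ≤
      (Fintype.card (L × J) : ℝ) ^ (pf p).card * (momWt p (∏ i ∈ univ.erase i₀, (σ i + σ i₀)) *
        ∏ l ∈ univ.erase l₀, momWt p (∏ i, (v l + v l₀ + (σ i + σ i₀)))) := by
  have h2 : (2 : K[X]) = 0 := two_eq_zero_poly
  have hD : 1 ≤ Fintype.card (L × J) := Fintype.card_pos_iff.2 ⟨(l₀, i₀)⟩
  have h := card_roots_le hp hsq (mjF fun b : L × J => v b.1 + σ b.2) hD (mjF_natDegree _)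
    ((∏ i ∈ univ.erase i₀, (σ i + σ i₀)) *
      ∏ l ∈ univ.erase l₀, ∏ i, (v l + v l₀ + (σ i + σ i₀))) (by
      intro π hπ hnd
      by_contra hc
      push Not at hc
      have hpr := ((mem_pf hp.ne_zero).1 hπ).2.1.prime
      have h1 : C π ∣ mjF fun b : L × J => v b.1 + σ b.2 := (C_dvd_iff_dvd_coeff π _).2 hc
      have h3 := eval_dvd (x := (v l₀ + σ i₀) ^ 4) h1
      have h4 := mjF_eval_self (fun b : L × J => v b.1 + σ b.2) (l₀, i₀)
      rw [eval_C, h4] at h3
      obtain ⟨b, hb, hd⟩ := (hpr.dvd_finsetProd_iff _).1 (hpr.dvd_of_dvd_pow h3)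
      apply hnd
      by_cases hl : b.1 = l₀
      · have hi : b.2 ≠ i₀ := fun hi => (Finset.mem_erase.1 hb).1 (Prod.ext hl hi)
        refine Dvd.dvd.mul_right (hd.trans ?_) _
        have e : v b.1 + σ b.2 + (v l₀ + σ i₀) = σ b.2 + σ i₀ := by
          rw [hl]
          linear_combination (v l₀) * h2
        rw [e]
        exact Finset.dvd_prod_of_mem (fun i => σ i + σ i₀)
          (Finset.mem_erase.2 ⟨hi, Finset.mem_univ _⟩)
      · refine Dvd.dvd.mul_left (hd.trans ?_) _
        have e : v b.1 + σ b.2 + (v l₀ + σ i₀) = v b.1 + v l₀ + (σ b.2 + σ i₀) := by ring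
        rw [e]
        refine (Finset.dvd_prod_of_mem (fun i => v b.1 + v l₀ + (σ i + σ i₀))
          (Finset.mem_univ b.2)).trans ?_
        exact Finset.dvd_prod_of_mem (fun l => ∏ i, (v l + v l₀ + (σ i + σ i₀)))
          (Finset.mem_erase.2 ⟨hl, Finset.mem_univ _⟩))
  refine h.trans (mul_le_mul_of_nonneg_left ?_ (by positivity))
  exact (momWt_mul_le hp.ne_zero _ _).trans
    (mul_le_mul_of_nonneg_left (momWt_prod_le hp.ne_zero _ _) (momWt_nonneg _ _))

omit [CharP K 2] in
private theorem mj_sum_B {L : Type} [Fintype L] [DecidableEq L] (τ : ℕ) (W : K[X] → ℝ)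
    (i : L) :
    ∑ v ∈ Fintype.piFinset fun _ : L => Pl K τ, ∏ j ∈ univ.erase i, W (v j + v i) =
      (Fintype.card K : ℝ) ^ τ * (∑ z ∈ Pl K τ, W z) ^ (Fintype.card L - 1) := by
  set T : K[X] → L → K[X] → ℝ :=
    fun w j x => if j = i then (if x = w then 1 else 0) else W (x + w) with hT
  have h1 : ∀ v ∈ Fintype.piFinset fun _ : L => Pl K τ,
      ∏ j ∈ univ.erase i, W (v j + v i) = ∑ w ∈ Pl K τ, ∏ j, T w j (v j) := by
    intro v hv
    rw [Finset.sum_eq_single (v i)]
    · rw [← Finset.mul_prod_erase univ _ (Finset.mem_univ i)]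
      simp only [hT, if_true, one_mul]
      refine Finset.prod_congr rfl (fun j hj => ?_)
      rw [if_neg (Finset.mem_erase.1 hj).1]
    · intro w _ hw
      refine Finset.prod_eq_zero (Finset.mem_univ i) ?_
      simp only [hT, if_true]
      rw [if_neg hw.symm]
    · intro h; exact absurd (Fintype.mem_piFinset.1 hv i) h
  rw [Finset.sum_congr rfl h1, Finset.sum_comm]
  calc ∑ w ∈ Pl K τ, ∑ v ∈ Fintype.piFinset fun _ : L => Pl K τ, ∏ j, T w j (v j)
      = ∑ _w ∈ Pl K τ, (∑ z ∈ Pl K τ, W z) ^ (Fintype.card L - 1) := by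
        refine Finset.sum_congr rfl (fun w hw => ?_)
        rw [← Finset.prod_univ_sum, ← Finset.mul_prod_erase univ _ (Finset.mem_univ i)]
        have e1 : ∑ x ∈ Pl K τ, T w i x = 1 := by
          simp only [hT, if_true]
          rw [Finset.sum_ite_eq' (Pl K τ) w (fun _ => (1 : ℝ)), if_pos hw]
        rw [e1, one_mul]
        calc ∏ j ∈ univ.erase i, ∑ x ∈ Pl K τ, T w j x
            = ∏ _j ∈ univ.erase i, ∑ z ∈ Pl K τ, W z := by
              refine Finset.prod_congr rfl (fun j hj => ?_)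
              simp only [hT, if_neg (Finset.mem_erase.1 hj).1]
              exact sum_Pl_shift hw W
          _ = _ := by
              rw [Finset.prod_const, Finset.card_erase_of_mem (Finset.mem_univ i),
                Finset.card_univ]
    _ = _ := by rw [Finset.sum_const, card_Pl, nsmul_eq_mul]; push_cast; rfl

private theorem mj_card_A {L : Type} [Fintype L] [DecidableEq L] {m : ℕ}
    (hL : Fintype.card L = 2 * m) (τ : ℕ) (hv : K[X] → Prop) [DecidablePred hv] {B : ℕ}
    (hB1 : 1 ≤ B)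
    (hB : ((Pl K τ).filter hv).card ≤ B) :
    ((Fintype.piFinset fun _ : L => Pl K τ).filter
      fun v => ∀ a, ∃ b, b ≠ a ∧ hv (v b + v a)).card ≤
      2 ^ (2 * m) * (2 * m) ^ (2 * m) * (Fintype.card K ^ (m * τ) * B ^ (2 * m)) := by
  have h2 : (2 : K[X]) = 0 := two_eq_zero_poly
  have hq : 1 ≤ Fintype.card K := Fintype.card_pos
  set S : Finset (Finset L × (L → L)) :=
    ((univ : Finset (Finset L)).filter fun T => T.card ≤ m) ×ˢ univ with hS
  have hsub : ((Fintype.piFinset fun _ : L => Pl K τ).filter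
      fun v => ∀ a, ∃ b, b ≠ a ∧ hv (v b + v a)) ⊆
      S.biUnion fun z =>
        (Fintype.piFinset fun l => if l ∈ z.1 then Pl K τ else (Pl K τ).filter hv).image
          fun w l => if l ∈ z.1 then w l else w l + w (z.2 l) := by
    intro v hv'
    obtain ⟨hv1, hv2⟩ := Finset.mem_filter.1 hv'
    have hv3 := Fintype.mem_piFinset.1 hv1
    obtain ⟨T, hT1, hT2⟩ := exists_dominating (fun a b : L => hv (v a + v b))
      (fun a b h => by rwa [add_comm]) (fun a => by
        obtain ⟨b, hb, h⟩ := hv2 a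
        exact ⟨b, hb, by rwa [add_comm]⟩)
    have hT3 : ∀ a, ∃ b, a ∉ T → b ∈ T ∧ hv (v a + v b) := by
      intro a
      by_cases ha : a ∈ T
      · exact ⟨a, fun h => absurd ha h⟩
      · obtain ⟨b, hb, h⟩ := hT2 a ha
        exact ⟨b, fun _ => ⟨hb, h⟩⟩
    choose φ hφ using hT3
    refine Finset.mem_biUnion.2 ⟨(T, φ), ?_, Finset.mem_image.2
      ⟨fun l => if l ∈ T then v l else v l + v (φ l), ?_, ?_⟩⟩
    · refine Finset.mem_product.2 ⟨Finset.mem_filter.2 ⟨Finset.mem_univ _, ?_⟩, Finset.mem_univ _⟩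
      show T.card ≤ m
      omega
    · refine Fintype.mem_piFinset.2 fun l => ?_
      by_cases hl : l ∈ T
      · simp only [hl, if_true]
        exact hv3 l
      · simp only [hl, if_false]
        exact Finset.mem_filter.2 ⟨add_mem_Pl (hv3 _) (hv3 _), (hφ l hl).2⟩
    · funext l
      by_cases hl : l ∈ T
      · simp only [hl, if_true]
      · simp only [hl, if_false, (hφ l hl).1, if_true]
        linear_combination (v (φ l)) * h2
  refine (Finset.card_le_card hsub).trans (Finset.card_biUnion_le.trans ?_)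
  have hb : ∀ z ∈ S, ((Fintype.piFinset fun l =>
      if l ∈ z.1 then Pl K τ else (Pl K τ).filter hv).image
        fun w l => if l ∈ z.1 then w l else w l + w (z.2 l)).card ≤
      Fintype.card K ^ (m * τ) * B ^ (2 * m) := by
    intro z hz
    have hz1 : z.1.card ≤ m := (Finset.mem_filter.1 (Finset.mem_product.1 hz).1).2
    refine Finset.card_image_le.trans ?_
    rw [Fintype.card_piFinset]
    calc ∏ l, (if l ∈ z.1 then Pl K τ else (Pl K τ).filter hv).card
        ≤ ∏ l, ((if l ∈ z.1 then Fintype.card K ^ τ else 1) * B) := by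
          refine Finset.prod_le_prod' fun l _ => ?_
          by_cases hl : l ∈ z.1
          · simp only [hl, if_true, card_Pl]
            exact Nat.le_mul_of_pos_right _ hB1
          · simp only [hl, if_false, one_mul]
            exact hB
      _ = (Fintype.card K ^ τ) ^ z.1.card * B ^ (2 * m) := by
          rw [Finset.prod_mul_distrib, Finset.prod_const, Finset.card_univ, hL,
            Finset.prod_ite_mem, Finset.univ_inter, Finset.prod_const]
      _ ≤ _ := by
          rw [← pow_mul]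
          refine Nat.mul_le_mul_right _ (Nat.pow_le_pow_right hq ?_)
          rw [mul_comm]
          exact Nat.mul_le_mul_right _ hz1
  refine (Finset.sum_le_card_nsmul _ _ _ hb).trans ?_
  rw [smul_eq_mul]
  refine Nat.mul_le_mul_right _ ?_
  rw [hS, Finset.card_product, Finset.card_univ, Fintype.card_fun, hL]
  refine Nat.mul_le_mul_right _ ((Finset.card_filter_le _ _).trans ?_)
  rw [Finset.card_univ, Fintype.card_finset, hL]

theorem momentJ (J : Type) [Fintype J] [DecidableEq J] (i₀ : J) (m : ℕ)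
    (hm : 1 ≤ m) : ∃ C : ℝ, 1 ≤ C ∧
    ∀ (p : K[X]) (σ : J → K[X]) (τ : ℕ), p.Monic → Squarefree p → p.natDegree ≤ m * τ →
    ∑ α ∈ Pl K p.natDegree, ∑ β ∈ Pl K p.natDegree,
        (∑ v ∈ Pl K τ, ∏ i, kl p α (β + (v + σ i) ^ 4)) ^ (2 * m) ≤
      (Fintype.card K : ℝ) ^ p.natDegree * C ^ ((pf p).card + 1) *
        momWt p (∏ i ∈ univ.erase i₀, (σ i + σ i₀)) * (Fintype.card K : ℝ) ^ (2 * m * τ) := by
  set A : ℝ := 2 ^ (2 * m) * (2 * m) ^ (2 * m) with hA
  set D : ℝ := (Fintype.card (Fin (2 * m) × J) : ℝ) with hD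
  set E : ℝ := ((Fintype.card J : ℝ) + 1) ^ (2 * m) with hE
  have hm' : (1 : ℝ) ≤ m := by exact_mod_cast hm
  have hA0 : 0 ≤ A := by positivity
  have hD1 : 1 ≤ D := by
    have : 1 ≤ Fintype.card (Fin (2 * m) × J) :=
      Fintype.card_pos_iff.2 ⟨(⟨0, by omega⟩, i₀)⟩
    rw [hD]
    exact_mod_cast this
  have hn1 : (1 : ℝ) ≤ (Fintype.card J : ℝ) + 1 := by
    have : (0 : ℝ) ≤ Fintype.card J := Nat.cast_nonneg _
    linarith
  have hE1 : 1 ≤ E := one_le_pow₀ hn1
  have hDE : 1 ≤ D * E := one_le_mul_of_one_le_of_one_le hD1 hE1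
  have hA1 : 1 ≤ A + 2 * m := by linarith
  refine ⟨(A + 2 * m) * (D * E), one_le_mul_of_one_le_of_one_le hA1 hDE, ?_⟩
  intro p σ τ hp hsq hdeg
  set q : ℝ := (Fintype.card K : ℝ) with hq
  have hq1 : 1 ≤ q := mom_one_le_card
  have hq0 : 0 ≤ q := by linarith
  set V := Fintype.piFinset fun _ : Fin (2 * m) => Pl K τ with hV
  set W₀ := momWt p (∏ i ∈ univ.erase i₀, (σ i + σ i₀)) with hW₀
  have hW₀1 : 1 ≤ W₀ := one_le_momWt _ _
  set hv : K[X] → Prop := fun z => q ^ τ < momWt p (∏ i, (z + (σ i + σ i₀))) with hhv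
  set W : K[X] → ℝ := fun z => if hv z then 0 else momWt p (∏ i, (z + (σ i + σ i₀))) with hW
  have hW0 : ∀ z, 0 ≤ W z := fun z => by
    simp only [hW]
    split_ifs
    · exact le_rfl
    · exact momWt_nonneg _ _
  set B : ℝ := ((Fintype.card J : ℝ) + 1) ^ (pf p).card with hB
  have hB1 : 1 ≤ B := one_le_pow₀ hn1
  have hBE : B ^ (2 * m) = E ^ (pf p).card := by
    rw [hB, hE, ← pow_mul, ← pow_mul, mul_comm]
  have hWsum : ∑ z ∈ Pl K τ, W z ≤ B * q ^ τ := by
    refine le_trans (le_of_eq ?_) (sum_light_le hp.ne_zero (fun i => σ i + σ i₀) τ)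
    rw [Finset.sum_filter]
    refine Finset.sum_congr rfl fun z _ => ?_
    simp only [hW, hhv]
    split_ifs <;> rfl
  have e1 : ∀ α β : K[X], (∑ v ∈ Pl K τ, ∏ i, kl p α (β + (v + σ i) ^ 4)) ^ (2 * m) =
      ∑ v ∈ V, ∏ b : Fin (2 * m) × J, kl p α (β + (v b.1 + σ b.2) ^ 4) := by
    intro α β
    simp only [Fintype.prod_prod_type]
    rw [hV, ← Finset.prod_univ_sum (fun _ : Fin (2 * m) => Pl K τ)
      (fun _ x => ∏ i, kl p α (β + (x + σ i) ^ 4))]
    simp
  simp only [e1]
  rw [Finset.sum_comm]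
  simp only [fun β => Finset.sum_comm (s := Pl K p.natDegree) (t := V)
    (f := fun α v => ∏ b : Fin (2 * m) × J, kl p α (β + (v b.1 + σ b.2) ^ 4))]
  rw [Finset.sum_comm]
  have e2 : ∀ v ∈ V, ∑ β ∈ Pl K p.natDegree, ∑ α ∈ Pl K p.natDegree,
      ∏ b : Fin (2 * m) × J, kl p α (β + (v b.1 + σ b.2) ^ 4) ≤ q ^ p.natDegree *
        ((if ∀ a, ∃ b, b ≠ a ∧ hv (v b + v a) then q ^ p.natDegree else 0) +
          D ^ (pf p).card * W₀ * ∑ a, ∏ l ∈ univ.erase a, W (v l + v a)) := by
    intro v _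
    have hnn : ∀ a : Fin (2 * m), 0 ≤ ∏ l ∈ univ.erase a, W (v l + v a) := fun a =>
      Finset.prod_nonneg fun j _ => hW0 _
    have a1 : ∑ β ∈ Pl K p.natDegree, ∑ α ∈ Pl K p.natDegree,
        ∏ b : Fin (2 * m) × J, kl p α (β + (v b.1 + σ b.2) ^ 4) ≤ q ^ p.natDegree *
          (((Pl K p.natDegree).filter fun β =>
            p ∣ (mjF fun b : Fin (2 * m) × J => v b.1 + σ b.2).eval β).card : ℝ) := by
      rw [Finset.card_filter]
      push_cast
      rw [Finset.mul_sum]
      refine Finset.sum_le_sum (fun β _ => ?_)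
      rw [sum_prod_kl hp hsq (fun b : Fin (2 * m) × J => β + (v b.1 + σ b.2) ^ 4), mjF_eval]
      by_cases hd : p ∣ ∑ a : Fin (2 * m) × J, ∏ b ∈ univ.erase a, (β + (v b.1 + σ b.2) ^ 4)
      · rw [if_pos hd, mul_one]
        split_ifs
        · exact le_rfl
        · positivity
      · rw [if_neg hd, mul_zero, if_neg]
        intro h
        refine hd (h.2.trans (dvd_of_eq (Finset.sum_congr rfl fun i _ =>
          Finset.prod_congr (Finset.ext fun j => ?_) fun _ _ => rfl)))
        simp only [Finset.mem_erase]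
    refine a1.trans (mul_le_mul_of_nonneg_left ?_ (by positivity))
    by_cases hA' : ∀ a, ∃ b, b ≠ a ∧ hv (v b + v a)
    · rw [if_pos hA']
      have a2 : (((Pl K p.natDegree).filter fun β =>
          p ∣ (mjF fun b : Fin (2 * m) × J => v b.1 + σ b.2).eval β).card : ℝ)
          ≤ q ^ p.natDegree := by
        rw [hq, ← Nat.cast_pow, ← card_Pl]
        exact_mod_cast Finset.card_filter_le _ _
      have a3 : (0 : ℝ) ≤ D ^ (pf p).card * W₀ * ∑ a, ∏ l ∈ univ.erase a, W (v l + v a) :=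
        mul_nonneg (by positivity) (Finset.sum_nonneg fun i _ => hnn i)
      linarith
    · rw [if_neg hA', zero_add]
      push Not at hA'
      obtain ⟨a, ha⟩ := hA'
      refine (mj_count_B i₀ hp hsq σ v a).trans ?_
      rw [mul_assoc]
      refine mul_le_mul_of_nonneg_left (mul_le_mul_of_nonneg_left ?_ (by positivity))
        (by positivity)
      refine le_trans (le_of_eq ?_)
        (Finset.single_le_sum (fun i _ => hnn i) (Finset.mem_univ a))
      refine Finset.prod_congr rfl (fun j hj => ?_)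
      simp only [hW]
      rw [if_neg (ha j (Finset.mem_erase.1 hj).1)]
  refine (Finset.sum_le_sum e2).trans ?_
  rw [← Finset.mul_sum, Finset.sum_add_distrib, mul_assoc, mul_assoc]
  refine mul_le_mul_of_nonneg_left ?_ (by positivity)
  have b1 : ∑ v ∈ V, (if ∀ a, ∃ b, b ≠ a ∧ hv (v b + v a) then q ^ p.natDegree else 0) ≤
      A * E ^ (pf p).card * q ^ (2 * m * τ) := by
    rw [← Finset.sum_filter, Finset.sum_const, nsmul_eq_mul]
    have c1 := mj_card_A (K := K) (L := Fin (2 * m)) (Fintype.card_fin _) τ hv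
      (B := (Fintype.card J + 1) ^ (pf p).card) (Nat.one_le_pow _ _ (Nat.succ_pos _))
      (card_heavy_le hp.ne_zero (fun i => σ i + σ i₀) τ)
    have c2 : ((V.filter fun v => ∀ a, ∃ b, b ≠ a ∧ hv (v b + v a)).card : ℝ) ≤
        A * (q ^ (m * τ) * B ^ (2 * m)) := by
      refine le_trans (Nat.cast_le.2 (le_trans (le_of_eq ?_) c1)) (le_of_eq ?_)
      · congr
      · rw [hA, hB, hq]
        push_cast
        rfl
    have c3 : q ^ p.natDegree ≤ q ^ (m * τ) := pow_le_pow_right₀ hq1 hdeg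
    refine (mul_le_mul c2 c3 (by positivity) (by positivity)).trans (le_of_eq ?_)
    rw [hBE, mul_assoc 2 m τ, two_mul (m * τ), pow_add]
    ring
  have b2 : ∑ v ∈ V, D ^ (pf p).card * W₀ * ∑ a, ∏ l ∈ univ.erase a, W (v l + v a) ≤
      D ^ (pf p).card * W₀ * (2 * m * (E ^ (pf p).card * q ^ (2 * m * τ))) := by
    rw [← Finset.mul_sum, Finset.sum_comm]
    refine mul_le_mul_of_nonneg_left ?_ (by positivity)
    calc ∑ a : Fin (2 * m), ∑ v ∈ V, ∏ l ∈ univ.erase a, W (v l + v a)
        ≤ ∑ _a : Fin (2 * m), E ^ (pf p).card * q ^ (2 * m * τ) := by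
          refine Finset.sum_le_sum fun a _ => ?_
          rw [hV, mj_sum_B τ W a, Fintype.card_fin]
          calc q ^ τ * (∑ z ∈ Pl K τ, W z) ^ (2 * m - 1)
              ≤ (B * q ^ τ) * (B * q ^ τ) ^ (2 * m - 1) := by
                refine mul_le_mul (le_mul_of_one_le_left (by positivity) hB1)
                  (pow_le_pow_left₀ (Finset.sum_nonneg fun z _ => hW0 z) hWsum _)
                  (pow_nonneg (Finset.sum_nonneg fun z _ => hW0 z) _) (by positivity)
            _ = (B * q ^ τ) ^ (2 * m) := by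
                rw [← pow_succ']
                congr 1
                omega
            _ = _ := by rw [mul_pow, hBE, ← pow_mul q, mul_comm τ]
      _ = _ := by
          rw [Finset.sum_const, Finset.card_univ, Fintype.card_fin, nsmul_eq_mul]
          push_cast
          rfl
  refine (add_le_add b1 b2).trans ?_
  have c4 : (D * E) ^ (pf p).card ≤ ((A + 2 * m) * (D * E)) ^ (pf p).card :=
    pow_le_pow_left₀ (by positivity) (le_mul_of_one_le_left (by positivity) hA1) _
  have c5 : (A + 2 * m) * (D * E) ^ (pf p).card ≤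
      ((A + 2 * m) * (D * E)) ^ ((pf p).card + 1) := by
    rw [pow_succ']
    exact mul_le_mul (le_mul_of_one_le_right (by positivity) hDE) c4 (by positivity)
      (by positivity)
  refine le_trans ?_ (mul_le_mul_of_nonneg_right c5 (by positivity))
  have c6 : 1 ≤ D ^ (pf p).card * W₀ := one_le_mul_of_one_le_of_one_le (one_le_pow₀ hD1) hW₀1
  have c7 : A * E ^ (pf p).card * q ^ (2 * m * τ) ≤
      (D ^ (pf p).card * W₀) * (A * E ^ (pf p).card * q ^ (2 * m * τ)) :=
    le_mul_of_one_le_left (by positivity) c6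
  rw [mul_pow]
  linarith

end Pool.Agent.P.MP_3bc45c_nt.SI
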