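import Pool.Agent.P.MP_3bc45c_nt.SI.GCS
import Pool.Agent.P.MP_3bc45c_nt.SI.MomentJ

namespace Pool.Agent.P.MP_3bc45c_nt.SI

open Polynomial Finset Pool.Agent.P.MP_a1177c_nt.HL
open scoped Classical

universe u

variable {K : Type u} [Field K] [Fintype K] [CharP K 2]

omit [CharP K 2] in
private theorem gb_mul_mem {a b : ℕ} {u v : K[X]} (hu : u.natDegree ≤ a) (hv : v ∈ Pl K b) :
    u * v ∈ Pl K (a + b) := by
  rw [mem_Pl] at hv ⊢
  rcases eq_or_ne u 0 with rfl | hu0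
  · rw [zero_mul, degree_zero]; exact WithBot.bot_lt_coe _
  rcases eq_or_ne v 0 with rfl | hv0
  · rw [mul_zero, degree_zero]; exact WithBot.bot_lt_coe _
  have h1 := (natDegree_lt_iff_degree_lt hv0).2 hv
  rw [← natDegree_lt_iff_degree_lt (mul_ne_zero hu0 hv0), natDegree_mul hu0 hv0]
  omega

omit [CharP K 2] in
private theorem gb_cube_mem {n j τ : ℕ} {G : Fin n → K[X]} (hG : ∀ i, (G i).natDegree ≤ j)
    {t : Fin n → K[X] × K[X]} (ht : t ∈ Fintype.piFinset fun _ : Fin n => Pl K τ ×ˢ Pl K τ)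
    (ε : Fin n → Bool) : cube G t ε ∈ Pl K (j + τ) := by
  unfold cube
  refine Finset.sum_induction _ (fun x => x ∈ Pl K (j + τ)) (fun a b ha hb => add_mem_Pl ha hb)
    (mem_Pl.2 (by rw [degree_zero]; exact WithBot.bot_lt_coe _)) fun i _ => ?_
  have h := Finset.mem_product.1 (Fintype.mem_piFinset.1 ht i)
  refine gb_mul_mem (hG i) ?_
  split_ifs
  · exact h.2
  · exact h.1

omit [Fintype K] in
private theorem gb_sum_sq {n : ℕ} (E u : K[X]) (G : Fin n → K[X]) (t : Fin n → K[X] × K[X])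
    (ε : Fin n → Bool) :
    ∑ i, (E * (u * (G i * if ε i then (t i).2 else (t i).1))) ^ 2 =
      (E * (u * cube G t ε)) ^ 2 := by
  unfold cube
  rw [Finset.mul_sum, Finset.mul_sum, CharTwo.sum_sq]

private theorem gb_prod_pair {k : ℕ} (f g : (Fin (k + 1) → Bool) → ℝ)
    (h : ∀ ε ε', f ε * f ε' = g ε * g ε') : ∏ ε, f ε = ∏ ε, g ε := by
  have key : ∀ F : (Fin (k + 1) → Bool) → ℝ, ∏ ε, F ε =
      ∏ δ : Fin k → Bool, F (Fin.cons true δ) * F (Fin.cons false δ) := by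
    intro F
    rw [← (Fin.consEquiv fun _ => Bool).prod_comp F, Fintype.prod_prod_type, Fintype.prod_bool,
      ← Finset.prod_mul_distrib]
    rfl
  rw [key f, key g]
  exact Finset.prod_congr rfl fun δ _ => h _ _

omit [Fintype K] in
private theorem gb_deriv (x a : K[X]) : derivative (x + a ^ 2) = derivative x := by
  have h2 : (2 : K[X]) = 0 := by
    have := CharP.cast_eq_zero K[X] 2
    exact_mod_cast this
  rw [derivative_add, derivative_sq]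
  have : (C 2 : K[X]) = 0 := by
    rw [← h2]; rfl
  rw [this]; ring

/-- the inner sum after the shift -/
noncomputable def gbW {J : Type} [Fintype J] (τ : ℕ) (p E s c₀ : K[X]) (σ : J → K[X])
    (x u : K[X]) : ℝ :=
  ∑ v ∈ Pl K τ, ∏ ε, kl p (s * (derivative x ^ 2 + c₀) ^ 3) (x ^ 2 + (E * u) ^ 4 * (v + σ ε) ^ 4)

omit [CharP K 2] in
private theorem gbW_le {J : Type} [Fintype J] (τ : ℕ) (p E s c₀ : K[X]) (σ : J → K[X])
    (x u : K[X]) : |gbW τ p E s c₀ σ x u| ≤ (Fintype.card K : ℝ) ^ τ := by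
  unfold gbW
  refine (Finset.abs_sum_le_sum_abs _ _).trans ?_
  calc _ ≤ ∑ _v ∈ Pl K τ, (1 : ℝ) := by
        refine Finset.sum_le_sum fun v _ => ?_
        rw [Finset.abs_prod]
        exact Finset.prod_le_one (fun _ _ => abs_nonneg _) fun _ _ => abs_kl_le _ _ _
    _ = _ := by rw [Finset.sum_const, card_Pl, nsmul_eq_mul, mul_one, Nat.cast_pow]

private theorem gb_inner {I : Type u} {k τ υ ζ : ℕ} (Ω : Finset (I × K[X])) (U : Finset K[X])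
    (p E s c₀ : I → K[X]) (c : I → K[X] → ℝ) (σ : I → (Fin (k + 1) → Bool) → K[X])
    (hU : ∀ u ∈ U, u.natDegree ≤ υ) (hζ : υ + τ ≤ ζ)
    (hσ : ∀ z ∈ Ω, ∀ u ∈ U, ∀ ε, u * σ z.1 ε ∈ Pl K ζ)
    (hΩ : ∀ z ∈ Ω, ∀ v ∈ Pl K ζ, (z.1, z.2 + (E z.1 * v) ^ 2) ∈ Ω)
    (hc : ∀ ι x, |c ι x| ≤ 1)
    (hq : ∀ z ∈ Ω, ∀ v₁ ∈ Pl K ζ, ∀ v₂ ∈ Pl K ζ, ∀ v₃ ∈ Pl K ζ,
      c z.1 (z.2 + (E z.1 * v₁) ^ 2 + (E z.1 * v₃) ^ 2) *
          c z.1 (z.2 + (E z.1 * v₂) ^ 2 + (E z.1 * v₃) ^ 2) =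
        c z.1 (z.2 + (E z.1 * v₁) ^ 2) * c z.1 (z.2 + (E z.1 * v₂) ^ 2)) :
    (Fintype.card K : ℝ) ^ τ * |∑ w ∈ Ω ×ˢ U, ∏ ε,
        (c w.1.1 (w.1.2 + (E w.1.1 * (w.2 * σ w.1.1 ε)) ^ 2) *
          kl (p w.1.1) (s w.1.1 *
            (derivative (w.1.2 + (E w.1.1 * (w.2 * σ w.1.1 ε)) ^ 2) ^ 2 + c₀ w.1.1) ^ 3)
            ((w.1.2 + (E w.1.1 * (w.2 * σ w.1.1 ε)) ^ 2) ^ 2))| ≤
      ∑ w ∈ Ω ×ˢ U, |gbW τ (p w.1.1) (E w.1.1) (s w.1.1) (c₀ w.1.1) (σ w.1.1) w.1.2 w.2| := by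
  have h2 : (2 : K[X]) = 0 := two_eq_zero_poly
  set F : (I × K[X]) × K[X] → ℝ := fun w => ∏ ε,
        (c w.1.1 (w.1.2 + (E w.1.1 * (w.2 * σ w.1.1 ε)) ^ 2) *
          kl (p w.1.1) (s w.1.1 *
            (derivative (w.1.2 + (E w.1.1 * (w.2 * σ w.1.1 ε)) ^ 2) ^ 2 + c₀ w.1.1) ^ 3)
            ((w.1.2 + (E w.1.1 * (w.2 * σ w.1.1 ε)) ^ 2) ^ 2)) with hF
  set Cc : (I × K[X]) × K[X] → ℝ := fun w => ∏ ε,
        c w.1.1 (w.1.2 + (E w.1.1 * (w.2 * σ w.1.1 ε)) ^ 2) with hCc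
  have hshift : ∀ v ∈ Pl K τ, ∑ w ∈ Ω ×ˢ U, F w = ∑ w ∈ Ω ×ˢ U, Cc w *
      ∏ ε, kl (p w.1.1) (s w.1.1 * (derivative w.1.2 ^ 2 + c₀ w.1.1) ^ 3)
        (w.1.2 ^ 2 + (E w.1.1 * w.2) ^ 4 * (v + σ w.1.1 ε) ^ 4) := by
    intro v hv
    have hm : ∀ u ∈ U, u * v ∈ Pl K ζ := fun u hu => Pl_mono hζ (gb_mul_mem (hU u hu) hv)
    set φ : (I × K[X]) × K[X] → (I × K[X]) × K[X] :=
      fun w => ((w.1.1, w.1.2 + (E w.1.1 * (w.2 * v)) ^ 2), w.2) with hφ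
    have hφm : ∀ w ∈ Ω ×ˢ U, φ w ∈ Ω ×ˢ U := by
      intro w hw
      obtain ⟨h1, h3⟩ := Finset.mem_product.1 hw
      exact Finset.mem_product.2 ⟨hΩ _ h1 _ (hm _ h3), h3⟩
    have hφi : ∀ w, φ (φ w) = w := by
      rintro ⟨⟨ι, x⟩, u⟩
      simp only [hφ, Prod.mk.injEq, and_true, true_and]
      linear_combination (E ι * (u * v)) ^ 2 * h2
    rw [← Finset.sum_nbij' φ φ hφm hφm (fun w _ => hφi w) (fun w _ => hφi w)
      (f := fun w => F (φ w)) (g := F) (fun _ _ => rfl)]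
    refine Finset.sum_congr rfl fun w hw => ?_
    obtain ⟨h1, h3⟩ := Finset.mem_product.1 hw
    simp only [hF, hφ, hCc]
    rw [Finset.prod_mul_distrib]
    refine congrArg₂ (· * ·) ?_ ?_
    · refine gb_prod_pair _ _ fun ε ε' => ?_
      have := hq _ h1 _ (hσ _ h1 _ h3 ε) _ (hσ _ h1 _ h3 ε') _ (hm _ h3)
      rw [← this, add_right_comm _ ((E w.1.1 * (w.2 * v)) ^ 2),
        add_right_comm _ ((E w.1.1 * (w.2 * v)) ^ 2)]
    · refine Finset.prod_congr rfl fun ε _ => ?_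
      rw [gb_deriv, gb_deriv]
      refine congrArg (kl _ _) ?_
      linear_combination (w.1.2 * (E w.1.1 * (w.2 * v)) ^ 2 +
        w.1.2 * (E w.1.1 * (w.2 * σ w.1.1 ε)) ^ 2 -
        (E w.1.1 * w.2) ^ 4 * (2 * v ^ 3 * σ w.1.1 ε + 2 * v ^ 2 * σ w.1.1 ε ^ 2 +
          2 * v * σ w.1.1 ε ^ 3)) * h2
  have hsum : (Fintype.card K : ℝ) ^ τ * ∑ w ∈ Ω ×ˢ U, F w = ∑ w ∈ Ω ×ˢ U, Cc w *
      gbW τ (p w.1.1) (E w.1.1) (s w.1.1) (c₀ w.1.1) (σ w.1.1) w.1.2 w.2 := by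
    simp only [gbW, Finset.mul_sum]
    rw [Finset.sum_comm (s := Ω ×ˢ U) (t := Pl K τ),
      Finset.sum_congr rfl fun v hv => (hshift v hv).symm, Finset.sum_const, card_Pl,
      nsmul_eq_mul, Nat.cast_pow, Finset.mul_sum]
  have hq0 : (0 : ℝ) ≤ (Fintype.card K : ℝ) ^ τ := by positivity
  rw [← abs_of_nonneg hq0, ← abs_mul, hsum]
  refine (Finset.abs_sum_le_sum_abs _ _).trans (Finset.sum_le_sum fun w _ => ?_)
  rw [abs_mul]
  refine mul_le_of_le_one_left (abs_nonneg _) ?_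
  simp only [hCc]
  rw [Finset.abs_prod]
  exact Finset.prod_le_one (fun _ _ => abs_nonneg _) fun _ _ => hc _ _

omit [CharP K 2] in
private theorem gb_main {I : Type u} {J : Type} [Fintype J] {m τ : ℕ} (hm : 1 ≤ m)
    (Ω : Finset (I × K[X])) (U : Finset K[X]) (p E s c₀ : I → K[X]) (σ : I → J → K[X])
    (good : I → Prop) (B : ℝ) (hB : 0 ≤ B)
    (hp : ∀ z ∈ Ω, (p z.1).Monic ∧ IsCoprime (E z.1) (p z.1) ∧ IsCoprime (s z.1) (p z.1))
    (hM : ∀ z ∈ Ω, good z.1 → ∑ α ∈ Pl K (p z.1).natDegree, ∑ β ∈ Pl K (p z.1).natDegree,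
        (∑ v ∈ Pl K τ, ∏ i, kl (p z.1) α (β + (v + σ z.1 i) ^ 4)) ^ (2 * m) ≤ B) :
    (∑ w ∈ (Ω ×ˢ U).filter (fun w => IsCoprime w.2 (p w.1.1) ∧ good w.1.1),
        |gbW τ (p w.1.1) (E w.1.1) (s w.1.1) (c₀ w.1.1) (σ w.1.1) w.1.2 w.2|) ^ (2 * m) ≤
      ((Ω.card : ℝ) * U.card) ^ (2 * m - 2) * (En Ω U p c₀ : ℝ) *
        ((Ω.image Prod.fst).card * B) := by
  have hw : ∀ (ι : I) (u : K[X]), ∃ w : K[X], IsCoprime (E ι * u) (p ι) →
      p ι ∣ (E ι * u) ^ 4 * w - 1 := by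
    intro ι u
    by_cases hu : IsCoprime (E ι * u) (p ι)
    · obtain ⟨a, b, hab⟩ := hu.pow_left (m := 4)
      exact ⟨a, fun _ => ⟨-b, by linear_combination hab⟩⟩
    · exact ⟨0, fun h => absurd h hu⟩
  choose w hw using hw
  set S := (Ω ×ˢ U).filter (fun w => IsCoprime w.2 (p w.1.1) ∧ good w.1.1) with hS
  set R : Finset (Σ _ : I, K[X] × K[X]) := ((Ω.image Prod.fst).filter good).sigma
    fun ι => Pl K (p ι).natDegree ×ˢ Pl K (p ι).natDegree with hR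
  set π : (I × K[X]) × K[X] → (Σ _ : I, K[X] × K[X]) := fun t =>
    ⟨t.1.1, ((s t.1.1 * (derivative t.1.2 ^ 2 + c₀ t.1.1) ^ 3 * w t.1.1 t.2) %ₘ p t.1.1,
      (t.1.2 ^ 2 * w t.1.1 t.2) %ₘ p t.1.1)⟩ with hπ
  set W : (Σ _ : I, K[X] × K[X]) → ℝ := fun r =>
    ∑ v ∈ Pl K τ, ∏ i, kl (p r.1) r.2.1 (r.2.2 + (v + σ r.1 i) ^ 4) with hW
  have hSm : ∀ t ∈ S, t.1 ∈ Ω ∧ t.2 ∈ U ∧ IsCoprime t.2 (p t.1.1) ∧ good t.1.1 := by
    intro t ht
    obtain ⟨h1, h2, h3⟩ := Finset.mem_filter.1 ht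
    obtain ⟨h4, h5⟩ := Finset.mem_product.1 h1
    exact ⟨h4, h5, h2, h3⟩
  have hcop : ∀ t ∈ S, IsCoprime (E t.1.1 * t.2) (p t.1.1) := fun t ht =>
    (hp _ (hSm t ht).1).2.1.mul_left (hSm t ht).2.2.1
  have hπR : ∀ t ∈ S, π t ∈ R := by
    intro t ht
    have hmon := (hp _ (hSm t ht).1).1
    have hmod : ∀ a : K[X], a %ₘ p t.1.1 ∈ Pl K (p t.1.1).natDegree := by
      intro a
      rw [mem_Pl, ← degree_eq_natDegree hmon.ne_zero]
      exact degree_modByMonic_lt a hmon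
    exact Finset.mem_sigma.2 ⟨Finset.mem_filter.2
      ⟨Finset.mem_image_of_mem _ (hSm t ht).1, (hSm t ht).2.2.2⟩,
      Finset.mem_product.2 ⟨hmod _, hmod _⟩⟩
  have h1 : ∑ t ∈ S, |gbW τ (p t.1.1) (E t.1.1) (s t.1.1) (c₀ t.1.1) (σ t.1.1) t.1.2 t.2| =
      ∑ t ∈ S, |W (π t)| := by
    refine Finset.sum_congr rfl fun t ht => ?_
    refine congrArg abs ?_
    simp only [gbW, hW, hπ]
    refine Finset.sum_congr rfl fun v _ => Finset.prod_congr rfl fun i _ => ?_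
    refine kl_scale (u := (E t.1.1 * t.2) ^ 4) (hcop t ht).pow_left
      (burgess_unit (hw _ _ (hcop t ht))) ?_
    have := burgess_unit (a := t.1.2 ^ 2) (hw _ _ (hcop t ht))
    convert this using 1
    ring
  have h2 := holder m hm S R π hπR W
  have h3 : (S.card : ℝ) ≤ (Ω.card : ℝ) * U.card := by
    have := Finset.card_filter_le (Ω ×ˢ U) (fun w => IsCoprime w.2 (p w.1.1) ∧ good w.1.1)
    rw [Finset.card_product] at this
    exact_mod_cast this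
  have h4 : ∑ r ∈ R, W r ^ (2 * m) ≤ (Ω.image Prod.fst).card * B := by
    rw [hR, Finset.sum_sigma]
    calc _ ≤ ∑ _ι ∈ (Ω.image Prod.fst).filter good, B := by
          refine Finset.sum_le_sum fun ι hι => ?_
          obtain ⟨h5, h6⟩ := Finset.mem_filter.1 hι
          obtain ⟨z, hz, rfl⟩ := Finset.mem_image.1 h5
          rw [Finset.sum_product]
          exact hM z hz h6
      _ ≤ _ := by
          rw [Finset.sum_const, nsmul_eq_mul]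
          exact mul_le_mul_of_nonneg_right (by exact_mod_cast Finset.card_filter_le _ _) hB
  have h5 : (((S ×ˢ S).filter fun t => π t.1 = π t.2).card : ℝ) ≤ (En Ω U p c₀ : ℝ) := by
    refine Nat.cast_le.2 ?_
    unfold En en
    rw [← Finset.card_sigma]
    refine Finset.card_le_card_of_injOn
      (fun t => ⟨t.1.1.1, ((t.1.1.2, t.1.2), (t.2.1.2, t.2.2))⟩) (fun t ht => ?_) ?_
    · obtain ⟨ht1, ht2⟩ := (@Finset.mem_filter _ _ (_) _ _).1 (Finset.mem_coe.1 ht)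
      obtain ⟨⟨⟨ι, x⟩, u⟩, ⟨⟨ι', x'⟩, u'⟩⟩ := t
      obtain ⟨a1, a2⟩ := Finset.mem_product.1 ht1
      simp only [hπ, Sigma.mk.injEq] at ht2
      obtain ⟨rfl, ht3⟩ := ht2
      obtain ⟨ht4, ht5⟩ := Prod.mk.inj (eq_of_heq ht3)
      obtain ⟨b1, b2, b3, -⟩ := hSm _ a1
      obtain ⟨d1, d2, d3, -⟩ := hSm _ a2
      have hE : IsCoprime (E ι) (p ι) := (hp _ b1).2.1
      have hs : IsCoprime (s ι) (p ι) := (hp _ b1).2.2
      have w1 := hw ι u (hcop ((ι, x), u) a1)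
      have w2 := hw ι u' (hcop ((ι, x'), u') a2)
      have e1 := burgess_cross hE ht4 w1 w2
      have e2 := burgess_cross hE ht5 w1 w2
      refine Finset.mem_coe.2 (Finset.mem_sigma.2 ⟨Finset.mem_image_of_mem _ b1,
        Finset.mem_filter.2 ⟨Finset.mem_product.2 ⟨Finset.mem_product.2 ⟨?_, b2⟩,
          Finset.mem_product.2 ⟨?_, d2⟩⟩, b3, d3, ?_, e2⟩⟩)
      · exact Finset.mem_image.2 ⟨(ι, x), Finset.mem_filter.2 ⟨b1, rfl⟩, rfl⟩
      · exact Finset.mem_image.2 ⟨(ι, x'), Finset.mem_filter.2 ⟨d1, rfl⟩, rfl⟩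
      · refine hs.symm.dvd_of_dvd_mul_left ?_
        convert e1 using 1
        ring
    · intro t ht t' ht' h
      obtain ⟨-, ht2⟩ := (@Finset.mem_filter _ _ (_) _ _).1 (Finset.mem_coe.1 ht)
      obtain ⟨-, ht2'⟩ := (@Finset.mem_filter _ _ (_) _ _).1 (Finset.mem_coe.1 ht')
      obtain ⟨⟨⟨ι, x⟩, u⟩, ⟨⟨ι', x'⟩, u'⟩⟩ := t
      obtain ⟨⟨⟨ι₂, x₂⟩, u₂⟩, ⟨⟨ι₂', x₂'⟩, u₂'⟩⟩ := t'
      have f1 : ι = ι' := congrArg Sigma.fst ht2
      have f2 : ι₂ = ι₂' := congrArg Sigma.fst ht2'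
      simp only [Sigma.mk.injEq, heq_eq_eq, Prod.mk.injEq] at h
      obtain ⟨rfl, ⟨rfl, rfl⟩, rfl, rfl⟩ := h
      rw [← f1, ← f2]
  rw [h1]
  refine h2.trans ?_
  have h6 : 0 ≤ ∑ r ∈ R, W r ^ (2 * m) :=
    Finset.sum_nonneg fun r _ => Even.pow_nonneg (even_two_mul m) _
  exact mul_le_mul (mul_le_mul (pow_le_pow_left₀ (Nat.cast_nonneg _) h3 _) 
    (le_trans (le_of_eq (by congr)) h5) (Nat.cast_nonneg _) (by positivity)) h4 h6 (by positivity)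

private theorem gb_fin {S A u N η Q T : ℝ} {n : ℕ} (hu : 0 < u) (hQ : 0 < Q)
    (hA : 0 ≤ A) (hAN : A ≤ N) (hη : 0 ≤ η)
    (h1 : (u * S) ^ 2 ^ n * Q ≤ (A * u) ^ (2 ^ n - 1) * T) (h2 : T ≤ 3 * η * N * u * Q) :
    S ^ 2 ^ n ≤ 3 * η * N ^ 2 ^ n := by
  have hN : 0 ≤ N := hA.trans hAN
  obtain ⟨M, hM⟩ : ∃ M, 2 ^ n = M + 1 := ⟨2 ^ n - 1, by have := Nat.one_le_two_pow (n := n); omega⟩
  rw [hM] at h1 ⊢
  rw [Nat.add_sub_cancel] at h1
  have h3 : (A * u) ^ M * T ≤ (N * u) ^ M * (3 * η * N * u * Q) := by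
    calc (A * u) ^ M * T ≤ (A * u) ^ M * (3 * η * N * u * Q) :=
          mul_le_mul_of_nonneg_left h2 (by positivity)
      _ ≤ _ := mul_le_mul_of_nonneg_right (pow_le_pow_left₀ (by positivity)
          (mul_le_mul_of_nonneg_right hAN hu.le) _) (by positivity)
  have h4 : (u ^ (M + 1) * Q) * S ^ (M + 1) ≤ (u ^ (M + 1) * Q) * (3 * η * N ^ (M + 1)) := by
    calc _ = (u * S) ^ (M + 1) * Q := by ring
      _ ≤ _ := h1.trans h3
      _ = _ := by ring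
  exact le_of_mul_le_mul_left h4 (by positivity)

theorem gb (k m : ℕ) (hm : 1 ≤ m) : ∃ C : ℝ, 1 ≤ C ∧ ∀ {I : Type u} (τ υ j ζ P ω₀ γ : ℕ)
    (Ω : Finset (I × K[X])) (U : Finset K[X]) (p E s c₀ : I → K[X])
    (G : I → Fin (k + 1) → K[X]) (c : I → K[X] → ℝ) (κ : I → Fin (k + 1) → K[X] → ℝ)
    (N η : ℝ),
    U ⊆ Irr K υ → U.Nonempty → υ + j + τ ≤ ζ → γ ≤ τ → P ≤ m * τ →
    (∀ z ∈ Ω, (p z.1).Monic ∧ Squarefree (p z.1) ∧ (p z.1).natDegree ≤ P ∧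
      (pf (p z.1)).card ≤ ω₀ ∧ IsCoprime (E z.1) (p z.1) ∧ IsCoprime (s z.1) (p z.1) ∧
      ∀ i, IsCoprime (G z.1 i) (p z.1) ∧ (G z.1 i).natDegree ≤ j) →
    (∀ z ∈ Ω, ∀ v ∈ Pl K ζ, (z.1, z.2 + (E z.1 * v) ^ 2) ∈ Ω) →
    (∀ ι x, |c ι x| ≤ 1) →
    (∀ z ∈ Ω, ∀ v₁ ∈ Pl K ζ, ∀ v₂ ∈ Pl K ζ, ∀ v₃ ∈ Pl K ζ,
      c z.1 (z.2 + (E z.1 * v₁) ^ 2 + (E z.1 * v₃) ^ 2) *
          c z.1 (z.2 + (E z.1 * v₂) ^ 2 + (E z.1 * v₃) ^ 2) =
        c z.1 (z.2 + (E z.1 * v₁) ^ 2) * c z.1 (z.2 + (E z.1 * v₂) ^ 2)) →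
    (∀ ι i x, |κ ι i x| ≤ 1) →
    (∀ z ∈ Ω, ∀ i x v, κ z.1 i (x + (G z.1 i * v) ^ 2) = κ z.1 i x) →
    (Ω.card : ℝ) ≤ N → 0 < η → (ω₀ : ℝ) ≤ η * U.card →
    (2 : ℝ) ^ (k + 1) * 2 ^ ω₀ ≤ η * (Fintype.card K : ℝ) ^ γ →
    (En Ω U p c₀ : ℝ) * (Ω.image Prod.fst).card * (Fintype.card K : ℝ) ^ P * C ^ (ω₀ + 1) *
        (Fintype.card K : ℝ) ^ (2 ^ (k + 1) * γ) ≤ η ^ (2 * m) * (N * U.card) ^ 2 →
    |∑ z ∈ Ω, c z.1 z.2 * (∏ i, κ z.1 i z.2) *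
        kl (p z.1) (s z.1 * (derivative z.2 ^ 2 + c₀ z.1) ^ 3) (z.2 ^ 2)| ^ 2 ^ (k + 1) ≤
      3 * η * N ^ 2 ^ (k + 1) := by
  obtain ⟨C, hC1, hC⟩ := momentJ (K := K) (Fin (k + 1) → Bool) (fun _ => false) m hm
  refine ⟨C, hC1, ?_⟩
  intro I τ υ j ζ P ω₀ γ Ω U p E s c₀ G c κ N η hU hUne hζ hγ hP hp hΩ hc hq hκ hκs hN hη hω hγη
    hEn
  set q : ℝ := (Fintype.card K : ℝ) with hqdef
  have hq1 : 1 ≤ q := mom_one_le_card
  have hq0 : 0 < q := by linarith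
  have hUdeg : ∀ u ∈ U, u.natDegree ≤ υ := fun u hu =>
    (mem_Mn.1 (Finset.mem_filter.1 (hU hu)).1).2.le
  have hu0 : (0 : ℝ) < U.card := by exact_mod_cast hUne.card_pos
  have hN0 : 0 ≤ N := (Nat.cast_nonneg _).trans hN
  set TT := Fintype.piFinset fun _ : Fin (k + 1) => Pl K τ ×ˢ Pl K τ with hTT
  have hTTc : (TT.card : ℝ) = q ^ (2 * τ * (k + 1)) := by
    rw [hTT, Fintype.card_piFinset, Finset.prod_const, Finset.card_product, card_Pl,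
      Finset.card_univ, Fintype.card_fin]
    push_cast
    ring
  set Wt : (Fin (k + 1) → K[X] × K[X]) → (I × K[X]) × K[X] → ℝ := fun t w =>
    |gbW τ (p w.1.1) (E w.1.1) (s w.1.1) (c₀ w.1.1) (cube (G w.1.1) t) w.1.2 w.2| with hWt
  set good : (Fin (k + 1) → K[X] × K[X]) → I → Prop := fun t ι =>
    momWt (p ι) (∏ ε ∈ univ.erase (fun _ => false),
      (cube (G ι) t ε + cube (G ι) t fun _ => false)) ≤ q ^ (2 ^ (k + 1) * γ) with hgood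
  have hWt0 : ∀ t w, 0 ≤ Wt t w := fun t w => abs_nonneg _
  have hWt1 : ∀ t w, Wt t w ≤ q ^ τ := fun t w => gbW_le _ _ _ _ _ _ _ _
  have hc3 : ∀ t ∈ TT, ∑ w ∈ (Ω ×ˢ U).filter (fun w => IsCoprime w.2 (p w.1.1) ∧ good t w.1.1),
      Wt t w ≤ η * N * U.card * q ^ τ := by
    intro t _
    have h := gb_main (τ := τ) hm Ω U p E s c₀ (fun ι => cube (G ι) t) (good t)
      (q ^ P * C ^ (ω₀ + 1) * q ^ (2 ^ (k + 1) * γ) * q ^ (2 * m * τ)) (by positivity)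
      (fun z hz => ⟨(hp z hz).1, (hp z hz).2.2.2.2.1, (hp z hz).2.2.2.2.2.1⟩)
      (fun z hz hg => by
        obtain ⟨a1, a2, a3, a4, -⟩ := hp z hz
        refine (hC (p z.1) (cube (G z.1) t) τ a1 a2 (a3.trans hP)).trans ?_
        refine mul_le_mul_of_nonneg_right ?_ (by positivity)
        exact mul_le_mul (mul_le_mul (pow_le_pow_right₀ hq1 a3)
          (pow_le_pow_right₀ hC1 (by omega)) (by positivity) (by positivity)) hg
          (momWt_nonneg _ _) (by positivity))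
    refine (pow_le_pow_iff_left₀ (Finset.sum_nonneg fun w _ => hWt0 t w) (by positivity)
      (n := 2 * m) (by omega)).1 (h.trans ?_)
    obtain ⟨m', rfl⟩ : ∃ m', m = m' + 1 := ⟨m - 1, by omega⟩
    have e : 2 * (m' + 1) - 2 = 2 * m' := by omega
    rw [e]
    calc ((Ω.card : ℝ) * U.card) ^ (2 * m') * (En Ω U p c₀ : ℝ) * ((Ω.image Prod.fst).card *
          (q ^ P * C ^ (ω₀ + 1) * q ^ (2 ^ (k + 1) * γ) * q ^ (2 * (m' + 1) * τ)))
        = ((Ω.card : ℝ) * U.card) ^ (2 * m') * ((En Ω U p c₀ : ℝ) * (Ω.image Prod.fst).card *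
          q ^ P * C ^ (ω₀ + 1) * q ^ (2 ^ (k + 1) * γ)) * q ^ (2 * (m' + 1) * τ) := by ring
      _ ≤ (N * U.card) ^ (2 * m') * (η ^ (2 * (m' + 1)) * (N * U.card) ^ 2) *
          q ^ (2 * (m' + 1) * τ) := by
          refine mul_le_mul_of_nonneg_right (mul_le_mul (pow_le_pow_left₀ (by positivity)
            (mul_le_mul_of_nonneg_right hN hu0.le) _) hEn (by positivity) (by positivity))
            (by positivity)
      _ = _ := by ring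
  have hc1 : ∑ w ∈ Ω ×ˢ U, (if ¬ IsCoprime w.2 (p w.1.1) then q ^ τ else 0) ≤
      η * N * U.card * q ^ τ := by
    rw [Finset.sum_product]
    calc _ ≤ ∑ _z ∈ Ω, η * U.card * q ^ τ := by
          refine Finset.sum_le_sum fun z hz => ?_
          rw [← Finset.sum_filter, Finset.sum_const, nsmul_eq_mul]
          refine mul_le_mul_of_nonneg_right (le_trans ?_ hω) (by positivity)
          refine Nat.cast_le.2 (le_trans (Finset.card_le_card fun u hu => ?_) (hp z hz).2.2.2.1)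
          obtain ⟨b1, b2⟩ := Finset.mem_filter.1 hu
          obtain ⟨b3, b4⟩ := Finset.mem_filter.1 (hU b1)
          exact (mem_pf (hp z hz).1.ne_zero).2 ⟨(mem_Mn.1 b3).1, b4,
            b4.dvd_iff_not_isCoprime.2 b2⟩
      _ = Ω.card * (η * U.card * q ^ τ) := by rw [Finset.sum_const, nsmul_eq_mul]
      _ ≤ N * (η * U.card * q ^ τ) := mul_le_mul_of_nonneg_right hN (by positivity)
      _ = _ := by ring
  have hc2 : ∑ t ∈ TT, ∑ w ∈ Ω ×ˢ U, (if ¬ good t w.1.1 then q ^ τ else 0) ≤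
      η * N * U.card * q ^ τ * q ^ (2 * τ * (k + 1)) := by
    rw [Finset.sum_comm]
    calc _ ≤ ∑ _w ∈ Ω ×ˢ U, η * q ^ (2 * τ * (k + 1)) * q ^ τ := by
          refine Finset.sum_le_sum fun w hw => ?_
          have hz := (Finset.mem_product.1 hw).1
          rw [← Finset.sum_filter, Finset.sum_const, nsmul_eq_mul]
          refine mul_le_mul_of_nonneg_right ?_ (by positivity)
          have hb := badt (hp _ hz).1.ne_zero hγ (G w.1.1) fun i => ((hp _ hz).2.2.2.2.2.2 i).1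
          have hb2 : (2 : ℝ) ^ (k + 1) * 2 ^ (pf (p w.1.1)).card ≤ η * q ^ γ :=
            le_trans (mul_le_mul_of_nonneg_left
              (pow_le_pow_right₀ (by norm_num) (hp _ hz).2.2.2.1) (by positivity)) hγη
          have hb3 := hb.trans (mul_le_mul_of_nonneg_right hb2 (by positivity))
          refine le_of_mul_le_mul_right (a := q ^ γ) ?_ (by positivity)
          refine le_trans (le_of_eq ?_) (hb3.trans (le_of_eq (by ring)))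
          congr
      _ = Ω.card * U.card * (η * q ^ (2 * τ * (k + 1)) * q ^ τ) := by
          rw [Finset.sum_const, nsmul_eq_mul, Finset.card_product, Nat.cast_mul]
      _ ≤ N * U.card * (η * q ^ (2 * τ * (k + 1)) * q ^ τ) :=
          mul_le_mul_of_nonneg_right (mul_le_mul_of_nonneg_right hN hu0.le) (by positivity)
      _ = _ := by ring
  have hB : ∑ t ∈ TT, ∑ w ∈ Ω ×ˢ U, Wt t w ≤
      q ^ τ * (3 * η * N * U.card * q ^ (2 * τ * (k + 1))) := by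
    have hpt : ∀ t ∈ TT, ∑ w ∈ Ω ×ˢ U, Wt t w ≤ 2 * (η * N * U.card * q ^ τ) +
        ∑ w ∈ Ω ×ˢ U, (if ¬ good t w.1.1 then q ^ τ else 0) := by
      intro t ht
      have h3 := hc3 t ht
      rw [Finset.sum_filter] at h3
      have h4 : ∑ w ∈ Ω ×ˢ U, Wt t w ≤ ∑ w ∈ Ω ×ˢ U,
          ((if IsCoprime w.2 (p w.1.1) ∧ good t w.1.1 then Wt t w else 0) +
            (if ¬ IsCoprime w.2 (p w.1.1) then q ^ τ else 0) +
            (if ¬ good t w.1.1 then q ^ τ else 0)) := by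
        refine Finset.sum_le_sum fun w _ => ?_
        have a1 := hWt1 t w
        have a2 : 0 ≤ q ^ τ := by positivity
        by_cases b1 : IsCoprime w.2 (p w.1.1) <;> by_cases b2 : good t w.1.1 <;>
          simp only [b1, b2, and_self, and_true, and_false, if_true, if_false, not_true,
            not_false_eq_true] <;> linarith
      rw [Finset.sum_add_distrib, Finset.sum_add_distrib] at h4
      linarith
    refine (Finset.sum_le_sum hpt).trans ?_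
    rw [Finset.sum_add_distrib, Finset.sum_const, nsmul_eq_mul, hTTc]
    linarith
  have hinj : Function.Injective
      fun w : (I × K[X]) × K[X] => (((w.1.1, w.2), w.1.2) : (I × K[X]) × K[X]) := by
    rintro ⟨⟨a, b⟩, d⟩ ⟨⟨a', b'⟩, d'⟩ h
    simp only [Prod.mk.injEq] at h
    obtain ⟨⟨rfl, rfl⟩, rfl⟩ := h
    rfl
  set e : (I × K[X]) × K[X] ↪ (I × K[X]) × K[X] := ⟨fun w => ((w.1.1, w.2), w.1.2), hinj⟩ with he
  have hg := gcs (Pl K τ) ⟨0, mem_Pl.2 (by rw [degree_zero]; exact WithBot.bot_lt_coe _)⟩ (k + 1)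
    ((Ω ×ˢ U).map e) (fun a i t => (E a.1 * (a.2 * (G a.1 i * t))) ^ 2) (fun a i x => κ a.1 i x)
    (fun a x => c a.1 x * kl (p a.1) (s a.1 * (derivative x ^ 2 + c₀ a.1) ^ 3) (x ^ 2))
    (fun z hz i t ht => by
      obtain ⟨w, hw, rfl⟩ := Finset.mem_map.1 hz
      obtain ⟨h1, h2⟩ := Finset.mem_product.1 hw
      refine Finset.mem_map.2 ⟨((w.1.1, w.1.2 + (E w.1.1 * (w.2 * (G w.1.1 i * t))) ^ 2), w.2),
        Finset.mem_product.2 ⟨hΩ _ h1 _ ?_, h2⟩, rfl⟩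
      exact Pl_mono (by omega)
        (gb_mul_mem (hUdeg _ h2) (gb_mul_mem ((hp _ h1).2.2.2.2.2.2 i).2 ht)))
    (fun a i x => hκ _ _ _)
    (fun z hz i t _ => by
      obtain ⟨w, hw, rfl⟩ := Finset.mem_map.1 hz
      have := hκs _ (Finset.mem_product.1 hw).1 i w.1.2 (E w.1.1 * w.2 * t)
      refine Eq.trans (congrArg (κ w.1.1 i) ?_) this
      show w.1.2 + (E w.1.1 * (w.2 * (G w.1.1 i * t))) ^ 2 = _
      ring)
  simp only [Finset.sum_map, Finset.card_map, he, Function.Embedding.coeFn_mk, gb_sum_sq] at hg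
  have hl : ∑ w ∈ Ω ×ˢ U, (∏ i, κ w.1.1 i w.1.2) * (c w.1.1 w.1.2 *
      kl (p w.1.1) (s w.1.1 * (derivative w.1.2 ^ 2 + c₀ w.1.1) ^ 3) (w.1.2 ^ 2)) =
      U.card * ∑ z ∈ Ω, c z.1 z.2 * (∏ i, κ z.1 i z.2) *
        kl (p z.1) (s z.1 * (derivative z.2 ^ 2 + c₀ z.1) ^ 3) (z.2 ^ 2) := by
    rw [Finset.sum_product, Finset.mul_sum]
    refine Finset.sum_congr rfl fun z _ => ?_
    simp only [Finset.sum_const, nsmul_eq_mul]
    ring
  rw [hl, abs_mul, abs_of_pos hu0, card_Pl, Finset.card_product, Nat.cast_mul, Nat.cast_pow,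
    ← pow_mul, ← hqdef, show τ * (2 * (k + 1)) = 2 * τ * (k + 1) by ring] at hg
  refine gb_fin hu0 (by positivity) (Nat.cast_nonneg _) hN hη.le hg ?_
  refine le_of_mul_le_mul_left (a := q ^ τ) (le_trans ?_ hB) (by positivity)
  refine (mul_le_mul_of_nonneg_left (Finset.abs_sum_le_sum_abs _ _) (by positivity)).trans ?_
  rw [Finset.mul_sum]
  refine Finset.sum_le_sum fun t ht => ?_
  exact gb_inner Ω U p E s c₀ c (fun ι => cube (G ι) t) hUdeg (by omega)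
    (fun z hz u hu ε => Pl_mono (by omega) (gb_mul_mem (hUdeg u hu)
      (gb_cube_mem (fun i => ((hp z hz).2.2.2.2.2.2 i).2) ht ε))) hΩ hc hq

end Pool.Agent.P.MP_3bc45c_nt.SI
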