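import Pool.Agent.P.MP_3bc45c_nt.SI.EvOd

namespace Pool.Agent.P.MP_3bc45c_nt.SI

open Polynomial Finset Pool.Agent.P.MP_a1177c_nt.HL
open scoped Classical

universe u

variable {K : Type u} [Field K] [Fintype K] [CharP K 2]

private theorem sum_shift {G A : Type u} [AddCommGroup G] (Ω : Finset (A × G)) (s : A → G)
    (h : ∀ z ∈ Ω, (z.1, z.2 + s z.1) ∈ Ω) (F : A × G → ℝ) :
    ∑ z ∈ Ω, F (z.1, z.2 + s z.1) = ∑ z ∈ Ω, F z := by
  have hinj : Set.InjOn (fun z : A × G => (z.1, z.2 + s z.1)) Ω := by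
    rintro ⟨a, x⟩ _ ⟨b, y⟩ _ hxy
    obtain ⟨rfl, h2⟩ := Prod.mk.inj hxy
    exact Prod.ext rfl (add_right_cancel h2)
  have him : Ω.image (fun z : A × G => (z.1, z.2 + s z.1)) = Ω :=
    Finset.eq_of_subset_of_card_le (Finset.image_subset_iff.2 h)
      (Finset.card_image_of_injOn hinj).ge
  conv_rhs => rw [← him]
  rw [Finset.sum_image hinj]

private theorem sum_pi_succ {B : Type u} (U : Finset B) (k : ℕ) (F : (Fin (k + 1) → B) → ℝ) :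
    ∑ t ∈ Fintype.piFinset (fun _ : Fin (k + 1) => U), F t =
      ∑ t ∈ Fintype.piFinset (fun _ : Fin k => U), ∑ p ∈ U, F (Fin.cons p t) := by
  rw [← Finset.sum_product']
  symm
  refine Finset.sum_nbij' (fun x => Fin.cons x.2 x.1) (fun t => (Fin.tail t, t 0)) ?_ ?_ ?_ ?_ ?_
  · rintro ⟨t, p⟩ h
    obtain ⟨h1, h2⟩ := Finset.mem_product.1 h
    refine Fintype.mem_piFinset.2 fun i => ?_
    refine Fin.cases ?_ (fun i => ?_) i
    · exact h2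
    · exact Fintype.mem_piFinset.1 h1 i
  · intro t h
    exact Finset.mem_product.2 ⟨Fintype.mem_piFinset.2 fun i => Fintype.mem_piFinset.1 h _,
      Fintype.mem_piFinset.1 h _⟩
  · rintro ⟨t, p⟩ _
    simp
  · intro t _
    exact Fin.cons_self_tail t
  · intro _ _
    rfl

private theorem prod_bool_succ (k : ℕ) (F : (Fin (k + 1) → Bool) → ℝ) :
    ∏ ε, F ε = ∏ ε : Fin k → Bool, F (Fin.cons false ε) * F (Fin.cons true ε) := by
  rw [← (Fin.consEquiv fun _ : Fin (k + 1) => Bool).prod_comp, Fintype.prod_prod_type_right]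
  refine Finset.prod_congr rfl fun ε _ => ?_
  rw [Fintype.prod_bool, mul_comm]
  rfl

private def resh (A G : Type u) : (A × G) × (G × G) ↪ (A × (G × G)) × G :=
  ⟨fun w => ((w.1.1, w.2), w.1.2), by
    rintro ⟨⟨a, x⟩, p⟩ ⟨⟨b, y⟩, r⟩ h
    simp only [Prod.mk.injEq] at h ⊢
    exact ⟨⟨h.1.1, h.2⟩, h.1.2⟩⟩

private theorem gcs_aux {G : Type u} [AddCommGroup G] (T : Finset G) (hT : T.Nonempty) (k : ℕ) :
    ∀ {A : Type u} (Ω : Finset (A × G)) (sh : A → Fin k → G → G) (κ : A → Fin k → G → ℝ)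
    (Ψ : A → G → ℝ),
    (∀ z ∈ Ω, ∀ i, ∀ t ∈ T, (z.1, z.2 + sh z.1 i t) ∈ Ω) → (∀ a i x, |κ a i x| ≤ 1) →
    (∀ z ∈ Ω, ∀ i, ∀ t ∈ T, κ z.1 i (z.2 + sh z.1 i t) = κ z.1 i z.2) →
    |∑ z ∈ Ω, (∏ i, κ z.1 i z.2) * Ψ z.1 z.2| ^ 2 ^ k * (T.card : ℝ) ^ (2 * k) ≤
      (Ω.card : ℝ) ^ (2 ^ k - 1) *
        |∑ t ∈ Fintype.piFinset fun _ : Fin k => T ×ˢ T, ∑ z ∈ Ω, ∏ ε : Fin k → Bool,
          Ψ z.1 (z.2 + ∑ i, sh z.1 i (if ε i then (t i).2 else (t i).1))| := by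
  induction k with
  | zero =>
    intro A Ω sh κ Ψ _ _ _
    simp
  | succ k ih =>
    intro A Ω sh κ Ψ h1 h2 h3
    have hc : (0 : ℝ) < T.card := Nat.cast_pos.2 hT.card_pos
    set S := ∑ z ∈ Ω, (∏ i, κ z.1 i z.2) * Ψ z.1 z.2 with hS
    set Φ : A → G → ℝ := fun a x => (∏ i : Fin k, κ a i.succ x) * Ψ a x with hΦ
    have e1 : (T.card : ℝ) * S = ∑ z ∈ Ω, κ z.1 0 z.2 * ∑ t ∈ T, Φ z.1 (z.2 + sh z.1 0 t) := by
      simp only [Finset.mul_sum]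
      rw [Finset.sum_comm (s := Ω), ← nsmul_eq_mul, ← Finset.sum_const]
      refine Finset.sum_congr rfl fun t ht => ?_
      rw [hS, ← sum_shift Ω (fun a => sh a 0 t) (fun z hz => h1 z hz 0 t ht)]
      refine Finset.sum_congr rfl fun z hz => ?_
      simp only [hΦ]
      rw [Fin.prod_univ_succ, h3 z hz 0 t ht, mul_assoc]
    have e2 : ((T.card : ℝ) * S) ^ 2 ≤
        Ω.card * ∑ z ∈ Ω, (∑ t ∈ T, Φ z.1 (z.2 + sh z.1 0 t)) ^ 2 := by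
      rw [e1]
      refine sq_sum_le_card_mul_sum_sq.trans (mul_le_mul_of_nonneg_left
        (Finset.sum_le_sum fun z _ => ?_) (Nat.cast_nonneg _))
      rw [mul_pow]
      exact mul_le_of_le_one_left (sq_nonneg _) (sq_le_one_iff_abs_le_one _ |>.2 (h2 _ _ _))
    have hmem : ∀ z' ∈ (Ω ×ˢ (T ×ˢ T)).map (resh A G),
        (z'.1.1, z'.2) ∈ Ω ∧ z'.1.2.1 ∈ T ∧ z'.1.2.2 ∈ T := by
      intro z' hz'
      obtain ⟨w, hw, rfl⟩ := Finset.mem_map.1 hz'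
      obtain ⟨hw1, hw2⟩ := Finset.mem_product.1 hw
      exact ⟨hw1, Finset.mem_product.1 hw2⟩
    have h := ih ((Ω ×ˢ (T ×ˢ T)).map (resh A G)) (fun a i => sh a.1 i.succ)
      (fun a i x => κ a.1 i.succ (x + sh a.1 0 a.2.1) * κ a.1 i.succ (x + sh a.1 0 a.2.2))
      (fun a x => Ψ a.1 (x + sh a.1 0 a.2.1) * Ψ a.1 (x + sh a.1 0 a.2.2))
      (fun z' hz' i t ht => by
        obtain ⟨a1, a2, a3⟩ := hmem z' hz'
        exact Finset.mem_map.2 ⟨((z'.1.1, z'.2 + sh z'.1.1 i.succ t), z'.1.2),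
          Finset.mem_product.2 ⟨h1 _ a1 i.succ t ht, Finset.mem_product.2 ⟨a2, a3⟩⟩, rfl⟩)
      (fun a i x => by
        rw [abs_mul]
        exact mul_le_one₀ (h2 _ _ _) (abs_nonneg _) (h2 _ _ _))
      (fun z' hz' i t ht => by
        obtain ⟨a1, a2, a3⟩ := hmem z' hz'
        have b1 := h3 _ (h1 _ a1 0 _ a2) i.succ t ht
        have b2 := h3 _ (h1 _ a1 0 _ a3) i.succ t ht
        simp only at b1 b2 ⊢
        rw [add_right_comm _ _ (sh _ 0 z'.1.2.1), add_right_comm _ _ (sh _ 0 z'.1.2.2), b1, b2])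
    simp only [Finset.sum_map, Finset.card_map, Finset.card_product, resh,
      Function.Embedding.coeFn_mk] at h
    have e3 : ∑ w ∈ Ω ×ˢ (T ×ˢ T), (∏ i : Fin k, κ w.1.1 i.succ (w.1.2 + sh w.1.1 0 w.2.1) *
        κ w.1.1 i.succ (w.1.2 + sh w.1.1 0 w.2.2)) *
        (Ψ w.1.1 (w.1.2 + sh w.1.1 0 w.2.1) * Ψ w.1.1 (w.1.2 + sh w.1.1 0 w.2.2)) =
        ∑ z ∈ Ω, (∑ t ∈ T, Φ z.1 (z.2 + sh z.1 0 t)) ^ 2 := by
      rw [Finset.sum_product]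
      refine Finset.sum_congr rfl fun z _ => ?_
      rw [sq, Finset.sum_mul_sum, Finset.sum_product]
      refine Finset.sum_congr rfl fun t _ => Finset.sum_congr rfl fun t' _ => ?_
      simp only [hΦ]
      rw [Finset.prod_mul_distrib]
      ring
    have e4 : ∑ t ∈ Fintype.piFinset fun _ : Fin (k + 1) => T ×ˢ T, ∑ z ∈ Ω,
        ∏ ε : Fin (k + 1) → Bool,
          Ψ z.1 (z.2 + ∑ i, sh z.1 i (if ε i then (t i).2 else (t i).1)) =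
        ∑ t ∈ Fintype.piFinset fun _ : Fin k => T ×ˢ T, ∑ w ∈ Ω ×ˢ (T ×ˢ T),
          ∏ ε : Fin k → Bool,
          Ψ w.1.1 (w.1.2 + ∑ i, sh w.1.1 i.succ (if ε i then (t i).2 else (t i).1) +
            sh w.1.1 0 w.2.1) *
          Ψ w.1.1 (w.1.2 + ∑ i, sh w.1.1 i.succ (if ε i then (t i).2 else (t i).1) +
            sh w.1.1 0 w.2.2) := by
      rw [sum_pi_succ]
      refine Finset.sum_congr rfl fun t _ => ?_
      rw [Finset.sum_product_right Ω]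
      refine Finset.sum_congr rfl fun p _ => Finset.sum_congr rfl fun z _ => ?_
      rw [prod_bool_succ]
      refine Finset.prod_congr rfl fun ε _ => ?_
      simp only [Fin.sum_univ_succ, Fin.cons_zero, Fin.cons_succ, Bool.false_eq_true, if_false,
        if_true]
      rw [add_comm (sh z.1 0 p.1), add_comm (sh z.1 0 p.2), add_assoc, add_assoc]
    rw [e3, ← e4] at h
    set R := |∑ t ∈ Fintype.piFinset fun _ : Fin (k + 1) => T ×ˢ T, ∑ z ∈ Ω,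
        ∏ ε : Fin (k + 1) → Bool,
          Ψ z.1 (z.2 + ∑ i, sh z.1 i (if ε i then (t i).2 else (t i).1))|
    set S' := ∑ z ∈ Ω, (∑ t ∈ T, Φ z.1 (z.2 + sh z.1 0 t)) ^ 2
    have hS' : 0 ≤ S' := Finset.sum_nonneg fun _ _ => sq_nonneg _
    rw [abs_of_nonneg hS'] at h
    push_cast at h
    obtain ⟨n, hn⟩ : ∃ n, 2 ^ k = n + 1 := ⟨2 ^ k - 1, by have := Nat.one_le_two_pow (n := k); omega⟩
    have hn' : 2 ^ (k + 1) = 2 * n + 2 := by rw [pow_succ, hn]; ring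
    rw [hn, Nat.add_sub_cancel] at h
    rw [hn', show 2 * n + 2 - 1 = 2 * n + 1 from rfl]
    have e5 : (((T.card : ℝ) * |S|) ^ 2) ^ (n + 1) ≤ (Ω.card * S') ^ (n + 1) := by
      refine pow_le_pow_left₀ (sq_nonneg _) ?_ _
      rwa [mul_pow, sq_abs, ← mul_pow]
    refine le_of_mul_le_mul_left ?_ (pow_pos hc (2 * n))
    calc (T.card : ℝ) ^ (2 * n) * (|S| ^ (2 * n + 2) * (T.card : ℝ) ^ (2 * (k + 1)))
        = (((T.card : ℝ) * |S|) ^ 2) ^ (n + 1) * (T.card : ℝ) ^ (2 * k) := by ring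
      _ ≤ (Ω.card * S') ^ (n + 1) * (T.card : ℝ) ^ (2 * k) :=
        mul_le_mul_of_nonneg_right e5 (by positivity)
      _ = (Ω.card : ℝ) ^ (n + 1) * (S' ^ (n + 1) * (T.card : ℝ) ^ (2 * k)) := by ring
      _ ≤ (Ω.card : ℝ) ^ (n + 1) * ((Ω.card * (T.card * T.card)) ^ n * R) :=
        mul_le_mul_of_nonneg_left h (by positivity)
      _ = (T.card : ℝ) ^ (2 * n) * ((Ω.card : ℝ) ^ (2 * n + 1) * R) := by ring

theorem gcs (T : Finset K[X]) (hT : T.Nonempty) (k : ℕ) : ∀ {A : Type u}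
    (Ω : Finset (A × K[X])) (sh : A → Fin k → K[X] → K[X]) (κ : A → Fin k → K[X] → ℝ)
    (Ψ : A → K[X] → ℝ),
    (∀ z ∈ Ω, ∀ i, ∀ t ∈ T, (z.1, z.2 + sh z.1 i t) ∈ Ω) → (∀ a i x, |κ a i x| ≤ 1) →
    (∀ z ∈ Ω, ∀ i, ∀ t ∈ T, κ z.1 i (z.2 + sh z.1 i t) = κ z.1 i z.2) →
    |∑ z ∈ Ω, (∏ i, κ z.1 i z.2) * Ψ z.1 z.2| ^ 2 ^ k * (T.card : ℝ) ^ (2 * k) ≤
      (Ω.card : ℝ) ^ (2 ^ k - 1) *
        |∑ t ∈ Fintype.piFinset fun _ : Fin k => T ×ˢ T, ∑ z ∈ Ω, ∏ ε : Fin k → Bool,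
          Ψ z.1 (z.2 + ∑ i, sh z.1 i (if ε i then (t i).2 else (t i).1))| :=
  gcs_aux T hT k

theorem holder {T Z : Type*} (m : ℕ) (hm : 1 ≤ m) (S : Finset T) (R : Finset Z) (π : T → Z)
    (hπ : ∀ t ∈ S, π t ∈ R) (W : Z → ℝ) :
    (∑ t ∈ S, |W (π t)|) ^ (2 * m) ≤
      (S.card : ℝ) ^ (2 * m - 2) * (((S ×ˢ S).filter fun t => π t.1 = π t.2).card : ℝ) *
        ∑ z ∈ R, W z ^ (2 * m) := by
  obtain ⟨n, rfl⟩ : ∃ n, m = n + 1 := ⟨m - 1, by omega⟩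
  have h1 : (∑ t ∈ S, |W (π t)|) ^ (n + 1) ≤ (S.card : ℝ) ^ n * ∑ t ∈ S, |W (π t)| ^ (n + 1) :=
    pow_sum_le_card_mul_sum_pow (fun t _ => abs_nonneg _) n
  set ν : Z → ℝ := fun z => ((S.filter fun t => π t = z).card : ℝ) with hν
  have h2 : ∑ t ∈ S, |W (π t)| ^ (n + 1) = ∑ z ∈ R, ν z * |W z| ^ (n + 1) := by
    rw [← Finset.sum_fiberwise_of_maps_to hπ]
    refine Finset.sum_congr rfl fun z _ => ?_
    rw [Finset.sum_congr rfl (g := fun _ => |W z| ^ (n + 1))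
      (fun t ht => by rw [(Finset.mem_filter.1 ht).2])]
    rw [Finset.sum_const, nsmul_eq_mul]
  have h3 : (∑ z ∈ R, ν z * |W z| ^ (n + 1)) ^ 2 ≤
      (∑ z ∈ R, ν z ^ 2) * ∑ z ∈ R, (|W z| ^ (n + 1)) ^ 2 :=
    Finset.sum_mul_sq_le_sq_mul_sq _ _ _
  have h4 : (((S ×ˢ S).filter fun t => π t.1 = π t.2).card : ℝ) = ∑ z ∈ R, ν z ^ 2 := by
    rw [Finset.card_eq_sum_card_fiberwise (f := fun t : T × T => π t.1) (t := R)
      (fun t ht => hπ _ (Finset.mem_product.1 (Finset.mem_filter.1 ht).1).1)]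
    push_cast
    refine Finset.sum_congr rfl fun z _ => ?_
    have : (((S ×ˢ S).filter fun t => π t.1 = π t.2).filter fun t => π t.1 = z) =
        (S.filter fun t => π t = z) ×ˢ (S.filter fun t => π t = z) := by
      ext t
      simp only [Finset.mem_filter, Finset.mem_product]
      constructor
      · rintro ⟨⟨⟨a, b⟩, c⟩, d⟩
        exact ⟨⟨a, d⟩, b, c ▸ d⟩
      · rintro ⟨⟨a, d⟩, b, c⟩
        exact ⟨⟨⟨a, b⟩, d.trans c.symm⟩, d⟩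
    rw [this, Finset.card_product]
    simp only [hν]
    push_cast
    ring
  have h5 : ∑ z ∈ R, (|W z| ^ (n + 1)) ^ 2 = ∑ z ∈ R, W z ^ (2 * (n + 1)) := by
    refine Finset.sum_congr rfl fun z _ => ?_
    rw [← pow_mul, mul_comm]
    exact Even.pow_abs (even_two_mul _) _
  have h0 : 0 ≤ (∑ t ∈ S, |W (π t)|) ^ (n + 1) :=
    pow_nonneg (Finset.sum_nonneg fun t _ => abs_nonneg _) _
  rw [show 2 * (n + 1) - 2 = 2 * n by omega, h4, ← h5]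
  calc (∑ t ∈ S, |W (π t)|) ^ (2 * (n + 1)) = ((∑ t ∈ S, |W (π t)|) ^ (n + 1)) ^ 2 := by ring
    _ ≤ ((S.card : ℝ) ^ n * ∑ t ∈ S, |W (π t)| ^ (n + 1)) ^ 2 := pow_le_pow_left₀ h0 h1 2
    _ = (S.card : ℝ) ^ (2 * n) * (∑ z ∈ R, ν z * |W z| ^ (n + 1)) ^ 2 := by rw [h2]; ring
    _ ≤ (S.card : ℝ) ^ (2 * n) * ((∑ z ∈ R, ν z ^ 2) * ∑ z ∈ R, (|W z| ^ (n + 1)) ^ 2) :=
      mul_le_mul_of_nonneg_left h3 (by positivity)
    _ = _ := by ring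

end Pool.Agent.P.MP_3bc45c_nt.SI
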