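import Pool.Agent.P.MP_3bc45c_nt.SI.EvOd

namespace Pool.Agent.P.MP_3bc45c_nt.SI

open Polynomial Finset Pool.Agent.P.MP_a1177c_nt.HL
open scoped Classical

variable {K : Type*} [Field K] [Fintype K] [CharP K 2]

/-- a graph without isolated vertex has a dominating set with at most half of the vertices -/
theorem exists_dominating {V : Type*} [Fintype V] (r : V → V → Prop) (hs : ∀ a b, r a b → r b a)
    (h : ∀ a, ∃ b, b ≠ a ∧ r a b) :
    ∃ T : Finset V, 2 * T.card ≤ Fintype.card V ∧ ∀ a, a ∉ T → ∃ b ∈ T, r a b := by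
  obtain ⟨T, hT, hmax⟩ := Finset.exists_max_image
    ((univ : Finset (Finset V)).filter fun T => ∀ a ∈ T, ∀ b ∈ T, a ≠ b → ¬ r a b) Finset.card
    ⟨∅, by simp⟩
  have hind := (mem_filter.1 hT).2
  by_cases hc : 2 * T.card ≤ Fintype.card V
  · refine ⟨T, hc, fun a ha => ?_⟩
    by_contra hno
    push Not at hno
    have h1 := hmax (insert a T) (mem_filter.2 ⟨mem_univ _, fun x hx y hy hxy => ?_⟩)
    · rw [card_insert_of_notMem ha] at h1
      omega
    · rcases mem_insert.1 hx with rfl | hx'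
      · rcases mem_insert.1 hy with rfl | hy'
        · exact absurd rfl hxy
        · exact hno y hy'
      · rcases mem_insert.1 hy with rfl | hy'
        · exact fun hr => hno x hx' (hs _ _ hr)
        · exact hind x hx' y hy' hxy
  · refine ⟨Tᶜ, ?_, fun a ha => ?_⟩
    · rw [card_compl]
      omega
    · obtain ⟨b, hb, hr⟩ := h a
      have ha' : a ∈ T := by simpa using ha
      exact ⟨b, mem_compl.2 fun hbT => hind a ha' b hbT hb.symm hr, hr⟩

omit [CharP K 2] in
theorem heavy_prod_dvd {p : K[X]} (hp : p ≠ 0) {S : Finset K[X]} (hS : S ⊆ pf p) {x : K[X]}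
    (h : ∀ π ∈ S, π ∣ x) : (∏ π ∈ S, π) ∣ x := by
  refine Finset.prod_dvd_of_coprime (fun π hπ π' hπ' hne => ?_) h
  obtain ⟨m1, i1, -⟩ := (mem_pf hp).1 (hS hπ)
  obtain ⟨m2, i2, -⟩ := (mem_pf hp).1 (hS hπ')
  exact i1.coprime_iff_not_dvd.2 fun hd =>
    hne (eq_of_monic_of_associated m1 m2 (i1.associated_of_dvd i2 hd))

omit [CharP K 2] in
theorem heavy_prod_monic {p : K[X]} (hp : p ≠ 0) {S : Finset K[X]} (hS : S ⊆ pf p) :
    (∏ π ∈ S, π).Monic ∧ (∏ π ∈ S, π).natDegree = ∑ π ∈ S, π.natDegree :=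
  ⟨monic_prod_of_monic _ _ fun _ hπ => ((mem_pf hp).1 (hS hπ)).1,
    natDegree_prod_of_monic _ _ fun _ hπ => ((mem_pf hp).1 (hS hπ)).1⟩

omit [CharP K 2] in
theorem heavy_momWt_eq (p h : K[X]) : momWt p h =
    (Fintype.card K : ℝ) ^ ∑ π ∈ (pf p).filter (fun π => π ∣ h), π.natDegree := by
  rw [momWt, Finset.prod_pow_eq_pow_sum]

omit [Field K] [CharP K 2] in
theorem heavy_one_lt [Nontrivial K] : (1 : ℝ) < Fintype.card K := by
  exact_mod_cast Fintype.one_lt_card

theorem card_dvd_prod_le {p : K[X]} (hp : p ≠ 0) {J : Type*} [Fintype J] (c : J → K[X]) (τ : ℕ)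
    {S : Finset K[X]} (hS : S ⊆ pf p) :
    ((Pl K τ).filter fun z => ∀ π ∈ S, π ∣ ∏ i, (z + c i)).card ≤
      Fintype.card J ^ S.card * Fintype.card K ^ (τ - ∑ π ∈ S, π.natDegree) := by
  have hsub : ((Pl K τ).filter fun z => ∀ π ∈ S, π ∣ ∏ i, (z + c i)) ⊆
      (univ : Finset (S → J)).biUnion fun f =>
        (Pl K τ).filter fun z => ∀ π : S, π.1 ∣ z + c (f π) := by
    intro z hz
    obtain ⟨hz1, hz2⟩ := mem_filter.1 hz
    have : ∀ π : S, ∃ i, π.1 ∣ z + c i := fun π => by
      obtain ⟨i, -, hi⟩ := (((mem_pf hp).1 (hS π.2)).2.1.prime.dvd_finsetProd_iff _).1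
        (hz2 π.1 π.2)
      exact ⟨i, hi⟩
    choose f hf using this
    exact mem_biUnion.2 ⟨f, mem_univ _, mem_filter.2 ⟨hz1, hf⟩⟩
  refine (card_le_card hsub).trans ((card_biUnion_le_card_mul _ _
    (Fintype.card K ^ (τ - ∑ π ∈ S, π.natDegree)) fun f _ => ?_).trans ?_)
  · rw [← (heavy_prod_monic hp hS).2]
    refine card_le_of_Pl (heavy_prod_monic hp hS).1.ne_zero (filter_subset _ _)
      fun g hg g' hg' => heavy_prod_dvd hp hS fun π hπ => ?_
    have h1 := dvd_sub ((mem_filter.1 hg).2 ⟨π, hπ⟩) ((mem_filter.1 hg').2 ⟨π, hπ⟩)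
    rwa [add_sub_add_right_eq_sub] at h1
  · rw [card_univ, Fintype.card_fun, Fintype.card_coe]

theorem card_heavy_le {p : K[X]} (hp : p ≠ 0) {J : Type*} [Fintype J] (c : J → K[X]) (τ : ℕ) :
    ((Pl K τ).filter fun z =>
        (Fintype.card K : ℝ) ^ τ < momWt p (∏ i, (z + c i))).card ≤
      (Fintype.card J + 1) ^ (pf p).card := by
  have hsub : ((Pl K τ).filter fun z =>
      (Fintype.card K : ℝ) ^ τ < momWt p (∏ i, (z + c i))) ⊆
      ((pf p).powerset.filter fun S => τ < ∑ π ∈ S, π.natDegree).biUnion fun S =>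
        (Pl K τ).filter fun z => ∀ π ∈ S, π ∣ ∏ i, (z + c i) := by
    intro z hz
    obtain ⟨hz1, hz2⟩ := mem_filter.1 hz
    rw [heavy_momWt_eq, pow_lt_pow_iff_right₀ heavy_one_lt] at hz2
    exact mem_biUnion.2 ⟨_, mem_filter.2 ⟨mem_powerset.2 (filter_subset _ _), hz2⟩,
      mem_filter.2 ⟨hz1, fun π hπ => (mem_filter.1 hπ).2⟩⟩
  refine (card_le_card hsub).trans (card_biUnion_le.trans ?_)
  calc ∑ S ∈ (pf p).powerset.filter fun S => τ < ∑ π ∈ S, π.natDegree,
        ((Pl K τ).filter fun z => ∀ π ∈ S, π ∣ ∏ i, (z + c i)).card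
      ≤ ∑ S ∈ (pf p).powerset.filter fun S => τ < ∑ π ∈ S, π.natDegree,
          Fintype.card J ^ S.card := by
        refine sum_le_sum fun S hS => ?_
        obtain ⟨h1, h2⟩ := mem_filter.1 hS
        have h3 := card_dvd_prod_le hp c τ (mem_powerset.1 h1)
        rwa [Nat.sub_eq_zero_of_le h2.le, pow_zero, mul_one] at h3
    _ ≤ ∑ S ∈ (pf p).powerset, Fintype.card J ^ S.card :=
        sum_le_sum_of_subset (filter_subset _ _)
    _ = (Fintype.card J + 1) ^ (pf p).card := by
        rw [← Finset.sum_pow_mul_eq_add_pow]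
        simp

theorem sum_light_le {p : K[X]} (hp : p ≠ 0) {J : Type*} [Fintype J] (c : J → K[X]) (τ : ℕ) :
    ∑ z ∈ (Pl K τ).filter (fun z =>
        ¬ (Fintype.card K : ℝ) ^ τ < momWt p (∏ i, (z + c i))), momWt p (∏ i, (z + c i)) ≤
      ((Fintype.card J : ℝ) + 1) ^ (pf p).card * (Fintype.card K : ℝ) ^ τ := by
  set P := (pf p).powerset.filter fun S => ∑ π ∈ S, π.natDegree ≤ τ with hP
  set F : K[X] → Finset K[X] → ℝ := fun z S =>
    if ∀ π ∈ S, π ∣ ∏ i, (z + c i) then (Fintype.card K : ℝ) ^ ∑ π ∈ S, π.natDegree else 0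
    with hF
  have hF0 : ∀ z S, 0 ≤ F z S := fun z S => by
    simp only [hF]
    split_ifs <;> positivity
  calc ∑ z ∈ (Pl K τ).filter (fun z =>
        ¬ (Fintype.card K : ℝ) ^ τ < momWt p (∏ i, (z + c i))), momWt p (∏ i, (z + c i))
      ≤ ∑ z ∈ (Pl K τ).filter (fun z =>
        ¬ (Fintype.card K : ℝ) ^ τ < momWt p (∏ i, (z + c i))), ∑ S ∈ P, F z S := by
        refine sum_le_sum fun z hz => ?_
        have hz2 := (mem_filter.1 hz).2
        rw [heavy_momWt_eq, pow_lt_pow_iff_right₀ heavy_one_lt, not_lt] at hz2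
        have hmem : (pf p).filter (fun π => π ∣ ∏ i, (z + c i)) ∈ P :=
          mem_filter.2 ⟨mem_powerset.2 (filter_subset _ _), hz2⟩
        refine le_trans (le_of_eq ?_) (single_le_sum (fun S _ => hF0 z S) hmem)
        simp only [hF]
        rw [if_pos fun π hπ => (mem_filter.1 hπ).2, heavy_momWt_eq]
    _ ≤ ∑ z ∈ Pl K τ, ∑ S ∈ P, F z S :=
        sum_le_sum_of_subset_of_nonneg (filter_subset _ _)
          fun z _ _ => sum_nonneg fun S _ => hF0 z S
    _ = ∑ S ∈ P, ∑ z ∈ Pl K τ, F z S := sum_comm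
    _ ≤ ∑ S ∈ P, (Fintype.card J : ℝ) ^ S.card * (Fintype.card K : ℝ) ^ τ := by
        refine sum_le_sum fun S hS => ?_
        obtain ⟨h1, h2⟩ := mem_filter.1 hS
        have h3 : (((Pl K τ).filter fun z => ∀ π ∈ S, π ∣ ∏ i, (z + c i)).card : ℝ) ≤
            (Fintype.card J : ℝ) ^ S.card *
              (Fintype.card K : ℝ) ^ (τ - ∑ π ∈ S, π.natDegree) := by
          exact_mod_cast card_dvd_prod_le hp c τ (mem_powerset.1 h1)
        simp only [hF]
        rw [← sum_filter, sum_const, nsmul_eq_mul]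
        refine (mul_le_mul_of_nonneg_right h3 (by positivity)).trans (le_of_eq ?_)
        rw [mul_assoc, ← pow_add, Nat.sub_add_cancel h2]
    _ ≤ ∑ S ∈ (pf p).powerset, (Fintype.card J : ℝ) ^ S.card * (Fintype.card K : ℝ) ^ τ :=
        sum_le_sum_of_subset_of_nonneg (filter_subset _ _) fun S _ _ => by positivity
    _ = ((Fintype.card J : ℝ) + 1) ^ (pf p).card * (Fintype.card K : ℝ) ^ τ := by
        rw [← sum_mul, ← Finset.sum_pow_mul_eq_add_pow]
        simp

omit [CharP K 2] in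
theorem badt_one {p : K[X]} (hp : p ≠ 0) {k τ γ : ℕ} (hγ : γ ≤ τ) (G : Fin k → K[X])
    (hG : ∀ i, IsCoprime (G i) p) {ε : Fin k → Bool} (hε : ε ≠ fun _ => false)
    {S : Finset K[X]} (hS : S ⊆ pf p) (hd : γ < ∑ π ∈ S, π.natDegree) :
    ((Fintype.piFinset fun _ : Fin k => Pl K τ ×ˢ Pl K τ).filter fun t =>
        ∀ π ∈ S, π ∣ cube G t ε + cube G t fun _ => false).card * Fintype.card K ^ γ ≤
      Fintype.card K ^ (2 * τ * k) := by
  obtain ⟨i, hi⟩ : ∃ i, ε i = true := by
    by_contra hno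
    push Not at hno
    exact hε (funext fun i => by simpa using hno i)
  have hcard : (Fintype.piFinset fun _ : Fin k => Pl K τ ×ˢ Pl K τ).card =
      Fintype.card K ^ (2 * τ * k) := by
    rw [Fintype.card_piFinset, prod_const, card_product, card_Pl, card_univ, Fintype.card_fin,
      ← pow_add, ← pow_mul, two_mul]
  rw [← hcard, ← card_Pl (K := K) γ, ← card_product]
  refine card_le_card_of_injOn
    (fun z => Function.update z.1 i ((z.1 i).1 + z.2, (z.1 i).2)) (fun z hz => ?_) ?_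
  · obtain ⟨h1, h2⟩ := mem_product.1 (mem_coe.1 hz)
    have h3 := Fintype.mem_piFinset.1 (mem_filter.1 h1).1
    refine mem_coe.2 (Fintype.mem_piFinset.2 fun j => ?_)
    by_cases hj : j = i
    · subst hj
      simp only [Function.update_self]
      exact mem_product.2 ⟨add_mem_Pl (mem_product.1 (h3 j)).1 (Pl_mono hγ h2),
        (mem_product.1 (h3 j)).2⟩
    · simp only [Function.update_of_ne hj]
      exact h3 j
  · rintro ⟨t, a⟩ hz ⟨t', a'⟩ hz' he
    obtain ⟨h1, h2⟩ := mem_product.1 (mem_coe.1 hz)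
    obtain ⟨h1', h2'⟩ := mem_product.1 (mem_coe.1 hz')
    have hne : ∀ j, j ≠ i → t j = t' j := fun j hj => by
      simpa [Function.update_of_ne hj] using congrFun he j
    have hat := congrFun he i
    simp only [Function.update_self, Prod.mk.injEq] at hat
    have e1 : cube G t ε = cube G t' ε := by
      refine sum_congr rfl fun j _ => ?_
      by_cases hj : j = i
      · subst hj
        simp [hi, hat.2]
      · rw [hne j hj]
    have e2 : (cube G t fun _ => false) - (cube G t' fun _ => false) = G i * (a' - a) := by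
      unfold cube
      rw [← sum_sub_distrib, sum_eq_single i]
      · simp only [Bool.false_eq_true, if_false]
        linear_combination G i * hat.1
      · intro j _ hj
        rw [hne j hj, sub_self]
      · intro h
        exact absurd (mem_univ i) h
    have hdvd : (∏ π ∈ S, π) ∣ a' - a := by
      refine heavy_prod_dvd hp hS fun π hπ => ?_
      have h3 := dvd_sub ((mem_filter.1 h1).2 π hπ) ((mem_filter.1 h1').2 π hπ)
      rw [e1, add_sub_add_left_eq_sub, e2] at h3
      exact ((hG i).of_isCoprime_of_dvd_right ((mem_pf hp).1 (hS hπ)).2.2).symm.dvd_of_dvd_mul_left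
        h3
    have haa : a' - a = 0 := by
      refine eq_zero_of_dvd_of_degree_lt hdvd ?_
      rw [degree_eq_natDegree (heavy_prod_monic hp hS).1.ne_zero, (heavy_prod_monic hp hS).2]
      refine ((degree_sub_le _ _).trans_lt (max_lt (mem_Pl.1 h2') (mem_Pl.1 h2))).trans ?_
      exact_mod_cast hd
    have ha : a = a' := (sub_eq_zero.1 haa).symm
    subst ha
    refine Prod.ext (funext fun j => ?_) rfl
    by_cases hj : j = i
    · subst hj
      exact Prod.ext (add_right_cancel hat.1) hat.2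
    · exact hne j hj

theorem badt {p : K[X]} (hp : p ≠ 0) {k τ γ : ℕ} (hγ : γ ≤ τ) (G : Fin k → K[X])
    (hG : ∀ i, IsCoprime (G i) p) :
    (((Fintype.piFinset fun _ : Fin k => Pl K τ ×ˢ Pl K τ).filter fun t =>
        ¬ momWt p (∏ ε ∈ univ.erase (fun _ => false), (cube G t ε + cube G t fun _ => false)) ≤
          (Fintype.card K : ℝ) ^ (2 ^ k * γ)).card : ℝ) * (Fintype.card K : ℝ) ^ γ ≤
      2 ^ k * 2 ^ (pf p).card * (Fintype.card K : ℝ) ^ (2 * τ * k) := by
  set I := ((univ : Finset (Fin k → Bool)).erase fun _ => false) ×ˢ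
    ((pf p).powerset.filter fun S => γ < ∑ π ∈ S, π.natDegree) with hI
  have hE : ((univ : Finset (Fin k → Bool)).erase fun _ => false).card ≤ 2 ^ k :=
    card_erase_le.trans (by simp)
  have hsub : ((Fintype.piFinset fun _ : Fin k => Pl K τ ×ˢ Pl K τ).filter fun t =>
        ¬ momWt p (∏ ε ∈ univ.erase (fun _ => false), (cube G t ε + cube G t fun _ => false)) ≤
          (Fintype.card K : ℝ) ^ (2 ^ k * γ)) ⊆
      I.biUnion fun z => (Fintype.piFinset fun _ : Fin k => Pl K τ ×ˢ Pl K τ).filter fun t =>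
        ∀ π ∈ z.2, π ∣ cube G t z.1 + cube G t fun _ => false := by
    intro t ht
    obtain ⟨ht1, ht2⟩ := mem_filter.1 ht
    obtain ⟨ε, hε, hlt⟩ : ∃ ε ∈ (univ : Finset (Fin k → Bool)).erase fun _ => false,
        (Fintype.card K : ℝ) ^ γ < momWt p (cube G t ε + cube G t fun _ => false) := by
      by_contra hno
      push Not at hno
      refine ht2 ((momWt_prod_le hp _ _).trans ((prod_le_prod (fun ε _ => momWt_nonneg _ _)
        hno).trans ?_))
      rw [prod_const, ← pow_mul, mul_comm γ]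
      exact pow_le_pow_right₀ mom_one_le_card (Nat.mul_le_mul_right _ hE)
    rw [heavy_momWt_eq, pow_lt_pow_iff_right₀ heavy_one_lt] at hlt
    exact mem_biUnion.2 ⟨(ε, _), mem_product.2 ⟨hε,
      mem_filter.2 ⟨mem_powerset.2 (filter_subset _ _), hlt⟩⟩,
      mem_filter.2 ⟨ht1, fun π hπ => (mem_filter.1 hπ).2⟩⟩
  have hIc : I.card ≤ 2 ^ k * 2 ^ (pf p).card := by
    rw [hI, card_product]
    exact Nat.mul_le_mul hE ((card_filter_le _ _).trans (card_powerset _).le)
  have h1 := Nat.mul_le_mul_right (Fintype.card K ^ γ) ((card_le_card hsub).trans card_biUnion_le)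
  rw [sum_mul] at h1
  have h2 := h1.trans ((sum_le_card_nsmul I _ (Fintype.card K ^ (2 * τ * k)) fun z hz =>
    badt_one hp hγ G hG (mem_erase.1 (mem_product.1 hz).1).1
      (mem_powerset.1 (mem_filter.1 (mem_product.1 hz).2).1)
      (mem_filter.1 (mem_product.1 hz).2).2).trans (Nat.mul_le_mul_right _ hIc))
  exact_mod_cast h2

end Pool.Agent.P.MP_3bc45c_nt.SI
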