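import Mathlib

namespace Pool.Agent.P.MP_3bc45c_nt.SI

theorem rb_exists_j {s g x : ℕ} (hs : 0 < s) (h1 : 115 * (s * g) ≤ x)
    (h2 : x + 23 * s ≤ 230 * (s * g)) :
    ∃ j : ℕ, 5 * g ≤ j ∧ j ≤ 10 * g ∧ x ≤ 23 * s * j ∧ 23 * s * j < x + 23 * s := by
  have hk : 0 < 23 * s := by omega
  have e := Nat.div_add_mod (x + 23 * s - 1) (23 * s)
  have e2 := Nat.mod_lt (x + 23 * s - 1) hk
  refine ⟨(x + 23 * s - 1) / (23 * s), ?_, ?_, by omega, by omega⟩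
  · refine Nat.le_of_mul_le_mul_left ?_ hk
    have : 23 * s * (5 * g) = 115 * (s * g) := by ring
    omega
  · refine Nat.le_of_mul_le_mul_left ?_ hk
    have : 23 * s * (10 * g) = 230 * (s * g) := by ring
    omega

/-- the common numerical setting -/
structure RB (s g u n h M N L ω κ : ℕ) : Prop where
  s1 : 100 ≤ s
  s2 : 1000 * s ≤ g
  u1 : 100 * g ≤ u
  n1 : 1000 * u ≤ n
  n2 : n ≤ 1000 * u + g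
  h1 : 2 * h ≤ n
  h2 : n ≤ 2 * h + 2 * g
  mn : M + N = n
  ml : M + L = h
  l1 : 400 * g ≤ L
  w1 : g ≤ ω
  w2 : ω ≤ g + 1
  k1 : N + ω = 2 * κ + 1

theorem rb_one {s g u n h M N L ω κ : ℕ} (H : RB s g u n h M N L ω κ) (hc : 40 * M ≤ 13 * n) :
    ∃ l l₂ x : ℕ, 4 * l ≤ L ∧ x + 3 * l = κ + 30 * g ∧ 115 * u ≤ x ∧ x + 23 * s ≤ 230 * u ∧
      2 * l₂ + ω ≤ L + 1 ∧ ω + l₂ ≤ κ ∧ ω ≤ L ∧
      ∀ a, x ≤ a → a < x + 23 * s → 2 * l + a ≤ κ ∧ (a ≤ l₂ ∨ ∃ D β, D ≤ M ∧ 2 * D + h ≤ n ∧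
        L + (L + ω + 1) / 2 + (2 * M - D) + 2 ≤ β ∧ L + (L + ω + 1) / 2 + M + M / 4 + 8 ≤ β ∧
        β + κ + (2 * a - κ) + 2 * g ≤ 2 * h + l₂) := by
  obtain ⟨s1, s2, u1, n1, n2, h1, h2, mn, ml, l1, w1, w2, k1⟩ := H
  obtain ⟨l, e1, e2⟩ : ∃ l, 4 * l ≤ L ∧ L ≤ 4 * l + 3 := ⟨L / 4, by omega, by omega⟩
  obtain ⟨l₂, e3, e4⟩ : ∃ l₂, 2 * l₂ + ω ≤ L + 1 ∧ L ≤ 2 * l₂ + ω :=
    ⟨(L + 1 - ω) / 2, by omega, by omega⟩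
  obtain ⟨x, hx⟩ : ∃ x, x + 3 * l = κ + 30 * g :=
    ⟨κ + 30 * g - 3 * l, Nat.sub_add_cancel (by linarith)⟩
  refine ⟨l, l₂, x, e1, hx, by linarith, by linarith, e3, by linarith, by linarith,
    fun a a1 a2 => ⟨by linarith, ?_⟩⟩
  by_cases hc2 : 7 * M ≤ n
  · left
    linarith
  · right
    have hc3 : n ≤ 7 * M := by omega
    obtain ⟨m, m1, m2⟩ : ∃ m, m = M / 4 ∧ 4 * m ≤ M := ⟨M / 4, rfl, by omega⟩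
    obtain ⟨t, t1, t2⟩ : ∃ t, t = (L + ω + 1) / 2 ∧ 2 * t ≤ L + ω + 1 := ⟨_, rfl, by omega⟩
    obtain ⟨D, d1⟩ : ∃ D, D + m = M := ⟨M - m, by omega⟩
    have d2 : M ≤ 4 * m + 3 := by omega
    rw [← m1, ← t1]
    refine ⟨D, L + t + M + m + 8, by omega, by linarith, by omega, le_rfl, ?_⟩
    rcases le_total (2 * a) κ with h | h
    · rw [Nat.sub_eq_zero_of_le h]
      linarith
    · obtain ⟨b, hb⟩ : ∃ b, b + κ = 2 * a := ⟨2 * a - κ, by omega⟩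
      have : 2 * a - κ = b := by omega
      rw [this]
      linarith

theorem rb_two {s g u n h M N L ω κ : ℕ} (H : RB s g u n h M N L ω κ) (hc : 13 * n ≤ 40 * M) :
    ∃ l l₂ η x D β : ℕ, 4 * l ≤ L ∧ 115 * u ≤ x ∧ x + 23 * s ≤ 230 * u ∧
      2 * l₂ + ω ≤ L + 1 ∧ ω + l₂ ≤ κ ∧ ω ≤ L ∧ 2 * l ≤ κ ∧ g ≤ η ∧ 2 * η + 17 * g ≤ l ∧
      D ≤ M ∧ 2 * D + h ≤ n ∧ L + (L + ω + 1) / 2 + (2 * M - D) + 2 ≤ β ∧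
      L + (L + ω + 1) / 2 + M + M / 4 + 8 ≤ β ∧ β + κ + 3 * η ≤ 2 * h + l ∧
      ∀ a, x ≤ a → a < x + 23 * s → a ≤ κ ∧ κ / 2 + 1 + η + 5 * g + a ≤ κ ∧
        l + η + 5 * g + a ≤ κ ∧ 2 * κ + 10 * g ≤ h + 2 * η + a ∧
        β + κ + (2 * a - κ) + 2 * g ≤ 2 * h + l₂ := by
  obtain ⟨s1, s2, u1, n1, n2, h1, h2, mn, ml, l1, w1, w2, k1⟩ := H
  obtain ⟨l, e1, e2⟩ : ∃ l, 4 * l ≤ L ∧ L ≤ 4 * l + 3 := ⟨L / 4, by omega, by omega⟩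
  obtain ⟨l₂, e3, e4⟩ : ∃ l₂, 2 * l₂ + ω ≤ L + 1 ∧ L ≤ 2 * l₂ + ω :=
    ⟨(L + 1 - ω) / 2, by omega, by omega⟩
  obtain ⟨η, e5, e6⟩ : ∃ η, 16 * η ≤ L ∧ L ≤ 16 * η + 15 := ⟨L / 16, by omega, by omega⟩
  obtain ⟨c, c0, c1, c2⟩ : ∃ c, c = κ / 2 ∧ 2 * c ≤ κ ∧ κ ≤ 2 * c + 1 :=
    ⟨κ / 2, rfl, by omega, by omega⟩
  obtain ⟨m, m1, m2⟩ : ∃ m, m = M / 4 ∧ 4 * m ≤ M := ⟨M / 4, rfl, by omega⟩
  obtain ⟨t, t1, t2⟩ : ∃ t, t = (L + ω + 1) / 2 ∧ 2 * t ≤ L + ω + 1 := ⟨_, rfl, by omega⟩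
  obtain ⟨D, d1, d2⟩ : ∃ D, 2 * D + h ≤ n ∧ n ≤ 2 * D + h + 1 :=
    ⟨(n - h) / 2, by omega, by omega⟩
  obtain ⟨x, hx⟩ : ∃ x, x + (c + 1 + η + 5 * g + 23 * s) = κ :=
    ⟨κ - (c + 1 + η + 5 * g + 23 * s), Nat.sub_add_cancel (by linarith)⟩
  have d3 : D ≤ M := by linarith
  obtain ⟨b, hb⟩ : ∃ b, b + D = 2 * M := ⟨2 * M - D, by omega⟩
  have hb' : 2 * M - D = b := by omega
  obtain ⟨β, b1, b2, b3, b4⟩ : ∃ β, L + t + b + 2 ≤ β ∧ L + t + M + m + 8 ≤ β ∧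
      β + κ + 3 * η ≤ 2 * h + l ∧ β + κ + 2 * g ≤ 2 * h + l₂ := by
    rcases le_total (L + t + b + 2) (L + t + M + m + 8) with h | h
    · exact ⟨_, h, le_rfl, by linarith, by linarith⟩
    · exact ⟨_, le_rfl, h, by linarith, by linarith⟩
  rw [← m1, ← t1, ← c0]
  refine ⟨l, l₂, η, x, D, β, e1, by linarith, by linarith, e3, by linarith, by linarith,
    by linarith, by linarith, by linarith, d3, d1, by rw [hb']; exact b1, b2, b3,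
    fun a a1 a2 => ⟨by linarith, by linarith, by linarith, by linarith, ?_⟩⟩
  rw [Nat.sub_eq_zero_of_le (by linarith : 2 * a ≤ κ)]
  exact b4

end Pool.Agent.P.MP_3bc45c_nt.SI
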