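import Pool.Agent.P.MP_3bc45c_nt.SI.Regimes
import Pool.Agent.P.MP_3bc45c_nt.SI.Conc
import Pool.Agent.P.MP_3bc45c_nt.SI.Coll
import Pool.Agent.P.MP_3bc45c_nt.SI.RBArith

namespace Pool.Agent.P.MP_3bc45c_nt.SI

open Polynomial Finset Pool.Agent.P.MP_a1177c_nt.HL
open scoped Classical

variable {K : Type*} [Field K] [Fintype K] [CharP K 2]

theorem rb_cSW_pos (k R : ℕ) : 0 < cSW k R := by
  unfold cSW
  positivity

theorem rb_cSW_le (k R : ℕ) : cSW k R ≤ 1 / 4 := by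
  unfold cSW
  refine one_div_le_one_div_of_le (by norm_num) ?_
  have h1 : (4 : ℝ) ≤ 4 ^ (k + 2) := by
    calc (4 : ℝ) = 4 ^ 1 := by norm_num
      _ ≤ 4 ^ (k + 2) := pow_le_pow_right₀ (by norm_num) (by omega)
  have h2 : (1 : ℝ) ≤ (R : ℝ) + 1 := by
    have : (0 : ℝ) ≤ R := Nat.cast_nonneg R
    linarith
  nlinarith

theorem range_b (s : ℕ) (hs : 100 ≤ s) : ∃ n₀ : ℕ, ∀ n ≥ n₀, ∀ (f : K[X]) (h M N : ℕ),
    f ∈ Mn K n → M + N = n → 2 * h ≤ n → n ≤ 2 * h + 2 * (n / (1000 * s)) →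
    M + 400 * (n / (1000 * s)) ≤ h →
    |∑ d ∈ SD f h N, mu d| ≤ (Fintype.card K : ℝ) ^ h *
      (Fintype.card K : ℝ) ^ (-(cSW (23 * s) (2000 * s) / 2 * (n / (1000 * s) : ℕ))) := by
  obtain ⟨g₁, H₁⟩ := s_one (K := K) (23 * s) (2000 * s)
  obtain ⟨g₂, H₂⟩ := s_two (K := K) (23 * s) (2000 * s)
  obtain ⟨g₃, H₃⟩ := main_b (K := K) (23 * s) (2000 * s) (rb_cSW_pos (23 * s) (2000 * s))
    (rb_cSW_le (23 * s) (2000 * s))
  refine ⟨1000 * s * (g₁ + g₂ + g₃ + 1000 * s), fun n hn f h M N hf hMN h1 h2 h3 => ?_⟩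
  have hs0 : 0 < 1000 * s := by linarith
  have hg : g₁ + g₂ + g₃ + 1000 * s ≤ n / (1000 * s) := by
    rw [Nat.le_div_iff_mul_le hs0, mul_comm]
    exact hn
  have e := Nat.div_add_mod n (1000 * s)
  have e2 := Nat.mod_lt n hs0
  generalize n % (1000 * s) = r at e e2
  generalize n / (1000 * s) = g at *
  have eu : 1000 * s * g = 1000 * (s * g) := by ring
  have eR : 2000 * s * g = 2000 * (s * g) := by ring
  have hu : 100 * g ≤ s * g := Nat.mul_le_mul_right g hs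
  obtain ⟨L, hL⟩ : ∃ L, M + L = h := Nat.exists_eq_add_of_le (by linarith) |>.imp fun _ => Eq.symm
  obtain ⟨ω, κ, hω1, hω2, hκ⟩ : ∃ ω κ, g ≤ ω ∧ ω ≤ g + 1 ∧ N + ω = 2 * κ + 1 := by
    rcases Nat.even_or_odd' (N + g) with ⟨κ, hκ | hκ⟩
    · exact ⟨g + 1, κ, by linarith, le_rfl, by linarith⟩
    · exact ⟨g, κ, le_rfl, by linarith, hκ⟩
  have hN : h ≤ N := by linarith
  have hD := SD_subset f h N
  have hI := SD_inv hf hMN hL hN
  have hcard := SD_card hf hMN hL hN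
  have hNR : N ≤ 2000 * s * g := by linarith
  have H : RB s g (s * g) n h M N L ω κ :=
    ⟨hs, by linarith, hu, by linarith, by linarith, h1, h2, hMN, hL, by linarith, hω1, hω2, hκ⟩
  have hg1 : g ≥ g₁ := by linarith
  have hg2 : g ≥ g₂ := by linarith
  have hg3 : g ≥ g₃ := by linarith
  rcases le_total (40 * M) (13 * n) with hc | hc
  · obtain ⟨l, l₂, x, a1, a2, a3, a4, a5, a6, a7, a8⟩ := rb_one H hc
    obtain ⟨j, j1, j2, j3, j4⟩ := rb_exists_j (s := s) (g := g) (x := x) (by linarith) a3 a4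
    obtain ⟨b1, b2⟩ := a8 _ j3 j4
    have hS := fun w hw => H₁ g hg1 _ w N L h ω κ j l hD hI hcard hNR hw hω2 hκ j1 j2 a1 b1
      (by linarith)
    rcases b2 with b2 | ⟨D, β, c1, c2, c3, c4, c5⟩
    · exact H₃ g hg3 _ N L h 0 ω κ j l₂ hD hI hcard hNR hω1 hω2 hκ j1 j2 (by linarith) a7 a5 a6
        (Or.inl b2) hS
    · exact H₃ g hg3 _ N L h β ω κ j l₂ hD hI hcard hNR hω1 hω2 hκ j1 j2 (by linarith) a7 a5 a6
        (Or.inr ⟨fun w hw => SD_coll hf hMN hL hN (mem_filter.1 hw).1 c1 c2 c3 c4, c5⟩) hS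
  · obtain ⟨l, l₂, η, x, D, β, a1, a3, a4, a5, a6, a7, a8, a9, a10, c1, c2, c3, c4, c5, a11⟩ :=
      rb_two H hc
    obtain ⟨j, j1, j2, j3, j4⟩ := rb_exists_j (s := s) (g := g) (x := x) (by linarith) a3 a4
    obtain ⟨b1, b2, b3, b4, b5⟩ := a11 _ j3 j4
    have hcl : ∀ w ∈ Irr K ω, coll (SD f h N) w ≤ Fintype.card K ^ β := fun w hw =>
      SD_coll hf hMN hL hN (mem_filter.1 hw).1 c1 c2 c3 c4
    exact H₃ g hg3 _ N L h β ω κ j l₂ hD hI hcard hNR hω1 hω2 hκ j1 j2 b1 a7 a5 a6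
      (Or.inr ⟨hcl, b5⟩) fun w hw => H₂ g hg2 _ w N L h β ω κ j l η hD hI hcard hNR hw hω2 hκ
        j1 j2 a1 a8 a9 a10 b2 b3 (hcl w hw) c5 b4

end Pool.Agent.P.MP_3bc45c_nt.SI
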