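import Pool.Agent.P.MP_3bc45c_nt.SI.SW
import Pool.Agent.P.MP_3bc45c_nt.SI.EnFull

namespace Pool.Agent.P.MP_3bc45c_nt.SI

open Polynomial Finset Pool.Agent.P.MP_a1177c_nt.HL
open scoped Classical

variable {K : Type*} [Field K] [Fintype K] [CharP K 2]

private theorem reg_base (R : ℕ) : ∃ g₀ : ℕ, ∀ g ≥ g₀, 2 ≤ g ∧
    (∀ Z : K[X], Z ≠ 0 → Z.natDegree ≤ 5 * ((R + 1) * g) → (pf Z).card ≤ g / 5) ∧
    (∀ υ, g ≤ υ → υ ≤ (R + 1) * g →
      Fintype.card K ^ υ ≤ Fintype.card K ^ g * (Irr K υ).card) ∧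
    ∀ κ j, κ ≤ (R + 1) * g → g ≤ j →
      4 * (2 ^ (κ / j)) ^ 2 * (κ + 1) * 24 ^ (g / 5) ≤ Fintype.card K ^ (2 * g) := by
  obtain ⟨k₀, hk⟩ := card_pf_le (K := K) (ε := 1 / (25 * (R + 1))) (by positivity)
  obtain ⟨j₀, hj⟩ := card_Irr_ge (K := K)
  obtain ⟨g₁, hg₁⟩ := absorb (A := 4 * 4 ^ (R + 1) * (R + 2)) (ro_two_le (K := K)) one_pos 1
  refine ⟨2 + k₀ + j₀ + g₁, fun g hg => ?_⟩
  have h1 : 4 * 4 ^ (R + 1) * ((R + 2) * g) ≤ Fintype.card K ^ g := by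
    have := hg₁ g (by omega)
    rw [one_mul, Real.rpow_natCast, pow_one, mul_assoc] at this
    exact_mod_cast this
  have h0 : g ≤ (R + 1) * g := Nat.le_mul_of_pos_left g (by omega)
  have h2 : (R + 2) * g = (R + 1) * g + g := by ring
  have h4 : 1 ≤ 4 ^ (R + 1) := Nat.one_le_pow _ _ (by norm_num)
  refine ⟨by omega, fun Z hZ hd => ?_, fun υ a1 a2 => ?_, fun κ j a1 a2 => ?_⟩
  · have := hk _ (by omega) Z hZ hd
    have e : 1 / (25 * ((R : ℝ) + 1)) * ((5 * ((R + 1) * g) : ℕ) : ℝ) = g / 5 := by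
      push_cast
      field_simp
      ring
    rw [e, le_div_iff₀ (by norm_num)] at this
    have h3 : (pf Z).card * 5 ≤ g := by exact_mod_cast this
    omega
  · have h3 : Fintype.card K ^ υ ≤ 2 * υ * (Irr K υ).card := by exact_mod_cast hj υ (by omega)
    refine h3.trans (Nat.mul_le_mul_right _ (le_trans ?_ h1))
    nlinarith
  · have h3 : κ / j ≤ R + 1 :=
      Nat.div_le_of_le_mul (a1.trans (by rw [mul_comm]; exact Nat.mul_le_mul_right _ a2))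
    have h5 : (2 ^ (κ / j)) ^ 2 ≤ 4 ^ (R + 1) := by
      rw [← pow_mul, mul_comm, pow_mul]
      exact Nat.pow_le_pow_right (by norm_num) h3
    have h6 : 24 ^ (g / 5) ≤ Fintype.card K ^ g :=
      calc 24 ^ (g / 5) ≤ (2 ^ 5) ^ (g / 5) := Nat.pow_le_pow_left (by norm_num) _
        _ ≤ 2 ^ g := by
          rw [← pow_mul]
          exact Nat.pow_le_pow_right (by norm_num) (by omega)
        _ ≤ _ := Nat.pow_le_pow_left Fintype.one_lt_card _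
    rw [two_mul, pow_add]
    refine Nat.mul_le_mul (le_trans ?_ h1) h6
    gcongr
    omega

private theorem reg_fin {q E c U P g h υ a b : ℕ} (hq : 1 < q)
    (h1 : E * c * q ^ P * q ^ (5 * g) * q ^ b ≤ q ^ a * U) (h2 : q ^ υ ≤ q ^ g * U)
    (h3 : a + g ≤ 2 * h + υ + b) :
    (E : ℝ) * c * (q : ℝ) ^ P * (q : ℝ) ^ (5 * g) ≤ ((q : ℝ) ^ h * U) ^ 2 := by
  have key : E * c * q ^ P * q ^ (5 * g) ≤ (q ^ h * U) ^ 2 := by
    refine Nat.le_of_mul_le_mul_right (c := q ^ b * q ^ υ) ?_ (by positivity)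
    calc _ = E * c * q ^ P * q ^ (5 * g) * q ^ b * q ^ υ := by ring
      _ ≤ q ^ a * U * (q ^ g * U) := Nat.mul_le_mul h1 h2
      _ = q ^ (a + g) * U ^ 2 := by ring
      _ ≤ q ^ (2 * h + υ + b) * U ^ 2 :=
        Nat.mul_le_mul_right _ (Nat.pow_le_pow_right hq.le h3)
      _ = _ := by ring
  exact_mod_cast key

private theorem reg_const {x κ ω y : ℕ} (h : 4 * x ^ 2 * (κ + 1) * 24 ^ ω ≤ y) :
    2 * x ^ 2 * 12 ^ ω ≤ y := by
  refine le_trans (Nat.mul_le_mul ?_ (Nat.pow_le_pow_left (by norm_num) _)) h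
  nlinarith [Nat.zero_le (x ^ 2 * κ), Nat.zero_le (x ^ 2)]

private theorem reg_kappa {N R g ω κ : ℕ} (h1 : N ≤ R * g) (h2 : ω ≤ g + 1)
    (h3 : N + ω = 2 * κ + 1) : κ ≤ (R + 1) * g := by
  rw [add_mul]
  omega

theorem s_one (k R : ℕ) : ∃ g₀ : ℕ, ∀ g ≥ g₀, ∀ (D : Finset K[X]) (w : K[X])
    (N L h ω κ j l : ℕ), D ⊆ Mn K N → Inv D L → D.card ≤ Fintype.card K ^ h → N ≤ R * g →
    w ∈ Irr K ω → ω ≤ g + 1 → N + ω = 2 * κ + 1 → 5 * g ≤ j → j ≤ 10 * g →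
    4 * l ≤ L → 2 * l + k * j ≤ κ → κ + 30 * g ≤ 3 * l + k * j →
    |∑ d ∈ D, mu (w * d) * rr j k (od (w * d))| ≤
      (Fintype.card K : ℝ) ^ h * (Fintype.card K : ℝ) ^ (-(cSW k R * g)) := by
  obtain ⟨g₁, h₁⟩ := sw (K := K) k R
  obtain ⟨g₂, h₂⟩ := reg_base (K := K) R
  refine ⟨g₁ + g₂, fun g hg D w N L h ω κ j l hD hI hc hN hw hω hκ j1 j2 l1 l2 l3 => ?_⟩
  obtain ⟨b1, b2, b3, b4⟩ := h₂ g (by omega)
  have hk := reg_kappa hN hω hκ
  have := h₁ g (by omega) D w (fun _ => 1) N L h ω κ j l l (l - 17 * g) hD hI hc hN hw hω hκ j1 j2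
    (by omega) l1 (by omega) le_rfl (by omega) (by omega) (by simp) (fun _ _ _ _ _ _ _ _ => rfl) ?_
  · simpa only [one_mul] using this
  have e1 := enW_box (k := k) (t := g) (j := j) (Λ := l) (υ := l - 17 * g) (ω₀ := g / 5) hD hw hκ
    (by omega) (by omega) (by omega) fun p hp hd => b2 p hp (by omega)
  have e2 := (card_cls_small (j := j) hD hI hw hκ (by omega) l1 (by omega) k g).trans
    (Nat.mul_le_mul_left _ hc)
  have e3 := reg_const (b4 κ j hk (by omega))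
  refine reg_fin (b := 2 * (2 * l - ω)) (a := 2 * g + 2 * h + 2 * l + (κ - k * j) + 5 * g)
    Fintype.one_lt_card ?_ (b3 (l - 17 * g) (by omega) (by omega)) (by omega)
  generalize ((Omg D w j k g l).image Prod.fst).card = c at e1 e2 ⊢
  generalize Fintype.card K = q at e1 e2 e3 ⊢
  generalize (Irr K (l - 17 * g)).card = U at e1 ⊢
  calc _ ≤ c * (2 * 12 ^ (g / 5) * q ^ (2 * l) * U) * c * q ^ (κ - k * j) * q ^ (5 * g) *
        q ^ (2 * (2 * l - ω)) := by gcongr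
    _ = (c * q ^ (2 * l - ω)) ^ 2 * (2 * 12 ^ (g / 5) * q ^ (2 * l) * U * q ^ (κ - k * j) *
        q ^ (5 * g)) := by ring
    _ ≤ (2 ^ (κ / j) * q ^ h) ^ 2 * (2 * 12 ^ (g / 5) * q ^ (2 * l) * U * q ^ (κ - k * j) *
        q ^ (5 * g)) := by gcongr
    _ = 2 * (2 ^ (κ / j)) ^ 2 * 12 ^ (g / 5) *
        (q ^ (2 * h + 2 * l + (κ - k * j) + 5 * g) * U) := by ring
    _ ≤ q ^ (2 * g) * (q ^ (2 * h + 2 * l + (κ - k * j) + 5 * g) * U) := by gcongr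
    _ = _ := by ring

theorem s_two (k R : ℕ) : ∃ g₀ : ℕ, ∀ g ≥ g₀, ∀ (D : Finset K[X]) (w : K[X])
    (N L h β ω κ j l η : ℕ), D ⊆ Mn K N → Inv D L → D.card ≤ Fintype.card K ^ h → N ≤ R * g →
    w ∈ Irr K ω → ω ≤ g + 1 → N + ω = 2 * κ + 1 → 5 * g ≤ j → j ≤ 10 * g →
    4 * l ≤ L → 2 * l ≤ κ → g ≤ η → 2 * η + 17 * g ≤ l → κ / 2 + 1 + η + 5 * g + k * j ≤ κ →
    l + η + 5 * g + k * j ≤ κ → coll D w ≤ Fintype.card K ^ β → β + κ + 3 * η ≤ 2 * h + l →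
    2 * κ + 10 * g ≤ h + 2 * η + k * j →
    |∑ d ∈ D, mu (w * d) * rr j k (od (w * d))| ≤
      (Fintype.card K : ℝ) ^ h * (Fintype.card K : ℝ) ^ (-(cSW k R * g)) := by
  obtain ⟨g₁, h₁⟩ := sw (K := K) k R
  obtain ⟨g₂, h₂⟩ := reg_base (K := K) R
  refine ⟨g₁ + g₂, fun g hg D w N L h β ω κ j l η hD hI hc hN hw hω hκ j1 j2 l1 l2 l3 l4 l5 l6 hβ
    l7 l8 => ?_⟩
  obtain ⟨b1, b2, b3, b4⟩ := h₂ g (by omega)
  have hk := reg_kappa hN hω hκ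
  have := h₁ g (by omega) D w (fun _ => 1) N L h ω κ j l (κ / 2 + 1) (2 * η) hD hI hc hN hw hω hκ
    j1 j2 (by omega) l1 l2 (by omega) (by omega) l4 (by simp) (fun _ _ _ _ _ _ _ _ => rfl) ?_
  · simpa only [one_mul] using this
  have e1 := enW_full (k := k) (t := g) (j := j) (η := η) (ω₀ := g / 5) hD hI hc hw hκ
    (by omega) l1 (by omega) (by omega) (by omega) (by omega) hβ l7
    fun p hp hd => b2 p hp (by omega)
  have e2 := card_cls_full (j := j) (Λ := κ / 2 + 1) hD hw hκ (by omega) (by omega) k g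
  have e3 := b4 κ j hk (by omega)
  refine reg_fin (b := 0) (a := 2 * g + (h + ω + κ + (κ - k * j) + 5 * g))
    Fintype.one_lt_card ?_ (b3 (2 * η) (by omega) (by omega)) (by omega)
  generalize ((Omg D w j k g (κ / 2 + 1)).image Prod.fst).card = c at e2 ⊢
  generalize Fintype.card K = q at e1 e2 e3 ⊢
  generalize (Irr K (2 * η)).card = U at e1 ⊢
  calc _ ≤ 4 * 2 ^ (κ / j) * (κ + 1) * 24 ^ (g / 5) * q ^ (h + ω) * U * (2 ^ (κ / j) * q ^ κ) *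
        q ^ (κ - k * j) * q ^ (5 * g) * q ^ 0 := by gcongr
    _ = 4 * (2 ^ (κ / j)) ^ 2 * (κ + 1) * 24 ^ (g / 5) *
        (q ^ (h + ω + κ + (κ - k * j) + 5 * g) * U) := by ring
    _ ≤ q ^ (2 * g) * (q ^ (h + ω + κ + (κ - k * j) + 5 * g) * U) := by gcongr
    _ = _ := by ring

theorem s_three (R : ℕ) : ∃ g₀ : ℕ, ∀ g ≥ g₀, ∀ (w : K[X]) (c : K[X] → ℝ) (N L ω κ l : ℕ),
    L ≤ N → N ≤ R * g → w ∈ Irr K ω → ω ≤ g + 1 → N + ω = 2 * κ + 1 → 4 * l ≤ L →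
    2 * l ≤ κ → 30 * g ≤ l → (∀ d, |c d| ≤ 1) → QI (Mn K N) L c →
    |∑ d ∈ Mn K N, c d * mu (w * d)| ≤
      (Fintype.card K : ℝ) ^ N * (Fintype.card K : ℝ) ^ (-(cSW 0 R * g)) := by
  obtain ⟨g₁, h₁⟩ := sw (K := K) 0 R
  obtain ⟨g₂, h₂⟩ := reg_base (K := K) R
  refine ⟨g₁ + g₂, fun g hg w c N L ω κ l hL hN hw hω hκ l1 l2 l3 hc hQ => ?_⟩
  obtain ⟨b1, b2, b3, b4⟩ := h₂ g (by omega)
  have hk := reg_kappa hN hω hκ
  have hI : Inv (Mn K N) L := fun d hd a ha => by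
    rw [mem_Mn_iff_sub, mem_Pl] at hd ⊢
    rw [mem_Pl] at ha
    rw [add_sub_right_comm]
    exact (degree_add_le _ _).trans_lt (max_lt hd (ha.trans_le (by exact_mod_cast hL)))
  have := h₁ g (by omega) (Mn K N) w c N L N ω κ (5 * g) l (κ / 2 + 1) (l - 17 * g) Subset.rfl hI
    (card_Mn N).le hN hw hω hκ le_rfl (by omega) (by omega) l1 l2 (by omega) (by omega) (by omega)
    hc hQ ?_
  · simpa only [rr_zero, Nat.cast_one, mul_one] using this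
  have e1 := enW_box (k := 0) (t := g) (j := 5 * g) (Λ := κ / 2 + 1) (υ := l - 17 * g)
    (ω₀ := g / 5) Subset.rfl hw hκ (by omega) (by omega) (by omega)
    fun p hp hd => b2 p hp (by omega)
  have e2 := card_cls_full (j := 5 * g) (Λ := κ / 2 + 1) Subset.rfl hw hκ (by omega) (by omega) 0 g
  have e3 := reg_const (b4 κ (5 * g) hk (by omega))
  refine reg_fin (b := 0) (a := 2 * g + (2 * κ + 2 * (κ / 2 + 1) + (κ - 0 * (5 * g)) + 5 * g))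
    Fintype.one_lt_card ?_ (b3 (l - 17 * g) (by omega) (by omega)) (by omega)
  generalize ((Omg (Mn K N) w (5 * g) 0 g (κ / 2 + 1)).image Prod.fst).card = c at e1 e2 ⊢
  generalize Fintype.card K = q at e1 e2 e3 ⊢
  generalize (Irr K (l - 17 * g)).card = U at e1 ⊢
  generalize 2 ^ (κ / (5 * g)) = x at e2 e3
  generalize 2 * (κ / 2 + 1) = Λ at e1 ⊢
  generalize κ - 0 * (5 * g) = P
  calc _ ≤ c * (2 * 12 ^ (g / 5) * q ^ Λ * U) * c * q ^ P * q ^ (5 * g) * q ^ 0 := by gcongr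
    _ ≤ x * q ^ κ * (2 * 12 ^ (g / 5) * q ^ Λ * U) * (x * q ^ κ) * q ^ P * q ^ (5 * g) *
        q ^ 0 := by gcongr
    _ = 2 * x ^ 2 * 12 ^ (g / 5) * (q ^ (2 * κ + Λ + P + 5 * g) * U) := by ring
    _ ≤ q ^ (2 * g) * (q ^ (2 * κ + Λ + P + 5 * g) * U) := by gcongr
    _ = _ := by ring

end Pool.Agent.P.MP_3bc45c_nt.SI
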