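import Pool.Agent.P.MP_3bc45c_nt.SI.Cls
import Pool.Agent.P.MP_3bc45c_nt.SI.GB
import Pool.Agent.P.MP_3bc45c_nt.SI.Div

namespace Pool.Agent.P.MP_3bc45c_nt.SI

open Polynomial Finset Pool.Agent.P.MP_a1177c_nt.HL
open scoped Classical

variable {K : Type*} [Field K] [Fintype K] [CharP K 2]

private theorem sw_enum {α : Type*} [One α] (k : ℕ) (T : Finset α) : ∃ e : Fin k → α,
    T.card = k → (∀ i, e i ∈ T) ∧ ∀ F : α → ℝ, ∏ i, F (e i) = ∏ π ∈ T, F π := by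
  by_cases h : T.card = k
  · refine ⟨fun i => (T.equivFinOfCardEq h).symm i, fun _ => ⟨fun i => Subtype.property _, fun F => ?_⟩⟩
    rw [← Finset.prod_coe_sort T, ← (T.equivFinOfCardEq h).symm.prod_comp]
  · exact ⟨fun _ => 1, fun e => absurd e h⟩

private theorem sw_data {w : K[X]} (hw : w.Monic) {t j : ℕ} (hj : 3 * t + w.natDegree < j)
    (Y : K[X]) (T : Finset K[X]) :
    ∃ (κ₀ : K[X] → ℝ) (κ : K[X] → K[X] → ℝ) (s : K[X]), (∀ x, |κ₀ x| ≤ 1) ∧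
      (∀ π x, |κ π x| ≤ 1) ∧ (Y.Monic → goodY t Y → T ⊆ Irr K j → (∏ π ∈ T, π) ∣ Y →
      (∀ x v, κ₀ (x + (y1 w Y * v) ^ 2) = κ₀ x) ∧
      (∀ π x v, κ π (x + (π * v) ^ 2) = κ π x) ∧ IsCoprime s (cof w Y T) ∧
      ∀ x : K[X], x.natDegree ≤ Y.natDegree →
        mu (x ^ 2 + X * Y ^ 2) = κ₀ x * (∏ π ∈ T, κ π x) *
          kl (cof w Y T) (s * (derivative x ^ 2 + X * derivative Y ^ 2) ^ 3) (x ^ 2)) := by
  by_cases h : Y.Monic ∧ goodY t Y ∧ T ⊆ Irr K j ∧ (∏ π ∈ T, π) ∣ Y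
  · obtain ⟨κ₀, κ, s, a1, a2, a3, a4⟩ := mu_cof hw h.1 h.2.1 h.2.2.1 h.2.2.2 hj
    exact ⟨κ₀, κ, s, a1, a3, fun _ _ _ _ => ⟨a2, a4⟩⟩
  · exact ⟨0, 0, 1, by simp, by simp, fun a b c d => absurd ⟨a, b, c, d⟩ h⟩

private theorem sw_shift (w y x Y d v : K[X]) (h : w * d = x ^ 2 + X * Y ^ 2) :
    w * (d + w ^ 3 * y ^ 4 * (v ^ 2) ^ 2) = (x + (w * y * v) ^ 2) ^ 2 + X * Y ^ 2 := by
  linear_combination h - (x * (w * y * v) ^ 2) * two_eq_zero_poly (K := K)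

private theorem sw_good (k R : ℕ) : ∃ g₀ : ℕ, ∀ g ≥ g₀, ∀ (D : Finset K[X]) (w : K[X])
    (c : K[X] → ℝ)
    (N L h ω κ j l Λ υ : ℕ), D ⊆ Mn K N → Inv D L → D.card ≤ Fintype.card K ^ h → N ≤ R * g →
    w ∈ Irr K ω → ω ≤ g + 1 → N + ω = 2 * κ + 1 → 5 * g ≤ j → j ≤ 10 * g → k * j ≤ κ →
    4 * l ≤ L → 2 * l ≤ κ → l ≤ Λ → g ≤ υ → υ + 17 * g ≤ l → (∀ d, |c d| ≤ 1) → QI D L c →
    (EnW D w j k g Λ υ : ℝ) * ((Omg D w j k g Λ).image Prod.fst).card *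
        (Fintype.card K : ℝ) ^ (κ - k * j) * (Fintype.card K : ℝ) ^ (5 * g) ≤
      ((Fintype.card K : ℝ) ^ h * (Irr K υ).card) ^ 2 →
    |∑ d ∈ D.filter (fun d => goodY g (od (w * d))), c d * mu (w * d) * rr j k (od (w * d))| ≤
      3 * (Fintype.card K : ℝ) ^ (-(2 * cSW k R * g)) * (2 ^ (R + 1) * (Fintype.card K : ℝ) ^ h) := by
  obtain ⟨C, C1, hgb⟩ := gb (K := K) k (R + 1) (by omega)
  obtain ⟨A, hA⟩ := pow_unbounded_of_one_lt C (one_lt_two (α := ℝ))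
  have A0 : 0 < A := by
    rcases Nat.eq_zero_or_pos A with rfl | e
    · rw [pow_zero] at hA; linarith
    · exact e
  have Q2 : (2 : ℝ) ≤ Fintype.card K := ro_two_le
  set Q : ℝ := (Fintype.card K : ℝ) with hQ
  have Q1 : 1 ≤ Q := by linarith
  have Q0 : 0 < Q := by linarith
  obtain ⟨M, hM⟩ : ∃ M : ℕ, M = 2 ^ (k + 1) := ⟨_, rfl⟩
  have M1 : 1 ≤ M := hM ▸ Nat.one_le_two_pow
  have M1' : (1 : ℝ) ≤ M := by exact_mod_cast M1
  have B0 : 0 < 4 * M * A := by positivity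
  obtain ⟨k₀, hk₀⟩ := card_pf_le (K := K) (ε := 1 / (((4 * M * A : ℕ) : ℝ) * (R + 1)))
    (by positivity)
  obtain ⟨j₀, hj₀⟩ := card_Irr_ge (K := K)
  obtain ⟨g₁, hg₁⟩ := absorb (A := 2 * ((R : ℝ) + 1) ^ 2) Q2 (one_half_pos (α := ℝ)) 2
  refine ⟨2 + k₀ + j₀ + g₁ + 2 * A + 4 * M * (k + 2), fun g hg D w c N L h ω κ j l Λ υ hD hI hDc
    hN hw hω hκ hj1 hj2 hkj hl1 hl2 hΛ hυ1 hυ2 hc hq hE => ?_⟩
  have g2 : 2 ≤ g := by omega
  obtain ⟨wm, wd, wi⟩ := mem_Irr.1 hw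
  have hj : 3 * g + w.natDegree < j := by omega
  have κle : κ ≤ (R + 1) * g := by rw [add_mul]; omega
  have κj : κ / j ≤ R + 1 := Nat.div_le_of_le_mul (by nlinarith)
  choose κ₀ κ' s b1 b2 b3 using sw_data wm hj
  choose en hen using sw_enum (α := K[X]) k
  have hP : ∀ p : K[X], p ≠ 0 → p.natDegree ≤ κ → (pf p).card ≤ g / (4 * M * A) := by
    intro p hp hd
    have := hk₀ ((R + 1) * g) (by nlinarith) p hp (hd.trans κle)
    rw [Nat.le_div_iff_mul_le B0]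
    have e : 1 / (((4 * M * A : ℕ) : ℝ) * (R + 1)) * ((R + 1) * g : ℕ) = g / (4 * M * A : ℕ) := by
      push_cast
      field_simp
    rw [e, le_div_iff₀ (by exact_mod_cast B0)] at this
    exact_mod_cast this
  obtain ⟨ω₀, hω₀⟩ : ∃ ω₀, ω₀ = g / (4 * M * A) := ⟨_, rfl⟩
  rw [← hω₀] at hP
  have ω1 : ω₀ * (4 * M * A) ≤ g := hω₀ ▸ Nat.div_mul_le_self _ _
  have pt : ∀ z ∈ Omg D w j k g Λ, ∃ d ∈ D, w * d = z.2 ^ 2 + X * z.1.1 ^ 2 ∧ z.1.1 ∈ Mn K κ ∧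
      z.2 ∈ Pl K (κ + 1) ∧ goodY g z.1.1 ∧ z.1.2.1 ⊆ Irr K j ∧ z.1.2.1.card = k ∧
      (∏ π ∈ z.1.2.1, π) ∣ z.1.1 ∧ z.1.2.2 = z.2 /ₘ X ^ (2 * Λ) := fun z hz => by
    obtain ⟨d, hd, a1, a2, a3⟩ := mem_Omg.1 hz
    have hm : w * d ∈ Mn K (2 * κ + 1) := by
      obtain ⟨dm, dd⟩ := mem_Mn.1 (hD hd)
      exact mem_Mn.2 ⟨wm.mul dm, by rw [wm.natDegree_mul dm]; omega⟩
    have := od_mem_Mn hm
    rw [a1, a2] at this
    exact ⟨d, hd, by rw [← a1, ← a2, ev_add_od], this.1, this.2, a3⟩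
  have sh : ∀ Y : K[X], (y1 w Y).natDegree ≤ 3 * g + w.natDegree → ∀ v ∈ Pl K (l - 6 * g),
      w ^ 3 * y1 w Y ^ 4 * (v ^ 2) ^ 2 ∈ Pl K L ∧ (w * y1 w Y * v) ^ 2 ∈ Pl K (2 * Λ) := by
    intro Y hY v hv
    constructor
    · have v2 : v ^ 2 ∈ Pl K (2 * (l - 6 * g)) := sq_mem_Pl_iff.2 (Pl_mono (by omega) hv)
      have v4 : (v ^ 2) ^ 2 ∈ Pl K (4 * (l - 6 * g)) := sq_mem_Pl_iff.2 (Pl_mono (by omega) v2)
      have d1 : (w ^ 3 * y1 w Y ^ 4).natDegree ≤ 3 * ω + 4 * (3 * g + ω) :=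
        natDegree_mul_le.trans (add_le_add (natDegree_pow_le.trans (by omega))
          (natDegree_pow_le.trans (by omega)))
      exact Pl_mono (by omega) (mul_mem_Pl d1 v4)
    · have d1 : (w * y1 w Y).natDegree ≤ ω + (3 * g + ω) := natDegree_mul_le.trans (by omega)
      exact sq_mem_Pl_iff.2 (Pl_mono (by omega) (mul_mem_Pl d1 hv))
  have dv : ∀ {d e : K[X]}, w * d = e → e /ₘ w = d := fun e => by
    rw [← e, mul_divByMonic_cancel_left _ wm]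
  have U1 := hj₀ υ (by omega)
  have U0 : (0 : ℝ) < (Irr K υ).card := by
    have : 0 < Q ^ υ := by positivity
    by_contra hn
    have : 2 * (υ : ℝ) * (Irr K υ).card ≤ 0 :=
      mul_nonpos_of_nonneg_of_nonpos (by positivity) (not_lt.1 hn)
    linarith
  obtain ⟨e, he⟩ : ∃ e : ℝ, e = 1 / (2 * M * (R + 1)) := ⟨_, rfl⟩
  have R0 : (0 : ℝ) ≤ R := Nat.cast_nonneg R
  have g0 : (0 : ℝ) ≤ g := Nat.cast_nonneg g
  have e1 : e * (2 * M * (R + 1)) = 1 := by rw [he]; field_simp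
  have e0 : 0 < e := by rw [he]; positivity
  have e2 : e * (2 * M) ≤ 1 := by nlinarith [mul_nonneg (mul_pos e0 (by linarith : (0 : ℝ) < M)).le R0]
  have key := hgb g υ j (l - 6 * g) (κ - k * j) ω₀ (g / M) (Omg D w j k g Λ) (Irr K υ)
    (fun ι => cof w ι.1 ι.2.1) (fun ι => w * y1 w ι.1) (fun ι => s ι.1 ι.2.1)
    (fun ι => X * derivative ι.1 ^ 2) (fun ι => Fin.cons 1 (en ι.2.1))
    (fun ι x => c ((x ^ 2 + X * ι.1 ^ 2) /ₘ w) * κ₀ ι.1 ι.2.1 x)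
    (fun ι => Fin.cons (fun _ => 1) fun i => κ' ι.1 ι.2.1 (en ι.2.1 i))
    (2 ^ (R + 1) * Q ^ h) (Q ^ (-(e * g))) subset_rfl (card_pos.1 (by exact_mod_cast U0))
    (by omega) (Nat.div_le_self _ _) (by omega) ?_ ?_ ?_ ?_ ?_ ?_ ?_ (by positivity) ?_ ?_ ?_
  · rw [← sum_Omg wm j k g Λ fun d => c d * mu (w * d)]
    refine le_of_pow_le_pow_left₀ (n := 2 ^ (k + 1)) (by positivity) (by positivity)
      (le_trans (le_of_eq ?_) (key.trans ?_))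
    · congr 2
      refine sum_congr rfl fun z hz => ?_
      obtain ⟨d, -, a1, a2, a3, a4, a5, a6, a7, -⟩ := pt z hz
      obtain ⟨Ym, Yd⟩ := mem_Mn.1 a2
      have xd : z.2.natDegree ≤ z.1.1.natDegree := by
        rw [Yd]
        rcases eq_or_ne z.2 0 with e0 | e0
        · simp [e0]
        · exact Nat.lt_succ_iff.1 ((natDegree_lt_iff_degree_lt e0).2 (mem_Pl.1 a3))
      rw [dv a1, a1, (b3 _ _ Ym a4 a5 a7).2.2.2 z.2 xd, Fin.prod_univ_succ]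
      simp only [Fin.cons_zero, Fin.cons_succ, one_mul]
      rw [(hen _ a6).2 fun π => κ' z.1.1 z.1.2.1 π z.2]
      ring
    · rw [mul_pow (3 * _), mul_pow 3, ← Real.rpow_natCast (Q ^ (-(2 * cSW k R * g))),
        ← Real.rpow_mul Q0.le]
      have : -(2 * cSW k R * g) * ((2 ^ (k + 1) : ℕ) : ℝ) = -(e * g) := by
        rw [he, hM, cSW, show (4 : ℝ) = 2 ^ 2 by norm_num, ← pow_mul]
        push_cast
        field_simp
        ring
      rw [this]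
      gcongr
      exact le_self_pow₀ (by norm_num) (by positivity)
  · intro z hz
    obtain ⟨d, -, -, a2, -, a4, a5, a6, a7, -⟩ := pt z hz
    obtain ⟨Ym, Yd⟩ := mem_Mn.1 a2
    obtain ⟨-, c2, -, -, -, -, c7, c8, c9, c10⟩ := cof_spec wm Ym a4 a5 a7 hj
    rw [a6, Yd] at c7
    refine ⟨c2, c8, by omega, hP _ c2.ne_zero (by omega), c9, (b3 _ _ Ym a4 a5 a7).2.2.1,
      fun i => ?_⟩
    refine Fin.cases ⟨isCoprime_one_left, by simp⟩ (fun i => ?_) i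
    have m := (hen _ a6).1 i
    exact ⟨c10 _ m, (mem_Irr.1 (a5 m)).2.1.le⟩
  · intro z hz v hv
    obtain ⟨d, hd, a1, a2, -, a4, a5, a6, a7, a8⟩ := pt z hz
    obtain ⟨s1, s2⟩ := sh _ (cof_spec wm (mem_Mn.1 a2).1 a4 a5 a7 hj).2.2.2.2.2.1 v hv
    refine mem_Omg.2 ⟨_, hI d hd _ s1, ?_, ?_, a4, a5, a6, a7, ?_⟩
    · rw [sw_shift _ _ _ _ _ _ a1, od_mk]
    · rw [sw_shift _ _ _ _ _ _ a1, ev_mk]
    · rw [divX_add_of_mem_Pl s2, a8]
  · intro ι x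
    rw [abs_mul]
    exact mul_le_one₀ (hc _) (abs_nonneg _) (b1 _ _ _)
  · intro z hz v₁ h₁ v₂ h₂ v₃ h₃
    obtain ⟨d, hd, a1, a2, -, a4, a5, -, a7, -⟩ := pt z hz
    have yd := (cof_spec wm (mem_Mn.1 a2).1 a4 a5 a7 hj).2.2.2.2.2.1
    have k0 : ∀ x v, κ₀ z.1.1 z.1.2.1 (x + (w * y1 w z.1.1 * v) ^ 2) = κ₀ z.1.1 z.1.2.1 x :=
      fun x v => by
        rw [← (b3 _ _ (mem_Mn.1 a2).1 a4 a5 a7).1 x (w * v)]
        congr 3
        ring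
    have := hq d hd _ (sh _ yd v₁ h₁).1 _ (sh _ yd v₂ h₂).1 _ (sh _ yd v₃ h₃).1
    simp only [k0, dv (sw_shift _ _ _ _ _ _ a1),
      dv (sw_shift _ _ _ _ _ _ (sw_shift _ _ _ _ _ _ a1))]
    linear_combination κ₀ z.1.1 z.1.2.1 z.2 ^ 2 * this
  · intro ι i x
    refine Fin.cases (by simp) (fun i => ?_) i
    exact b2 _ _ _ _
  · intro z hz i x v
    obtain ⟨d, -, -, a2, -, a4, a5, -, a7, -⟩ := pt z hz
    refine Fin.cases rfl (fun i => ?_) i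
    exact (b3 _ _ (mem_Mn.1 a2).1 a4 a5 a7).2.1 _ x v
  · have := (card_Omg_le hD hw hκ (by omega : 1 ≤ j) k g Λ).trans
      (Nat.mul_le_mul (Nat.pow_le_pow_right two_pos κj) hDc)
    rw [hQ]
    exact_mod_cast this
  · have a1 := hg₁ g (by omega)
    have a2 : (ω₀ : ℝ) ≤ (R + 1) * g := by
      have : ω₀ ≤ (R + 1) * g := by nlinarith
      exact_mod_cast this
    have a3 : (υ : ℝ) ≤ (R + 1) * g := by
      have : υ ≤ (R + 1) * g := by omega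
      exact_mod_cast this
    have υ0 : (0 : ℝ) < υ := by exact_mod_cast (by omega : 0 < υ)
    have a4 : Q ^ (1 / 2 * (g : ℝ)) ≤ Q ^ (-(e * g)) * Q ^ υ := by
      rw [← Real.rpow_natCast, ← Real.rpow_add Q0]
      refine Real.rpow_le_rpow_of_exponent_le Q1 ?_
      have : (g : ℝ) ≤ υ := by exact_mod_cast hυ1
      nlinarith [mul_nonneg g0 (by nlinarith : 0 ≤ 1 / 2 - e)]
    have a5 : 2 * (υ : ℝ) * ω₀ ≤ 2 * υ * (Q ^ (-(e * g)) * (Irr K υ).card) :=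
      calc 2 * (υ : ℝ) * ω₀ ≤ 2 * ((R + 1) * g) * ((R + 1) * g) := by gcongr
        _ = 2 * ((R : ℝ) + 1) ^ 2 * g ^ 2 := by ring
        _ ≤ Q ^ (-(e * g)) * Q ^ υ := a1.trans a4
        _ ≤ Q ^ (-(e * g)) * (2 * υ * (Irr K υ).card) := by gcongr
        _ = _ := by ring
    exact le_of_mul_le_mul_left a5 (by positivity)
  · rw [← pow_add, ← Real.rpow_natCast Q, ← Real.rpow_add Q0]
    refine (pow_le_pow_left₀ (by norm_num) Q2 _).trans ?_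
    rw [← Real.rpow_natCast Q]
    refine Real.rpow_le_rpow_of_exponent_le Q1 ?_
    have a1 : (g : ℝ) ≤ M * ((g / M : ℕ) + 1) := by
      exact_mod_cast (Nat.lt_mul_div_succ g M1).le
    have a2 : 4 * (M : ℝ) * ω₀ ≤ g := by
      have : 4 * M * ω₀ ≤ g := by nlinarith
      exact_mod_cast this
    have a3 : 4 * (M : ℝ) * (k + 2) ≤ g := by
      have : 4 * M * (k + 2) ≤ g := by omega
      exact_mod_cast this
    refine le_of_mul_le_mul_left ?_ (by linarith : (0 : ℝ) < M)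
    push_cast
    nlinarith [mul_le_mul_of_nonneg_right e2 g0]
  · have a1 : C ^ (ω₀ + 1) ≤ Q ^ g :=
      calc C ^ (ω₀ + 1) ≤ (Q ^ A) ^ (ω₀ + 1) :=
            pow_le_pow_left₀ (by linarith) (hA.le.trans (pow_le_pow_left₀ (by norm_num) Q2 _)) _
        _ ≤ Q ^ g := by
            rw [← pow_mul]
            refine pow_le_pow_right₀ Q1 ?_
            have : 2 * (A * ω₀) ≤ g := by nlinarith
            have : 2 * A ≤ g := by omega
            rw [mul_add]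
            omega
    have a2 : Q ^ (2 ^ (k + 1) * (g / M)) ≤ Q ^ g :=
      pow_le_pow_right₀ Q1 (by rw [← hM]; exact Nat.mul_div_le _ _)
    have a3 : 1 ≤ (Q ^ (-(e * g))) ^ (2 * (R + 1)) * Q ^ g := by
      rw [← Real.rpow_natCast, ← Real.rpow_natCast, ← Real.rpow_mul Q0.le, ← Real.rpow_add Q0]
      refine Real.one_le_rpow Q1 ?_
      push_cast
      have : e * (2 * (R + 1)) ≤ 1 := by
        nlinarith [mul_nonneg (mul_pos e0 (by linarith : (0 : ℝ) < R + 1)).le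
          (by linarith : (0 : ℝ) ≤ M - 1)]
      nlinarith [mul_le_mul_of_nonneg_right this g0]
    suffices fin : ∀ Z : ℝ, 0 ≤ Z → Z * Q ^ (5 * g) ≤ (Q ^ h * (Irr K υ).card) ^ 2 →
        Z * C ^ (ω₀ + 1) * Q ^ (2 ^ (k + 1) * (g / M)) ≤
          (Q ^ (-(e * g))) ^ (2 * (R + 1)) * (2 ^ (R + 1) * Q ^ h * (Irr K υ).card) ^ 2 from
      fin _ (by positivity) (by rw [image_inst _ inferInstance]; exact hE)
    intro Z Z0 hZ
    calc Z * C ^ (ω₀ + 1) * Q ^ (2 ^ (k + 1) * (g / M)) ≤ Z * Q ^ g * Q ^ g := by gcongr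
      _ ≤ Z * Q ^ g * Q ^ g * ((Q ^ (-(e * g))) ^ (2 * (R + 1)) * Q ^ g) :=
          le_mul_of_one_le_right (by positivity) a3
      _ = (Q ^ (-(e * g))) ^ (2 * (R + 1)) * (Z * Q ^ (3 * g)) := by ring
      _ ≤ (Q ^ (-(e * g))) ^ (2 * (R + 1)) * (Z * Q ^ (5 * g)) := by gcongr; omega
      _ ≤ (Q ^ (-(e * g))) ^ (2 * (R + 1)) * (Q ^ h * (Irr K υ).card) ^ 2 := by gcongr
      _ ≤ _ := by
          gcongr
          exact le_mul_of_one_le_left (by positivity) (one_le_pow₀ (by norm_num))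

theorem sw (k R : ℕ) : ∃ g₀ : ℕ, ∀ g ≥ g₀, ∀ (D : Finset K[X]) (w : K[X]) (c : K[X] → ℝ)
    (N L h ω κ j l Λ υ : ℕ), D ⊆ Mn K N → Inv D L → D.card ≤ Fintype.card K ^ h → N ≤ R * g →
    w ∈ Irr K ω → ω ≤ g + 1 → N + ω = 2 * κ + 1 → 5 * g ≤ j → j ≤ 10 * g → k * j ≤ κ →
    4 * l ≤ L → 2 * l ≤ κ → l ≤ Λ → g ≤ υ → υ + 17 * g ≤ l → (∀ d, |c d| ≤ 1) → QI D L c →
    (EnW D w j k g Λ υ : ℝ) * ((Omg D w j k g Λ).image Prod.fst).card *
        (Fintype.card K : ℝ) ^ (κ - k * j) * (Fintype.card K : ℝ) ^ (5 * g) ≤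
      ((Fintype.card K : ℝ) ^ h * (Irr K υ).card) ^ 2 →
    |∑ d ∈ D, c d * mu (w * d) * rr j k (od (w * d))| ≤
      (Fintype.card K : ℝ) ^ h * (Fintype.card K : ℝ) ^ (-(cSW k R * g)) := by
  obtain ⟨g₁, hg₁⟩ := sw_good (K := K) k R
  have R0 : (0 : ℝ) ≤ R := Nat.cast_nonneg R
  obtain ⟨n₀, hn₀⟩ := card_monic_dvd_le (K := K) (ε := 1 / (2 * ((R : ℝ) + 1))) (by positivity)
  have Q2 : (2 : ℝ) ≤ Fintype.card K := ro_two_le
  have c0 : 0 < cSW k R := by unfold cSW; positivity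
  have c1 : cSW k R ≤ 1 / 4 := by
    unfold cSW
    refine one_div_le_one_div_of_le (by norm_num) ?_
    have : (4 : ℝ) ≤ 4 ^ (k + 2) := le_self_pow₀ (by norm_num) (by omega)
    nlinarith
  obtain ⟨g₂, hg₂⟩ := absorb (A := 4 * 2 ^ (R + 1)) Q2 c0 0
  refine ⟨1 + g₁ + g₂ + n₀, fun g hg D w c N L h ω κ j l Λ υ hD hI hDc
    hN hw hω hκ hj1 hj2 hkj hl1 hl2 hΛ hυ1 hυ2 hc hq hE => ?_⟩
  have good := hg₁ g (by omega) D w c N L h ω κ j l Λ υ hD hI hDc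
    hN hw hω hκ hj1 hj2 hkj hl1 hl2 hΛ hυ1 hυ2 hc hq hE
  have bad := bad_sum (t := g) hD hI hw hκ (by omega : 4 * l ≤ L + ω) (by omega) hl2 (by omega)
    (hn₀ κ (by omega))
  have ab := hg₂ g (by omega)
  have hDc' : (D.card : ℝ) ≤ (Fintype.card K : ℝ) ^ h := by exact_mod_cast hDc
  set Q : ℝ := (Fintype.card K : ℝ)
  have Q1 : 1 ≤ Q := by linarith
  have Q0 : 0 < Q := by linarith
  have g0 : (0 : ℝ) ≤ g := Nat.cast_nonneg g
  have κle : κ ≤ (R + 1) * g := by rw [add_mul]; omega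
  have κj : κ / j ≤ R + 1 := Nat.div_le_of_le_mul (by nlinarith)
  obtain ⟨wm, wd, -⟩ := mem_Irr.1 hw
  have b1 : |∑ d ∈ D.filter (fun d => ¬goodY g (od (w * d))),
      c d * mu (w * d) * rr j k (od (w * d))| ≤
      (D.filter fun d => ¬goodY g (od (w * d))).card * 2 ^ (R + 1) := by
    refine (abs_sum_le_sum_abs _ _).trans ?_
    rw [← nsmul_eq_mul]
    refine sum_le_card_nsmul _ _ _ fun d hd => ?_
    obtain ⟨dm, dd⟩ := mem_Mn.1 (hD (mem_filter.1 hd).1)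
    obtain ⟨Ym, Yd⟩ := mem_Mn.1 (od_mem_Mn (κ := κ) (mem_Mn.2
      ⟨wm.mul dm, by rw [wm.natDegree_mul dm]; omega⟩)).1
    have r : (rr j k (od (w * d)) : ℝ) ≤ 2 ^ (R + 1) := by
      exact_mod_cast (rr_le (by omega) Ym.ne_zero Yd.le).trans (Nat.pow_le_pow_right two_pos κj)
    rw [abs_mul, abs_mul, Nat.abs_cast]
    exact (mul_le_of_le_one_left (by positivity)
      (mul_le_one₀ (hc d) (abs_nonneg _) (abs_mu_le _))).trans r
  have b2 : ((D.filter fun d => ¬goodY g (od (w * d))).card : ℝ) ≤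
      Q ^ (-(2 * cSW k R * g)) * Q ^ h := by
    refine le_of_mul_le_mul_right (bad.trans ?_) (pow_pos Q0 g)
    rw [mul_right_comm, ← Real.rpow_natCast Q g, ← Real.rpow_add Q0]
    gcongr
    have κr : (κ : ℝ) ≤ (R + 1) * g := by exact_mod_cast κle
    have : 1 / (2 * ((R : ℝ) + 1)) * κ ≤ g / 2 := by
      rw [one_div, inv_mul_le_iff₀ (by positivity)]
      linarith
    nlinarith [mul_le_mul_of_nonneg_right c1 g0]
  rw [← sum_filter_add_sum_filter_not D fun d => goodY g (od (w * d))]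
  refine (abs_add_le _ _).trans ?_
  have e : Q ^ (-(cSW k R * g)) = Q ^ (cSW k R * g) * Q ^ (-(2 * cSW k R * g)) := by
    rw [← Real.rpow_add Q0]
    congr 1
    ring
  rw [pow_zero, mul_one] at ab
  calc _ ≤ 3 * Q ^ (-(2 * cSW k R * g)) * (2 ^ (R + 1) * Q ^ h) +
        Q ^ (-(2 * cSW k R * g)) * Q ^ h * 2 ^ (R + 1) :=
        add_le_add good (b1.trans (by gcongr))
    _ = Q ^ h * (4 * 2 ^ (R + 1) * Q ^ (-(2 * cSW k R * g))) := by ring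
    _ ≤ _ := by rw [e]; gcongr

end Pool.Agent.P.MP_3bc45c_nt.SI
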