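import Pool.Agent.P.MP_3bc45c_nt.SI.Dual

namespace Pool.Agent.P.MP_3bc45c_nt.SI

open Polynomial Finset Pool.Agent.P.MP_a1177c_nt.HL
open scoped Classical

variable {K : Type*} [Field K] [Fintype K] [CharP K 2]

private theorem var_monic {j : ℕ} {T : Finset K[X]} (hT : T ⊆ Irr K j) :
    (∏ π ∈ T, π).Monic :=
  monic_prod_of_monic _ _ fun _ hπ => (mem_Irr.1 (hT hπ)).1

private theorem var_deg {j : ℕ} {T : Finset K[X]} (hT : T ⊆ Irr K j) :
    (∏ π ∈ T, π).natDegree = T.card * j := by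
  rw [natDegree_prod_of_monic _ _ fun π hπ => (mem_Irr.1 (hT hπ)).1,
    sum_congr rfl fun π hπ => (mem_Irr.1 (hT hπ)).2.1, sum_const, smul_eq_mul]

private theorem var_dvd_iff {j : ℕ} {T : Finset K[X]} (hT : T ⊆ Irr K j) {π : K[X]}
    (hπ : π ∈ Irr K j) : π ∣ ∏ ρ ∈ T, ρ ↔ π ∈ T := by
  refine ⟨fun h => ?_, fun h => dvd_prod_of_mem _ h⟩
  obtain ⟨h1, -, h3⟩ := mem_Irr.1 hπ
  obtain ⟨ρ, hρ, hd⟩ := (Prime.dvd_finsetProd_iff h3.prime _).1 h
  obtain ⟨r1, -, r3⟩ := mem_Irr.1 (hT hρ)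
  rwa [eq_of_monic_of_associated h1 r1 (h3.associated_of_dvd r3 hd)]

private theorem var_inj {j : ℕ} {T T' : Finset K[X]} (hT : T ⊆ Irr K j) (hT' : T' ⊆ Irr K j)
    (h : ∏ π ∈ T, π = ∏ π ∈ T', π) : T = T' := by
  ext π
  constructor
  · intro hπ
    rw [← var_dvd_iff hT' (hT hπ), ← h]
    exact dvd_prod_of_mem _ hπ
  · intro hπ
    rw [← var_dvd_iff hT (hT' hπ), h]
    exact dvd_prod_of_mem _ hπ

private theorem var_coprime {j : ℕ} {T : Finset K[X]} (hT : T ⊆ Irr K j) {c : K[X]}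
    (hc : ∀ π ∈ T, ¬ π ∣ c) : IsCoprime c (∏ π ∈ T, π) :=
  IsCoprime.prod_right fun π hπ =>
    ((mem_Irr.1 (hT hπ)).2.2.coprime_iff_not_dvd.2 (hc π hπ)).symm

private theorem var_coprime' {j : ℕ} {T : Finset K[X]} (hT : T ⊆ Irr K j) {Δ : K[X]}
    (hΔ : Δ ≠ 0) (hj : Δ.natDegree < j) : IsCoprime Δ (∏ π ∈ T, π) :=
  var_coprime hT fun π hπ hd => by
    have h1 := natDegree_le_of_dvd hd hΔ
    rw [(mem_Irr.1 (hT hπ)).2.1] at h1
    omega

omit [CharP K 2] in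
private theorem var_rr (j k : ℕ) (Y : K[X]) :
    (rr j k Y : ℝ) = ∑ T ∈ (Irr K j).powersetCard k, if (∏ π ∈ T, π) ∣ Y then 1 else 0 := by
  rw [sum_boole, rr]

omit [CharP K 2] in
private theorem var_sig (j k n : ℕ) (h : k * j ≤ n) :
    (((Irr K j).powersetCard k).card : ℝ) * (Fintype.card K : ℝ) ^ (n - k * j)
      = sig K j k * (Fintype.card K : ℝ) ^ n := by
  have hq : (0 : ℝ) < Fintype.card K := by exact_mod_cast Fintype.card_pos
  obtain ⟨m, rfl⟩ := Nat.exists_eq_add_of_le h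
  rw [card_powersetCard, sig, Nat.add_sub_cancel_left, pow_add]
  field_simp

theorem sum_rr {j k κ : ℕ} (hj : 1 ≤ j) (hk : k * j ≤ κ) :
    ∑ Y ∈ Mn K κ, (rr j k Y : ℝ) = sig K j k * (Fintype.card K : ℝ) ^ κ := by
  have _ := hj
  simp only [var_rr]
  rw [sum_comm, ← var_sig j k κ hk, ← nsmul_eq_mul, ← sum_const]
  refine sum_congr rfl fun T hT => ?_
  obtain ⟨h1, h2⟩ := mem_powersetCard.1 hT
  have hd : (∏ π ∈ T, π).natDegree = k * j := by rw [var_deg h1, h2]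
  have h := card_Mn_dvd_eq (var_monic h1) (n := κ) (by omega) 0
  simp only [sub_zero, hd] at h
  rw [sum_boole, h]
  push_cast
  rfl

theorem sum_rr_prog {j k l : ℕ} {Δ : K[X]} (hΔ : Δ ≠ 0) (hj : Δ.natDegree < j) (hk : k * j ≤ l)
    (Y : K[X]) :
    ∑ z ∈ Pl K l, (rr j k (Y + Δ * z) : ℝ) = sig K j k * (Fintype.card K : ℝ) ^ l := by
  simp only [var_rr]
  rw [sum_comm, ← var_sig j k l hk, ← nsmul_eq_mul, ← sum_const]
  refine sum_congr rfl fun T hT => ?_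
  obtain ⟨h1, h2⟩ := mem_powersetCard.1 hT
  have hd : (∏ π ∈ T, π).natDegree = k * j := by rw [var_deg h1, h2]
  obtain ⟨u, v, huv⟩ := var_coprime' h1 hΔ hj
  have h := card_Pl_dvd_eq (var_monic h1) (n := l) (by omega) (-(u * Y))
  rw [hd] at h
  set y := ∏ π ∈ T, π
  have e : ∀ z : K[X], y ∣ Y + Δ * z ↔ y ∣ z - -(u * Y) := fun z => by
    constructor
    · intro hz
      have : z - -(u * Y) = u * (Y + Δ * z) + y * (v * z) := by
        linear_combination (-z) * huv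
      rw [this]
      exact dvd_add (hz.mul_left _) (dvd_mul_right _ _)
    · intro hz
      have : Y + Δ * z = Δ * (z - -(u * Y)) + y * (v * Y) := by
        linear_combination (-Y) * huv
      rw [this]
      exact dvd_add (hz.mul_left _) (dvd_mul_right _ _)
  simp only [e]
  rw [sum_boole, h]
  push_cast
  rfl

omit [Fintype K] [CharP K 2] in
private theorem var_mod {e y : K[X]} (he : e.Monic) (hy : y.Monic) (f : K[X]) :
    (e * f) %ₘ (e * y) = e * (f %ₘ y) := by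
  refine (div_modByMonic_unique (f /ₘ y) _ (he.mul hy) ⟨?_, ?_⟩).2
  · conv_rhs => rw [← modByMonic_add_div f y]
    ring
  · rw [degree_mul, degree_mul]
    exact WithBot.add_lt_add_left (degree_ne_bot.2 he.ne_zero) (degree_modByMonic_lt f hy)

omit [CharP K 2] in
private theorem var_mem {e r : K[X]} (he : e.Monic) {n : ℕ} (hr : r ≠ 0) (h : e * r ∈ Pl K n) :
    e.natDegree + r.natDegree < n := by
  rw [mem_Pl, degree_eq_natDegree (mul_ne_zero he.ne_zero hr), he.natDegree_mul' hr] at h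
  exact_mod_cast h

omit [CharP K 2] in
private theorem var_mem' {r : K[X]} {n : ℕ} (h : r.natDegree < n) : r ∈ Pl K n := by
  rw [mem_Pl]
  exact degree_le_natDegree.trans_lt (by exact_mod_cast h)

omit [Fintype K] [CharP K 2] in
private theorem var_dvd_of_mod {y c f f' : K[X]} (hc : IsCoprime c y)
    (h : (c * f) %ₘ y = (c * f') %ₘ y) : y ∣ f - f' := by
  refine hc.symm.dvd_of_dvd_mul_left ⟨(c * f) /ₘ y - (c * f') /ₘ y, ?_⟩
  linear_combination -(modByMonic_add_div (c * f) y) + modByMonic_add_div (c * f') y + h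

omit [CharP K 2] in
/-- few multipliers `c` have a short multiple of `Δ` -/
private theorem var_cnt_c {e y Δ : K[X]} (he : e.Monic) (hy : y.Monic) (hΔ : IsCoprime Δ y)
    (l : ℕ) (C : Finset K[X]) (hC : ∀ c ∈ C, c ∈ Pl K y.natDegree ∧ c ≠ 0 ∧ IsCoprime c y ∧
      e * ((c * Δ) %ₘ y) ∈ Pl K (e.natDegree + y.natDegree - l)) :
    Fintype.card K ^ l * C.card ≤ Fintype.card K ^ y.natDegree := by
  have key : ∀ c ∈ C, ((c * Δ) %ₘ y).natDegree + l < y.natDegree := fun c hc => by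
    obtain ⟨h1, h2, h3, h4⟩ := hC c hc
    have hr : (c * Δ) %ₘ y ≠ 0 := fun h0 => by
      have hd : y ∣ c := hΔ.symm.dvd_of_dvd_mul_right ((modByMonic_eq_zero_iff_dvd hy).1 h0)
      have h5 := natDegree_le_of_dvd hd h2
      rw [mem_Pl, degree_eq_natDegree h2] at h1
      have h6 : c.natDegree < y.natDegree := by exact_mod_cast h1
      omega
    have := var_mem he hr h4
    omega
  rcases C.eq_empty_or_nonempty with rfl | ⟨c₀, hc₀⟩
  · simp
  have hl : l ≤ y.natDegree := by have := key c₀ hc₀; omega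
  have h1 : C.card ≤ (Pl K (y.natDegree - l)).card := by
    refine card_le_card_of_injOn (fun c => (c * Δ) %ₘ y) (fun c hc => ?_) fun c hc c' hc' h => ?_
    · have := key c hc
      exact var_mem' (r := (c * Δ) %ₘ y) (by omega)
    · have h2 : y ∣ c - c' := var_dvd_of_mod hΔ (by simpa only [mul_comm Δ] using h)
      have h3 : (c - c').degree < y.degree := by
        rw [degree_eq_natDegree hy.ne_zero]
        exact (degree_sub_le _ _).trans_lt
          (max_lt (mem_Pl.1 (hC c hc).1) (mem_Pl.1 (hC c' hc').1))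
      exact sub_eq_zero.1 (eq_zero_of_dvd_of_degree_lt h2 h3)
  rw [card_Pl] at h1
  calc _ ≤ Fintype.card K ^ l * Fintype.card K ^ (y.natDegree - l) := Nat.mul_le_mul_left _ h1
    _ = _ := by rw [← pow_add, Nat.add_sub_cancel' hl]

omit [CharP K 2] in
/-- few monic polynomials have a short multiple by `c` -/
private theorem var_cnt_y {e y c : K[X]} (he : e.Monic) (hy : y.Monic) (hc : IsCoprime c y)
    (P : ℕ) (S : Finset K[X]) (hS : S ⊆ Mn K (e.natDegree + y.natDegree))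
    (hS' : ∀ f ∈ S, e * ((c * f) %ₘ y) ∈ Pl K (e.natDegree + y.natDegree - P)) :
    S.card ≤ Fintype.card K ^ e.natDegree * Fintype.card K ^ (y.natDegree - P) := by
  rw [← card_Pl (K := K) (y.natDegree - P)]
  refine card_le_mul_card_image_of_maps_to (f := fun f => (c * f) %ₘ y) (fun f hf => ?_) _
    fun r _ => ?_
  · by_cases hr : (c * f) %ₘ y = 0
    · rw [hr, mem_Pl, degree_zero]
      exact WithBot.bot_lt_coe _
    · have := var_mem he hr (hS' f hf)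
      exact var_mem' (by omega)
  · have h := card_le_of_Mn hy.ne_zero (S := S.filter fun f => (c * f) %ₘ y = r)
      ((filter_subset _ _).trans hS) fun f hf f' hf' =>
        var_dvd_of_mod hc ((mem_filter.1 hf).2.trans (mem_filter.1 hf').2.symm)
    rwa [Nat.add_sub_cancel] at h

/-- the nonzero dual vectors for one modulus -/
private theorem var_dual {j k l P : ℕ} {Δ : K[X]} (hΔ : Δ ≠ 0) (hj : Δ.natDegree < j)
    {T' : Finset K[X]} (hT' : T' ∈ (Irr K j).powersetCard k) :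
    Fintype.card K ^ l * ∑ T ∈ (Irr K j).powersetCard k,
      ((Pl K (k * j)).filter fun c => c ≠ 0 ∧
        (c * ∏ π ∈ T, π) %ₘ (∏ π ∈ T', π) ∈ Pl K (k * j - P) ∧
        (c * Δ) %ₘ (∏ π ∈ T', π) ∈ Pl K (k * j - l)).card
      ≤ 2 ^ k * (Fintype.card K ^ (k * j) * Fintype.card K ^ (k * j - P)) := by
  obtain ⟨h1, h2⟩ := mem_powersetCard.1 hT'
  set q := Fintype.card K with hq
  have hq0 : 0 < q := Fintype.card_pos
  set y' := ∏ π ∈ T', π with hy'
  set 𝒯 := (Irr K j).powersetCard k with h𝒯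
  set C := (Pl K (k * j)).filter fun c => c ≠ 0 ∧ (c * Δ) %ₘ y' ∈ Pl K (k * j - l) with hC
  set n : K[X] → ℕ := fun c =>
    (𝒯.filter fun T => (c * ∏ π ∈ T, π) %ₘ y' ∈ Pl K (k * j - P)).card with hn
  have e1 : ∑ T ∈ 𝒯, ((Pl K (k * j)).filter fun c => c ≠ 0 ∧
        (c * ∏ π ∈ T, π) %ₘ y' ∈ Pl K (k * j - P) ∧ (c * Δ) %ₘ y' ∈ Pl K (k * j - l)).card
      = ∑ c ∈ C, n c := by
    simp only [hn, hC, card_filter, sum_filter]
    rw [sum_comm]
    refine sum_congr rfl fun c _ => ?_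
    by_cases h : c ≠ 0 ∧ (c * Δ) %ₘ y' ∈ Pl K (k * j - l)
    · rw [if_pos h]
      exact sum_congr rfl fun T _ => by simp only [h.1, h.2, ne_eq, not_false_eq_true,
        and_true, true_and]
    · rw [if_neg h]
      exact sum_eq_zero fun T _ => if_neg fun h' => h ⟨h'.1, h'.2.2⟩
  rw [e1, ← sum_fiberwise_of_maps_to (t := T'.powerset)
    (g := fun c => T'.filter fun π => π ∣ c) fun c _ => mem_powerset.2 (filter_subset _ _),
    mul_sum, ← h2, ← card_powerset, h2, ← smul_eq_mul, ← sum_const]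
  refine sum_le_sum fun T₁ hT₁ => ?_
  have hs : T₁ ⊆ T' := mem_powerset.1 hT₁
  set e := ∏ π ∈ T₁, π with he
  set y := ∏ π ∈ T' \ T₁, π with hy
  have hem : e.Monic := var_monic (hs.trans h1)
  have hym : y.Monic := var_monic (sdiff_subset.trans h1)
  have hey : y' = e * y := by rw [hy', he, hy, mul_comm, prod_sdiff hs]
  have hdeg : e.natDegree + y.natDegree = k * j := by
    rw [← hem.natDegree_mul hym, ← hey, hy', var_deg h1, h2]
  set C₁ := C.filter fun c => (T'.filter fun π => π ∣ c) = T₁ with hC₁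
  have hc : ∀ c ∈ C₁, c = e * (c /ₘ e) ∧ IsCoprime (c /ₘ e) y := fun c hc => by
    have h3 := (mem_filter.1 hc).2
    have hd : e ∣ c := by
      refine Finset.prod_dvd_of_coprime (fun π hπ ρ hρ hne => ?_) fun π hπ => ?_
      · obtain ⟨p1, -, p3⟩ := mem_Irr.1 (h1 (hs hπ))
        obtain ⟨r1, -, r3⟩ := mem_Irr.1 (h1 (hs hρ))
        exact p3.coprime_iff_not_dvd.2 fun hd =>
          hne (eq_of_monic_of_associated p1 r1 (p3.associated_of_dvd r3 hd))
      · rw [← h3] at hπ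
        exact (mem_filter.1 hπ).2
    have h4 : c = e * (c /ₘ e) := by
      have := modByMonic_add_div c e
      rw [(modByMonic_eq_zero_iff_dvd hem).2 hd, zero_add] at this
      exact this.symm
    refine ⟨h4, var_coprime (sdiff_subset.trans h1) fun π hπ hd' => ?_⟩
    obtain ⟨p1, p2⟩ := mem_sdiff.1 hπ
    refine p2 ?_
    rw [← h3]
    exact mem_filter.2 ⟨p1, h4 ▸ hd'.mul_left e⟩
  have b1 : ∀ c ∈ C₁, n c ≤ q ^ e.natDegree * q ^ (y.natDegree - P) := fun c hc' => by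
    obtain ⟨h4, h5⟩ := hc c hc'
    rw [hn]
    simp only
    rw [← card_image_of_injOn (f := fun T : Finset K[X] => ∏ π ∈ T, π) fun T hT U hU h =>
      var_inj (mem_powersetCard.1 (mem_filter.1 hT).1).1
        (mem_powersetCard.1 (mem_filter.1 hU).1).1 h]
    refine var_cnt_y hem hym h5 P _ (fun f hf => ?_) fun f hf => ?_
    · obtain ⟨T, hT, rfl⟩ := mem_image.1 hf
      obtain ⟨t1, t2⟩ := mem_powersetCard.1 (mem_filter.1 hT).1
      exact mem_Mn.2 ⟨var_monic t1, by rw [var_deg t1, t2, hdeg]⟩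
    · obtain ⟨T, hT, rfl⟩ := mem_image.1 hf
      have h6 := (mem_filter.1 hT).2
      rw [h4, hey, mul_assoc, var_mod hem hym] at h6
      rwa [hdeg]
  have b2 : q ^ l * C₁.card ≤ q ^ y.natDegree := by
    rw [← card_image_of_injOn (f := fun c : K[X] => c /ₘ e) fun c hc' d hd' h => by
      rw [(hc c hc').1, (hc d hd').1]
      exact congrArg _ h]
    refine var_cnt_c hem hym (var_coprime' (sdiff_subset.trans h1) hΔ hj) l _ fun f hf => ?_
    obtain ⟨c, hc', rfl⟩ := mem_image.1 hf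
    obtain ⟨h4, h5⟩ := hc c hc'
    obtain ⟨h6, h7, h8⟩ := mem_filter.1 (mem_filter.1 hc').1
    have h9 : c /ₘ e ≠ 0 := fun h0 => h7 (by rw [h4, h0, mul_zero])
    refine ⟨?_, h9, h5, ?_⟩
    · rw [h4] at h6
      have := var_mem hem h9 h6
      exact var_mem' (by omega)
    · rw [h4, hey, mul_assoc, var_mod hem hym] at h8
      rwa [hdeg]
  calc q ^ l * ∑ c ∈ C₁, n c
      ≤ q ^ l * (C₁.card * (q ^ e.natDegree * q ^ (y.natDegree - P))) :=
        Nat.mul_le_mul_left _ (sum_le_card_nsmul _ _ _ b1)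
    _ = q ^ l * C₁.card * (q ^ e.natDegree * q ^ (y.natDegree - P)) := by ring
    _ ≤ q ^ y.natDegree * (q ^ e.natDegree * q ^ (k * j - P)) :=
        Nat.mul_le_mul b2 (Nat.mul_le_mul_left _ (Nat.pow_le_pow_right hq0 (by omega)))
    _ = _ := by rw [← hdeg, pow_add]; ring

/-- one pair of moduli -/
private theorem var_pair {a P l : ℕ} {y y' Δ : K[X]} (hy : y.Monic) (hy' : y'.Monic)
    (ha : y.natDegree = a) (ha' : y'.natDegree = a) :
    Fintype.card K ^ a *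
        ((Mn K (a + P) ×ˢ Pl K l).filter fun x => y ∣ x.1 ∧ y' ∣ x.1 + Δ * x.2).card
      ≤ Fintype.card K ^ (P + l) * (1 + ((Pl K a).filter fun c => c ≠ 0 ∧
        (c * y) %ₘ y' ∈ Pl K (a - P) ∧ (c * Δ) %ₘ y' ∈ Pl K (a - l)).card) := by
  have hd := dual2 hy' y Δ P l
  rw [ha'] at hd
  set S := (Mn K (a + P) ×ˢ Pl K l).filter fun x => y ∣ x.1 ∧ y' ∣ x.1 + Δ * x.2 with hS
  have hm : ∀ x ∈ S, x.1 = y * (x.1 /ₘ y) ∧ x.1 /ₘ y ∈ Mn K P ∧ x.2 ∈ Pl K l ∧
      y' ∣ x.1 + Δ * x.2 := fun x hx => by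
    obtain ⟨h1, h2, h3⟩ := mem_filter.1 hx
    obtain ⟨h4, h5⟩ := mem_product.1 h1
    obtain ⟨h6, h7⟩ := mem_Mn.1 h4
    have h8 : x.1 = y * (x.1 /ₘ y) := by
      have := modByMonic_add_div x.1 y
      rw [(modByMonic_eq_zero_iff_dvd hy).2 h2, zero_add] at this
      exact this.symm
    have h9 : (x.1 /ₘ y).Monic := hy.of_mul_monic_left (h8 ▸ h6)
    refine ⟨h8, mem_Mn.2 ⟨h9, ?_⟩, h5, h3⟩
    rw [h8, hy.natDegree_mul h9] at h7
    omega
  have h1 : S.card ≤ ((Pl K P ×ˢ Pl K l).filter fun z => y' ∣ y * z.1 + Δ * z.2).card := by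
    rw [← card_image_of_injOn (f := fun x : K[X] × K[X] => (x.1 /ₘ y, x.2)) fun x hx x' hx' h => by
      have h' := Prod.mk.inj h
      refine Prod.ext ?_ h'.2
      rw [(hm x hx).1, (hm x' hx').1, h'.1]]
    refine card_le_hom _ fun z hz z' hz' => ?_
    obtain ⟨x, hx, rfl⟩ := mem_image.1 hz
    obtain ⟨x', hx', rfl⟩ := mem_image.1 hz'
    obtain ⟨a1, a2, a3, a4⟩ := hm x hx
    obtain ⟨b1, b2, b3, b4⟩ := hm x' hx'
    refine ⟨?_, add_mem_Pl a3 b3, ?_⟩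
    · obtain ⟨c1, c2⟩ := mem_Mn.1 a2
      obtain ⟨d1, d2⟩ := mem_Mn.1 b2
      simp only
      rw [mem_Pl, ← CharTwo.sub_eq_add, ← c2, ← degree_eq_natDegree c1.ne_zero]
      refine degree_sub_lt_left ?_ c1.ne_zero (by rw [c1.leadingCoeff, d1.leadingCoeff])
      rw [degree_eq_natDegree c1.ne_zero, degree_eq_natDegree d1.ne_zero, c2, d2]
    · have : y * (x.1 /ₘ y + x'.1 /ₘ y) + Δ * (x.2 + x'.2)
          = (x.1 + Δ * x.2) + (x'.1 + Δ * x'.2) := by
        linear_combination -a1 - b1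
      simp only
      rw [this]
      exact dvd_add a4 b4
  refine (Nat.mul_le_mul_left _ h1).trans (hd.trans_le (Nat.mul_le_mul_left _ ?_))
  rw [← card_singleton (0 : K[X])]
  refine (card_le_card fun c hc => ?_).trans (card_union_le _ _)
  obtain ⟨c1, c2⟩ := mem_filter.1 hc
  by_cases h0 : c = 0
  · exact mem_union_left _ (mem_singleton.2 h0)
  · exact mem_union_right _ (mem_filter.2 ⟨c1, h0, c2⟩)

/-- the correlation sum -/
private theorem var_corr {j k P l : ℕ} {Δ : K[X]} (hΔ : Δ ≠ 0) (hj : Δ.natDegree < j) :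
    ∑ z ∈ Pl K l, ∑ Y ∈ Mn K (k * j + P), (rr j k Y : ℝ) * rr j k (Y + Δ * z)
      ≤ sig K j k ^ 2 * (Fintype.card K : ℝ) ^ (k * j + P) * (Fintype.card K : ℝ) ^ l
        + 2 ^ k * (Fintype.card K : ℝ) ^ (k * j + P + (k * j - P)) := by
  set 𝒯 := (Irr K j).powersetCard k with h𝒯
  set q := Fintype.card K with hq
  have hq0 : (0 : ℝ) < q := by exact_mod_cast Fintype.card_pos
  set cnt : Finset K[X] → Finset K[X] → ℕ := fun T T' =>
    ((Mn K (k * j + P) ×ˢ Pl K l).filter fun x =>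
      (∏ π ∈ T, π) ∣ x.1 ∧ (∏ π ∈ T', π) ∣ x.1 + Δ * x.2).card with hcnt
  set dl : Finset K[X] → Finset K[X] → ℕ := fun T T' =>
    ((Pl K (k * j)).filter fun c => c ≠ 0 ∧
        (c * ∏ π ∈ T, π) %ₘ (∏ π ∈ T', π) ∈ Pl K (k * j - P) ∧
        (c * Δ) %ₘ (∏ π ∈ T', π) ∈ Pl K (k * j - l)).card with hdl
  have e1 : ∑ z ∈ Pl K l, ∑ Y ∈ Mn K (k * j + P), (rr j k Y : ℝ) * rr j k (Y + Δ * z)
      = ((∑ T' ∈ 𝒯, ∑ T ∈ 𝒯, cnt T T' : ℕ) : ℝ) := by
    rw [sum_comm, ← sum_product' (f := fun Y z => (rr j k Y : ℝ) * rr j k (Y + Δ * z))]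
    simp only [var_rr, sum_mul_sum, hcnt, card_filter]
    push_cast
    rw [sum_comm, sum_comm (s := 𝒯) (t := 𝒯)]
    refine sum_congr rfl fun T _ => ?_
    rw [sum_comm]
    refine sum_congr rfl fun T' _ => sum_congr rfl fun x _ => ?_
    rw [ite_zero_mul_ite_zero, mul_one]
  have hN : 𝒯.card ≤ q ^ (k * j) := by
    rw [← card_Mn]
    refine card_le_card_of_injOn (fun T => ∏ π ∈ T, π) (fun T hT => ?_) fun T hT U hU h =>
      var_inj (mem_powersetCard.1 hT).1 (mem_powersetCard.1 hU).1 h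
    obtain ⟨t1, t2⟩ := mem_powersetCard.1 hT
    exact mem_Mn.2 ⟨var_monic t1, by rw [var_deg t1, t2]⟩
  have b1 : q ^ (k * j) * ∑ T' ∈ 𝒯, ∑ T ∈ 𝒯, cnt T T'
      ≤ q ^ (P + l) * (𝒯.card * 𝒯.card + ∑ T' ∈ 𝒯, ∑ T ∈ 𝒯, dl T T') := by
    have : 𝒯.card * 𝒯.card + ∑ T' ∈ 𝒯, ∑ T ∈ 𝒯, dl T T' = ∑ T' ∈ 𝒯, ∑ T ∈ 𝒯, (1 + dl T T') := by
      simp only [sum_add_distrib, sum_const, smul_eq_mul, mul_one]
    rw [this]
    simp only [mul_sum]
    refine sum_le_sum fun T' hT' => sum_le_sum fun T hT => ?_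
    obtain ⟨t1, t2⟩ := mem_powersetCard.1 hT
    obtain ⟨u1, u2⟩ := mem_powersetCard.1 hT'
    exact var_pair (var_monic t1) (var_monic u1) (by rw [var_deg t1, t2]) (by rw [var_deg u1, u2])
  have b2 : q ^ l * ∑ T' ∈ 𝒯, ∑ T ∈ 𝒯, dl T T'
      ≤ q ^ (k * j) * (2 ^ k * (q ^ (k * j) * q ^ (k * j - P))) := by
    rw [mul_sum]
    exact (sum_le_card_nsmul _ _ _ fun T' hT' => var_dual hΔ hj hT').trans
      (Nat.mul_le_mul_right _ hN)
  have hs : (𝒯.card : ℝ) = sig K j k * (q : ℝ) ^ (k * j) := by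
    have := var_sig (K := K) j k (k * j) le_rfl
    rwa [Nat.sub_self, pow_zero, mul_one] at this
  rw [e1]
  generalize ∑ T' ∈ 𝒯, ∑ T ∈ 𝒯, cnt T T' = S at b1 ⊢
  generalize ∑ T' ∈ 𝒯, ∑ T ∈ 𝒯, dl T T' = D at b1 b2
  have b1' : (q : ℝ) ^ (k * j) * S ≤ (q : ℝ) ^ (P + l) * (𝒯.card * 𝒯.card + D) := by
    exact_mod_cast b1
  have b2' : (q : ℝ) ^ l * D
      ≤ (q : ℝ) ^ (k * j) * (2 ^ k * ((q : ℝ) ^ (k * j) * (q : ℝ) ^ (k * j - P))) := by
    exact_mod_cast b2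
  rw [hs, pow_add] at b1'
  refine le_of_mul_le_mul_left (b1'.trans ?_) (pow_pos hq0 (k * j))
  have b3 := mul_le_mul_of_nonneg_left b2' (pow_pos hq0 P).le
  simp only [pow_add]
  linarith

theorem var {j k κ l : ℕ} {Δ : K[X]} (hΔ : Δ ≠ 0) (hj : Δ.natDegree < j) (hk : k * j ≤ κ)
    (hl : Δ.natDegree + l ≤ κ) :
    (∑ Y ∈ Mn K κ, ((∑ z ∈ Pl K l, (rr j k (Y + Δ * z) : ℝ)) / (Fintype.card K : ℝ) ^ l -
        sig K j k) ^ 2) * (Fintype.card K : ℝ) ^ l ≤
      2 ^ k * (Fintype.card K : ℝ) ^ (κ + (2 * (k * j) - κ)) := by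
  obtain ⟨P, rfl⟩ := Nat.exists_eq_add_of_le hk
  have hc := var_corr (k := k) (P := P) (l := l) hΔ hj
  rw [show 2 * (k * j) - (k * j + P) = k * j - P by omega]
  set κ := k * j + P with hκ
  set q : ℝ := (Fintype.card K : ℝ) with hq
  have hq0 : (0 : ℝ) < q := by rw [hq]; exact_mod_cast Fintype.card_pos
  have hmem : ∀ z ∈ Pl K l, Δ * z ∈ Pl K κ := fun z hz => Pl_mono hl (mul_mem_Pl le_rfl hz)
  have e1 : ∑ Y ∈ Mn K κ, ∑ z ∈ Pl K l, (rr j k (Y + Δ * z) : ℝ)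
      = q ^ l * (sig K j k * q ^ κ) := by
    rw [sum_comm, sum_congr rfl fun z hz =>
      (sum_Mn_shift (hmem z hz) fun Y => (rr j k Y : ℝ)).trans (sum_rr (by omega) hk),
      sum_const, card_Pl, nsmul_eq_mul]
    push_cast
    rfl
  have e2 : ∑ Y ∈ Mn K κ, (∑ z ∈ Pl K l, (rr j k (Y + Δ * z) : ℝ)) ^ 2
      = q ^ l * ∑ z ∈ Pl K l, ∑ Y ∈ Mn K κ, (rr j k Y : ℝ) * rr j k (Y + Δ * z) := by
    simp only [sq, sum_mul_sum]
    rw [sum_comm]
    have : ∀ z ∈ Pl K l, ∑ Y ∈ Mn K κ, ∑ z' ∈ Pl K l,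
        (rr j k (Y + Δ * z) : ℝ) * rr j k (Y + Δ * z')
        = ∑ z ∈ Pl K l, ∑ Y ∈ Mn K κ, (rr j k Y : ℝ) * rr j k (Y + Δ * z) := fun z hz => by
      rw [sum_comm, ← sum_Pl_shift hz]
      refine sum_congr rfl fun z' _ => ?_
      rw [← sum_Mn_shift (hmem z hz) fun Y => (rr j k Y : ℝ) * rr j k (Y + Δ * z')]
      refine sum_congr rfl fun Y _ => ?_
      rw [show Y + Δ * (z' + z) = Y + Δ * z + Δ * z' by ring]
    rw [sum_congr rfl this, sum_const, card_Pl, nsmul_eq_mul]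
    push_cast
    rfl
  have e3 : ∀ Y : K[X], ((∑ z ∈ Pl K l, (rr j k (Y + Δ * z) : ℝ)) / q ^ l - sig K j k) ^ 2 * q ^ l
      = (∑ z ∈ Pl K l, (rr j k (Y + Δ * z) : ℝ)) ^ 2 / q ^ l
        - 2 * sig K j k * (∑ z ∈ Pl K l, (rr j k (Y + Δ * z) : ℝ)) + sig K j k ^ 2 * q ^ l :=
    fun Y => by
      field_simp
      ring
  rw [sum_mul]
  simp only [e3]
  rw [sum_add_distrib, sum_sub_distrib, ← sum_div, ← mul_sum, e1, e2, sum_const, card_Mn,
    nsmul_eq_mul, mul_div_cancel_left₀ _ (pow_pos hq0 l).ne']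
  push_cast
  rw [← hq]
  linarith

end Pool.Agent.P.MP_3bc45c_nt.SI
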